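import Pool.Agent.Lib.MP_0c8bd9_co.Spec

/-!
# MP_0c8bd9_co : module EQ
-/

set_option autoImplicit false

namespace Pool.Agent.Lib.MP0c8bd9

open Sum

namespace EQM

variable {V : Type} (Γ : Drawing V)

theorem e33_of_not_ne {d : Γ.D} {v : V} (hv : Γ.org d = inl v) (h3 : Γ.T3 d) (hn : ¬ Γ.NE d) :
    Γ.E33 d := by
  unfold Drawing.NE at hn
  push Not at hn
  obtain ⟨h1, h2⟩ := hn ⟨v, hv⟩ h3
  refine ⟨⟨⟨v, hv⟩, ?_⟩, h3, h2⟩
  rcases hα : Γ.org (Γ.α d) with w | x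
  · exact ⟨w, rfl⟩
  · exact absurd (by rw [Γ.org_φ, hα]) (h1 x)

theorem not_ne_of_e33 {d : Γ.D} (h : Γ.E33 d) : ¬ Γ.NE d := by
  rintro ⟨-, -, ⟨x, hx⟩ | h2⟩
  · obtain ⟨⟨-, w, hw⟩, -⟩ := h
    rw [Γ.org_φ, hw] at hx
    exact absurd hx (by simp)
  · exact h2 h.2.2

theorem φ_ne {d : Γ.D} (h : Γ.Unc d) : Γ.φ d ≠ d := by
  obtain ⟨⟨v, hv⟩, w, hw⟩ := h
  intro he
  obtain ⟨w', hw1, hw2⟩ := Γ.exists_org_far hv
  rw [Γ.far_unc hw, ← Γ.org_φ, he, hv] at hw2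
  exact hw1 (inl.inj hw2).symm

/-- The vertex darts of a face. -/
def S (f : Γ.Face) : Set Γ.D := {d | Γ.fc d = f ∧ (Γ.org d).isLeft}

theorem fc_φ (d : Γ.D) : Γ.fc (Γ.φ d) = Γ.fc d := by
  rw [Γ.fc_eq]; exact (Γ.sameFace_φ d).symm

theorem two_cycle {D : Type} [Finite D] (σ : Equiv.Perm D) {d d' e : D} (h1 : σ d = d')
    (h2 : σ d' = d) (h : σ.SameCycle d e) : e = d ∨ e = d' := by
  obtain ⟨n, hn⟩ := h.exists_nat_pow_eq
  have key : ∀ n : ℕ, (σ ^ n) d = d ∨ (σ ^ n) d = d' := by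
    intro n
    induction n with
    | zero => left; simp
    | succ n ih =>
      rw [pow_succ', Equiv.Perm.mul_apply]
      rcases ih with h | h <;> rw [h]
      · right; exact h1
      · left; exact h2
  rw [← hn]
  exact key n

/-- Exactly one pivot in every face with three vertices. -/
theorem exists_pivot (hE : SpecEXN) (G : Good Γ)
    (hU : ∀ d e, Γ.NE d → Γ.NE e → Γ.φ.SameCycle d e → d = e) (f : Γ.Face) (hf : Γ.tn f = 3) :
    ∃ δ, (Γ.fc δ = f ∧ Γ.Piv δ) ∧ ∀ δ', Γ.fc δ' = f → Γ.Piv δ' → δ' = δ := by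
  have := Γ.finD
  obtain ⟨d0, h0, hNE⟩ := hE V Γ G f hf
  have hS : (S Γ f).ncard = 3 := hf
  have hd0 : d0 ∈ S Γ f := by
    refine ⟨h0, ?_⟩
    obtain ⟨⟨v, hv⟩, -⟩ := hNE
    rw [hv]; rfl
  have hA : (S Γ f \ {d0}).ncard = 2 := by
    rw [Set.ncard_sdiff_singleton_of_mem hd0, hS]
  obtain ⟨d1, d2, h12, hA2⟩ := Set.ncard_eq_two.1 hA
  have hT : ∀ d, Γ.fc d = f → Γ.T3 d := fun d hd => by rw [Drawing.T3, hd, hf]
  have hAE : ∀ d ∈ S Γ f \ {d0}, Γ.E33 d := by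
    intro d hd
    obtain ⟨v, hv⟩ := Sum.isLeft_iff.1 hd.1.2
    refine e33_of_not_ne Γ hv (hT d hd.1.1) fun hn => hd.2 ?_
    exact hU d d0 hn hNE (by rw [← Γ.fc_eq, hd.1.1, h0])
  have hmem : ∀ d, Γ.E33 d → Γ.fc d = f → d ∈ S Γ f \ {d0} := by
    intro d hd hdf
    refine ⟨⟨hdf, ?_⟩, ?_⟩
    · obtain ⟨⟨⟨v, hv⟩, -⟩, -⟩ := hd
      rw [hv]; rfl
    · intro he
      exact not_ne_of_e33 Γ hd (by rw [show d = d0 from he]; exact hNE)
  have m1 : d1 ∈ S Γ f \ {d0} := by rw [hA2]; left; rfl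
  have m2 : d2 ∈ S Γ f \ {d0} := by rw [hA2]; right; rfl
  have hnext : ∀ d ∈ S Γ f \ {d0}, Γ.φ d ∈ S Γ f := by
    intro d hd
    obtain ⟨⟨-, w, hw⟩, -⟩ := hAE d hd
    exact ⟨by rw [fc_φ, hd.1.1], by rw [Γ.org_φ, hw]; rfl⟩
  have hsplit : ∀ d ∈ S Γ f, d = d0 ∨ d = d1 ∨ d = d2 := by
    intro d hd
    by_cases h : d = d0
    · left; exact h
    · right
      have : d ∈ S Γ f \ {d0} := ⟨hd, h⟩
      rw [hA2] at this
      exact this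
  have hpiv : ∀ δ, Γ.fc δ = f → (Γ.Piv δ ↔ δ ∈ S Γ f \ {d0} ∧ Γ.φ.symm δ ∈ S Γ f \ {d0}) := by
    intro δ hδ
    have hsym : Γ.fc (Γ.φ.symm δ) = f := by
      rw [← fc_φ, Equiv.apply_symm_apply, hδ]
    constructor
    · rintro ⟨h1, h2⟩
      exact ⟨hmem _ h1 hδ, hmem _ h2 hsym⟩
    · rintro ⟨h1, h2⟩
      exact ⟨hAE _ h1, hAE _ h2⟩
  have n1 : Γ.φ d1 ≠ d1 := φ_ne Γ (hAE d1 m1).1
  have n2 : Γ.φ d2 ≠ d2 := φ_ne Γ (hAE d2 m2).1
  have hnot : ¬ (Γ.φ d1 = d2 ∧ Γ.φ d2 = d1) := by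
    rintro ⟨h1, h2⟩
    have hs : Γ.φ.SameCycle d1 d0 := by rw [← Γ.fc_eq, m1.1.1, h0]
    rcases two_cycle Γ.φ h1 h2 hs with h | h
    · exact m1.2 h.symm
    · exact m2.2 h.symm
  -- one of the two darts is followed by the other one
  have huniq : ∀ e1 e2, e1 ≠ e2 → S Γ f \ {d0} = {e1, e2} → Γ.φ e1 = e2 →
      ∃ δ, (Γ.fc δ = f ∧ Γ.Piv δ) ∧ ∀ δ', Γ.fc δ' = f → Γ.Piv δ' → δ' = δ := by
    intro e1 e2 hne hA3 he
    have k1 : e1 ∈ S Γ f \ {d0} := by rw [hA3]; left; rfl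
    have k2 : e2 ∈ S Γ f \ {d0} := by rw [hA3]; right; rfl
    refine ⟨e2, ⟨k2.1.1, (hpiv e2 k2.1.1).2 ⟨k2, ?_⟩⟩, ?_⟩
    · rw [← he, Equiv.symm_apply_apply]; exact k1
    · intro δ' h1 h2
      obtain ⟨h3, h4⟩ := (hpiv δ' h1).1 h2
      rw [hA3] at h3 h4
      rcases h3 with h3 | h3
      · exfalso
        have h5 : Γ.φ (Γ.φ.symm δ') = δ' := Equiv.apply_symm_apply _ _
        rcases h4 with h4 | h4
        · rw [h4, h3, he] at h5
          exact hne h5.symm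
        · rw [show Γ.φ.symm δ' = e2 from h4, show δ' = e1 from h3] at h5
          have hs : Γ.φ.SameCycle e1 d0 := by rw [← Γ.fc_eq, k1.1.1, h0]
          rcases two_cycle Γ.φ he h5 hs with h | h
          · exact k1.2 h.symm
          · exact k2.2 h.symm
      · exact h3
  rcases hsplit _ (hnext d1 m1) with h1 | h1 | h1
  · rcases hsplit _ (hnext d2 m2) with h2 | h2 | h2
    · exact absurd (Γ.φ.injective (h1.trans h2.symm)) h12
    · exact huniq d2 d1 h12.symm (by rw [hA2, Set.pair_comm]) h2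
    · exact absurd h2 n2
  · exact absurd h1 n1
  · exact huniq d1 d2 h12 hA2 h1

end EQM

open EQM in
theorem specEQ (hCNT : SpecCNT) (hINJ : SpecINJ) (hEXN : SpecEXN) (hPIV : SpecPIV)
    (hDEG : SpecDEG) (hMIN : SpecMIN) : SpecEQ := by
  classical
  intro V Γ G h6 hn
  have := G.fin
  have := Γ.finD
  have hF3 : Γ.Fn 3 = 4 * Γ.cr := by
    have := (hCNT V Γ G).1
    omega
  -- every face has at most one `NE` dart
  have hU : ∀ d e, Γ.NE d → Γ.NE e → Γ.φ.SameCycle d e → d = e := by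
    let F : {d // Γ.NE d} → {f : Γ.Face // Γ.tn f = 3} := fun d => ⟨Γ.fc d.1, d.2.2.1⟩
    have hsurj : Function.Surjective F := by
      rintro ⟨f, hf⟩
      obtain ⟨d, hd, hNE⟩ := hEXN V Γ G f hf
      exact ⟨⟨d, hNE⟩, Subtype.ext hd⟩
    have hbij := hsurj.bijective_of_nat_card_le (by
      refine (hINJ V Γ G).trans ?_
      rw [← hF3]; exact le_refl _)
    intro d e hd he hde
    have := @hbij.1 ⟨d, hd⟩ ⟨e, he⟩ (Subtype.ext ((Γ.fc_eq).2 hde))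
    exact congrArg Subtype.val this
  have hP : Nat.card {δ // Γ.Piv δ} = 4 * Γ.cr := by
    rw [← hF3]
    let F : {d // Γ.Piv d} → {f : Γ.Face // Γ.tn f = 3} := fun d => ⟨Γ.fc d.1, d.2.1.2.1⟩
    have hbij : Function.Bijective F := by
      constructor
      · rintro ⟨d, hd⟩ ⟨e, he⟩ hde
        have hde' : Γ.fc d = Γ.fc e := congrArg Subtype.val hde
        obtain ⟨δ, -, h⟩ := exists_pivot Γ hEXN G hU (Γ.fc e) he.1.2.1
        exact Subtype.ext ((h d hde' hd).trans (h e rfl he).symm)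
      · rintro ⟨f, hf⟩
        obtain ⟨δ, h, -⟩ := exists_pivot Γ hEXN G hU f hf
        exact ⟨⟨δ, h.2⟩, Subtype.ext h.1⟩
    exact Nat.card_congr (Equiv.ofBijective F hbij)
  have hσ : ∀ δ, Γ.Piv δ → Γ.Piv (Γ.σ δ) := hPIV V Γ G hU
  have hσk : ∀ δ, Γ.Piv δ → ∀ k : ℕ, Γ.Piv ((Γ.σ ^ k) δ) := by
    intro δ hδ k
    induction k with
    | zero => simpa using hδ
    | succ k ih =>
      rw [pow_succ', Equiv.Perm.mul_apply]
      exact hσ _ ih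
  have h3 : ∀ δ, Γ.Piv δ → Γ.σ (Γ.σ (Γ.σ δ)) = δ := fun δ hδ => hDEG V Γ G h6 δ (hσk δ hδ)
  have hfin : Fintype {δ // Γ.Piv δ} := Fintype.ofFinite _
  let g : Function.End {δ // Γ.Piv δ} := fun δ => ⟨Γ.σ δ.1, hσ δ.1 δ.2⟩
  have hg : g ^ 3 ^ 1 = 1 := by
    funext δ
    apply Subtype.ext
    exact h3 δ.1 δ.2
  have := Fact.mk Nat.prime_three
  have hmod := Equiv.Perm.card_fixedPoints_modEq hg
  have h0 : IsEmpty (Function.fixedPoints g) := by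
    constructor
    rintro ⟨⟨δ, hδ⟩, hfix⟩
    obtain ⟨⟨⟨v, hv⟩, -⟩, -⟩ := hδ.1
    exact (hMIN V Γ G.k3 δ v hv).1 (congrArg Subtype.val hfix)
  rw [Fintype.card_eq_zero (α := Function.fixedPoints g)] at hmod
  have hdvd : 3 ∣ Fintype.card {δ // Γ.Piv δ} := (Nat.modEq_zero_iff_dvd).1 hmod
  rw [← Nat.card_eq_fintype_card, hP] at hdvd
  omega

end Pool.Agent.Lib.MP0c8bd9
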