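import Pool.Agent.Lib.MP_0c8bd9_co.Basic

/-!
# MP_0c8bd9_co : specifications, lower bounds

Text with all proofs: `/team-store/MP_0c8bd9_co_PROOF.md`. Read `Defs.lean` and `Basic.lean` first (100 + 200
lines, all the API of drawings). Conventions: `φ d = σ (α d)`; the face of a dart `d` is its `φ`-cycle; it contains the
corner before `d` (between `σ⁻¹ d` and `d`); the two sides of the edge of `β` are the faces of `β` and of `α β`; at
`org β` these faces contain the darts `β` and `σ β = φ (α β)`, at `org (α β)` they contain `σ (α β) = φ β` and `α β`.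

Each module: file `Lib/MP_0c8bd9_co/<Name>.lean`, theorem `specName (hyps) : SpecName`, own lemmas in the
namespace `Pool.Agent.Lib.MP0c8bd9.<Name>M`.
-/

set_option autoImplicit false

namespace Pool.Agent.Lib.MP0c8bd9

open Sum

/-- [CUT, 60 lines] 3-connectivity, as it is used everywhere (`u = v` is allowed). Proof: delete
`S = {u, v}` (`ncard ≤ 2`); induction along a walk in `G.induce Sᶜ`. -/
def SpecCUT : Prop := ∀ (V : Type) [Finite V] (G : SimpleGraph V), KConn G 3 →
  ∀ (u v : V) (f : V → ZMod 2),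
    (∀ p q, G.Adj p q → p ≠ u → p ≠ v → q ≠ u → q ≠ v → f p = f q) →
    ∀ p q, p ≠ u → p ≠ v → q ≠ u → q ≠ v → f p = f q

/-- [MIN, 80 lines] Every vertex has degree at least three: three different darts `d, σ d, σ² d`. Proof: otherwise
the `σ`-cycle of `d` is `{d, σ d}` (`σ² d = d`), so `v` has at most two neighbours; delete them: `v` is isolated,
but there are other vertices (`Nat.card V > 3`). Hypothesis: CUT or directly `KConn`. -/
def SpecMIN : Prop := ∀ (V : Type) [Finite V] (Γ : Drawing V), KConn Γ.graph 3 →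
  ∀ (d : Γ.D) (v : V), Γ.org d = inl v → Γ.σ d ≠ d ∧ Γ.σ (Γ.σ d) ≠ d

/-- [JOR, 250 lines] The Jordan curve theorem mod 2 for spherical maps. `k` marks corners (`k d = 1`: a closed curve
passes through the corner between `d` and `σ d`); it is even at every point and on every face; then there is a side
function `s`. Proof by dimensions over `ZMod 2`: `W = {s | s ∘ α = s}` has dimension `|D| / 2 = E`; `δ s = s ∘ σ + s` on
`W` has kernel the constants (`conn`), so its range has dimension `E - 1`; it is contained in the space `Z` of all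
admissible `k`. `Z` is the kernel of `C : (D → ZMod 2) → (points ⊕ faces → ZMod 2)` (orbit sums); the transpose
`(P, R) ↦ (d ↦ P (σ-cycle of d) + R (φ-cycle of σ d))` has a kernel of dimension 1 (`P d = R (σ d)` implies `P = R` as
functions of darts and both are invariant under `σ` and `α`), so `rank C = #points + #faces - 1 = E + 1` (`euler`;
the number of `σ`-cycles is `Nat.card (V ⊕ X)` by `orbit` and `onto`) and `dim Z = 2E - (E + 1) = E - 1`.
(`Matrix.rank_transpose` or `LinearMap.finrank_range_dualMap_eq_finrank_range`; see also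
`Lib/MP_1e9f59_co/Euler.lean` for the same kind of count.) -/
def SpecJOR : Prop := ∀ (V : Type) [Finite V] (Γ : Drawing V) (k : Γ.D → ZMod 2),
  (∀ d, ∑ᶠ e ∈ {e | Γ.σ.SameCycle d e}, k e = 0) →
  (∀ d, ∑ᶠ e ∈ {e | Γ.φ.SameCycle d e}, k (Γ.σ.symm e) = 0) →
  ∃ s : Γ.D → ZMod 2, (∀ d, s (Γ.α d) = s d) ∧ ∀ d, s (Γ.σ d) = s d + k d

/-- [JORC, 80 lines; from JOR] Closed curve through the points with corners `a i`, `b i` (`i : Fin r`): from the
corner `b i` to the corner `a (i+1)` it runs inside one face. (`ind a d = 1` iff `d = a`, `Basic.lean`.) -/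
def SpecJORC : Prop := ∀ (V : Type) [Finite V] (Γ : Drawing V) (r : ℕ) [NeZero r] (a b : Fin r → Γ.D),
  (∀ i, Γ.σ.SameCycle (a i) (b i)) →
  (∀ i, Γ.φ.SameCycle (Γ.σ (b i)) (Γ.σ (a (i + 1)))) →
  ∃ s : Γ.D → ZMod 2, (∀ d, s (Γ.α d) = s d) ∧
    ∀ d, s (Γ.σ d) = s d + ∑ i, (ind (a i) d + ind (b i) d)

/-- [DIST, 200 lines; from JORC, CUT, MIN] Two different darts of a face have different origins. Proof: otherwise
`a = σ⁻¹ d`, `b = σ⁻¹ e`, `r = 1` in JORC. (1) `org d = inl v`: `s` is constant at every other point; so the function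
`w ↦ s (a dart at w)` respects all edges not incident with `v` (a crossed edge: all four darts of the crossing have the
same `s`); CUT with `u = v`: constant on `V - {v}`; but `s d ≠ s (σ⁻¹ d)`, both darts at `v`, with other ends `≠ v`.
(2) crossing, `e = σ d` or `d = σ e` (say the dart `d`, between the corners `σ⁻¹ d` and `d`, is isolated: `s` takes one value
at `d` and the other one at the three others): let `w = org (α d)`; all edges but the one of `α d` respect `s`; CUT with
`u = v = w`; all vertices `≠ w` have the other value; but `w` has another dart (MIN), whose edge respects `s`.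
(3) `e = σ² d`: the ends `p₀ p₁ | p₂ p₃` are separated, exactly the two crossing edges do not respect `s`; CUT with
`u = p₀`, `v = p₁` on different sides such that both crossing edges are covered. -/
def SpecDIST : Prop := ∀ (V : Type) [Finite V] (Γ : Drawing V), KConn Γ.graph 3 →
  ∀ d e, Γ.φ.SameCycle d e → Γ.org d = Γ.org e → d = e

/-- [L1, 250 lines; from JORC, CUT] Two different faces which both contain the vertices `u ≠ v` are the two sides
of an uncrossed edge `uv`. Proof: JORC with `r = 2`, corners `σ⁻¹ d₁, σ⁻¹ e₁` at `u` and `σ⁻¹ e₂, σ⁻¹ d₂` at `v`. `s` is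
constant at all points but `u, v`; by CUT it has the same value, say `z`, at all vertices `≠ u, v`. The darts at `u` with
`s ≠ z` form one of the two `σ`-intervals between the two corners: `{d₁, …, σ⁻¹ e₁}` or `{e₁, …, σ⁻¹ d₁}`. Such a dart `p` is
uncrossed (at a crossing all four darts would have `s ≠ z`, and two of the four ends are not in `{u, v}`), and goes to
`v`; by `far_inj` the interval has exactly one dart `p`. So `p = d₁, σ p = e₁` or `p = e₁, σ p = d₁`; the same at `v`
with the dart `α p` (also `s ≠ z`); the faces tell which of the two cases occurs at `v`. -/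
def SpecL1 : Prop := ∀ (V : Type) [Finite V] (Γ : Drawing V), KConn Γ.graph 3 →
  ∀ (u v : V) (d₁ d₂ e₁ e₂ : Γ.D), u ≠ v → Γ.org d₁ = inl u → Γ.org d₂ = inl v →
    Γ.org e₁ = inl u → Γ.org e₂ = inl v → Γ.φ.SameCycle d₁ d₂ → Γ.φ.SameCycle e₁ e₂ →
    ¬ Γ.φ.SameCycle d₁ e₁ →
    ∃ p, Γ.org p = inl u ∧ Γ.org (Γ.α p) = inl v ∧
      ((d₁ = p ∧ e₁ = Γ.σ p ∧ d₂ = Γ.σ (Γ.α p) ∧ e₂ = Γ.α p) ∨
        (d₁ = Γ.σ p ∧ e₁ = p ∧ d₂ = Γ.α p ∧ e₂ = Γ.σ (Γ.α p)))

/-- [UNC, 40 lines; from L1, DIST] A face which contains both ends of an uncrossed edge `β` is one of its sides.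
Proof: if the face of `p` is not the face of `β`, apply L1 to the faces of `p` and of `β`: `p, q` are the darts at the
sides of an uncrossed edge `p'` from `org β` to `org (α β)`, `p' = β` by `far_inj`. -/
def SpecUNC : Prop := ∀ (V : Type) [Finite V] (Γ : Drawing V), KConn Γ.graph 3 →
  ∀ (β p q : Γ.D), Γ.Unc β → Γ.org p = Γ.org β → Γ.org q = Γ.org (Γ.α β) → Γ.φ.SameCycle p q →
    (p = β ∧ q = Γ.σ (Γ.α β)) ∨ (p = Γ.σ β ∧ q = Γ.α β)

/-- [HUG, 350 lines; from JORC, DIST] The closed curve which consists of a chord of a face from `a` to `b` and of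
the edge `ab` (dart `d` at `a`, `far d` at `b`). `p`, `q`: darts at `a`, `b` in one face. Proof: JORC with the chord corners
`σ⁻¹ p`, `σ⁻¹ q` and the corners along one side of the edge: if `d` is uncrossed `d` at `a` and `σ⁻¹ (α d)` at `b`
(`r = 2`); if it is crossed, `e = α d`, `d' = far d = α σ² e`: `d` at `a`, then `σ⁻¹ e` and `σ² e` at the crossing, then
`σ⁻¹ d'` at `b` (`r = 3`; the faces: `σ d = φ e`; `σ⁻¹ d'` corner is in the face of `d'`, and `φ d' = σ³ e`). At the
crossing the dart `σ⁻¹ e = σ³ e` is isolated. For a vertex `x ≠ a, b` all darts have the same `s`; this is `s x`. (i) A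
crossing edge is the one through the darts `σ e, σ³ e`: `s` differs; all other edges (between vertices `≠ a, b`) respect `s`.
(ii), (iii): along a face `s (φ z) = s z + k (α z)`, where `k` is the sum of the indicators; so `s` changes in the face
of `p` at `p` and `q` only, up to the corners along the edge, which occur in pairs around one dart of `d`'s edge
(in the face of `α d`: at `φ (α d) = σ d` and at `α d`: only the dart `α d` is on the other side). -/
def SpecHUG : Prop := ∀ (V : Type) [Finite V] (Γ : Drawing V), KConn Γ.graph 3 →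
  ∀ (a b : V) (d p q : Γ.D), Γ.org d = inl a → Γ.org (Γ.far d) = inl b →
    Γ.org p = inl a → Γ.org q = inl b → Γ.φ.SameCycle p q →
    ∃ s : V → ZMod 2,
      (∀ e x y, Γ.org e = inl x → Γ.org (Γ.far e) = inl y → x ≠ a → x ≠ b → y ≠ a → y ≠ b →
        (s x = s y ↔ ¬ Γ.Cr d e)) ∧
      (∀ z w x y, Γ.org z = inl x → Γ.org w = inl y → x ≠ a → x ≠ b → y ≠ a → y ≠ b →
        Γ.φ.SameCycle z w → ¬ Γ.φ.SameCycle p z → s x = s y) ∧
      (∀ (l L i j : ℕ) (x y : V), (Γ.φ ^ l) p = q → (Γ.φ ^ L) p = p →
        (∀ k, 0 < k → k < L → (Γ.φ ^ k) p ≠ p) → 0 < i → i < l → l < j → j < L →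
        Γ.org ((Γ.φ ^ i) p) = inl x → Γ.org ((Γ.φ ^ j) p) = inl y → s x ≠ s y)

/-- [KIT, 350 lines; from JORC, DIST] `β` is an uncrossed dart `b → c`, its sides are `f ∋ β, σ (α β)` and
`g ∋ α β, σ β`; `p ∈ f` is a dart at `a`, `q ∈ g` a dart at `a'`; `ε` is a dart of an edge `a a'`. The closed curve: in `f`
from `a` across the edge of `β` into `g`, to `a'`, back along the edge of `ε`. Proof: JORC; instead of crossing `β` pass
through `b` with the corners `σ⁻¹ β` (in `f`) and `β` (in `g`): only the dart `β` at `b` is isolated. Corners: at `b`: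
`σ⁻¹ β, β`; at `a'`: `σ⁻¹ q` and the corner of the end of `ε`; (crossing corners as in HUG); at `a`: the corner of `ε`
and `σ⁻¹ p`. `s x` := value at the darts of `x` (for `x = b`: at the darts `≠ β`). `s` is constant on a face `≠ f, g`
except possibly at one dart of the edge of `ε`. -/
def SpecKIT : Prop := ∀ (V : Type) [Finite V] (Γ : Drawing V), KConn Γ.graph 3 →
  ∀ (a a' b c : V) (β p q ε : Γ.D), Γ.org β = inl b → Γ.org (Γ.α β) = inl c →
    Γ.org p = inl a → Γ.φ.SameCycle p β → Γ.org q = inl a' → Γ.φ.SameCycle q (Γ.α β) →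
    a ≠ b → a ≠ c → a' ≠ b → a' ≠ c → a ≠ a' →
    Γ.org ε = inl a → Γ.org (Γ.far ε) = inl a' →
    ∃ s : V → ZMod 2, s b ≠ s c ∧
      (∀ e x y, Γ.org e = inl x → Γ.org (Γ.far e) = inl y → x ≠ a → x ≠ a' → y ≠ a → y ≠ a' →
        e ≠ β → e ≠ Γ.α β → ¬ Γ.Cr ε e → s x = s y) ∧
      (∀ z w x y, Γ.org z = inl x → Γ.org w = inl y → x ≠ a → x ≠ a' → y ≠ a → y ≠ a' →
        Γ.φ.SameCycle z w → ¬ Γ.φ.SameCycle z β → ¬ Γ.φ.SameCycle z (Γ.α β) → s x = s y)

/-- [T4O, 300 lines; from HUG, L1, UNC, DIST, MIN, CUT] A face has no four vertices `a, b, c, d` in this cyclic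
order. Proof: `Maximal.inside`: pairwise adjacent. `ac` is crossed: otherwise UNC makes it a side of the face and
`b` or `d` could not lie between (DIST). HUG for `ac` with (iii): `s b ≠ s d`, so by (i) `bd` crosses `ac` at `z`. The four
darts `ζ_a, …` from `a, b, c, d` to `z`; the faces of the four angles at `z` (`A_ab` contains a dart at `a` and one at
`b`, …) are pairwise different (DIST), so at most one of them is the face `f`. For `A_xy ≠ f` L1 gives an uncrossed edge
`xy` between `f` and `A_xy`. If all four are `≠ f`: at `b` the `σ`-cycle is exactly (edge to `a`, `ζ_b`, edge to `c`) (in one of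
the two orders), because `f` has only one dart at `b` (DIST) and `ζ_b` is between the angles `A_ab`, `A_bc`; so all
neighbours of `a, b, c, d` are in `{a, b, c, d}`: CUT (indicator function of `{a,b,c}`, deleting `d`) contradicts
`5 ≤ Nat.card V`. If `f = A_ab`: at `a` the `σ`-cycle is (`ζ_a`, edge to `d`): contradicts MIN. -/
def SpecT4O : Prop := ∀ (V : Type) (Γ : Drawing V), Good Γ →
  ∀ (p : Γ.D) (i j k L : ℕ), (Γ.φ ^ L) p = p → (∀ r, 0 < r → r < L → (Γ.φ ^ r) p ≠ p) →
    0 < i → i < j → j < k → k < L → (∃ v, Γ.org p = inl v) → (∃ v, Γ.org ((Γ.φ ^ i) p) = inl v) →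
    (∃ v, Γ.org ((Γ.φ ^ j) p) = inl v) → (∃ v, Γ.org ((Γ.φ ^ k) p) = inl v) → False

/-- [T4, 60 lines; from T4O] No four different darts at vertices in one face (sort the exponents). -/
def SpecT4 : Prop := ∀ (V : Type) (Γ : Drawing V), Good Γ → ∀ d : Fin 4 → Γ.D,
  Function.Injective d → (∀ i, Γ.φ.SameCycle (d 0) (d i)) → (∀ i, ∃ v, Γ.org (d i) = inl v) → False

/-- [SIZ, 200 lines; from T4, DIST, MIN] Sizes of the faces. Proof: `φ d ≠ d` (`loopless`/`once`); `φ² d ≠ d`
(`simple` and MIN if both points are vertices, `cross` if one is a crossing); no two consecutive crossings (`once`: if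
`org d` is a crossing, `org (φ d) = org (α d)` is a vertex); so at least two vertices; four vertices are excluded by
T4; the crossings inject into the vertices of the face by `φ`; if there are only two
vertices there is a crossing, since the cycle has length at least three. -/
def SpecSIZ : Prop := ∀ (V : Type) (Γ : Drawing V), Good Γ → ∀ f : Γ.Face,
  (Γ.tn f = 2 ∨ Γ.tn f = 3) ∧ Γ.sn f ≤ Γ.tn f ∧ (Γ.tn f = 2 → 1 ≤ Γ.sn f)

/-- [CNT, 200 lines; from SIZ] Counting. `∑ tn f` = number of darts at vertices `= 2 size` (darts at vertices modulo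
`far`, `far_inj`), `∑ sn f = 4 cr` (`deg4`), `Nat.card D = 2 size + 4 cr`, `Nat.card Face = Fn 2 + Fn 3`,
`2 Fn 2 + 3 Fn 3 = 2 size`, and `euler`. -/
def SpecCNT : Prop := ∀ (V : Type) (Γ : Drawing V), Good Γ →
  Γ.Fn 3 + 2 * Γ.cr + 4 = 2 * Nat.card V ∧ Γ.size + 3 * Γ.cr + 6 = Γ.Fn 2 + 3 * Nat.card V

/-- [OPN, 80 lines; from UNC, DIST] `p` is a dart at a crossing, its face is not a triangle. Then the vertices
`a = org (φ⁻¹ p)` and `b = org (φ p)` are joined by a crossed edge. Proof: `once` (twice) for the vertices; `cross` (the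
darts `p` and `σ⁻¹ p = α (φ⁻¹ p)` at the crossing) gives `a ≠ b`; `inside`: adjacent; if the edge were uncrossed, UNC for
the face of `p` makes `φ⁻¹ p` or `φ p` a dart of it; `q = φ⁻¹ p` is not (it goes to the crossing), so `φ p` goes to `a` and
`φ (φ p)` is at `a`, so it is `q` (DIST). -/
def SpecOPN : Prop := ∀ (V : Type) [Finite V] (Γ : Drawing V), Γ.Maximal → KConn Γ.graph 3 →
  ∀ (p : Γ.D) (x : Γ.X), Γ.org p = inr x → Γ.φ (Γ.φ p) ≠ Γ.φ.symm p →
    ∃ d a b y, a ≠ b ∧ Γ.org (Γ.φ.symm p) = inl a ∧ Γ.org (Γ.φ p) = inl b ∧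
      Γ.org d = inl a ∧ Γ.org (Γ.far d) = inl b ∧ Γ.org (Γ.α d) = inr y

/-- [XB, 100 lines; from HUG, T4] The two
edges `ab`, `uw` cross. There are not both a face containing `a, b` and a face containing `u, w`. Proof: HUG for `ab`
and the first face: by (i) `s u ≠ s w`; if the second face is different, (ii) gives `s u = s w`; if it is the same face, it has
four vertices. -/
def SpecXB : Prop := ∀ (V : Type) (Γ : Drawing V), Good Γ →
  ∀ (d e z₁ z₂ z₃ z₄ : Γ.D), Γ.Cr d e → (∃ a, Γ.org d = inl a) → (∃ u, Γ.org e = inl u) →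
    Γ.org z₁ = Γ.org d → Γ.org z₂ = Γ.org (Γ.far d) → Γ.φ.SameCycle z₁ z₂ →
    Γ.org z₃ = Γ.org e → Γ.org z₄ = Γ.org (Γ.far e) → Γ.φ.SameCycle z₃ z₄ → False

/-- [LOW2, 300 lines; from SIZ, OPN, XB, L1, DIST] At least `3 cr` faces have exactly two vertices. Proof: call a
dart `p` at a crossing open if its face is not a triangle with two vertices (`φ² p ≠ φ⁻¹ p`, OPN). Let `Ψ p` be the crossing
on the edge `ab` of OPN. All open `p` with `Ψ p = y` belong to the same pair of opposite ends of `y` (XB), so by L1 (the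
edge is crossed) to the same face, so (DIST) there are at most two of them and, if there are two, the face is
`a, p, b, p'` with `tn = 2`. So with the weight `2` for open darts in faces with `tn = 3` and `1` for open darts in faces with
`tn = 2` every crossing gets at most `2`. Let `A` be the number of non-open darts at crossings (= number of faces with
`tn = 2, sn = 1`), `B` = number of faces with `tn = sn = 2`, `o` = number of darts at crossings in faces with `tn = 3`:
`4 cr = A + 2 B + o`, `2 o + 2 B ≤ 2 cr`, so `Fn 2 = A + B = 4 cr - B - o ≥ 3 cr`. -/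
def SpecLOW2 : Prop := ∀ (V : Type) (Γ : Drawing V), Good Γ → 3 * Γ.cr ≤ Γ.Fn 2

/-- [THI, 80 lines; from L1, DIST, MIN] The third vertices of the two sides of an uncrossed edge `β : b → c` are
different. Proof: the sides are different faces (DIST, MIN at `b`: `β ≠ σ β`); if `a = a'` lies in both, L1 for `b, a` gives an
uncrossed dart `p' : b → a` with `{p', σ p'} = {β, σ β}` (DIST identifies the darts of the two faces at `b`), `p' ≠ β`, so
`σ² β = β`, contradicting MIN. -/
def SpecTHI : Prop := ∀ (V : Type) [Finite V] (Γ : Drawing V), KConn Γ.graph 3 →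
  ∀ (a a' b c : V) (β p q : Γ.D), Γ.org β = inl b → Γ.org (Γ.α β) = inl c →
    Γ.org p = inl a → Γ.φ.SameCycle p β → Γ.org q = inl a' → Γ.φ.SameCycle q (Γ.α β) →
    a ≠ b → a ≠ c → a' ≠ b → a' ≠ c → a ≠ a'

/-- [CLF, 300 lines; from KIT, L1, THI, DIST, MIN, CUT] No triangular face with three uncrossed edges has three
neighbours with three vertices. Proof: `f = (a, b, c)`; across `bc, ca, ab` the third vertices `a', b', c'` (a face with `tn = 3`
which contains the dart `α β` has exactly one vertex besides the ends of `β`). `across`/`inside` and THI: `a ~ a'`, `b ~ b'`,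
`c ~ c'`. (1) `a', b', c'` pairwise different: KIT for `β : b → c` and the edge `aa'`: `s b ≠ s c`; the face across `ab` contains
`b, c'` (it is not a side of `bc`, else it contains four vertices or DIST), so `s c' = s b`; the face across `ca` contains
`c, b'`: `s b' = s c`. So the edges `cc'` and `bb'` both cross `aa'`: they are the same edge, `{c, c'} = {b, b'}`,
impossible. (2) two of them equal, e.g. `c' = a'` (by symmetry the others): L1 for the vertices `b, a'` and the two faces:
the edge `b a'` is uncrossed and the `σ`-cycle at `b` is `(a, c, a')`: degree 3. `b ~ b'`, `b' ≠ a, c`, so `b' = a'`. So all of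
`a, b, c` have degree 3 with neighbours in `{a, b, c, a'}`: CUT contradicts `5 ≤ Nat.card V`. -/
def SpecCLF : Prop := ∀ (V : Type) (Γ : Drawing V), Good Γ →
  ∀ β, Γ.φ (Γ.φ (Γ.φ β)) = β → Γ.Unc β → Γ.Unc (Γ.φ β) → Γ.Unc (Γ.φ (Γ.φ β)) →
    Γ.T3 (Γ.α β) → Γ.T3 (Γ.α (Γ.φ β)) → Γ.T3 (Γ.α (Γ.φ (Γ.φ β))) → False

/-- `d` is a dart at a vertex, in a face with three vertices, and the side of this face after `d` is not an
uncrossed edge with a face with three vertices on the other side. -/
def Drawing.NE {V : Type} (Γ : Drawing V) (d : Γ.D) : Prop :=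
  (∃ v, Γ.org d = inl v) ∧ Γ.T3 d ∧ ((∃ x, Γ.org (Γ.φ d) = inr x) ∨ ¬ Γ.T3 (Γ.α d))

/-- [INJ, 150 lines; from SIZ, DIST] The map from the darts `d` with `NE d` to the darts at crossings: `φ d` if it is a
dart at a crossing, else `φ (φ (α d))` (the face of `α d` has two vertices, so it is the triangle `α d, φ (α d), φ² (α d)`
with `φ² (α d)` at a crossing, because `SIZ` gives exactly one crossing, `sn = 1`: between `α d` and `φ (α d)` there is
none) is injective: in the second case the face has `tn = 2`, and its only dart followed by a vertex is `α d`. So the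
number of darts with `NE` is at most `4 cr`. -/
def SpecINJ : Prop := ∀ (V : Type) (Γ : Drawing V), Good Γ → Nat.card {d // Γ.NE d} ≤ 4 * Γ.cr

/-- [EXN, 100 lines; from SIZ, CLF] Every face with three vertices contains a dart with `NE`. Proof: otherwise all
three darts at vertices are followed by a vertex, so the face is a triangle of three uncrossed edges, CLF. -/
def SpecEXN : Prop := ∀ (V : Type) (Γ : Drawing V), Good Γ → ∀ f : Γ.Face, Γ.tn f = 3 →
  ∃ d, Γ.fc d = f ∧ Γ.NE d

/-- `f` is the face of `δ`, it has three vertices, and its sides before and after `δ` are uncrossed edges with a face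
with three vertices on the other side. -/
def Drawing.Piv {V : Type} (Γ : Drawing V) (δ : Γ.D) : Prop := Γ.E33 δ ∧ Γ.E33 (Γ.φ.symm δ)

/-- [PIV, 350 lines; from KIT, L1, THI, DIST] If every face has at most one dart with `NE`, pivots propagate around
their vertex. Proof: `v = org δ`, `w₁ = org (α δ)`. `f = (v, w₁, w₀)` is the face of `δ`, `g = (w₁, v, w₂)` the face of `α δ`, it
contains `σ δ` at `v`. Suppose not `Piv (σ δ)`: since `E33 (α δ)`, the side of `g` after `σ δ` (from `v` to `w₂`) is not E33, so the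
third side of `g` (`w₂ w₁`) is E33. `h` = face across `v w₀` (third vertex `w`), `k` = face across `w₁ w₂` (third vertex `u`).
`w₀ ~ w₂`, `w ~ w₁`, `v ~ u` (`across`, THI). KIT for `δ` and the edge `w₀ w₂`: `s v ≠ s w₁`. If `u = w₀`: `k` and `f` both
contain `w₀, w₁` (they are different faces: `w₂ ∉ f` by THI), by L1 the side `w₀ w₁` of `f` is E33: `f` has no dart with `NE`,
contradicting EXN (or CLF). If `w = w₂`: L1 makes `v w₂` an E33 side of `g`: contradiction. Otherwise `s u = s w₁` (face
`k`), `s w = s v` (face `h`), so the edges `vu` and `w w₁` both cross `w₀ w₂`: they are the same edge, impossible. -/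
def SpecPIV : Prop := ∀ (V : Type) (Γ : Drawing V), Good Γ →
  (∀ d e, Γ.NE d → Γ.NE e → Γ.φ.SameCycle d e → d = e) → ∀ δ, Γ.Piv δ → Γ.Piv (Γ.σ δ)

/-- [DEG, 350 lines; from KIT, L1, THI, DIST, MIN, CUT] If all corners of a vertex are pivots, its degree is three,
unless there are only five vertices. Proof: neighbours `w_i = org (α (σ^i δ))`, faces `f_i = (v, w_i, w_(i+1))`, `w_(i-1) ~ w_(i+1)`.
If the degree is `≥ 4`: KIT for the dart `v → w₁` and the edge `w₀ w₂`: `s v ≠ s w₁`; the edge `v w₃` is uncrossed, so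
`s w₃ = s v`, and `w₁ ~ w₃` crosses `w₀ w₂`; in the same way `w₁ w₋₁` crosses `w₀ w₂`, so `w₋₁ = w₃`: degree 4. `z` = the
crossing. For the angle `A` at `z` between `w_i, w_(i+1)` and `f_i`: equal, or L1: the edge `w_i w_(i+1)` is uncrossed between
them. The `σ`-cycle at `w_i`: the dart to `v` (between `f_(i-1)` and `f_i`), the dart to `z` (between the two angles), and at
most one uncrossed edge on each side; since `w_i ~ w_(i±1)` (`inside`) both are there. So all neighbours of
`v, w₀, …, w₃` are in this set and `Nat.card V = 5` (CUT). -/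
def SpecDEG : Prop := ∀ (V : Type) (Γ : Drawing V), Good Γ → 6 ≤ Nat.card V →
  ∀ δ, (∀ k : ℕ, Γ.Piv ((Γ.σ ^ k) δ)) → Γ.σ (Γ.σ (Γ.σ δ)) = δ

/-- [EQ, 250 lines; from CNT, INJ, EXN, PIV, DEG, SIZ, MIN] Equality. Proof: `Fn 3 = 4 cr` by CNT; by EXN and INJ the darts
with `NE` are at least `Fn 3` and at most `4 cr`, so every face has at most one. So every face with `tn = 3` has exactly
one; its three sides are: two E33 and one with `NE`, so it contains exactly one dart `δ` with `Piv δ` (the three darts at
vertices; two consecutive sides E33: the vertex between them). So `Fn 3` = number of pivots. By PIV the pivots are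
closed under `σ`; by DEG and MIN all their `σ`-cycles have exactly three elements. So `3 ∣ Fn 3 = 4 cr`. -/
def SpecEQ : Prop := ∀ (V : Type) (Γ : Drawing V), Good Γ → 6 ≤ Nat.card V →
  Nat.card V = 3 * Γ.cr + 2 → 3 ∣ Γ.cr

/-- [N5, 150 lines; from CNT, LOW2 or OPN, SIZ] Five vertices need two crossings. Proof: CNT, EXN and INJ give
`3 ≤ 3 cr`. If `cr = 1`, no dart at the crossing is open (OPN: the edge `ab` would be crossed at the only crossing, but its
ends `a, b` are consecutive ends there, `simple`), so `sn f ≤ 1`, `tn f = 2` for the four faces at the crossing,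
`Fn 2 = 4`, `size = 10`: the graph is complete, so it is 4-connected. -/
def SpecN5 : Prop := ∀ (V : Type) (Γ : Drawing V), Good Γ → Nat.card V = 5 → ¬ KConn Γ.graph 4 →
  2 ≤ Γ.cr

/-- [LOWQ2, 60 lines; from CNT, LOW2] Lower bound for Q2 (`n = 4` separately: `KConn G 3` on four vertices is complete). -/
def SpecLOWQ2 : Prop := ∀ (n : ℕ), 4 ≤ n → ∀ Γ : Drawing (Fin n), Γ.Maximal → Conn3 Γ.graph →
  3 * n - 6 ≤ Γ.size

/-- [LOWQ1, 80 lines; from CNT, INJ, EXN, EQ, N5] Lower bound for Q1. -/
def SpecLOWQ1 : Prop := ∀ (n : ℕ), 5 ≤ n → ∀ Γ : Drawing (Fin n), Γ.Maximal → Conn3 Γ.graph →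
  (if n % 9 = 5 ∨ n % 9 = 8 then n / 3 + 1 else n / 3) ≤ Γ.cr

end Pool.Agent.Lib.MP0c8bd9
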