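import Pool.Agent.Lib.MP_0c8bd9_co.TabDefs

/-!
# MP_0c8bd9_co : specifications, constructions
-/

set_option autoImplicit false

namespace Pool.Agent.Lib.MP0c8bd9

open Sum

/-! ## Connectivity -/

/-- [ADD, 100 lines] Adding vertices with three earlier neighbours keeps 3-connectivity. Proof: `S` with
`ncard < 3`; by strong induction on `j` every new vertex `inr j ∉ S` is joined outside `S` to an old vertex (one of the
three different `a i` is not in `S`); the old vertices outside `S` are connected in `G` minus the preimage of `S`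
(`ncard < 3`), there is one of them. -/
def SpecADD : Prop := ∀ (V : Type) [Finite V] (k : ℕ) (G : SimpleGraph V)
  (G' : SimpleGraph (V ⊕ Fin k)), KConn G 3 → (∀ u v, G.Adj u v → G'.Adj (inl u) (inl v)) →
  (∀ j : Fin k, ∃ a : Fin 3 → V ⊕ Fin k, Function.Injective a ∧
    ∀ i, G'.Adj (inr j) (a i) ∧ ∀ j', a i = inr j' → j' < j) → KConn G' 3

/-- [ELI, 120 lines; from ADD or directly] Elimination order starting with a complete graph on four vertices. -/
def SpecELI : Prop := ∀ (n : ℕ) (G : SimpleGraph (Fin n)), 4 ≤ n →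
  (∀ i j : Fin n, i.1 < 4 → j.1 < 4 → i ≠ j → G.Adj i j) →
  (∀ j : Fin n, 4 ≤ j.1 → ∃ a : Fin 3 → Fin n, Function.Injective a ∧ ∀ i, G.Adj j (a i) ∧ a i < j) →
  KConn G 3

/-- [D3, 50 lines] A vertex with at most three neighbours: not 4-connected (delete the neighbours). -/
def SpecD3 : Prop := ∀ (V : Type) [Finite V] (G : SimpleGraph V) (v : V),
  {w | G.Adj v w}.ncard ≤ 3 → 5 ≤ Nat.card V → ¬ KConn G 4

/-- [REL, 150 lines] Relabelling of the vertices (compose `org` with `Sum.map e id` for the equivalence `e`). -/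
def SpecREL : Prop := ∀ (V W : Type) (_ : V ≃ W) (Γ : Drawing V), ∃ Γ' : Drawing W,
  (Γ.Maximal → Γ'.Maximal) ∧ (KConn Γ.graph 3 → KConn Γ'.graph 3) ∧
  (¬ KConn Γ.graph 4 → ¬ KConn Γ'.graph 4) ∧ Γ'.cr = Γ.cr ∧ Γ'.size = Γ.size

/-- [SZD, 80 lines] Number of darts: `Nat.card D = 2 size + 4 cr` (darts at vertices: two for every edge, exchanged by
`far`; darts at crossings: four each). -/
def SpecSZD : Prop := ∀ (V : Type) [Finite V] (Γ : Drawing V),
  Nat.card Γ.D = 2 * Γ.size + 4 * Γ.cr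

/-! ## Tables -/

/-- [TAB, 400 lines; from ELI, D3, SZD] Tables give drawings. `D = Fin N`, `X = Fin c`, `σ` from `sg, si`, `α` from `al`.
`orbit`: `ps_ok`, `nd_sg`; faces `≃ Fin F` by `fc` (`fp_ok`, `fc_ph`, `fc_fr`); `conn`: a set closed under `σ`, `α` is closed under the
inverses (finite), and every dart descends to the one of rank `0` (`rk_ok`, `rk_zero`). -/
def SpecTAB : Prop := ∀ (n c N F : ℕ) (T : Tab n c N F), T.OkD → T.OkM → T.OkK →
  ∃ Γ : Drawing (Fin n), Γ.Maximal ∧ KConn Γ.graph 3 ∧ Γ.cr = c ∧ 2 * Γ.size + 4 * c = N ∧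
    (∀ d, T.OkS d → Nonempty (Star Γ)) ∧ (∀ d, T.OkT d → Nonempty (Tip Γ)) ∧
    ((∃ d, (T.nd d).isLeft ∧ T.sg (T.sg (T.sg d)) = d) → 5 ≤ n → ¬ KConn Γ.graph 4)

/-! ## The star operation (tables in `OpDefs.lean`)

`sg_old, sg_entry, sg_inl, sg_inr` (OpDefs) compute the new rotation. Facts about tables: `by decide` /
`by decide +kernel` on `Fin 74`. -/

namespace Op

variable {V : Type} (Γ : Drawing V) (S : Star Γ)

/-- the exit dart at `P i`, kept -/
def ex (i : Fin 3) : O Γ S := ⟨Γ.σ (Γ.α (S.d i)), exit_old Γ S i⟩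

/-- the local far dart -/
def farL (m : Fin 74) : Fin 74 :=
  if 13 ≤ nd (al m) then
    al (Fin.ofNat 74 (nxL.getD (nxL.getD (al m).1 0) 0))
  else al m

end Op

/-- [OPO, 200 lines] Points of the new drawing. `org` is invariant (`og (sg d) = og d`, cases, table `nd`). For old darts
in the same `σ`-cycle: `(sgP).SameCycle (inl o) (inl o')` by following: for every old `o`, the next old dart after `o` in
`σ` (which is `σ o`, or, if `σ o = α (S.d i)`, `σ (α (S.d i))`) is reached by `sgP` in one step, or in `1 + 5` steps through the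
local darts `5 i, …, 5 i + 4`. Local darts at `P i` reach `inl (ex i)`; local darts at a node `≥ 3` form one cycle (table). -/
def SpecOPO : Prop := ∀ (V : Type) (Γ : Drawing V) (S : Star Γ),
  Function.Surjective (Op.og Γ S) ∧
  ∀ d e, Op.og Γ S d = Op.og Γ S e ↔ (Op.sgP Γ S).SameCycle d e

/-- [OPF, 250 lines] Faces of the new drawing. The old face at the side `i` consists of `α (S.d i), S.d (i+1)`,
`ex (i+1) = φ (S.d (i+1))` and possibly one dart at a crossing; in the new one `α (S.d i), S.d (i+1)` are replaced by the local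
darts `ent i` and `al`-successor (`fcn = i`). `ρ d := d` for old `d`, `ρ (α (S.d i)) = ρ (S.d (i+1)) := ex (i+1)`: for all darts `d` of
`Γ`, `inl (ρ d)` and `inl (ρ (φ d))` are in the same new face. -/
def SpecOPF : Prop := ∀ (V : Type) (Γ : Drawing V) (S : Star Γ),
  (∀ o o' : Op.O Γ S, (Op.phP Γ S).SameCycle (inl o) (inl o') ↔ Γ.φ.SameCycle o.1 o'.1) ∧
  (∀ (m : Fin 74) (i : Fin 3), Op.fcn m = i.1 →
    (Op.phP Γ S).SameCycle (inr m) (inl (Op.ex Γ S (i + 1)))) ∧
  (∀ (m : Fin 74) (d : Op.D' Γ S), 3 ≤ Op.fcn m →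
    ((Op.phP Γ S).SameCycle (inr m) d ↔ ∃ m', d = inr m' ∧ Op.fcn m' = Op.fcn m))

/-- [OPN, 150 lines; from OPF] The number of faces grows by 22 (the values `3, …, 24` of `fcn`). Bijection:
`Γ.Face ⊕ Fin 22`; every old face contains an old dart (`ρ`). -/
def SpecOPN' : Prop := ∀ (V : Type) (Γ : Drawing V) (S : Star Γ),
  Nat.card (Quotient (Equiv.Perm.SameCycle.setoid (Op.phP Γ S))) = Nat.card Γ.Face + 22

/-- [OPC, 120 lines; from OPO] The new map is connected: for `S' ⊆ D'` closed under `sg`, `av` and not empty, the set of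
all `d : Γ.D` such that `inl (ρ' d) ∈ S'` … or directly: every local dart is joined to `inl (ex 0)` (table), and
`{d | d old → inl d ∈ S'}`-type argument with `Γ.conn`. -/
def SpecOPC : Prop := ∀ (V : Type) (Γ : Drawing V) (S : Star Γ) (A : Set (Op.D' Γ S)), A.Nonempty →
  (∀ d ∈ A, Op.sg Γ S d ∈ A ∧ Op.av Γ S d ∈ A) → A = Set.univ

/-- [OPL, 300 lines] The local conditions of a drawing, and the far darts: old darts keep their far dart; local
darts at nodes `< 13` have the far dart `farL`. `simple`: at `S.P i` the old far ends are vertices of `Γ`, different from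
`S.t` (the edge to `t` was removed) and different from the `S.P j`-free local far ends (table: local far ends of a local dart at
`P i` are `t` or new vertices). -/
def SpecOPL : Prop := ∀ (V : Type) (Γ : Drawing V) (S : Star Γ),
  (∀ d x, Op.og Γ S d = inr x → Op.sg Γ S (Op.sg Γ S (Op.sg Γ S (Op.sg Γ S d))) = d ∧
    Op.sg Γ S (Op.sg Γ S d) ≠ d) ∧
  (∀ d x, Op.og Γ S d = inr x → ∃ v, Op.og Γ S (Op.av Γ S d) = inl v) ∧
  (∀ d v, Op.og Γ S d = inl v → Op.og Γ S
    (if (Op.og Γ S (Op.av Γ S d)).isRight then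
      Op.av Γ S (Op.sg Γ S (Op.sg Γ S (Op.av Γ S d))) else Op.av Γ S d) ≠ inl v) ∧
  (∀ d e v, Op.og Γ S d = inl v → Op.og Γ S e = inl v →
    Op.og Γ S (if (Op.og Γ S (Op.av Γ S d)).isRight then
      Op.av Γ S (Op.sg Γ S (Op.sg Γ S (Op.av Γ S d))) else Op.av Γ S d) =
    Op.og Γ S (if (Op.og Γ S (Op.av Γ S e)).isRight then
      Op.av Γ S (Op.sg Γ S (Op.sg Γ S (Op.av Γ S e))) else Op.av Γ S e) → d = e) ∧
  (∀ d x, Op.og Γ S d = inr x → Op.og Γ S (Op.av Γ S d) ≠ Op.og Γ S (Op.av Γ S (Op.sg Γ S d))) ∧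
  (∀ (o : Op.O Γ S) (v : V) (_ : Γ.org o.1 = inl v), ∃ h' : Op.Old Γ S (Γ.far o.1),
    (if (Op.og Γ S (Op.av Γ S (inl o))).isRight then
      Op.av Γ S (Op.sg Γ S (Op.sg Γ S (Op.av Γ S (inl o)))) else Op.av Γ S (inl o)) =
      inl ⟨Γ.far o.1, h'⟩) ∧
  (∀ m : Fin 74, Op.nd m < 13 →
    (if (Op.og Γ S (Op.av Γ S (inr m))).isRight then
      Op.av Γ S (Op.sg Γ S (Op.sg Γ S (Op.av Γ S (inr m)))) else Op.av Γ S (inr m)) =
      inr (Op.farL m))

/-- The new drawing, as soon as OPO, OPN, OPC, OPL are there (see `OpBuild.lean`). -/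
def SpecOP : Prop := ∀ (V : Type) [Finite V] (Γ : Drawing V) (S : Star Γ),
  ∃ Γ' : Drawing (Op.V' V), ∃ (e : Γ'.D ≃ Op.D' Γ S) (x : Γ'.X ≃ Γ.X ⊕ Fin 3),
    (∀ d, e (Γ'.σ d) = Op.sg Γ S (e d)) ∧ (∀ d, e (Γ'.α d) = Op.av Γ S (e d)) ∧
    (∀ d, Sum.map id x (Γ'.org d) = Op.og Γ S (e d))

/-- [OPM, 300 lines; from SpecOP data, OPF, OPL] Maximality of the new drawing. Faces: old faces keep their vertices,
except the three faces at the sides, where `t` is replaced by the new star centre (`fcn m = i`, node 8, 9, 10); inner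
faces: table. Adjacency: old edges (except the three edges at `t`) are kept (OPL), the local edges by table
(`farL`); `P i ~ P (i+1)` by `Γ.Maximal.inside`. Across: an old uncrossed edge between two old faces: as before; an old
uncrossed edge of the side face `i` is `ex (i+1)`, i.e. the edge `P (i+1) P i`, and `S.side` says that the other face has no
other vertices; local uncrossed edges: table (the side face `i` has the vertices `P i, P (i+1)` and node `8 + i`). -/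
def SpecOPM : Prop := ∀ (V : Type) [Finite V] (Γ : Drawing V) (S : Star Γ), Γ.Maximal →
  ∀ (Γ' : Drawing (Op.V' V)) (e : Γ'.D ≃ Op.D' Γ S) (x : Γ'.X ≃ Γ.X ⊕ Fin 3),
    (∀ d, e (Γ'.σ d) = Op.sg Γ S (e d)) → (∀ d, e (Γ'.α d) = Op.av Γ S (e d)) →
    (∀ d, Sum.map id x (Γ'.org d) = Op.og Γ S (e d)) → Γ'.Maximal

/-- [OPK, 100 lines; from ADD, OPL] 3-connectivity of the new drawing: the old edges are there (also `t P i`: table), and
the nine new vertices, in the order 4, …, 12 of the table, have three earlier neighbours: `4: 0 1 3`, `5: 1 2 3`,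
`6: 0 3 4`, `7: 2 3 5`, `8: 0 1 4`, `9: 1 2 5`, `10: 0 2 3`, `11: 3 4 6`, `12: 3 5 7`. -/
def SpecOPK : Prop := ∀ (V : Type) [Finite V] (Γ : Drawing V) (S : Star Γ), KConn Γ.graph 3 →
  ∀ (Γ' : Drawing (Op.V' V)) (e : Γ'.D ≃ Op.D' Γ S) (x : Γ'.X ≃ Γ.X ⊕ Fin 3),
    (∀ d, e (Γ'.σ d) = Op.sg Γ S (e d)) → (∀ d, e (Γ'.α d) = Op.av Γ S (e d)) →
    (∀ d, Sum.map id x (Γ'.org d) = Op.og Γ S (e d)) → KConn Γ'.graph 3

/-- [OPS, 120 lines; from OPF] The new drawing has a star: centre = node 11, darts `56, 57, 58`. -/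
def SpecOPS : Prop := ∀ (V : Type) [Finite V] (Γ : Drawing V) (S : Star Γ),
  ∀ (Γ' : Drawing (Op.V' V)) (e : Γ'.D ≃ Op.D' Γ S) (x : Γ'.X ≃ Γ.X ⊕ Fin 3),
    (∀ d, e (Γ'.σ d) = Op.sg Γ S (e d)) → (∀ d, e (Γ'.α d) = Op.av Γ S (e d)) →
    (∀ d, Sum.map id x (Γ'.org d) = Op.og Γ S (e d)) → Nonempty (Star Γ')

/-! ## The operation of Q2 -/

/-- [TIP, 700 lines, can be split] Insertion of a vertex `z'` of degree three at a tip `d : u → z`. New darts (`D' = D ⊕ Fin 10`,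
`X' = X ⊕ Fin 1`, `w := φ³ (α d)` at `v`): `0: z'→u, 1: z'→z, 2: z'→X, 3: u→z', 4: z→z', 5: v→X, 6: X→u, 7: X→z, 8: X→z', 9: X→v`.
`α'`: `0↔3, 1↔4, 2↔8, 5↔9, 6↔d, 7↔α d`. `σ'`: `σ⁻¹ d ↦ 3 ↦ d`; `α d ↦ 4 ↦ φ d`; `σ⁻¹ w ↦ 5 ↦ w`; `0 ↦ 1 ↦ 2 ↦ 0`;
`6 ↦ 8 ↦ 7 ↦ 9 ↦ 6`; `σ' = σ` at all other old darts. New faces: `(3, 1, φ d, φ² d)`, `(d, 8, 0)`, `(2, 7, 4)`,
`(6, φ (α d), φ² (α d), 5)`, `(w, α d, 9)` instead of the two faces of `d` and `α d`: three more; the others do not change. New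
tip: the dart `4` (`u := z, z := z', v := u, x := X, y := x`). Maximal: `(u, z', z, x)`, `(u, X, z')`, `(z', X, z)`, `(X, u, y, v)`, `(v, z, X)`. -/
def SpecTIP : Prop := ∀ (V : Type) [Finite V] (Γ : Drawing V), Γ.Maximal → KConn Γ.graph 3 →
  Tip Γ → ∃ Γ' : Drawing (V ⊕ Fin 1), Γ'.Maximal ∧ KConn Γ'.graph 3 ∧ Nonempty (Tip Γ') ∧
    Γ'.size = Γ.size + 3 ∧ {w | Γ'.graph.Adj (inr 0) w}.ncard ≤ 3

/-- [K4, 150 lines] The planar drawing of `K₄`: a table with `n = 4`, `c = 0`, `N = 12`, `F = 4`, or by hand; connectivity 3. -/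
def SpecK4 : Prop := ∃ Γ : Drawing (Fin 4), Γ.Maximal ∧ Conn3 Γ.graph ∧ Γ.cr = 0 ∧ Γ.size = 6

end Pool.Agent.Lib.MP0c8bd9
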