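import Pool.Agent.Lib.MP_0c8bd9_co.TabDefs
import Pool.Agent.Lib.MP_0c8bd9_co.Spec
import Pool.Agent.Lib.MP_0c8bd9_co.Spec2

section
/-!
# MP_0c8bd9_co : table `T10`
-/
set_option autoImplicit false

namespace Pool.Agent.Lib.MP0c8bd9

open Sum

namespace Data

/-- table `T10` : 10 vertices, 3 crossings -/
def T10 : Tab 10 3 62 20 where
  sg d := Fin.ofNat 62 (([1, 2, 3, 4, 5, 0, 7, 8, 9, 10, 11, 12, 6, 14, 15, 16, 17, 18, 19, 13,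
    21, 22, 23, 24, 25, 20, 27, 28, 29, 30, 31, 32, 26, 34, 35, 33, 37, 38, 39, 36, 41, 42, 40,
    44, 45, 46, 43, 48, 49, 47, 51, 52, 53, 50, 55, 56, 57, 54, 59, 60, 61, 58] : List ℕ).getD d
    0)
  si d := Fin.ofNat 62 (([5, 0, 1, 2, 3, 4, 12, 6, 7, 8, 9, 10, 11, 19, 13, 14, 15, 16, 17, 18,
    25, 20, 21, 22, 23, 24, 32, 26, 27, 28, 29, 30, 31, 35, 33, 34, 39, 36, 37, 38, 42, 40, 41,
    46, 43, 44, 45, 49, 47, 48, 53, 50, 51, 52, 57, 54, 55, 56, 61, 58, 59, 60] : List ℕ).getD d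
    0)
  al d := Fin.ofNat 62 (([40, 36, 55, 26, 20, 51, 50, 13, 34, 28, 57, 38, 41, 7, 53, 47, 43, 59,
    30, 35, 4, 32, 61, 45, 48, 52, 3, 54, 9, 33, 18, 58, 21, 29, 8, 19, 1, 42, 11, 56, 0, 12, 37,
    16, 49, 23, 60, 15, 24, 44, 6, 5, 25, 14, 27, 2, 39, 10, 31, 17, 46, 22] : List ℕ).getD d 0)
  nd d := (fun k => if k < 10 then inl (Fin.ofNat 10 k) else inr (Fin.ofNat 3 (k - 10)))
    (([0, 0, 0, 0, 0, 0, 1, 1, 1, 1, 1, 1, 1, 2, 2, 2, 2, 2, 2, 2, 3, 3, 3, 3, 3, 3, 4, 4, 4, 4,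
    4, 4, 4, 5, 5, 5, 6, 6, 6, 6, 7, 7, 7, 8, 8, 8, 8, 9, 9, 9, 10, 10, 10, 10, 11, 11, 11, 11,
    12, 12, 12, 12] : List ℕ).getD d 0)
  rp p := Fin.ofNat 62 (([0, 6, 13, 20, 26, 33, 36, 40, 43, 47, 50, 54, 58] : List ℕ).getD
    (Sum.elim (fun i => i.1) (fun i => i.1 + 10) p) 0)
  ps d := ([0, 1, 2, 3, 4, 5, 0, 1, 2, 3, 4, 5, 6, 0, 1, 2, 3, 4, 5, 6, 0, 1, 2, 3, 4, 5, 0, 1, 2,
    3, 4, 5, 6, 0, 1, 2, 0, 1, 2, 3, 0, 1, 2, 0, 1, 2, 3, 0, 1, 2, 0, 1, 2, 3, 0, 1, 2, 3, 0, 1,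
    2, 3] : List ℕ).getD d 0
  fc d := Fin.ofNat 20 (([0, 1, 2, 3, 4, 5, 0, 6, 7, 8, 9, 10, 11, 7, 6, 12, 13, 14, 15, 16, 5, 4,
    17, 18, 19, 12, 4, 3, 9, 8, 16, 15, 17, 16, 8, 7, 2, 1, 11, 10, 1, 0, 11, 14, 13, 19, 18, 13,
    12, 19, 6, 0, 5, 12, 9, 3, 2, 10, 17, 15, 14, 18] : List ℕ).getD d 0)
  fr d := Fin.ofNat 62 (([0, 1, 2, 3, 4, 5, 7, 8, 9, 10, 11, 12, 15, 16, 17, 18, 19, 22, 23, 24] :
    List ℕ).getD d 0)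
  fp d := ([0, 0, 0, 0, 0, 0, 2, 0, 0, 0, 0, 0, 0, 2, 1, 0, 0, 0, 0, 0, 2, 1, 0, 0, 0, 2, 2, 1, 2,
    1, 2, 1, 2, 1, 2, 1, 2, 1, 2, 1, 2, 1, 1, 2, 1, 2, 1, 2, 1, 1, 2, 3, 1, 3, 1, 2, 1, 2, 1, 2,
    1, 2] : List ℕ).getD d 0
  rk d := ([0, 5, 4, 3, 2, 1, 4, 7, 8, 7, 6, 5, 4, 6, 5, 8, 10, 9, 8, 7, 3, 6, 7, 6, 5, 4, 4, 7,
    8, 8, 7, 6, 5, 9, 9, 8, 4, 3, 6, 5, 1, 3, 2, 9, 8, 7, 10, 7, 6, 8, 3, 2, 5, 4, 6, 5, 6, 7, 7,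
    10, 9, 8] : List ℕ).getD d 0
  el j i := Fin.ofNat 10 ((([[0, 0, 0], [0, 0, 0], [0, 0, 0], [0, 0, 0], [0, 1, 2], [1, 2, 4], [0,
    1, 4], [0, 1, 6], [2, 3, 4], [2, 3, 8]] : List (List ℕ)).getD j []).getD i 0)

theorem T10_okD : T10.OkD := by
  constructor <;> decide +kernel

theorem T10_okM : T10.OkM := by
  constructor <;> decide +kernel

theorem T10_okK : T10.OkK := by
  constructor <;> decide +kernel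

theorem T10_okS : T10.OkS ![33, 34, 35] := by
  constructor <;> decide +kernel

theorem T10_deg3 : ∃ d, (T10.nd d).isLeft ∧ T10.sg (T10.sg (T10.sg d)) = d := ⟨33, by decide +kernel⟩

end Data

end Pool.Agent.Lib.MP0c8bd9
end

section
/-!
# MP_0c8bd9_co : table `T11`
-/
set_option autoImplicit false

namespace Pool.Agent.Lib.MP0c8bd9

open Sum

namespace Data

/-- table `T11` : 11 vertices, 3 crossings -/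
def T11 : Tab 11 3 68 22 where
  sg d := Fin.ofNat 68 (([1, 2, 3, 4, 5, 6, 0, 8, 9, 10, 11, 12, 13, 7, 15, 16, 17, 18, 19, 20,
    14, 22, 23, 24, 25, 26, 27, 21, 29, 30, 31, 32, 33, 34, 35, 28, 37, 38, 36, 40, 41, 39, 43,
    44, 45, 42, 47, 48, 46, 50, 51, 52, 49, 54, 55, 53, 57, 58, 59, 56, 61, 62, 63, 60, 65, 66,
    67, 64] : List ℕ).getD d 0)
  si d := Fin.ofNat 68 (([6, 0, 1, 2, 3, 4, 5, 13, 7, 8, 9, 10, 11, 12, 20, 14, 15, 16, 17, 18,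
    19, 27, 21, 22, 23, 24, 25, 26, 35, 28, 29, 30, 31, 32, 33, 34, 38, 36, 37, 41, 39, 40, 45,
    42, 43, 44, 48, 46, 47, 52, 49, 50, 51, 55, 53, 54, 59, 56, 57, 58, 63, 60, 61, 62, 67, 64,
    65, 66] : List ℕ).getD d 0)
  al d := Fin.ofNat 68 (([46, 42, 61, 28, 41, 21, 57, 56, 14, 37, 30, 63, 44, 47, 8, 59, 53, 49,
    65, 32, 38, 5, 40, 34, 67, 51, 54, 58, 3, 60, 10, 36, 19, 64, 23, 39, 31, 9, 20, 35, 22, 4, 1,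
    48, 12, 62, 0, 13, 43, 17, 55, 25, 66, 16, 26, 50, 7, 6, 27, 15, 29, 2, 45, 11, 33, 18, 52,
    24] : List ℕ).getD d 0)
  nd d := (fun k => if k < 11 then inl (Fin.ofNat 11 k) else inr (Fin.ofNat 3 (k - 11)))
    (([0, 0, 0, 0, 0, 0, 0, 1, 1, 1, 1, 1, 1, 1, 2, 2, 2, 2, 2, 2, 2, 3, 3, 3, 3, 3, 3, 3, 4, 4,
    4, 4, 4, 4, 4, 4, 5, 5, 5, 6, 6, 6, 7, 7, 7, 7, 8, 8, 8, 9, 9, 9, 9, 10, 10, 10, 11, 11, 11,
    11, 12, 12, 12, 12, 13, 13, 13, 13] : List ℕ).getD d 0)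
  rp p := Fin.ofNat 68 (([0, 7, 14, 21, 28, 36, 39, 42, 46, 49, 53, 56, 60, 64] : List ℕ).getD
    (Sum.elim (fun i => i.1) (fun i => i.1 + 11) p) 0)
  ps d := ([0, 1, 2, 3, 4, 5, 6, 0, 1, 2, 3, 4, 5, 6, 0, 1, 2, 3, 4, 5, 6, 0, 1, 2, 3, 4, 5, 6, 0,
    1, 2, 3, 4, 5, 6, 7, 0, 1, 2, 0, 1, 2, 0, 1, 2, 3, 0, 1, 2, 0, 1, 2, 3, 0, 1, 2, 0, 1, 2, 3,
    0, 1, 2, 3, 0, 1, 2, 3] : List ℕ).getD d 0
  fc d := Fin.ofNat 22 (([0, 1, 2, 3, 4, 5, 6, 0, 7, 8, 9, 10, 11, 12, 8, 7, 13, 14, 15, 16, 17,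
    6, 5, 18, 19, 20, 21, 13, 4, 3, 10, 9, 17, 16, 19, 18, 17, 9, 8, 4, 18, 5, 2, 1, 12, 11, 1, 0,
    12, 15, 14, 21, 20, 14, 13, 21, 7, 0, 6, 13, 10, 3, 2, 11, 19, 16, 15, 20] : List ℕ).getD d 0)
  fr d := Fin.ofNat 68 (([0, 1, 2, 3, 4, 5, 6, 8, 9, 10, 11, 12, 13, 16, 17, 18, 19, 20, 23, 24,
    25, 26] : List ℕ).getD d 0)
  fp d := ([0, 0, 0, 0, 0, 0, 0, 2, 0, 0, 0, 0, 0, 0, 2, 1, 0, 0, 0, 0, 0, 2, 1, 0, 0, 0, 0, 2, 2,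
    1, 2, 1, 2, 1, 2, 1, 1, 2, 1, 1, 2, 2, 2, 1, 2, 1, 2, 1, 1, 2, 1, 2, 1, 2, 1, 1, 2, 3, 1, 3,
    1, 2, 1, 2, 1, 2, 1, 2] : List ℕ).getD d 0
  rk d := ([0, 5, 5, 4, 3, 2, 1, 4, 7, 8, 7, 6, 5, 4, 6, 5, 8, 10, 9, 8, 7, 3, 6, 8, 7, 6, 5, 4,
    5, 8, 8, 10, 9, 8, 7, 6, 10, 9, 8, 6, 5, 4, 4, 3, 6, 5, 1, 3, 2, 9, 8, 7, 10, 7, 6, 8, 3, 2,
    5, 4, 7, 6, 6, 7, 9, 10, 9, 8] : List ℕ).getD d 0
  el j i := Fin.ofNat 11 ((([[0, 0, 0], [0, 0, 0], [0, 0, 0], [0, 0, 0], [0, 1, 2], [1, 2, 4], [0,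
    3, 4], [0, 1, 4], [0, 1, 7], [2, 3, 4], [2, 3, 9]] : List (List ℕ)).getD j []).getD i 0)

theorem T11_okD : T11.OkD := by
  constructor <;> decide +kernel

theorem T11_okM : T11.OkM := by
  constructor <;> decide +kernel

theorem T11_okK : T11.OkK := by
  constructor <;> decide +kernel

theorem T11_okS : T11.OkS ![36, 37, 38] := by
  constructor <;> decide +kernel

theorem T11_deg3 : ∃ d, (T11.nd d).isLeft ∧ T11.sg (T11.sg (T11.sg d)) = d := ⟨36, by decide +kernel⟩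

end Data

end Pool.Agent.Lib.MP0c8bd9
end

section
/-!
# MP_0c8bd9_co : table `T12`
-/
set_option autoImplicit false

namespace Pool.Agent.Lib.MP0c8bd9

open Sum

namespace Data

/-- table `T12` : 12 vertices, 4 crossings -/
def T12 : Tab 12 4 78 25 where
  sg d := Fin.ofNat 78 (([1, 2, 3, 4, 5, 0, 7, 8, 9, 6, 11, 12, 13, 14, 15, 16, 17, 10, 19, 20,
    21, 22, 23, 24, 25, 18, 27, 28, 29, 30, 31, 32, 33, 34, 35, 26, 37, 38, 39, 36, 41, 42, 40,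
    44, 45, 46, 47, 48, 43, 50, 51, 49, 53, 54, 52, 56, 57, 58, 55, 60, 61, 59, 63, 64, 65, 62,
    67, 68, 69, 66, 71, 72, 73, 70, 75, 76, 77, 74] : List ℕ).getD d 0)
  si d := Fin.ofNat 78 (([5, 0, 1, 2, 3, 4, 9, 6, 7, 8, 17, 10, 11, 12, 13, 14, 15, 16, 25, 18,
    19, 20, 21, 22, 23, 24, 35, 26, 27, 28, 29, 30, 31, 32, 33, 34, 39, 36, 37, 38, 42, 40, 41,
    48, 43, 44, 45, 46, 47, 51, 49, 50, 54, 52, 53, 58, 55, 56, 57, 61, 59, 60, 65, 62, 63, 64,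
    69, 66, 67, 68, 73, 70, 71, 72, 77, 74, 75, 76] : List ℕ).getD d 0)
  al d := Fin.ofNat 78 (([6, 10, 67, 36, 41, 62, 0, 65, 18, 11, 1, 9, 25, 75, 43, 50, 29, 68, 8,
    64, 59, 55, 73, 52, 76, 12, 40, 38, 69, 16, 49, 47, 71, 57, 60, 63, 3, 66, 27, 42, 26, 4, 39,
    14, 74, 53, 72, 31, 51, 30, 15, 48, 23, 45, 77, 21, 61, 33, 70, 20, 34, 56, 5, 35, 19, 7, 37,
    2, 17, 28, 58, 32, 46, 22, 44, 13, 24, 54] : List ℕ).getD d 0)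
  nd d := (fun k => if k < 12 then inl (Fin.ofNat 12 k) else inr (Fin.ofNat 4 (k - 12)))
    (([0, 0, 0, 0, 0, 0, 1, 1, 1, 1, 2, 2, 2, 2, 2, 2, 2, 2, 3, 3, 3, 3, 3, 3, 3, 3, 4, 4, 4, 4,
    4, 4, 4, 4, 4, 4, 5, 5, 5, 5, 6, 6, 6, 7, 7, 7, 7, 7, 7, 8, 8, 8, 9, 9, 9, 10, 10, 10, 10, 11,
    11, 11, 12, 12, 12, 12, 13, 13, 13, 13, 14, 14, 14, 14, 15, 15, 15, 15] : List ℕ).getD d 0)
  rp p := Fin.ofNat 78 (([0, 6, 10, 18, 26, 36, 40, 43, 49, 52, 55, 59, 62, 66, 70, 74] : List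
    ℕ).getD
    (Sum.elim (fun i => i.1) (fun i => i.1 + 12) p) 0)
  ps d := ([0, 1, 2, 3, 4, 5, 0, 1, 2, 3, 0, 1, 2, 3, 4, 5, 6, 7, 0, 1, 2, 3, 4, 5, 6, 7, 0, 1, 2,
    3, 4, 5, 6, 7, 8, 9, 0, 1, 2, 3, 0, 1, 2, 0, 1, 2, 3, 4, 5, 0, 1, 2, 0, 1, 2, 0, 1, 2, 3, 0,
    1, 2, 0, 1, 2, 3, 0, 1, 2, 3, 0, 1, 2, 3, 0, 1, 2, 3] : List ℕ).getD d 0
  fc d := Fin.ofNat 25 (([0, 1, 2, 3, 4, 5, 1, 0, 6, 7, 2, 1, 7, 8, 9, 10, 11, 12, 7, 6, 13, 14,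
    15, 16, 17, 8, 5, 18, 19, 12, 11, 20, 21, 22, 23, 13, 4, 3, 19, 18, 18, 5, 4, 10, 9, 24, 16,
    21, 20, 20, 11, 10, 17, 16, 24, 15, 14, 23, 22, 14, 13, 23, 0, 5, 13, 6, 19, 3, 2, 12, 15, 22,
    21, 16, 24, 9, 8, 17] : List ℕ).getD d 0)
  fr d := Fin.ofNat 78 (([0, 1, 2, 3, 4, 5, 8, 9, 13, 14, 15, 16, 17, 20, 21, 22, 23, 24, 27, 28,
    31, 32, 33, 34, 45] : List ℕ).getD d 0)
  fp d := ([0, 0, 0, 0, 0, 0, 2, 1, 0, 0, 2, 1, 1, 0, 0, 0, 0, 0, 2, 1, 0, 0, 0, 0, 0, 2, 2, 0, 0,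
    2, 1, 0, 0, 0, 0, 2, 2, 1, 2, 1, 2, 3, 1, 2, 1, 0, 2, 2, 1, 2, 2, 1, 2, 1, 1, 2, 1, 2, 1, 2,
    1, 1, 2, 1, 3, 2, 1, 2, 1, 1, 1, 2, 1, 3, 2, 2, 1, 1] : List ℕ).getD d 0
  rk d := ([0, 5, 4, 3, 2, 1, 1, 4, 3, 2, 4, 3, 6, 9, 8, 7, 6, 5, 4, 5, 10, 9, 8, 7, 6, 5, 5, 7,
    8, 7, 10, 10, 9, 8, 7, 6, 4, 7, 6, 5, 4, 3, 5, 9, 10, 11, 11, 11, 10, 9, 8, 10, 8, 10, 9, 10,
    10, 9, 11, 9, 8, 10, 2, 5, 4, 3, 6, 5, 6, 7, 11, 10, 10, 9, 9, 8, 7, 10] : List ℕ).getD d 0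
  el j i := Fin.ofNat 12 ((([[0, 0, 0], [0, 0, 0], [0, 0, 0], [0, 0, 0], [0, 1, 2], [0, 2, 4], [0,
    4, 5], [2, 3, 4], [2, 4, 7], [2, 3, 7], [3, 4, 7], [3, 4, 10]] : List (List ℕ)).getD j
    []).getD i 0)

theorem T12_okD : T12.OkD := by
  constructor <;> decide +kernel

theorem T12_okM : T12.OkM := by
  constructor <;> decide +kernel

theorem T12_okK : T12.OkK := by
  constructor <;> decide +kernel

theorem T12_okS : T12.OkS ![40, 41, 42] := by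
  constructor <;> decide +kernel

theorem T12_deg3 : ∃ d, (T12.nd d).isLeft ∧ T12.sg (T12.sg (T12.sg d)) = d := ⟨40, by decide +kernel⟩

end Data

end Pool.Agent.Lib.MP0c8bd9
end

section
/-!
# MP_0c8bd9_co : table `T13`
-/
set_option autoImplicit false

namespace Pool.Agent.Lib.MP0c8bd9

open Sum

namespace Data

/-- table `T13` : 13 vertices, 4 crossings -/
def T13 : Tab 13 4 84 27 where
  sg d := Fin.ofNat 84 (([1, 2, 3, 4, 5, 0, 7, 8, 9, 6, 11, 12, 13, 14, 15, 16, 17, 10, 19, 20,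
    21, 22, 23, 24, 25, 26, 18, 28, 29, 30, 31, 32, 33, 34, 35, 36, 27, 38, 39, 40, 37, 42, 43,
    41, 45, 46, 47, 48, 49, 50, 44, 52, 53, 51, 55, 56, 57, 54, 59, 60, 58, 62, 63, 64, 61, 66,
    67, 65, 69, 70, 71, 68, 73, 74, 75, 72, 77, 78, 79, 76, 81, 82, 83, 80] : List ℕ).getD d 0)
  si d := Fin.ofNat 84 (([5, 0, 1, 2, 3, 4, 9, 6, 7, 8, 17, 10, 11, 12, 13, 14, 15, 16, 26, 18,
    19, 20, 21, 22, 23, 24, 25, 36, 27, 28, 29, 30, 31, 32, 33, 34, 35, 40, 37, 38, 39, 43, 41,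
    42, 50, 44, 45, 46, 47, 48, 49, 53, 51, 52, 57, 54, 55, 56, 60, 58, 59, 64, 61, 62, 63, 67,
    65, 66, 71, 68, 69, 70, 75, 72, 73, 74, 79, 76, 77, 78, 83, 80, 81, 82] : List ℕ).getD d 0)
  al d := Fin.ofNat 84 (([6, 10, 73, 37, 42, 68, 0, 71, 18, 11, 1, 9, 26, 81, 44, 52, 30, 74, 8,
    70, 65, 61, 79, 58, 54, 82, 12, 41, 39, 75, 16, 51, 49, 77, 63, 66, 69, 3, 72, 28, 43, 27, 4,
    40, 14, 80, 56, 59, 78, 32, 53, 31, 15, 50, 24, 60, 46, 83, 23, 47, 55, 21, 67, 34, 76, 20,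
    35, 62, 5, 36, 19, 7, 38, 2, 17, 29, 64, 33, 48, 22, 45, 13, 25, 57] : List ℕ).getD d 0)
  nd d := (fun k => if k < 13 then inl (Fin.ofNat 13 k) else inr (Fin.ofNat 4 (k - 13)))
    (([0, 0, 0, 0, 0, 0, 1, 1, 1, 1, 2, 2, 2, 2, 2, 2, 2, 2, 3, 3, 3, 3, 3, 3, 3, 3, 3, 4, 4, 4,
    4, 4, 4, 4, 4, 4, 4, 5, 5, 5, 5, 6, 6, 6, 7, 7, 7, 7, 7, 7, 7, 8, 8, 8, 9, 9, 9, 9, 10, 10,
    10, 11, 11, 11, 11, 12, 12, 12, 13, 13, 13, 13, 14, 14, 14, 14, 15, 15, 15, 15, 16, 16, 16,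
    16] : List ℕ).getD d 0)
  rp p := Fin.ofNat 84 (([0, 6, 10, 18, 27, 37, 41, 44, 51, 54, 58, 61, 65, 68, 72, 76, 80] : List
    ℕ).getD
    (Sum.elim (fun i => i.1) (fun i => i.1 + 13) p) 0)
  ps d := ([0, 1, 2, 3, 4, 5, 0, 1, 2, 3, 0, 1, 2, 3, 4, 5, 6, 7, 0, 1, 2, 3, 4, 5, 6, 7, 8, 0, 1,
    2, 3, 4, 5, 6, 7, 8, 9, 0, 1, 2, 3, 0, 1, 2, 0, 1, 2, 3, 4, 5, 6, 0, 1, 2, 0, 1, 2, 3, 0, 1,
    2, 0, 1, 2, 3, 0, 1, 2, 0, 1, 2, 3, 0, 1, 2, 3, 0, 1, 2, 3, 0, 1, 2, 3] : List ℕ).getD d 0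
  fc d := Fin.ofNat 27 (([0, 1, 2, 3, 4, 5, 1, 0, 6, 7, 2, 1, 7, 8, 9, 10, 11, 12, 7, 6, 13, 14,
    15, 16, 17, 18, 8, 5, 19, 20, 12, 11, 21, 22, 23, 24, 13, 4, 3, 20, 19, 19, 5, 4, 10, 9, 25,
    26, 16, 22, 21, 21, 11, 10, 18, 17, 26, 25, 17, 16, 26, 15, 14, 24, 23, 14, 13, 24, 0, 5, 13,
    6, 20, 3, 2, 12, 15, 23, 22, 16, 25, 9, 8, 18] : List ℕ).getD d 0)
  fr d := Fin.ofNat 84 (([0, 1, 2, 3, 4, 5, 8, 9, 13, 14, 15, 16, 17, 20, 21, 22, 23, 24, 25, 28,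
    29, 32, 33, 34, 35, 46, 47] : List ℕ).getD d 0)
  fp d := ([0, 0, 0, 0, 0, 0, 2, 1, 0, 0, 2, 1, 1, 0, 0, 0, 0, 0, 2, 1, 0, 0, 0, 0, 0, 0, 2, 2, 0,
    0, 2, 1, 0, 0, 0, 0, 2, 2, 1, 2, 1, 2, 3, 1, 2, 1, 0, 0, 2, 2, 1, 2, 2, 1, 2, 1, 2, 1, 2, 1,
    1, 2, 1, 2, 1, 2, 1, 1, 2, 1, 3, 2, 1, 2, 1, 1, 1, 2, 1, 3, 2, 2, 1, 1] : List ℕ).getD d 0
  rk d := ([0, 5, 4, 3, 2, 1, 1, 4, 3, 2, 4, 3, 6, 9, 8, 7, 6, 5, 4, 5, 10, 10, 9, 8, 7, 6, 5, 5,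
    7, 8, 7, 10, 10, 9, 8, 7, 6, 4, 7, 6, 5, 4, 3, 5, 9, 10, 11, 12, 12, 11, 10, 9, 8, 10, 8, 11,
    10, 9, 9, 11, 10, 11, 10, 9, 12, 9, 8, 10, 2, 5, 4, 3, 6, 5, 6, 7, 11, 10, 11, 10, 9, 8, 7,
    10] : List ℕ).getD d 0
  el j i := Fin.ofNat 13 ((([[0, 0, 0], [0, 0, 0], [0, 0, 0], [0, 0, 0], [0, 1, 2], [0, 2, 4], [0,
    4, 5], [2, 3, 4], [2, 4, 7], [2, 3, 7], [3, 7, 9], [3, 4, 7], [3, 4, 11]] : List (List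
    ℕ)).getD j []).getD i 0)

theorem T13_okD : T13.OkD := by
  constructor <;> decide +kernel

theorem T13_okM : T13.OkM := by
  constructor <;> decide +kernel

theorem T13_okK : T13.OkK := by
  constructor <;> decide +kernel

theorem T13_okS : T13.OkS ![41, 42, 43] := by
  constructor <;> decide +kernel

theorem T13_deg3 : ∃ d, (T13.nd d).isLeft ∧ T13.sg (T13.sg (T13.sg d)) = d := ⟨41, by decide +kernel⟩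

end Data

end Pool.Agent.Lib.MP0c8bd9
end

section
/-!
# MP_0c8bd9_co : table `T14`
-/
set_option autoImplicit false

namespace Pool.Agent.Lib.MP0c8bd9

open Sum

namespace Data

/-- table `T14` : 14 vertices, 5 crossings -/
def T14 : Tab 14 5 94 30 where
  sg d := Fin.ofNat 94 (([1, 2, 3, 0, 5, 6, 7, 8, 9, 10, 11, 12, 13, 4, 15, 16, 17, 18, 19, 20,
    21, 22, 14, 24, 25, 26, 27, 23, 29, 30, 28, 32, 33, 34, 35, 36, 37, 38, 31, 40, 41, 42, 43,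
    44, 45, 46, 39, 48, 49, 47, 51, 52, 53, 54, 55, 50, 57, 58, 56, 60, 61, 59, 63, 64, 65, 66,
    67, 62, 69, 70, 68, 72, 73, 71, 75, 76, 77, 74, 79, 80, 81, 78, 83, 84, 85, 82, 87, 88, 89,
    86, 91, 92, 93, 90] : List ℕ).getD d 0)
  si d := Fin.ofNat 94 (([3, 0, 1, 2, 13, 4, 5, 6, 7, 8, 9, 10, 11, 12, 22, 14, 15, 16, 17, 18,
    19, 20, 21, 27, 23, 24, 25, 26, 30, 28, 29, 38, 31, 32, 33, 34, 35, 36, 37, 46, 39, 40, 41,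
    42, 43, 44, 45, 49, 47, 48, 55, 50, 51, 52, 53, 54, 58, 56, 57, 61, 59, 60, 67, 62, 63, 64,
    65, 66, 70, 68, 69, 73, 71, 72, 77, 74, 75, 76, 81, 78, 79, 80, 85, 82, 83, 84, 89, 86, 87,
    88, 93, 90, 91, 92] : List ℕ).getD d 0)
  al d := Fin.ofNat 94 (([12, 30, 26, 80, 56, 50, 82, 39, 48, 31, 74, 28, 0, 79, 78, 24, 76, 37,
    68, 62, 86, 52, 57, 77, 15, 81, 2, 29, 11, 27, 1, 9, 47, 45, 90, 64, 69, 17, 75, 7, 85, 59,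
    88, 71, 91, 33, 49, 32, 8, 46, 5, 58, 21, 89, 61, 83, 4, 22, 51, 41, 84, 54, 19, 70, 35, 93,
    72, 87, 18, 36, 63, 43, 66, 92, 10, 38, 16, 23, 14, 13, 3, 25, 6, 55, 60, 40, 20, 67, 42, 53,
    34, 44, 73, 65] : List ℕ).getD d 0)
  nd d := (fun k => if k < 14 then inl (Fin.ofNat 14 k) else inr (Fin.ofNat 5 (k - 14)))
    (([0, 0, 0, 0, 1, 1, 1, 1, 1, 1, 1, 1, 1, 1, 2, 2, 2, 2, 2, 2, 2, 2, 2, 3, 3, 3, 3, 3, 4, 4,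
    4, 5, 5, 5, 5, 5, 5, 5, 5, 6, 6, 6, 6, 6, 6, 6, 6, 7, 7, 7, 8, 8, 8, 8, 8, 8, 9, 9, 9, 10, 10,
    10, 11, 11, 11, 11, 11, 11, 12, 12, 12, 13, 13, 13, 14, 14, 14, 14, 15, 15, 15, 15, 16, 16,
    16, 16, 17, 17, 17, 17, 18, 18, 18, 18] : List ℕ).getD d 0)
  rp p := Fin.ofNat 94 (([0, 4, 14, 23, 28, 31, 39, 47, 50, 56, 59, 62, 68, 71, 74, 78, 82, 86,
    90] : List ℕ).getD
    (Sum.elim (fun i => i.1) (fun i => i.1 + 14) p) 0)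
  ps d := ([0, 1, 2, 3, 0, 1, 2, 3, 4, 5, 6, 7, 8, 9, 0, 1, 2, 3, 4, 5, 6, 7, 8, 0, 1, 2, 3, 4, 0,
    1, 2, 0, 1, 2, 3, 4, 5, 6, 7, 0, 1, 2, 3, 4, 5, 6, 7, 0, 1, 2, 0, 1, 2, 3, 4, 5, 0, 1, 2, 0,
    1, 2, 0, 1, 2, 3, 4, 5, 0, 1, 2, 0, 1, 2, 0, 1, 2, 3, 0, 1, 2, 3, 0, 1, 2, 3, 0, 1, 2, 3, 0,
    1, 2, 3] : List ℕ).getD d 0
  fc d := Fin.ofNat 30 (([0, 1, 2, 3, 4, 5, 6, 7, 8, 9, 10, 11, 1, 0, 4, 12, 13, 14, 15, 16, 17,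
    18, 19, 11, 13, 12, 3, 2, 1, 11, 2, 10, 9, 20, 21, 22, 23, 15, 14, 8, 7, 24, 25, 26, 27, 21,
    20, 20, 9, 8, 6, 5, 19, 18, 25, 28, 5, 4, 19, 25, 24, 28, 17, 16, 23, 22, 29, 26, 16, 15, 23,
    27, 26, 29, 11, 10, 14, 13, 12, 4, 0, 3, 7, 6, 28, 24, 18, 17, 26, 25, 22, 21, 27, 29] : List
    ℕ).getD d 0)
  fr d := Fin.ofNat 94 (([0, 1, 2, 3, 4, 5, 6, 7, 8, 9, 10, 11, 15, 16, 17, 18, 19, 20, 21, 22,
    33, 34, 35, 36, 41, 42, 43, 44, 55, 66] : List ℕ).getD d 0)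
  fp d := ([0, 0, 0, 0, 0, 0, 0, 0, 0, 0, 0, 0, 2, 1, 2, 0, 0, 0, 0, 0, 0, 0, 0, 2, 2, 1, 2, 1, 1,
    1, 2, 2, 1, 0, 0, 0, 0, 2, 1, 2, 1, 0, 0, 0, 0, 2, 1, 2, 2, 1, 2, 1, 2, 1, 2, 0, 2, 1, 1, 3,
    1, 2, 2, 1, 2, 1, 0, 2, 2, 1, 1, 2, 1, 1, 3, 1, 2, 1, 2, 3, 2, 1, 2, 1, 1, 2, 2, 1, 3, 1, 2,
    1, 1, 2] : List ℕ).getD d 0
  rk d := ([0, 3, 2, 1, 9, 8, 7, 6, 5, 4, 3, 2, 1, 4, 5, 6, 7, 8, 10, 9, 8, 7, 6, 6, 5, 4, 3, 6,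
    3, 5, 4, 5, 8, 10, 10, 9, 8, 7, 6, 7, 10, 13, 12, 11, 10, 9, 8, 7, 6, 8, 9, 9, 8, 11, 11, 10,
    8, 7, 9, 12, 11, 12, 10, 11, 10, 13, 12, 11, 10, 9, 11, 12, 13, 13, 4, 7, 6, 5, 4, 3, 2, 5, 8,
    11, 10, 9, 9, 12, 11, 10, 11, 11, 13, 12] : List ℕ).getD d 0
  el j i := Fin.ofNat 14 ((([[0, 0, 0], [0, 0, 0], [0, 0, 0], [0, 0, 0], [0, 1, 3], [1, 2, 3], [1,
    2, 5], [1, 5, 6], [1, 2, 6], [1, 2, 8], [1, 6, 8], [2, 5, 6], [2, 5, 11], [5, 6, 11]] : List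
    (List ℕ)).getD j []).getD i 0)

theorem T14_okD : T14.OkD := by
  constructor <;> decide +kernel

theorem T14_okM : T14.OkM := by
  constructor <;> decide +kernel

theorem T14_okK : T14.OkK := by
  constructor <;> decide +kernel

theorem T14_okS : T14.OkS ![28, 29, 30] := by
  constructor <;> decide +kernel

theorem T14_deg3 : ∃ d, (T14.nd d).isLeft ∧ T14.sg (T14.sg (T14.sg d)) = d := ⟨28, by decide +kernel⟩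

end Data

end Pool.Agent.Lib.MP0c8bd9
end

section
/-!
# MP_0c8bd9_co : table `T5`
-/
set_option autoImplicit false

namespace Pool.Agent.Lib.MP0c8bd9

open Sum

namespace Data

/-- table `T5` : 5 vertices, 2 crossings -/
def T5 : Tab 5 2 26 8 where
  sg d := Fin.ofNat 26 (([1, 2, 0, 4, 5, 6, 3, 8, 9, 10, 7, 12, 13, 14, 11, 16, 17, 15, 19, 20,
    21, 18, 23, 24, 25, 22] : List ℕ).getD d 0)
  si d := Fin.ofNat 26 (([2, 0, 1, 6, 3, 4, 5, 10, 7, 8, 9, 14, 11, 12, 13, 17, 15, 16, 21, 18,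
    19, 20, 25, 22, 23, 24] : List ℕ).getD d 0)
  al d := Fin.ofNat 26 (([5, 14, 24, 15, 18, 0, 23, 22, 12, 20, 16, 21, 8, 25, 1, 3, 10, 19, 4,
    17, 9, 11, 7, 6, 2, 13] : List ℕ).getD d 0)
  nd d := (fun k => if k < 5 then inl (Fin.ofNat 5 k) else inr (Fin.ofNat 2 (k - 5)))
    (([0, 0, 0, 1, 1, 1, 1, 2, 2, 2, 2, 3, 3, 3, 3, 4, 4, 4, 5, 5, 5, 5, 6, 6, 6, 6] : List
    ℕ).getD d 0)
  rp p := Fin.ofNat 26 (([0, 3, 7, 11, 15, 18, 22] : List ℕ).getD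
    (Sum.elim (fun i => i.1) (fun i => i.1 + 5) p) 0)
  ps d := ([0, 1, 2, 0, 1, 2, 3, 0, 1, 2, 3, 0, 1, 2, 3, 0, 1, 2, 0, 1, 2, 3, 0, 1, 2, 3] : List
    ℕ).getD d 0
  fc d := Fin.ofNat 8 (([0, 1, 2, 3, 4, 1, 0, 3, 5, 6, 7, 1, 6, 5, 2, 4, 3, 7, 1, 4, 7, 6, 5, 3,
    0, 2] : List ℕ).getD d 0)
  fr d := Fin.ofNat 26 (([0, 1, 2, 3, 4, 8, 9, 10] : List ℕ).getD d 0)
  fp d := ([0, 0, 0, 0, 0, 3, 1, 2, 0, 0, 0, 1, 2, 1, 2, 2, 1, 1, 2, 1, 2, 1, 2, 3, 2, 1] : List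
    ℕ).getD d 0
  rk d := ([0, 2, 1, 3, 2, 1, 4, 5, 6, 6, 6, 5, 5, 4, 3, 4, 6, 5, 3, 6, 5, 4, 4, 3, 2, 5] : List
    ℕ).getD d 0
  el j i := Fin.ofNat 5 ((([[0, 0, 0], [0, 0, 0], [0, 0, 0], [0, 0, 0], [1, 2, 3]] : List (List
    ℕ)).getD j []).getD i 0)

theorem T5_okD : T5.OkD := by
  constructor <;> decide +kernel

theorem T5_okM : T5.OkM := by
  constructor <;> decide +kernel

theorem T5_okK : T5.OkK := by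
  constructor <;> decide +kernel

theorem T5_deg3 : ∃ d, (T5.nd d).isLeft ∧ T5.sg (T5.sg (T5.sg d)) = d := ⟨0, by decide +kernel⟩

theorem T5_okT : T5.OkT 10 := by
  constructor <;> decide +kernel

end Data

end Pool.Agent.Lib.MP0c8bd9
end

section
/-!
# MP_0c8bd9_co : table `T6`
-/
set_option autoImplicit false

namespace Pool.Agent.Lib.MP0c8bd9

open Sum

namespace Data

/-- table `T6` : 6 vertices, 2 crossings -/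
def T6 : Tab 6 2 32 10 where
  sg d := Fin.ofNat 32 (([1, 2, 0, 4, 5, 6, 7, 3, 9, 10, 11, 12, 8, 14, 15, 16, 13, 18, 19, 20,
    17, 22, 23, 21, 25, 26, 27, 24, 29, 30, 31, 28] : List ℕ).getD d 0)
  si d := Fin.ofNat 32 (([2, 0, 1, 7, 3, 4, 5, 6, 12, 8, 9, 10, 11, 16, 13, 14, 15, 20, 17, 18,
    19, 23, 21, 22, 27, 24, 25, 26, 31, 28, 29, 30] : List ℕ).getD d 0)
  al d := Fin.ofNat 32 (([6, 16, 30, 21, 17, 24, 0, 29, 28, 14, 26, 19, 22, 27, 9, 31, 1, 4, 23,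
    11, 25, 3, 12, 18, 5, 20, 10, 13, 8, 7, 2, 15] : List ℕ).getD d 0)
  nd d := (fun k => if k < 6 then inl (Fin.ofNat 6 k) else inr (Fin.ofNat 2 (k - 6)))
    (([0, 0, 0, 1, 1, 1, 1, 1, 2, 2, 2, 2, 2, 3, 3, 3, 3, 4, 4, 4, 4, 5, 5, 5, 6, 6, 6, 6, 7, 7,
    7, 7] : List ℕ).getD d 0)
  rp p := Fin.ofNat 32 (([0, 3, 8, 13, 17, 21, 24, 28] : List ℕ).getD
    (Sum.elim (fun i => i.1) (fun i => i.1 + 6) p) 0)
  ps d := ([0, 1, 2, 0, 1, 2, 3, 4, 0, 1, 2, 3, 4, 0, 1, 2, 3, 0, 1, 2, 3, 0, 1, 2, 0, 1, 2, 3, 0,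
    1, 2, 3] : List ℕ).getD d 0
  fc d := Fin.ofNat 10 (([0, 1, 2, 3, 4, 5, 1, 0, 3, 6, 7, 8, 9, 1, 7, 6, 2, 5, 4, 9, 8, 4, 3, 9,
    1, 5, 8, 7, 6, 3, 0, 2] : List ℕ).getD d 0)
  fr d := Fin.ofNat 32 (([0, 1, 2, 3, 4, 5, 9, 10, 11, 12] : List ℕ).getD d 0)
  fp d := ([0, 0, 0, 0, 0, 0, 3, 1, 2, 0, 0, 0, 0, 1, 2, 1, 2, 2, 1, 2, 1, 2, 1, 1, 2, 1, 2, 1, 2,
    3, 2, 1] : List ℕ).getD d 0
  rk d := ([0, 2, 1, 4, 3, 2, 1, 4, 5, 6, 6, 7, 6, 5, 5, 4, 3, 4, 7, 6, 5, 5, 7, 6, 3, 6, 5, 4, 4,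
    3, 2, 5] : List ℕ).getD d 0
  el j i := Fin.ofNat 6 ((([[0, 0, 0], [0, 0, 0], [0, 0, 0], [0, 0, 0], [1, 2, 3], [1, 2, 4]] :
    List (List ℕ)).getD j []).getD i 0)

theorem T6_okD : T6.OkD := by
  constructor <;> decide +kernel

theorem T6_okM : T6.OkM := by
  constructor <;> decide +kernel

theorem T6_okK : T6.OkK := by
  constructor <;> decide +kernel

theorem T6_okS : T6.OkS ![21, 22, 23] := by
  constructor <;> decide +kernel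

theorem T6_deg3 : ∃ d, (T6.nd d).isLeft ∧ T6.sg (T6.sg (T6.sg d)) = d := ⟨0, by decide +kernel⟩

end Data

end Pool.Agent.Lib.MP0c8bd9
end

section
/-!
# MP_0c8bd9_co : table `T7`
-/
set_option autoImplicit false

namespace Pool.Agent.Lib.MP0c8bd9

open Sum

namespace Data

/-- table `T7` : 7 vertices, 2 crossings -/
def T7 : Tab 7 2 38 12 where
  sg d := Fin.ofNat 38 (([1, 2, 3, 0, 5, 6, 7, 8, 9, 4, 11, 12, 13, 14, 10, 16, 17, 18, 19, 15,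
    21, 22, 20, 24, 25, 26, 23, 28, 29, 27, 31, 32, 33, 30, 35, 36, 37, 34] : List ℕ).getD d 0)
  si d := Fin.ofNat 38 (([3, 0, 1, 2, 9, 4, 5, 6, 7, 8, 14, 10, 11, 12, 13, 19, 15, 16, 17, 18,
    22, 20, 21, 26, 23, 24, 25, 29, 27, 28, 33, 30, 31, 32, 37, 34, 35, 36] : List ℕ).getD d 0)
  al d := Fin.ofNat 38 (([8, 22, 18, 36, 27, 23, 30, 20, 0, 35, 34, 16, 32, 25, 28, 33, 11, 37, 2,
    21, 7, 19, 1, 5, 29, 13, 31, 4, 14, 24, 6, 26, 12, 15, 10, 9, 3, 17] : List ℕ).getD d 0)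
  nd d := (fun k => if k < 7 then inl (Fin.ofNat 7 k) else inr (Fin.ofNat 2 (k - 7)))
    (([0, 0, 0, 0, 1, 1, 1, 1, 1, 1, 2, 2, 2, 2, 2, 3, 3, 3, 3, 3, 4, 4, 4, 5, 5, 5, 5, 6, 6, 6,
    7, 7, 7, 7, 8, 8, 8, 8] : List ℕ).getD d 0)
  rp p := Fin.ofNat 38 (([0, 4, 10, 15, 20, 23, 27, 30, 34] : List ℕ).getD
    (Sum.elim (fun i => i.1) (fun i => i.1 + 7) p) 0)
  ps d := ([0, 1, 2, 3, 0, 1, 2, 3, 4, 5, 0, 1, 2, 3, 4, 0, 1, 2, 3, 4, 0, 1, 2, 0, 1, 2, 3, 0, 1,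
    2, 0, 1, 2, 3, 0, 1, 2, 3] : List ℕ).getD d 0
  fc d := Fin.ofNat 12 (([0, 1, 2, 3, 4, 5, 6, 7, 1, 0, 4, 8, 9, 10, 11, 7, 9, 8, 3, 2, 1, 7, 2,
    6, 5, 11, 10, 5, 4, 11, 7, 6, 10, 9, 8, 4, 0, 3] : List ℕ).getD d 0)
  fr d := Fin.ofNat 38 (([0, 1, 2, 3, 4, 5, 6, 7, 11, 12, 13, 14] : List ℕ).getD d 0)
  fp d := ([0, 0, 0, 0, 0, 0, 0, 0, 2, 1, 2, 0, 0, 0, 0, 2, 2, 1, 2, 1, 1, 1, 2, 2, 1, 2, 1, 2, 1,
    1, 3, 1, 2, 1, 2, 3, 2, 1] : List ℕ).getD d 0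
  rk d := ([0, 3, 2, 1, 5, 4, 3, 2, 1, 4, 5, 6, 7, 7, 6, 6, 5, 4, 3, 6, 3, 5, 4, 5, 8, 7, 6, 6, 7,
    7, 4, 7, 6, 5, 4, 3, 2, 5] : List ℕ).getD d 0
  el j i := Fin.ofNat 7 ((([[0, 0, 0], [0, 0, 0], [0, 0, 0], [0, 0, 0], [0, 1, 3], [1, 2, 3], [1,
    2, 5]] : List (List ℕ)).getD j []).getD i 0)

theorem T7_okD : T7.OkD := by
  constructor <;> decide +kernel

theorem T7_okM : T7.OkM := by
  constructor <;> decide +kernel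

theorem T7_okK : T7.OkK := by
  constructor <;> decide +kernel

theorem T7_okS : T7.OkS ![20, 21, 22] := by
  constructor <;> decide +kernel

theorem T7_deg3 : ∃ d, (T7.nd d).isLeft ∧ T7.sg (T7.sg (T7.sg d)) = d := ⟨20, by decide +kernel⟩

end Data

end Pool.Agent.Lib.MP0c8bd9
end

section
/-!
# MP_0c8bd9_co : table `T8`
-/
set_option autoImplicit false

namespace Pool.Agent.Lib.MP0c8bd9

open Sum

namespace Data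

/-- table `T8` : 8 vertices, 3 crossings -/
def T8 : Tab 8 3 50 16 where
  sg d := Fin.ofNat 50 (([1, 2, 3, 4, 5, 0, 7, 8, 9, 10, 11, 6, 13, 14, 15, 16, 12, 18, 19, 20,
    21, 17, 23, 24, 25, 26, 27, 22, 29, 30, 31, 28, 33, 34, 32, 36, 37, 35, 39, 40, 41, 38, 43,
    44, 45, 42, 47, 48, 49, 46] : List ℕ).getD d 0)
  si d := Fin.ofNat 50 (([5, 0, 1, 2, 3, 4, 11, 6, 7, 8, 9, 10, 16, 12, 13, 14, 15, 21, 17, 18,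
    19, 20, 27, 22, 23, 24, 25, 26, 31, 28, 29, 30, 34, 32, 33, 37, 35, 36, 41, 38, 39, 40, 45,
    42, 43, 44, 49, 46, 47, 48] : List ℕ).getD d 0)
  al d := Fin.ofNat 50 (([32, 28, 43, 22, 17, 39, 38, 12, 24, 45, 30, 33, 7, 41, 35, 47, 25, 4,
    27, 49, 36, 40, 3, 42, 8, 16, 46, 18, 1, 34, 10, 44, 0, 11, 29, 14, 20, 48, 6, 5, 21, 13, 23,
    2, 31, 9, 26, 15, 37, 19] : List ℕ).getD d 0)
  nd d := (fun k => if k < 8 then inl (Fin.ofNat 8 k) else inr (Fin.ofNat 3 (k - 8)))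
    (([0, 0, 0, 0, 0, 0, 1, 1, 1, 1, 1, 1, 2, 2, 2, 2, 2, 3, 3, 3, 3, 3, 4, 4, 4, 4, 4, 4, 5, 5,
    5, 5, 6, 6, 6, 7, 7, 7, 8, 8, 8, 8, 9, 9, 9, 9, 10, 10, 10, 10] : List ℕ).getD d 0)
  rp p := Fin.ofNat 50 (([0, 6, 12, 17, 22, 28, 32, 35, 38, 42, 46] : List ℕ).getD
    (Sum.elim (fun i => i.1) (fun i => i.1 + 8) p) 0)
  ps d := ([0, 1, 2, 3, 4, 5, 0, 1, 2, 3, 4, 5, 0, 1, 2, 3, 4, 0, 1, 2, 3, 4, 0, 1, 2, 3, 4, 5, 0,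
    1, 2, 3, 0, 1, 2, 0, 1, 2, 0, 1, 2, 3, 0, 1, 2, 3, 0, 1, 2, 3] : List ℕ).getD d 0
  fc d := Fin.ofNat 16 (([0, 1, 2, 3, 4, 5, 0, 6, 7, 8, 9, 10, 7, 6, 11, 12, 13, 5, 4, 14, 15, 11,
    4, 3, 8, 7, 13, 14, 2, 1, 10, 9, 1, 0, 10, 12, 11, 15, 6, 0, 5, 11, 8, 3, 2, 9, 14, 13, 12,
    15] : List ℕ).getD d 0)
  fr d := Fin.ofNat 50 (([0, 1, 2, 3, 4, 5, 7, 8, 9, 10, 11, 14, 15, 16, 19, 20] : List ℕ).getD d
    0)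
  fp d := ([0, 0, 0, 0, 0, 0, 2, 0, 0, 0, 0, 0, 2, 1, 0, 0, 0, 2, 1, 0, 0, 2, 2, 1, 2, 1, 1, 2, 2,
    1, 2, 1, 2, 1, 1, 2, 1, 1, 2, 3, 1, 3, 1, 2, 1, 2, 1, 2, 1, 2] : List ℕ).getD d 0
  rk d := ([0, 5, 4, 3, 2, 1, 4, 7, 7, 6, 5, 4, 6, 5, 8, 8, 7, 3, 6, 6, 5, 4, 4, 7, 8, 7, 6, 5, 4,
    3, 6, 5, 1, 3, 2, 7, 6, 8, 3, 2, 5, 4, 6, 5, 6, 7, 7, 9, 8, 7] : List ℕ).getD d 0
  el j i := Fin.ofNat 8 ((([[0, 0, 0], [0, 0, 0], [0, 0, 0], [0, 0, 0], [0, 1, 2], [0, 1, 4], [0,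
    1, 5], [2, 3, 4]] : List (List ℕ)).getD j []).getD i 0)

theorem T8_okD : T8.OkD := by
  constructor <;> decide +kernel

theorem T8_okM : T8.OkM := by
  constructor <;> decide +kernel

theorem T8_okK : T8.OkK := by
  constructor <;> decide +kernel

theorem T8_okS : T8.OkS ![32, 33, 34] := by
  constructor <;> decide +kernel

theorem T8_deg3 : ∃ d, (T8.nd d).isLeft ∧ T8.sg (T8.sg (T8.sg d)) = d := ⟨32, by decide +kernel⟩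

end Data

end Pool.Agent.Lib.MP0c8bd9
end

section
/-!
# MP_0c8bd9_co : table `T9`
-/
set_option autoImplicit false

namespace Pool.Agent.Lib.MP0c8bd9

open Sum

namespace Data

/-- table `T9` : 9 vertices, 3 crossings -/
def T9 : Tab 9 3 56 18 where
  sg d := Fin.ofNat 56 (([1, 2, 3, 4, 5, 0, 7, 8, 9, 10, 11, 6, 13, 14, 15, 16, 17, 12, 19, 20,
    21, 22, 23, 18, 25, 26, 27, 28, 29, 24, 31, 32, 33, 30, 35, 36, 34, 38, 39, 40, 37, 42, 43,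
    41, 45, 46, 47, 44, 49, 50, 51, 48, 53, 54, 55, 52] : List ℕ).getD d 0)
  si d := Fin.ofNat 56 (([5, 0, 1, 2, 3, 4, 11, 6, 7, 8, 9, 10, 17, 12, 13, 14, 15, 16, 23, 18,
    19, 20, 21, 22, 29, 24, 25, 26, 27, 28, 33, 30, 31, 32, 36, 34, 35, 40, 37, 38, 39, 43, 41,
    42, 47, 44, 45, 46, 51, 48, 49, 50, 55, 52, 53, 54] : List ℕ).getD d 0)
  al d := Fin.ofNat 56 (([34, 30, 49, 24, 18, 45, 44, 12, 26, 51, 32, 35, 7, 47, 41, 37, 53, 27,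
    4, 29, 55, 39, 42, 46, 3, 48, 8, 17, 52, 19, 1, 36, 10, 50, 0, 11, 31, 15, 43, 21, 54, 14, 22,
    38, 6, 5, 23, 13, 25, 2, 33, 9, 28, 16, 40, 20] : List ℕ).getD d 0)
  nd d := (fun k => if k < 9 then inl (Fin.ofNat 9 k) else inr (Fin.ofNat 3 (k - 9)))
    (([0, 0, 0, 0, 0, 0, 1, 1, 1, 1, 1, 1, 2, 2, 2, 2, 2, 2, 3, 3, 3, 3, 3, 3, 4, 4, 4, 4, 4, 4,
    5, 5, 5, 5, 6, 6, 6, 7, 7, 7, 7, 8, 8, 8, 9, 9, 9, 9, 10, 10, 10, 10, 11, 11, 11, 11] : List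
    ℕ).getD d 0)
  rp p := Fin.ofNat 56 (([0, 6, 12, 18, 24, 30, 34, 37, 41, 44, 48, 52] : List ℕ).getD
    (Sum.elim (fun i => i.1) (fun i => i.1 + 9) p) 0)
  ps d := ([0, 1, 2, 3, 4, 5, 0, 1, 2, 3, 4, 5, 0, 1, 2, 3, 4, 5, 0, 1, 2, 3, 4, 5, 0, 1, 2, 3, 4,
    5, 0, 1, 2, 3, 0, 1, 2, 0, 1, 2, 3, 0, 1, 2, 0, 1, 2, 3, 0, 1, 2, 3, 0, 1, 2, 3] : List
    ℕ).getD d 0
  fc d := Fin.ofNat 18 (([0, 1, 2, 3, 4, 5, 0, 6, 7, 8, 9, 10, 7, 6, 11, 12, 13, 14, 5, 4, 15, 16,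
    17, 11, 4, 3, 8, 7, 14, 15, 2, 1, 10, 9, 1, 0, 10, 13, 12, 17, 16, 12, 11, 17, 6, 0, 5, 11, 8,
    3, 2, 9, 15, 14, 13, 16] : List ℕ).getD d 0)
  fr d := Fin.ofNat 56 (([0, 1, 2, 3, 4, 5, 7, 8, 9, 10, 11, 14, 15, 16, 17, 20, 21, 22] : List
    ℕ).getD d 0)
  fp d := ([0, 0, 0, 0, 0, 0, 2, 0, 0, 0, 0, 0, 2, 1, 0, 0, 0, 0, 2, 1, 0, 0, 0, 2, 2, 1, 2, 1, 1,
    2, 2, 1, 2, 1, 2, 1, 1, 2, 1, 2, 1, 2, 1, 1, 2, 3, 1, 3, 1, 2, 1, 2, 1, 2, 1, 2] : List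
    ℕ).getD d 0
  rk d := ([0, 5, 4, 3, 2, 1, 4, 7, 7, 6, 5, 4, 6, 5, 8, 9, 8, 7, 3, 6, 7, 6, 5, 4, 4, 7, 8, 7, 6,
    5, 4, 3, 6, 5, 1, 3, 2, 9, 8, 7, 10, 7, 6, 8, 3, 2, 5, 4, 6, 5, 6, 7, 7, 9, 9, 8] : List
    ℕ).getD d 0
  el j i := Fin.ofNat 9 ((([[0, 0, 0], [0, 0, 0], [0, 0, 0], [0, 0, 0], [0, 1, 2], [0, 1, 4], [0,
    1, 5], [2, 3, 4], [2, 3, 7]] : List (List ℕ)).getD j []).getD i 0)

theorem T9_okD : T9.OkD := by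
  constructor <;> decide +kernel

theorem T9_okM : T9.OkM := by
  constructor <;> decide +kernel

theorem T9_okK : T9.OkK := by
  constructor <;> decide +kernel

theorem T9_okS : T9.OkS ![34, 35, 36] := by
  constructor <;> decide +kernel

theorem T9_deg3 : ∃ d, (T9.nd d).isLeft ∧ T9.sg (T9.sg (T9.sg d)) = d := ⟨34, by decide +kernel⟩

end Data

end Pool.Agent.Lib.MP0c8bd9
end

section
/-!
# MP_0c8bd9_co : assembly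
-/
set_option autoImplicit false

namespace Pool.Agent.Lib.MP0c8bd9

open Sum

namespace FinM

/-- a vertex with at most three neighbours from the star centre -/
theorem star_neighbours {V : Type} (Γ : Drawing V) (S : Star Γ) :
    {w | Γ.graph.Adj S.t w}.ncard ≤ 3 := by
  have hsub : {w | Γ.graph.Adj S.t w} ⊆ Set.range S.P := by
    intro w hw
    obtain ⟨d, h1, h2⟩ := (Γ.adj_iff _ _).1 hw
    have h3 : Γ.σ.SameCycle (S.d 0) d := (Γ.orbit _ _).1 (by rw [S.org_d, h1])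
    have := Γ.finD
    obtain ⟨n, hn⟩ := h3.exists_nat_pow_eq
    have key : ∀ n : ℕ, ∃ i, (Γ.σ ^ n) (S.d 0) = S.d i := by
      intro n
      induction n with
      | zero => exact ⟨0, rfl⟩
      | succ n ih =>
        obtain ⟨i, hi⟩ := ih
        exact ⟨i + 1, by rw [pow_succ', Equiv.Perm.mul_apply, hi, S.rot]⟩
    obtain ⟨i, hi⟩ := key n
    rw [hn] at hi
    subst hi
    refine ⟨i, ?_⟩
    rw [Γ.far_unc (S.org_α i), S.org_α i] at h2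
    exact inl.inj h2
  calc {w | Γ.graph.Adj S.t w}.ncard ≤ (Set.range S.P).ncard :=
        Set.ncard_le_ncard hsub (Set.finite_range _)
    _ ≤ 3 := by
        rw [← Set.image_univ]
        refine (Set.ncard_image_le Set.finite_univ).trans ?_
        rw [Set.ncard_univ, Nat.card_eq_fintype_card, Fintype.card_fin]

/-- State of the construction for Q1. -/
def St (n c : ℕ) : Prop := ∃ Γ : Drawing (Fin n), Γ.Maximal ∧ KConn Γ.graph 3 ∧ Γ.cr = c ∧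
  Nonempty (Star Γ)

/-- transport of the star: the star operation on `Fin n`, and relabelling forgets the star, so the
induction runs over all vertex types -/
def St' (n c : ℕ) : Prop := ∃ (V : Type) (_ : Finite V) (Γ : Drawing V), Nat.card V = n ∧
  Γ.Maximal ∧ KConn Γ.graph 3 ∧ Γ.cr = c ∧ Nonempty (Star Γ)

theorem step (hOP : SpecOP) (hM : SpecOPM) (hK : SpecOPK) (hS : SpecOPS) {n c : ℕ}
    (h : St' n c) : St' (n + 9) (c + 3) := by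
  obtain ⟨V, hV, Γ, hn, hmax, hk, hc, ⟨S⟩⟩ := h
  obtain ⟨Γ', e, x, h1, h2, h3⟩ := hOP V Γ S
  refine ⟨Op.V' V, inferInstance, Γ', ?_, hM V Γ S hmax Γ' e x h1 h2 h3,
    hK V Γ S hk Γ' e x h1 h2 h3, ?_, hS V Γ S Γ' e x h1 h2 h3⟩
  · rw [Nat.card_sum, hn, Nat.card_eq_fintype_card (α := Fin 9), Fintype.card_fin]
  · have := Γ.finX
    rw [Drawing.cr, Nat.card_congr x, Nat.card_sum, Nat.card_eq_fintype_card (α := Fin 3),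
      Fintype.card_fin]
    rw [Drawing.cr] at hc
    rw [hc]

theorem steps (hOP : SpecOP) (hM : SpecOPM) (hK : SpecOPK) (hS : SpecOPS) {n c : ℕ}
    (h : St' n c) (k : ℕ) : St' (n + 9 * k) (c + 3 * k) := by
  induction k with
  | zero => exact h
  | succ k ih => exact step hOP hM hK hS ih

theorem ofSt' (hD3 : SpecD3) (hREL : SpecREL) {n c : ℕ} (h5 : 5 ≤ n) (h : St' n c) :
    c ∈ crSet n := by
  obtain ⟨V, hV, Γ, hn, hmax, hk, hc, ⟨S⟩⟩ := h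
  have e : V ≃ Fin n := by
    rw [← hn]
    exact Finite.equivFin V
  obtain ⟨Γ', h1, h2, h3, h4, -⟩ := hREL V (Fin n) e Γ
  refine ⟨Γ', h1 hmax, ⟨h2 hk, h3 ?_⟩, h4.trans hc⟩
  exact hD3 V Γ.graph S.t (star_neighbours Γ S) (by omega)

theorem ofTab (hTAB : SpecTAB) {n c N F : ℕ} (T : Tab n c N F) (hD : T.OkD) (hM : T.OkM)
    (hK : T.OkK) {d : Fin 3 → Fin N} (hS : T.OkS d) : St' n c := by
  obtain ⟨Γ, h1, h2, h3, -, h4, -⟩ := hTAB n c N F T hD hM hK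
  exact ⟨Fin n, inferInstance, Γ, by simp, h1, h2, h3, h4 d hS⟩

open Data in
theorem base (hTAB : SpecTAB) : St' 6 2 ∧ St' 7 2 ∧ St' 8 3 ∧ St' 9 3 ∧ St' 10 3 ∧ St' 11 3 ∧
    St' 12 4 ∧ St' 13 4 ∧ St' 14 5 :=
  ⟨ofTab hTAB T6 T6_okD T6_okM T6_okK T6_okS, ofTab hTAB T7 T7_okD T7_okM T7_okK T7_okS,
    ofTab hTAB T8 T8_okD T8_okM T8_okK T8_okS, ofTab hTAB T9 T9_okD T9_okM T9_okK T9_okS,
    ofTab hTAB T10 T10_okD T10_okM T10_okK T10_okS, ofTab hTAB T11 T11_okD T11_okM T11_okK T11_okS,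
    ofTab hTAB T12 T12_okD T12_okM T12_okK T12_okS, ofTab hTAB T13 T13_okD T13_okM T13_okK T13_okS,
    ofTab hTAB T14 T14_okD T14_okM T14_okK T14_okS⟩

theorem upper5 (hTAB : SpecTAB) : 2 ∈ crSet 5 := by
  obtain ⟨Γ, h1, h2, h3, -, -, -, h4⟩ := hTAB 5 2 26 8 Data.T5 Data.T5_okD Data.T5_okM Data.T5_okK
  exact ⟨Γ, h1, ⟨h2, h4 Data.T5_deg3 le_rfl⟩, h3⟩

/-- the values of `c₃` -/
def val (n : ℕ) : ℕ := if n % 9 = 5 ∨ n % 9 = 8 then n / 3 + 1 else n / 3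

theorem upper (hTAB : SpecTAB) (hOP : SpecOP) (hM : SpecOPM) (hK : SpecOPK) (hS : SpecOPS)
    (hD3 : SpecD3) (hREL : SpecREL) (n : ℕ) (h5 : 5 ≤ n) : val n ∈ crSet n := by
  obtain ⟨b6, b7, b8, b9, b10, b11, b12, b13, b14⟩ := base hTAB
  have key : ∀ {m c : ℕ} (k : ℕ), St' m c → n = m + 9 * k → val n = c + 3 * k →
      val n ∈ crSet n := by
    intro m c k h h1 h2
    rw [h2]
    subst h1
    exact ofSt' hD3 hREL h5 (steps hOP hM hK hS h k)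
  rcases Nat.eq_or_lt_of_le h5 with h | h
  · rw [← h]
    exact upper5 hTAB
  have hr : n = 6 + (n - 6) := by omega
  have hq : n - 6 = 9 * ((n - 6) / 9) + (n - 6) % 9 := (Nat.div_add_mod _ _).symm
  have hlt : (n - 6) % 9 < 9 := Nat.mod_lt _ (by norm_num)
  generalize hk : (n - 6) / 9 = k at *
  generalize hj : (n - 6) % 9 = j at *
  interval_cases j
  · exact key k b6 (by omega) (by unfold val; split_ifs <;> omega)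
  · exact key k b7 (by omega) (by unfold val; split_ifs <;> omega)
  · exact key k b8 (by omega) (by unfold val; split_ifs <;> omega)
  · exact key k b9 (by omega) (by unfold val; split_ifs <;> omega)
  · exact key k b10 (by omega) (by unfold val; split_ifs <;> omega)
  · exact key k b11 (by omega) (by unfold val; split_ifs <;> omega)
  · exact key k b12 (by omega) (by unfold val; split_ifs <;> omega)
  · exact key k b13 (by omega) (by unfold val; split_ifs <;> omega)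
  · exact key k b14 (by omega) (by unfold val; split_ifs <;> omega)

/-- State of the construction for Q2. -/
def Tt (n m : ℕ) : Prop := ∃ (V : Type) (_ : Finite V) (Γ : Drawing V), Nat.card V = n ∧
  Γ.Maximal ∧ KConn Γ.graph 3 ∧ Γ.size = m ∧ Nonempty (Tip Γ) ∧ ¬ KConn Γ.graph 4

theorem tip_step (hTIP : SpecTIP) (hD3 : SpecD3) {n m : ℕ} (h5 : 4 ≤ n) (h : Tt n m) :
    Tt (n + 1) (m + 3) := by
  obtain ⟨V, hV, Γ, hn, hmax, hk, hm, ⟨T⟩, -⟩ := h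
  obtain ⟨Γ', h1, h2, h3, h4, h6⟩ := hTIP V Γ hmax hk T
  have hc : Nat.card (V ⊕ Fin 1) = n + 1 := by
    rw [Nat.card_sum, hn, Nat.card_eq_fintype_card (α := Fin 1), Fintype.card_fin]
  exact ⟨V ⊕ Fin 1, inferInstance, Γ', hc, h1, h2, by rw [h4, hm], h3,
    hD3 _ Γ'.graph (inr 0) h6 (by omega)⟩

theorem tip_base (hTAB : SpecTAB) : Tt 5 9 := by
  obtain ⟨Γ, h1, h2, h3, h4, -, h5, h6⟩ :=
    hTAB 5 2 26 8 Data.T5 Data.T5_okD Data.T5_okM Data.T5_okK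
  exact ⟨Fin 5, inferInstance, Γ, by simp, h1, h2, by omega, h5 _ Data.T5_okT,
    h6 Data.T5_deg3 le_rfl⟩

theorem tips (hTAB : SpecTAB) (hTIP : SpecTIP) (hD3 : SpecD3) (k : ℕ) :
    Tt (5 + k) (9 + 3 * k) := by
  induction k with
  | zero => exact tip_base hTAB
  | succ k ih =>
    have h : 4 ≤ 5 + k := by omega
    exact tip_step hTIP hD3 h ih

theorem upper2 (hTAB : SpecTAB) (hTIP : SpecTIP) (hD3 : SpecD3) (hREL : SpecREL) (hK4 : SpecK4)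
    (n : ℕ) (h4 : 4 ≤ n) : 3 * n - 6 ∈ sizeSet n := by
  rcases Nat.eq_or_lt_of_le h4 with h | h
  · obtain ⟨Γ, h1, h2, -, h3⟩ := hK4
    rw [← h]
    exact ⟨Γ, h1, h2, h3⟩
  · obtain ⟨V, hV, Γ, hn, hmax, hk, hm, -, hk4⟩ := tips hTAB hTIP hD3 (n - 5)
    have e : V ≃ Fin n := by
      have : Nat.card V = n := by omega
      rw [← this]
      exact Finite.equivFin V
    obtain ⟨Γ', h1, h2, h3, -, h5⟩ := hREL V (Fin n) e Γ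
    exact ⟨Γ', h1 hmax, ⟨h2 hk, h3 hk4⟩, by rw [h5, hm]; omega⟩

end FinM

/-- **Q1**, from the modules. -/
theorem finQ1 (hTAB : SpecTAB) (hOP : SpecOP) (hM : SpecOPM) (hK : SpecOPK) (hS : SpecOPS)
    (hD3 : SpecD3) (hREL : SpecREL) (hK4 : SpecK4) (hLOW : SpecLOWQ1) : StatementQ1 := by
  constructor
  · obtain ⟨Γ, h1, h2, h3, -⟩ := hK4
    exact ⟨⟨Γ, h1, h2, h3⟩, fun c _ => Nat.zero_le c⟩
  · intro n h5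
    refine ⟨FinM.upper hTAB hOP hM hK hS hD3 hREL n h5, ?_⟩
    rintro c ⟨Γ, h1, h2, rfl⟩
    exact hLOW n h5 Γ h1 h2

/-- **Q2**, from the modules. -/
theorem finQ2 (hTAB : SpecTAB) (hTIP : SpecTIP) (hD3 : SpecD3) (hREL : SpecREL) (hK4 : SpecK4)
    (hLOW : SpecLOWQ2) : StatementQ2 := by
  intro n h4
  refine ⟨FinM.upper2 hTAB hTIP hD3 hREL hK4 n h4, ?_⟩
  rintro c ⟨Γ, h1, h2, rfl⟩
  exact hLOW n h4 Γ h1 h2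

end Pool.Agent.Lib.MP0c8bd9
end
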