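import Pool.Agent.Lib.MP_0c8bd9_co.Spec

/-!
# MP_0c8bd9_co : module JOR (the Jordan curve theorem mod 2)
-/

set_option autoImplicit false
set_option linter.unusedSectionVars false

namespace Pool.Agent.Lib.MP0c8bd9

open Sum

namespace JORM

variable {V : Type} (Γ : Drawing V)

/-- A function on darts which is invariant under `σ` and `α` is constant. -/
theorem const_of_inv {β : Type*} (f : Γ.D → β) (h1 : ∀ d, f (Γ.σ d) = f d)
    (h2 : ∀ d, f (Γ.α d) = f d) (a b : Γ.D) : f a = f b := by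
  have h := Γ.conn {d | f d = f b} ⟨b, rfl⟩ (fun d hd => ⟨by
    show f (Γ.σ d) = f b
    rw [h1]; exact hd, by
    show f (Γ.α d) = f b
    rw [h2]; exact hd⟩)
  have : a ∈ {d | f d = f b} := by rw [h]; trivial
  exact this

theorem nonempty_D : Nonempty Γ.D := by
  have := Γ.finD
  by_contra hD
  rw [not_nonempty_iff] at hD
  have h1 : IsEmpty (V ⊕ Γ.X) := ⟨fun p => by obtain ⟨d, -⟩ := Γ.onto p; exact hD.elim d⟩
  have h2 : IsEmpty (Quotient (Equiv.Perm.SameCycle.setoid (Γ.σ * Γ.α))) :=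
    ⟨fun f => by obtain ⟨d, -⟩ := Quotient.exists_rep f; exact hD.elim d⟩
  have := Γ.euler
  rw [Nat.card_of_isEmpty, Nat.card_of_isEmpty, Nat.card_of_isEmpty] at this
  omega

theorem fc_φ (d : Γ.D) : Γ.fc (Γ.φ d) = Γ.fc d := Γ.fc_eq.2 (Γ.sameFace_φ d).symm

theorem fc_σα (d : Γ.D) : Γ.fc (Γ.σ (Γ.α d)) = Γ.fc d := fc_φ Γ d

theorem fc_σ (d : Γ.D) : Γ.fc (Γ.σ d) = Γ.fc (Γ.α d) := by
  rw [← Γ.φ_α, fc_φ]

variable [Fintype Γ.D] [Fintype (V ⊕ Γ.X)] [Fintype Γ.Face]

open Classical in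
/-- orbit sums -/
noncomputable def M : Matrix ((V ⊕ Γ.X) ⊕ Γ.Face) Γ.D (ZMod 2) := Matrix.of fun i d =>
  match i with
  | inl p => if Γ.org d = p then 1 else 0
  | inr f => if Γ.fc (Γ.σ d) = f then 1 else 0

open Classical in
theorem M_mulVec_inl (k : Γ.D → ZMod 2) (p : V ⊕ Γ.X) :
    (M Γ).mulVec k (inl p) = ∑ d, if Γ.org d = p then k d else 0 := by
  simp only [Matrix.mulVec, dotProduct, M, Matrix.of_apply, ite_mul, one_mul, zero_mul]

open Classical in
theorem M_mulVec_inr (k : Γ.D → ZMod 2) (f : Γ.Face) :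
    (M Γ).mulVec k (inr f) = ∑ d, if Γ.fc (Γ.σ d) = f then k d else 0 := by
  simp only [Matrix.mulVec, dotProduct, M, Matrix.of_apply, ite_mul, one_mul, zero_mul]

theorem M_mulVec_inr' [DecidableEq Γ.Face] (k : Γ.D → ZMod 2) (f : Γ.Face) :
    (M Γ).mulVec k (inr f) = ∑ e, if Γ.fc e = f then k (Γ.σ.symm e) else 0 := by
  rw [M_mulVec_inr]
  refine Fintype.sum_equiv Γ.σ _ _ (fun d => ?_)
  rw [Equiv.symm_apply_apply]
  congr

theorem MT_mulVec (c : (V ⊕ Γ.X) ⊕ Γ.Face → ZMod 2) (d : Γ.D) :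
    (M Γ).transpose.mulVec c d = c (inl (Γ.org d)) + c (inr (Γ.fc (Γ.σ d))) := by
  classical
  simp only [Matrix.mulVec, dotProduct, Matrix.transpose_apply]
  rw [Fintype.sum_sum_type]
  congr 1
  · simp only [M, Matrix.of_apply, ite_mul, one_mul, zero_mul]
    rw [Finset.sum_ite_eq]
    simp
  · simp only [M, Matrix.of_apply, ite_mul, one_mul, zero_mul]
    simp

theorem ker_MT : Module.finrank (ZMod 2) (LinearMap.ker (M Γ).transpose.mulVecLin) ≤ 1 := by
  have hd := nonempty_D Γ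
  obtain ⟨d0⟩ := hd
  have hone : (fun _ => 1 : (V ⊕ Γ.X) ⊕ Γ.Face → ZMod 2) ∈
      LinearMap.ker (M Γ).transpose.mulVecLin := by
    rw [LinearMap.mem_ker, Matrix.mulVecLin_apply]
    funext d
    rw [MT_mulVec]
    exact CharTwo.add_self_eq_zero 1
  apply finrank_le_one (⟨_, hone⟩ : LinearMap.ker (M Γ).transpose.mulVecLin)
  rintro ⟨c, hc⟩
  refine ⟨c (inl (Γ.org d0)), ?_⟩
  apply Subtype.ext
  funext i
  show c (inl (Γ.org d0)) * 1 = c i
  rw [mul_one]
  rw [LinearMap.mem_ker, Matrix.mulVecLin_apply] at hc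
  have h1 : ∀ d, c (inl (Γ.org d)) = c (inr (Γ.fc (Γ.σ d))) := fun d => by
    have := congrFun hc d
    rw [MT_mulVec] at this
    exact CharTwo.add_eq_zero.mp this
  have h2 : ∀ d, c (inr (Γ.fc d)) = c (inl (Γ.org d)) := fun d => by
    have := h1 (Γ.σ.symm d)
    rw [Γ.org_σ_symm, Equiv.apply_symm_apply] at this
    exact this.symm
  have h3 : ∀ d, c (inl (Γ.org (Γ.α d))) = c (inl (Γ.org d)) := fun d => by
    rw [← h2, ← fc_σ, ← h1]
  have h4 := const_of_inv Γ (fun d => c (inl (Γ.org d))) (fun d => by simp only [Γ.org_σ]) h3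
  rcases i with p | f
  · obtain ⟨d, rfl⟩ := Γ.onto p
    exact h4 d0 d
  · obtain ⟨d, rfl⟩ := Quotient.exists_rep f
    have := h2 d
    rw [show c (inr (Quotient.mk _ d)) = c (inr (Γ.fc d)) from rfl, this]
    exact h4 d0 d

/-- functions with equal values on the two halves of a segment -/
noncomputable def T : (Γ.D → ZMod 2) →ₗ[ZMod 2] (Γ.D → ZMod 2) :=
  LinearMap.funLeft (ZMod 2) (ZMod 2) Γ.α + LinearMap.id

theorem T_apply (s : Γ.D → ZMod 2) (d : Γ.D) : T Γ s d = s (Γ.α d) + s d := rfl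

theorem mem_W {s : Γ.D → ZMod 2} : s ∈ LinearMap.ker (T Γ) ↔ ∀ d, s (Γ.α d) = s d := by
  rw [LinearMap.mem_ker]
  constructor
  · intro h d
    have := congrFun h d
    rw [T_apply] at this
    exact CharTwo.add_eq_zero.mp this
  · intro h
    funext d
    rw [T_apply, h]
    exact CharTwo.add_self_eq_zero _

theorem card_le_W : Fintype.card Γ.D ≤ 2 * Module.finrank (ZMod 2) (LinearMap.ker (T Γ)) := by
  have h1 := LinearMap.finrank_range_add_finrank_ker (T Γ)
  rw [Module.finrank_fintype_fun_eq_card] at h1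
  have h2 : LinearMap.range (T Γ) ≤ LinearMap.ker (T Γ) := by
    rintro _ ⟨s, rfl⟩
    rw [mem_W]
    intro d
    rw [T_apply, T_apply, Γ.invol, add_comm]
  have h3 := Submodule.finrank_mono h2
  omega

/-- coboundary -/
noncomputable def δ : (Γ.D → ZMod 2) →ₗ[ZMod 2] (Γ.D → ZMod 2) :=
  LinearMap.funLeft (ZMod 2) (ZMod 2) Γ.σ + LinearMap.id

theorem δ_apply (s : Γ.D → ZMod 2) (d : Γ.D) : δ Γ s d = s (Γ.σ d) + s d := rfl

theorem ker_δ : Module.finrank (ZMod 2) (LinearMap.ker ((δ Γ).domRestrict (LinearMap.ker (T Γ)))) ≤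
    1 := by
  obtain ⟨d0⟩ := nonempty_D Γ
  have h1 : (fun _ => 1 : Γ.D → ZMod 2) ∈ LinearMap.ker (T Γ) := by
    rw [mem_W]; intro d; rfl
  have h2 : (⟨_, h1⟩ : LinearMap.ker (T Γ)) ∈
      LinearMap.ker ((δ Γ).domRestrict (LinearMap.ker (T Γ))) := by
    rw [LinearMap.mem_ker]
    funext d
    exact CharTwo.add_self_eq_zero 1
  apply finrank_le_one (⟨_, h2⟩ : LinearMap.ker ((δ Γ).domRestrict (LinearMap.ker (T Γ))))
  rintro ⟨⟨s, hs⟩, hs2⟩
  refine ⟨s d0, ?_⟩
  apply Subtype.ext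
  apply Subtype.ext
  funext d
  show s d0 * 1 = s d
  rw [mul_one]
  rw [LinearMap.mem_ker] at hs2
  refine const_of_inv Γ s (fun d => ?_) ((mem_W Γ).1 hs) d0 d
  have := congrFun hs2 d
  change s (Γ.σ d) + s d = 0 at this
  exact CharTwo.add_eq_zero.mp this

theorem map_le : Submodule.map (δ Γ) (LinearMap.ker (T Γ)) ≤ LinearMap.ker (M Γ).mulVecLin := by
  classical
  rintro _ ⟨s, hs, rfl⟩
  rw [SetLike.mem_coe, mem_W] at hs
  rw [LinearMap.mem_ker, Matrix.mulVecLin_apply]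
  funext i
  rcases i with p | f
  · rw [M_mulVec_inl]
    have h1 : ∀ d, (if Γ.org d = p then δ Γ s d else 0) =
        (if Γ.org (Γ.σ d) = p then s (Γ.σ d) else 0) + (if Γ.org d = p then s d else 0) := by
      intro d
      rw [Γ.org_σ, δ_apply]
      split_ifs <;> simp
    rw [Finset.sum_congr rfl (fun d _ => h1 d), Finset.sum_add_distrib,
      Equiv.sum_comp Γ.σ (fun d => if Γ.org d = p then s d else 0)]
    exact CharTwo.add_self_eq_zero _
  · rw [M_mulVec_inr]
    have h1 : ∀ d, (if Γ.fc (Γ.σ d) = f then δ Γ s d else 0) =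
        (if Γ.fc (Γ.σ d) = f then s (Γ.σ d) else 0) +
          (if Γ.fc (Γ.α d) = f then s (Γ.α d) else 0) := by
      intro d
      rw [fc_σ, δ_apply, hs]
      split_ifs <;> simp
    rw [Finset.sum_congr rfl (fun d _ => h1 d), Finset.sum_add_distrib,
      Equiv.sum_comp Γ.σ (fun d => if Γ.fc d = f then s d else 0),
      Equiv.sum_comp Γ.α (fun d => if Γ.fc d = f then s d else 0)]
    exact CharTwo.add_self_eq_zero _

theorem map_eq : Submodule.map (δ Γ) (LinearMap.ker (T Γ)) = LinearMap.ker (M Γ).mulVecLin := by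
  apply Submodule.eq_of_le_of_finrank_le (map_le Γ)
  have h1 := card_le_W Γ
  have h2 := ker_δ Γ
  have h3 := LinearMap.finrank_range_add_finrank_ker ((δ Γ).domRestrict (LinearMap.ker (T Γ)))
  rw [LinearMap.range_domRestrict] at h3
  have h4 := LinearMap.finrank_range_add_finrank_ker (M Γ).mulVecLin
  have h5 := LinearMap.finrank_range_add_finrank_ker (M Γ).transpose.mulVecLin
  have h6 : Module.finrank (ZMod 2) (LinearMap.range (M Γ).transpose.mulVecLin) =
      Module.finrank (ZMod 2) (LinearMap.range (M Γ).mulVecLin) := Matrix.rank_transpose (M Γ)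
  have h7 := ker_MT Γ
  rw [Module.finrank_fintype_fun_eq_card] at h4 h5
  rw [Fintype.card_sum] at h5
  have h8 := Γ.euler
  have h9 : Nat.card (Quotient (Equiv.Perm.SameCycle.setoid (Γ.σ * Γ.α))) = Fintype.card Γ.Face :=
    Nat.card_eq_fintype_card (α := Γ.Face)
  rw [h9, Nat.card_eq_fintype_card, Nat.card_eq_fintype_card] at h8
  omega

end JORM

open JORM in
theorem specJOR : SpecJOR := by
  intro V _ Γ k h1 h2
  classical
  have := Γ.finD
  have := Γ.finX
  let _ : Fintype Γ.D := Fintype.ofFinite _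
  let _ : Fintype (V ⊕ Γ.X) := Fintype.ofFinite _
  let _ : Fintype Γ.Face := Fintype.ofFinite _
  have hk : k ∈ LinearMap.ker (M Γ).mulVecLin := by
    rw [LinearMap.mem_ker, Matrix.mulVecLin_apply]
    funext i
    rcases i with p | f
    · obtain ⟨d, rfl⟩ := Γ.onto p
      have := h1 d
      rw [finsum_mem_def, finsum_eq_sum_of_fintype] at this
      rw [M_mulVec_inl, Pi.zero_apply]
      refine Eq.trans (Finset.sum_congr rfl (fun e _ => ?_)) this
      rw [Set.indicator_apply]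
      have : Γ.org e = Γ.org d ↔ e ∈ {e | Γ.σ.SameCycle d e} := by
        rw [Set.mem_ofPred_eq, ← Γ.orbit, eq_comm]
      simp only [this]
    · obtain ⟨d, rfl⟩ := Quotient.exists_rep f
      have := h2 d
      rw [finsum_mem_def, finsum_eq_sum_of_fintype] at this
      rw [M_mulVec_inr', Pi.zero_apply]
      refine Eq.trans (Finset.sum_congr rfl (fun e _ => ?_)) this
      rw [Set.indicator_apply]
      have : Γ.fc e = Quotient.mk _ d ↔ e ∈ {e | Γ.φ.SameCycle d e} := by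
        rw [Set.mem_ofPred_eq, show (Quotient.mk _ d : Γ.Face) = Γ.fc d from rfl, eq_comm, Γ.fc_eq]
      simp only [this]
  rw [← map_eq] at hk
  obtain ⟨s, hs, hsk⟩ := hk
  rw [SetLike.mem_coe, mem_W] at hs
  refine ⟨s, hs, fun d => ?_⟩
  have := congrFun hsk d
  rw [δ_apply] at this
  rw [← this, add_comm, add_assoc, CharTwo.add_self_eq_zero, add_zero]

end Pool.Agent.Lib.MP0c8bd9
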