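import Pool.Agent.Lib.MP_0c8bd9_co.Spec
import Pool.Agent.Lib.MP_0c8bd9_co.Spec2

section
/-!
# MP_0c8bd9_co : counting
-/
set_option autoImplicit false

namespace Pool.Agent.Lib.MP0c8bd9

open Sum

namespace CNTM

variable {V : Type} (Γ : Drawing V)

/-- the darts at a crossing -/
theorem card_at (x : Γ.X) : Nat.card {d : Γ.D // Γ.org d = inr x} = 4 := by
  obtain ⟨d, hd⟩ := Γ.onto (inr x)
  have h2 := Γ.σσ_ne hd
  have h1 := Γ.σ_ne hd
  have h3 := Γ.σσσ_ne hd
  let f : Fin 4 → {d : Γ.D // Γ.org d = inr x} :=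
    ![⟨d, hd⟩, ⟨Γ.σ d, by rw [Γ.org_σ, hd]⟩, ⟨Γ.σ (Γ.σ d), by rw [Γ.org_σ2, hd]⟩,
      ⟨Γ.σ (Γ.σ (Γ.σ d)), by rw [Γ.org_σ3, hd]⟩]
  have hf : Function.Bijective f := by
    constructor
    · have key : ∀ i j : Fin 4, i < j → f i ≠ f j := by
        intro i j hij h
        have h := congrArg Subtype.val h
        fin_cases i <;> fin_cases j <;> first
          | exact absurd hij (by decide)
          | exact h1 h.symm
          | exact h2 h.symm
          | exact h3 h.symm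
          | exact h1 (Γ.σ.injective h.symm)
          | exact h2 (Γ.σ.injective h.symm)
          | exact h1 (Γ.σ.injective (Γ.σ.injective h.symm))
      intro i j hij
      rcases lt_trichotomy i j with h | h | h
      · exact absurd hij (key i j h)
      · exact h
      · exact absurd hij.symm (key j i h)
    · rintro ⟨e, he⟩
      rcases Γ.eq_of_org hd he with h | h | h | h
      · exact ⟨0, Subtype.ext h.symm⟩
      · exact ⟨1, Subtype.ext h.symm⟩
      · exact ⟨2, Subtype.ext h.symm⟩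
      · exact ⟨3, Subtype.ext h.symm⟩
  rw [← Nat.card_congr (Equiv.ofBijective f hf)]
  simp

theorem card_right : Nat.card {d : Γ.D // (Γ.org d).isRight} = 4 * Γ.cr := by
  have := Γ.finD
  have := Γ.finX
  have := Fintype.ofFinite Γ.X
  let e : {d : Γ.D // (Γ.org d).isRight} ≃ Σ x : Γ.X, {d : Γ.D // Γ.org d = inr x} :=
    { toFun := fun d => ⟨(Γ.org d.1).getRight d.2, ⟨d.1, by simp⟩⟩
      invFun := fun p => ⟨p.2.1, by rw [p.2.2]; rfl⟩
      left_inv := fun d => rfl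
      right_inv := by
        rintro ⟨x, d, hd⟩
        exact Sigma.subtype_ext (by simp [hd]) rfl }
  rw [Nat.card_congr e, Nat.card_sigma]
  simp only [card_at]
  rw [Finset.sum_const, Finset.card_univ, Drawing.cr, Nat.card_eq_fintype_card, smul_eq_mul,
    mul_comm]

theorem card_LR : Nat.card {d : Γ.D // (Γ.org d).isLeft} +
    Nat.card {d : Γ.D // (Γ.org d).isRight} = Nat.card Γ.D := by
  have := Γ.finD
  have := Fintype.ofFinite Γ.D
  classical
  rw [Nat.card_eq_fintype_card, Nat.card_eq_fintype_card, Nat.card_eq_fintype_card,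
    Fintype.card_subtype, Fintype.card_subtype, ← Finset.card_univ,
    ← Finset.card_filter_add_card_filter_not (s := Finset.univ)
      (p := fun d => (Γ.org d).isLeft = true)]
  congr 2
  ext d
  simp

theorem sum_fc [Fintype Γ.Face] (P : Γ.D → Prop) :
    ∑ f : Γ.Face, Nat.card {d : Γ.D // Γ.fc d = f ∧ P d} = Nat.card {d : Γ.D // P d} := by
  have := Γ.finD
  rw [← Nat.card_sigma]
  refine Nat.card_congr ?_
  exact
    { toFun := fun p => ⟨p.2.1, p.2.2.2⟩
      invFun := fun d => ⟨Γ.fc d.1, ⟨d.1, rfl, d.2⟩⟩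
      left_inv := by
        rintro ⟨f, d, rfl, hd⟩
        rfl
      right_inv := fun d => rfl }

theorem sum_tn [Fintype Γ.Face] :
    ∑ f : Γ.Face, Γ.tn f = Nat.card {d : Γ.D // (Γ.org d).isLeft} :=
  sum_fc Γ (fun d => (Γ.org d).isLeft)

theorem sum_sn [Fintype Γ.Face] : ∑ f : Γ.Face, Γ.sn f = 4 * Γ.cr :=
  (sum_fc Γ (fun d => (Γ.org d).isRight)).trans (card_right Γ)

theorem card_left (hSZD : SpecSZD) [Finite V] :
    Nat.card {d : Γ.D // (Γ.org d).isLeft} = 2 * Γ.size := by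
  have h1 := hSZD V Γ
  have h2 := card_LR Γ
  have h3 := card_right Γ
  omega

theorem Fn_eq [Fintype Γ.Face] (k : ℕ) :
    Γ.Fn k = (Finset.univ.filter fun f : Γ.Face => Γ.tn f = k).card := by
  classical
  rw [Drawing.Fn, Nat.card_eq_fintype_card, Fintype.card_subtype]

end CNTM

open CNTM in
theorem specCNT (hSIZ : SpecSIZ) (hSZD : SpecSZD) : SpecCNT := by
  intro V Γ hG
  have := hG.fin
  have := Γ.finD
  have := Γ.finX
  have := Fintype.ofFinite Γ.Face
  have h1 := sum_tn Γ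
  rw [card_left Γ hSZD] at h1
  have h2 : ∑ f : Γ.Face, Γ.tn f = 2 * Γ.Fn 2 + 3 * Γ.Fn 3 := by
    rw [Fn_eq, Fn_eq, Finset.card_filter, Finset.card_filter, Finset.mul_sum, Finset.mul_sum,
      ← Finset.sum_add_distrib]
    apply Finset.sum_congr rfl
    intro f _
    rcases (hSIZ V Γ hG f).1 with h | h <;> simp [h]
  have h3 : Nat.card Γ.Face = Γ.Fn 2 + Γ.Fn 3 := by
    rw [Fn_eq, Fn_eq, Finset.card_filter, Finset.card_filter, ← Finset.sum_add_distrib,
      Nat.card_eq_fintype_card, ← Finset.card_univ, Finset.card_eq_sum_ones]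
    apply Finset.sum_congr rfl
    intro f _
    rcases (hSIZ V Γ hG f).1 with h | h <;> simp [h]
  have h4 := Γ.euler
  have h5 := hSZD V Γ
  have h6 : Nat.card (V ⊕ Γ.X) = Nat.card V + Γ.cr := Nat.card_sum
  change 2 * (Nat.card (V ⊕ Γ.X) + Nat.card Γ.Face) = Nat.card Γ.D + 4 at h4
  omega

end Pool.Agent.Lib.MP0c8bd9
end

section
/-!
# MP_0c8bd9_co : many faces with two vertices
-/
set_option autoImplicit false

namespace Pool.Agent.Lib.MP0c8bd9

open Sum

namespace LOW2M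

variable {V : Type} (Γ : Drawing V)

theorem mem_of_closed (A : Set Γ.D) {p q : Γ.D} (hp : p ∈ A) (hA : ∀ d ∈ A, Γ.φ d ∈ A)
    (h : Γ.φ.SameCycle p q) : q ∈ A := by
  have := Γ.finD
  obtain ⟨n, hn⟩ := h.exists_nat_pow_eq
  rw [← hn]
  clear hn h
  induction n with
  | zero => simpa using hp
  | succ n ih =>
    rw [pow_succ', Equiv.Perm.mul_apply]
    exact hA _ ih

theorem tn_le_two {f : Γ.Face} (a b : Γ.D)
    (h : ∀ d, Γ.fc d = f → (Γ.org d).isLeft → d = a ∨ d = b) : Γ.tn f ≤ 2 := by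
  have h1 : Γ.tn f = Set.ncard {d : Γ.D | Γ.fc d = f ∧ (Γ.org d).isLeft} := rfl
  rw [h1]
  refine (Set.ncard_le_ncard (t := {a, b}) ?_ (Set.toFinite _)).trans ?_
  · rintro d ⟨h2, h3⟩
    exact h d h2 h3
  · exact (Set.ncard_insert_le _ _).trans (by rw [Set.ncard_singleton])

theorem sn_le_one {f : Γ.Face} (a : Γ.D)
    (h : ∀ d, Γ.fc d = f → (Γ.org d).isRight → d = a) : Γ.sn f ≤ 1 := by
  have h1 : Γ.sn f = Set.ncard {d : Γ.D | Γ.fc d = f ∧ (Γ.org d).isRight} := rfl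
  rw [h1]
  refine (Set.ncard_le_ncard (t := {a}) ?_ (Set.toFinite _)).trans ?_
  · rintro d ⟨h2, h3⟩
    exact h d h2 h3
  · rw [Set.ncard_singleton]

theorem org_next {p : Γ.D} {x : Γ.X} (h : Γ.org p = inr x) : ∃ v, Γ.org (Γ.φ p) = inl v := by
  rw [Γ.org_φ]
  exact Γ.once _ _ h

theorem org_prev {p : Γ.D} {x : Γ.X} (h : Γ.org p = inr x) :
    ∃ v, Γ.org (Γ.φ.symm p) = inl v := by
  rw [Γ.φ_symm]
  exact Γ.once _ x (by rw [Γ.org_σ_symm, h])

/-- the face of a dart which is not open -/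
theorem tri {p : Γ.D} (h : Γ.φ (Γ.φ p) = Γ.φ.symm p) {q : Γ.D} (hq : Γ.φ.SameCycle p q) :
    q = p ∨ q = Γ.φ p ∨ q = Γ.φ.symm p := by
  apply mem_of_closed Γ {d | d = p ∨ d = Γ.φ p ∨ d = Γ.φ.symm p} (Or.inl rfl) ?_ hq
  rintro d (rfl | rfl | rfl)
  · exact Or.inr (Or.inl rfl)
  · exact Or.inr (Or.inr h)
  · exact Or.inl (Equiv.apply_symm_apply _ _)

theorem tri_tn {p : Γ.D} {x : Γ.X} (hx : Γ.org p = inr x) (h : Γ.φ (Γ.φ p) = Γ.φ.symm p) :
    Γ.tn (Γ.fc p) ≤ 2 := by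
  apply tn_le_two Γ (Γ.φ p) (Γ.φ.symm p)
  intro d hd h2
  rcases tri Γ h ((Γ.fc_eq.1 hd).symm) with h3 | h3 | h3
  · rw [h3, hx] at h2
    simp at h2
  · exact Or.inl h3
  · exact Or.inr h3

theorem tri_sn {p : Γ.D} {x : Γ.X} (hx : Γ.org p = inr x) (h : Γ.φ (Γ.φ p) = Γ.φ.symm p) :
    Γ.sn (Γ.fc p) ≤ 1 := by
  apply sn_le_one Γ p
  intro d hd h2
  obtain ⟨v, hv⟩ := org_next Γ hx
  obtain ⟨w, hw⟩ := org_prev Γ hx
  rcases tri Γ h ((Γ.fc_eq.1 hd).symm) with h3 | h3 | h3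
  · exact h3
  · rw [h3, hv] at h2
    simp at h2
  · rw [h3, hw] at h2
    simp at h2

/-- an open dart -/
def Open (p : Γ.D) : Prop := (∃ x, Γ.org p = inr x) ∧ Γ.φ (Γ.φ p) ≠ Γ.φ.symm p

/-- `d` is the dart of OPN for `p` -/
def Dt (p d : Γ.D) : Prop := ∃ a b y, a ≠ b ∧ Γ.org (Γ.φ.symm p) = inl a ∧ Γ.org (Γ.φ p) = inl b ∧
  Γ.org d = inl a ∧ Γ.org (Γ.far d) = inl b ∧ Γ.org (Γ.α d) = inr y

/-- two open darts with the same crossing -/
theorem pair (hXB : SpecXB) (hL1 : SpecL1) (hDIST : SpecDIST) (hG : Good Γ) {p p' d d' : Γ.D}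
    (h : Dt Γ p d) (h' : Dt Γ p' d') (he : Γ.org (Γ.α d) = Γ.org (Γ.α d')) :
    p' = p ∨ (p' = Γ.φ (Γ.φ p) ∧ Γ.φ (Γ.φ p') = p) := by
  have := hG.fin
  obtain ⟨a, b, y, hab, h1, h2, h3, h4, h5⟩ := h
  obtain ⟨a', b', y', hab', h1', h2', h3', h4', h5'⟩ := h'
  have hs : Γ.φ.SameCycle (Γ.φ.symm p) (Γ.φ p) := ⟨2, by
    rw [show (2 : ℤ) = ((2 : ℕ) : ℤ) from rfl, zpow_natCast, pow_two, Equiv.Perm.mul_apply,
      Equiv.apply_symm_apply]⟩
  have hs' : Γ.φ.SameCycle (Γ.φ.symm p') (Γ.φ p') := ⟨2, by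
    rw [show (2 : ℤ) = ((2 : ℕ) : ℤ) from rfl, zpow_natCast, pow_two, Equiv.Perm.mul_apply,
      Equiv.apply_symm_apply]⟩
  have hXB' : ¬ Γ.Cr d d' := by
    intro hc
    exact hXB V Γ hG d d' (Γ.φ.symm p) (Γ.φ p) (Γ.φ.symm p') (Γ.φ p') hc ⟨a, h3⟩ ⟨a', h3'⟩
      (by rw [h1, h3]) (by rw [h2, h4]) hs (by rw [h1', h3']) (by rw [h2', h4']) hs'
  -- no uncrossed edge from `a` to `b`
  have hno : ∀ q, Γ.org q = inl a → Γ.org (Γ.α q) = inl b → False := by
    intro q hq1 hq2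
    have h6 : q = d := Γ.far_inj hq1 h3 (by rw [Γ.far_unc hq2, hq2, h4])
    rw [h6, h5] at hq2
    exact Sum.inr_ne_inl hq2
  have hcase : d' = d ∨ d' = Γ.far d := by
    rcases Γ.eq_of_org h5 (he.symm.trans h5) with h6 | h6 | h6 | h6
    · exact Or.inl (Γ.α.injective h6)
    · exact absurd ⟨y, h5, Or.inl h6⟩ hXB'
    · right
      rw [Γ.far_cr h5, ← h6, Γ.invol]
    · exact absurd ⟨y, h5, Or.inr h6⟩ hXB'
  rcases hcase with h6 | h6
  · left
    rw [h6] at h3' h4'
    have haa : a' = a := inl.inj (h3'.symm.trans h3)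
    have hbb : b' = b := inl.inj (h4'.symm.trans h4)
    rw [haa] at h1'
    rw [hbb] at h2'
    by_contra hne
    have hnf : ¬ Γ.φ.SameCycle (Γ.φ.symm p) (Γ.φ.symm p') := by
      intro hsf
      have := hDIST V Γ hG.k3 _ _ hsf (by rw [h1, h1'])
      exact hne (Γ.φ.symm.injective this).symm
    obtain ⟨q, hq1, hq2, -⟩ := hL1 V Γ hG.k3 a b (Γ.φ.symm p) (Γ.φ p) (Γ.φ.symm p') (Γ.φ p') hab
      h1 h2 h1' h2' hs hs' hnf
    exact hno q hq1 hq2
  · right
    rw [h6] at h3' h4'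
    rw [Γ.far_far h3] at h4'
    have hab1 : a' = b := inl.inj (h3'.symm.trans h4)
    have hba1 : b' = a := inl.inj (h4'.symm.trans h3)
    rw [hab1] at h1'
    rw [hba1] at h2'
    have hsf : Γ.φ.SameCycle (Γ.φ.symm p) (Γ.φ p') := by
      by_contra hnf
      obtain ⟨q, hq1, hq2, -⟩ := hL1 V Γ hG.k3 a b (Γ.φ.symm p) (Γ.φ p) (Γ.φ p') (Γ.φ.symm p') hab
        h1 h2 h2' h1' hs hs'.symm hnf
      exact hno q hq1 hq2
    have e1 : Γ.φ.symm p = Γ.φ p' := hDIST V Γ hG.k3 _ _ hsf (by rw [h1, h2'])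
    have e2 : Γ.φ p = Γ.φ.symm p' :=
      hDIST V Γ hG.k3 _ _ ((hs.symm.trans hsf).trans hs'.symm) (by rw [h2, h1'])
    constructor
    · rw [e2, Equiv.apply_symm_apply]
    · rw [← e1, Equiv.apply_symm_apply]

/-- a face with two opposite crossings has two vertices -/
theorem quad_tn {p : Γ.D} {x x' : Γ.X} (hx : Γ.org p = inr x) (hx' : Γ.org (Γ.φ (Γ.φ p)) = inr x')
    (h : Γ.φ (Γ.φ (Γ.φ (Γ.φ p))) = p) : Γ.tn (Γ.fc p) ≤ 2 := by
  apply tn_le_two Γ (Γ.φ p) (Γ.φ (Γ.φ (Γ.φ p)))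
  intro d hd h2
  have h3 : d ∈ ({d | d = p ∨ d = Γ.φ p ∨ d = Γ.φ (Γ.φ p) ∨ d = Γ.φ (Γ.φ (Γ.φ p))} : Set Γ.D) := by
    apply mem_of_closed Γ _ (Or.inl rfl) ?_ ((Γ.fc_eq.1 hd).symm)
    rintro d (rfl | rfl | rfl | rfl)
    · exact Or.inr (Or.inl rfl)
    · exact Or.inr (Or.inr (Or.inl rfl))
    · exact Or.inr (Or.inr (Or.inr rfl))
    · exact Or.inl h
  rcases h3 with h3 | h3 | h3 | h3
  · rw [h3, hx] at h2
    simp at h2
  · exact Or.inl h3
  · rw [h3, hx'] at h2
    simp at h2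
  · exact Or.inr h3

end LOW2M

open LOW2M CNTM in
theorem specLOW2 (hSIZ : SpecSIZ) (hOPN : SpecOPN) (hXB : SpecXB) (hL1 : SpecL1)
    (hDIST : SpecDIST) : SpecLOW2 := by
  intro V Γ hG
  classical
  have := hG.fin
  have := Γ.finD
  have := Γ.finX
  have := Fintype.ofFinite Γ.Face
  have := Fintype.ofFinite Γ.D
  have := Fintype.ofFinite Γ.X
  have := Fintype.ofFinite V
  have hex : ∀ p, ∃ d, Open Γ p → Dt Γ p d := by
    intro p
    by_cases hp : Open Γ p
    · obtain ⟨⟨x, hx⟩, h2⟩ := hp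
      obtain ⟨d, a, b, y, h⟩ := hOPN V Γ hG.max hG.k3 p x hx h2
      exact ⟨d, fun _ => ⟨a, b, y, h⟩⟩
    · exact ⟨p, fun h => absurd h hp⟩
  choose δ hδ using hex
  let O : Finset Γ.D := Finset.univ.filter (Open Γ)
  let w : Γ.D → ℕ := fun p => if Γ.tn (Γ.fc p) = 3 then 2 else 1
  have hw1 : ∀ p, 1 ≤ w p := by
    intro p
    simp only [w]
    split_ifs <;> omega
  -- every crossing gets at most 2
  have hfib : ∀ y : V ⊕ Γ.X, ∑ p ∈ O with Γ.org (Γ.α (δ p)) = y, w p ≤ 2 := by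
    intro y
    rcases (O.filter (fun p => Γ.org (Γ.α (δ p)) = y)).eq_empty_or_nonempty with h0 | ⟨p, hp⟩
    · rw [h0]
      simp
    · have hpO : Open Γ p := by
        have := (Finset.mem_filter.1 hp).1
        exact (Finset.mem_filter.1 this).2
      have hpy : Γ.org (Γ.α (δ p)) = y := (Finset.mem_filter.1 hp).2
      have hall : ∀ p' ∈ O.filter (fun p => Γ.org (Γ.α (δ p)) = y),
          p' = p ∨ (p' = Γ.φ (Γ.φ p) ∧ Γ.φ (Γ.φ p') = p ∧ Γ.tn (Γ.fc p) ≤ 2) := by
        intro p' hp'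
        have hp'O : Open Γ p' := by
          have := (Finset.mem_filter.1 hp').1
          exact (Finset.mem_filter.1 this).2
        have hp'y : Γ.org (Γ.α (δ p')) = y := (Finset.mem_filter.1 hp').2
        rcases pair Γ hXB hL1 hDIST hG (hδ p hpO) (hδ p' hp'O) (hpy.trans hp'y.symm) with h | ⟨h, h'⟩
        · exact Or.inl h
        · right
          refine ⟨h, h', ?_⟩
          obtain ⟨⟨x, hx⟩, -⟩ := hpO
          obtain ⟨⟨x', hx'⟩, -⟩ := hp'O
          rw [h] at hx' h'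
          exact quad_tn Γ hx hx' h'
      by_cases ht : Γ.tn (Γ.fc p) = 3
      · have hsub : O.filter (fun p => Γ.org (Γ.α (δ p)) = y) ⊆ {p} := by
          intro p' hp'
          rcases hall p' hp' with h | ⟨-, -, h⟩
          · rw [h]; exact Finset.mem_singleton_self _
          · omega
        refine (Finset.sum_le_sum_of_subset hsub).trans ?_
        rw [Finset.sum_singleton]
        simp [w, ht]
      · have hsub : O.filter (fun p => Γ.org (Γ.α (δ p)) = y) ⊆ {p, Γ.φ (Γ.φ p)} := by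
          intro p' hp'
          rcases hall p' hp' with h | ⟨h, -, -⟩
          · rw [h]; simp
          · rw [h]; simp
        refine (Finset.sum_le_sum_of_subset hsub).trans ?_
        have hw : ∀ q ∈ ({p, Γ.φ (Γ.φ p)} : Finset Γ.D), w q ≤ 1 := by
          intro q hq
          have hfc : Γ.fc q = Γ.fc p := by
            rw [Finset.mem_insert, Finset.mem_singleton] at hq
            rcases hq with rfl | rfl
            · rfl
            · rw [Γ.fc_eq]
              exact ((Γ.sameFace_φ _).trans (Γ.sameFace_φ _)).symm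
          simp only [w, hfc]
          rw [if_neg ht]
        refine (Finset.sum_le_card_nsmul _ _ _ hw).trans ?_
        rw [smul_eq_mul, mul_one]
        exact (Finset.card_insert_le _ _).trans (by rw [Finset.card_singleton])
  -- so the total weight is at most 2 cr
  have htot : ∑ p ∈ O, w p ≤ 2 * Γ.cr := by
    have hmaps : ∀ p ∈ O, Γ.org (Γ.α (δ p)) ∈
        (Finset.univ.image (inr : Γ.X → V ⊕ Γ.X)) := by
      intro p hp
      obtain ⟨a, b, y, -, -, -, -, -, h⟩ := hδ p (Finset.mem_filter.1 hp).2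
      rw [h]
      exact Finset.mem_image_of_mem _ (Finset.mem_univ _)
    rw [← Finset.sum_fiberwise_of_maps_to hmaps]
    refine (Finset.sum_le_card_nsmul _ _ 2 (fun y _ => hfib y)).trans ?_
    rw [Finset.card_image_of_injective _ inr_injective, Finset.card_univ, Drawing.cr,
      Nat.card_eq_fintype_card, smul_eq_mul, mul_comm]
  -- the inequality for a face
  have hface : ∀ f : Γ.Face, 2 * Γ.sn f ≤ 2 * (if Γ.tn f = 2 then 1 else 0) +
      ∑ p ∈ O with Γ.fc p = f, w p := by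
    intro f
    have hsn : Γ.sn f = (Finset.univ.filter fun d => Γ.fc d = f ∧ (Γ.org d).isRight).card := by
      rw [Drawing.sn, Nat.card_eq_fintype_card, Fintype.card_subtype]
    rcases (hSIZ V Γ hG f).1 with ht | ht
    · rw [if_pos ht]
      by_cases hs1 : Γ.sn f ≤ 1
      · omega
      have hs2 : Γ.sn f ≤ Γ.tn f := (hSIZ V Γ hG f).2.1
      have hsub : (Finset.univ.filter fun d => Γ.fc d = f ∧ (Γ.org d).isRight) ⊆
          O.filter (fun p => Γ.fc p = f) := by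
        intro d hd
        obtain ⟨hdf, hdr⟩ := (Finset.mem_filter.1 hd).2
        obtain ⟨x, hx⟩ := Sum.isRight_iff.1 hdr
        refine Finset.mem_filter.2 ⟨Finset.mem_filter.2 ⟨Finset.mem_univ _, ⟨x, hx⟩, ?_⟩, hdf⟩
        intro hno
        have := tri_sn Γ hx hno
        rw [hdf] at this
        exact hs1 this
      have h1 : Γ.sn f ≤ ∑ p ∈ O with Γ.fc p = f, w p := by
        rw [hsn, Finset.card_eq_sum_ones]
        refine (Finset.sum_le_sum_of_subset hsub).trans ?_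
        exact Finset.sum_le_sum (fun p _ => hw1 p)
      omega
    · have hsub : (Finset.univ.filter fun d => Γ.fc d = f ∧ (Γ.org d).isRight) ⊆
          O.filter (fun p => Γ.fc p = f) := by
        intro d hd
        obtain ⟨hdf, hdr⟩ := (Finset.mem_filter.1 hd).2
        obtain ⟨x, hx⟩ := Sum.isRight_iff.1 hdr
        refine Finset.mem_filter.2 ⟨Finset.mem_filter.2 ⟨Finset.mem_univ _, ⟨x, hx⟩, ?_⟩, hdf⟩
        intro hno
        have := tri_tn Γ hx hno
        rw [hdf] at this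
        omega
      have h1 : 2 * Γ.sn f ≤ ∑ p ∈ O with Γ.fc p = f, w p := by
        rw [hsn, Finset.card_eq_sum_ones, Finset.mul_sum]
        refine (Finset.sum_le_sum_of_subset hsub).trans ?_
        apply Finset.sum_le_sum
        intro p hp
        have hpf : Γ.fc p = f := (Finset.mem_filter.1 hp).2
        simp [w, hpf, ht]
      omega
  have hsum := Finset.sum_le_sum (fun f (_ : f ∈ (Finset.univ : Finset Γ.Face)) => hface f)
  rw [← Finset.mul_sum, sum_sn, Finset.sum_add_distrib, ← Finset.mul_sum, ← Finset.card_filter,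
    ← Fn_eq, Finset.sum_fiberwise] at hsum
  omega

end Pool.Agent.Lib.MP0c8bd9
end

section
/-!
# MP_0c8bd9_co : five vertices need two crossings
-/
set_option autoImplicit false

namespace Pool.Agent.Lib.MP0c8bd9

open Sum

namespace N5M

variable {V : Type} (Γ : Drawing V)

theorem top_of_size [Finite V] (G : SimpleGraph V) (hV : Nat.card V = 5)
    (h : 10 ≤ G.edgeSet.ncard) : G = ⊤ := by
  classical
  have := Fintype.ofFinite V
  have h1 : (⊤ : SimpleGraph V).edgeSet.ncard = 10 := by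
    rw [Set.ncard_eq_toFinset_card', ← SimpleGraph.edgeFinset,
      SimpleGraph.card_edgeFinset_top_eq_card_choose_two, ← Nat.card_eq_fintype_card, hV]
    rfl
  have h2 : G.edgeSet ⊆ (⊤ : SimpleGraph V).edgeSet := SimpleGraph.edgeSet_mono le_top
  have h3 := Set.eq_of_subset_of_ncard_le h2 (by omega) (Set.toFinite _)
  exact SimpleGraph.edgeSet_inj.1 h3

theorem kconn_top [Finite V] (hV : Nat.card V = 5) : KConn (⊤ : SimpleGraph V) 4 := by
  refine ⟨by omega, ?_⟩
  intro S hS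
  have hne : (Sᶜ : Set V).Nonempty := by
    rw [Set.nonempty_compl]
    rintro rfl
    rw [Set.ncard_univ] at hS
    omega
  have : Nonempty (Sᶜ : Set V) := hne.to_subtype
  have h1 : (⊤ : SimpleGraph V).induce Sᶜ = ⊤ := by
    ext a b
    simp [Subtype.ext_iff]
  rw [h1]
  exact SimpleGraph.connected_top

/-- no dart at the only crossing is open -/
theorem not_open (hOPN : SpecOPN) (hG : Good Γ) (hc : Γ.cr = 1) {p : Γ.D} {x : Γ.X}
    (hx : Γ.org p = inr x) : Γ.φ (Γ.φ p) = Γ.φ.symm p := by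
  have := hG.fin
  have := Γ.finX
  by_contra hne
  obtain ⟨d, a, b, y, hab, h1, h2, h3, h4, h5⟩ := hOPN V Γ hG.max hG.k3 p x hx hne
  have hxy : y = x := by
    have h6 : Nat.card Γ.X = 1 := hc
    have h7 : Subsingleton Γ.X := (Nat.card_eq_one_iff_unique.1 h6).1
    exact Subsingleton.elim _ _
  rw [hxy] at h5
  obtain ⟨e, he, e0, e1, e2, e3⟩ := Γ.ends hx
  have hb : b = e 0 := by
    rw [Γ.org_φ, e0] at h2
    exact (inl.inj h2).symm
  have ha : a = e 3 := by
    have h6 : Γ.σ.symm p = Γ.σ (Γ.σ (Γ.σ p)) := by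
      rw [Equiv.symm_apply_eq, Γ.σ4 hx]
    rw [Γ.φ_symm, h6, e3] at h1
    exact (inl.inj h1).symm
  have hd : d = Γ.α (Γ.α d) := (Γ.invol d).symm
  rcases Γ.eq_of_org hx h5 with h | h | h | h
  · rw [hd, h, e0] at h3
    have h6 := he ((inl.inj h3).trans ha)
    exact absurd h6 (by decide)
  · rw [hd, h, e1] at h3
    have h6 := he ((inl.inj h3).trans ha)
    exact absurd h6 (by decide)
  · rw [hd, h, e2] at h3
    have h6 := he ((inl.inj h3).trans ha)
    exact absurd h6 (by decide)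
  · rw [Γ.far_cr h5, h, Γ.σ4 hx, e1] at h4
    have h6 := he ((inl.inj h4).trans hb)
    exact absurd h6 (by decide)

end N5M

open N5M LOW2M CNTM in
theorem specN5 (hCNT : SpecCNT) (hEXN : SpecEXN) (hINJ : SpecINJ) (hOPN : SpecOPN)
    (hSIZ : SpecSIZ) : SpecN5 := by
  intro V Γ hG hV h4
  classical
  have := hG.fin
  have := Γ.finD
  have := Γ.finX
  have := Fintype.ofFinite Γ.Face
  have := Fintype.ofFinite Γ.D
  obtain ⟨c1, c2⟩ := hCNT V Γ hG
  have h1 : Γ.Fn 3 ≤ Nat.card {d // Γ.NE d} := by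
    choose g hg1 hg2 using hEXN V Γ hG
    refine Nat.card_le_card_of_injective
      (fun f : {f : Γ.Face // Γ.tn f = 3} => (⟨g f.1 f.2, hg2 f.1 f.2⟩ : {d // Γ.NE d})) ?_
    intro f f' hff
    have h2 := congrArg (fun z : {d // Γ.NE d} => Γ.fc z.1) hff
    simp only [hg1] at h2
    exact Subtype.ext h2
  have h2 := hINJ V Γ hG
  by_contra hlt
  have hc : Γ.cr = 1 := by omega
  have hface : ∀ f : Γ.Face, Γ.sn f ≤ if Γ.tn f = 2 then 1 else 0 := by
    intro f
    by_cases hs : Γ.sn f = 0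
    · omega
    have hpos : 0 < Nat.card {d : Γ.D // Γ.fc d = f ∧ (Γ.org d).isRight} := Nat.pos_of_ne_zero hs
    obtain ⟨⟨d, hdf, hdr⟩⟩ := (Nat.card_pos_iff.1 hpos).1
    obtain ⟨x, hx⟩ := Sum.isRight_iff.1 hdr
    have h3 := not_open Γ hOPN hG hc hx
    have h4 := tri_tn Γ hx h3
    have h5 := tri_sn Γ hx h3
    rw [hdf] at h4 h5
    rcases (hSIZ V Γ hG f).1 with h6 | h6
    · rw [if_pos h6]
      exact h5
    · omega
  have hsum := Finset.sum_le_sum (fun f (_ : f ∈ (Finset.univ : Finset Γ.Face)) => hface f)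
  rw [sum_sn, ← Finset.card_filter, ← Fn_eq] at hsum
  have hsize : 10 ≤ Γ.size := by omega
  apply h4
  rw [top_of_size Γ.graph hV hsize]
  exact kconn_top hV

end Pool.Agent.Lib.MP0c8bd9
end
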