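import Pool.Agent.Lib.MP_0c8bd9_co.Spec2

/-!
# MP_0c8bd9_co : OP, the new drawing
-/

set_option autoImplicit false

namespace Pool.Agent.Lib.MP0c8bd9

open Sum

namespace OPM1

open Op

variable {V : Type} (Γ : Drawing V) (S : Star Γ)

theorem d_ne_α (i j : Fin 3) : S.d i ≠ Γ.α (S.d j) := by
  intro h
  have h1 := congrArg Γ.org h
  rw [S.org_d, S.org_α] at h1
  exact P_ne_t Γ S j (inl.inj h1).symm

/-- all darts of `Γ` -/
def k : O Γ S ⊕ (Fin 3 ⊕ Fin 3) → Γ.D
  | inl o => o.1
  | inr (inl i) => S.d i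
  | inr (inr i) => Γ.α (S.d i)

theorem k_bij : Function.Bijective (k Γ S) := by
  constructor
  · rintro (o | (i | i)) (o' | (j | j)) h
    · exact congrArg inl (Subtype.ext h)
    · exact absurd h (o.2 j).1
    · exact absurd h (o.2 j).2
    · exact absurd h.symm (o'.2 i).1
    · rw [S.inj h]
    · exact absurd h (d_ne_α Γ S i j)
    · exact absurd h.symm (o'.2 i).2
    · exact absurd h.symm (d_ne_α Γ S j i)
    · rw [S.inj (Γ.α.injective h)]
  · intro d
    by_cases h : Old Γ S d
    · exact ⟨inl ⟨d, h⟩, rfl⟩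
    · simp only [Old, not_forall, not_and_or, not_not] at h
      obtain ⟨i, rfl | rfl⟩ := h
      · exact ⟨inr (inl i), rfl⟩
      · exact ⟨inr (inr i), rfl⟩

theorem card_D : Nat.card Γ.D = Nat.card (O Γ S) + 6 := by
  have := Γ.finD
  rw [← Nat.card_eq_of_bijective (k Γ S) (k_bij Γ S), Nat.card_sum]
  simp

theorem card_D' : Nat.card (D' Γ S) = Nat.card Γ.D + 68 := by
  have := Γ.finD
  rw [card_D Γ S, Nat.card_sum]
  simp

theorem card_V' [Finite V] :
    Nat.card (V' V ⊕ (Γ.X ⊕ Fin 3)) = Nat.card (V ⊕ Γ.X) + 12 := by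
  have := Γ.finX
  rw [Nat.card_sum, Nat.card_sum, Nat.card_sum, Nat.card_sum]
  simp only [Nat.card_eq_fintype_card, Fintype.card_fin]
  omega

theorem av_ne (d : D' Γ S) : av Γ S d ≠ d := by
  rcases d with o | m
  · intro h
    exact Γ.ne o.1 (congrArg Subtype.val (inl.inj h))
  · intro h
    exact al_ne m (inr.inj h)

end OPM1

theorem specOP (hO : SpecOPO) (hN : SpecOPN') (hC : SpecOPC) (hL : SpecOPL) : SpecOP := by
  intro V _ Γ S
  have := Γ.finD
  have := Γ.finX
  obtain ⟨hl1, hl2, hl3, hl4, hl5, -, -⟩ := hL V Γ S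
  refine ⟨{ D := Op.D' Γ S
            X := Γ.X ⊕ Fin 3
            finD := Op.finite_D' Γ S
            finX := inferInstance
            σ := Op.sgP Γ S
            α := Op.avP Γ S
            org := Op.og Γ S
            invol := Op.av_av Γ S
            ne := OPM1.av_ne Γ S
            onto := (hO V Γ S).1
            orbit := (hO V Γ S).2
            conn := fun A hne hA => hC V Γ S A hne hA
            euler := ?_
            deg4 := hl1
            once := hl2
            loopless := hl3
            simple := hl4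
            cross := hl5 }, Equiv.refl _, Equiv.refl _, fun _ => rfl, fun _ => rfl, ?_⟩
  · have h1 := Γ.euler
    have h2 := hN V Γ S
    have h3 : Nat.card (Quotient (Equiv.Perm.SameCycle.setoid (Op.sgP Γ S * Op.avP Γ S))) =
      Nat.card (Quotient (Equiv.Perm.SameCycle.setoid (Γ.σ * Γ.α))) + 22 := h2
    rw [OPM1.card_D' Γ S, OPM1.card_V' Γ, h3]
    omega
  · intro d
    change Sum.map id id (Op.og Γ S d) = Op.og Γ S d
    rw [Sum.map_id_id]
    rfl

end Pool.Agent.Lib.MP0c8bd9
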