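import Pool.Agent.Lib.MP_0c8bd9_co.Spec2

/-!
# MP_0c8bd9_co : OPNF, the number of faces of the new drawing
-/

set_option autoImplicit false

namespace Pool.Agent.Lib.MP0c8bd9

open Sum

namespace OPNFM

open Op

theorem tab_lt : ∀ m : Fin 74, fcn m < 25 := by decide +kernel

theorem tab_fc : ∀ j : Fin 22, ∃ m : Fin 74, fcn m = j.1 + 3 := by decide +kernel

variable {V : Type} (Γ : Drawing V) (S : Star Γ)

theorem exists_old (d : Γ.D) : ∃ o : O Γ S, Γ.φ.SameCycle o.1 d := by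
  have h1 : ∀ i, Γ.φ (S.d i) = (ex Γ S i).1 := fun i => rfl
  by_cases h : Old Γ S d
  · exact ⟨⟨d, h⟩, Equiv.Perm.SameCycle.refl _ _⟩
  · simp only [Old, not_forall, not_and_or, not_not] at h
    obtain ⟨i, rfl | rfl⟩ := h
    · refine ⟨ex Γ S i, ?_⟩
      rw [← h1]
      exact (Γ.sameFace_φ (S.d i)).symm
    · refine ⟨ex Γ S (i + 1), ?_⟩
      rw [← h1]
      have h2 := Γ.sameFace_σ (S.d i)
      rw [S.rot] at h2
      exact (h2.trans (Γ.sameFace_φ (S.d (i + 1)))).symm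

theorem exists_old_fc (f : Γ.Face) : ∃ o : O Γ S, Γ.fc o.1 = f := by
  induction f using Quotient.ind with
  | _ d =>
    obtain ⟨o, ho⟩ := exists_old Γ S d
    exact ⟨o, Γ.fc_eq.2 ho⟩

/-- the faces of the new drawing -/
abbrev Q : Type := Quotient (Equiv.Perm.SameCycle.setoid (phP Γ S))

/-- the face of a dart -/
noncomputable def q (d : D' Γ S) : Q Γ S := Quotient.mk _ d

theorem q_eq {d e : D' Γ S} : q Γ S d = q Γ S e ↔ (phP Γ S).SameCycle d e := Quotient.eq

/-- the map from the old and inner faces to the new faces -/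
noncomputable def g : Γ.Face ⊕ Fin 22 → Q Γ S
  | inl f => q Γ S (inl (exists_old_fc Γ S f).choose)
  | inr j => q Γ S (inr (tab_fc j).choose)

theorem g_inj (hF : SpecOPF) : Function.Injective (g Γ S) := by
  obtain ⟨h1, h2, h3⟩ := hF V Γ S
  rintro (f | j) (f' | j') h
  · have h4 := (h1 _ _).1 ((q_eq Γ S).1 h)
    rw [← Γ.fc_eq, (exists_old_fc Γ S f).choose_spec, (exists_old_fc Γ S f').choose_spec] at h4
    rw [h4]
  · exfalso
    have h4 := (q_eq Γ S).1 h.symm
    rw [h3 _ _ (by rw [(tab_fc j').choose_spec]; omega)] at h4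
    obtain ⟨m', h5, -⟩ := h4
    exact Sum.inl_ne_inr h5
  · exfalso
    have h4 := (q_eq Γ S).1 h
    rw [h3 _ _ (by rw [(tab_fc j).choose_spec]; omega)] at h4
    obtain ⟨m', h5, -⟩ := h4
    exact Sum.inl_ne_inr h5
  · have h4 := (q_eq Γ S).1 h
    rw [h3 _ _ (by rw [(tab_fc j).choose_spec]; omega)] at h4
    obtain ⟨m', h5, h6⟩ := h4
    rw [← inr.inj h5, (tab_fc j).choose_spec, (tab_fc j').choose_spec] at h6
    congr 1
    apply Fin.ext
    omega

theorem q_old (hF : SpecOPF) (o : O Γ S) : ∃ f, g Γ S f = q Γ S (inl o) := by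
  obtain ⟨h1, h2, h3⟩ := hF V Γ S
  refine ⟨inl (Γ.fc o.1), ?_⟩
  apply (q_eq Γ S).2
  rw [h1, ← Γ.fc_eq]
  exact (exists_old_fc Γ S (Γ.fc o.1)).choose_spec

theorem g_surj (hF : SpecOPF) : Function.Surjective (g Γ S) := by
  intro y
  induction y using Quotient.ind with
  | _ d =>
    rcases d with o | m
    · exact q_old Γ S hF o
    · obtain ⟨h1, h2, h3⟩ := hF V Γ S
      by_cases hm : fcn m < 3
      · obtain ⟨f, hf⟩ := q_old Γ S hF (ex Γ S ((⟨fcn m, hm⟩ : Fin 3) + 1))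
        refine ⟨f, ?_⟩
        rw [hf]
        exact ((q_eq Γ S).2 (h2 m ⟨fcn m, hm⟩ rfl)).symm
      · have h4 := tab_lt m
        refine ⟨inr ⟨fcn m - 3, by omega⟩, ?_⟩
        apply (q_eq Γ S).2
        apply Equiv.Perm.SameCycle.symm
        rw [h3 _ _ (by omega)]
        refine ⟨_, rfl, ?_⟩
        rw [(tab_fc _).choose_spec]
        change fcn m - 3 + 3 = fcn m
        omega

theorem card (hF : SpecOPF) : Nat.card (Q Γ S) = Nat.card Γ.Face + 22 := by
  have := Γ.finD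
  have : Finite Γ.Face := inferInstance
  rw [← Nat.card_eq_of_bijective (g Γ S) ⟨g_inj Γ S hF, g_surj Γ S hF⟩, Nat.card_sum]
  simp

end OPNFM

theorem specOPNF (hF : SpecOPF) : SpecOPN' := by
  intro V Γ S
  exact OPNFM.card Γ S hF

end Pool.Agent.Lib.MP0c8bd9
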