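import Pool.Agent.Lib.MP_0c8bd9_co.Spec2

/-!
# MP_0c8bd9_co : module TIP (insertion of a vertex of degree three at a tip)
-/

set_option autoImplicit false
set_option linter.unusedSectionVars false
set_option linter.unusedTactic false
set_option linter.unreachableTactic false
set_option linter.unusedVariables false

namespace Pool.Agent.Lib.MP0c8bd9

open Sum

namespace TIPM

/-- The darts around a tip. -/
structure Cfg {V : Type} (Γ : Drawing V) where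
  d : Γ.D
  p1 : Γ.D
  p2 : Γ.D
  a0 : Γ.D
  a1 : Γ.D
  a2 : Γ.D
  w : Γ.D
  u : V
  z : V
  v : V
  x : Γ.X
  y : Γ.X
  od : Γ.org d = inl u
  op1 : Γ.org p1 = inl z
  op2 : Γ.org p2 = inr x
  oa0 : Γ.org a0 = inl z
  oa1 : Γ.org a1 = inl u
  oa2 : Γ.org a2 = inr y
  ow : Γ.org w = inl v
  ad : Γ.α d = a0
  f1 : Γ.φ d = p1
  f2 : Γ.φ p1 = p2
  f3 : Γ.φ p2 = d
  g0 : Γ.φ a0 = a1
  g1 : Γ.φ a1 = a2
  g2 : Γ.φ a2 = w
  g3 : Γ.φ w = a0
  uz : u ≠ z
  vz : v ≠ z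
  uv : u ≠ v

theorem exists_cfg {V : Type} (Γ : Drawing V) (T : Tip Γ) : ∃ C : Cfg Γ, C.d = T.d := by
  obtain ⟨w1, hw1, hw2⟩ := Γ.exists_org_far T.org_d
  rw [Γ.far_unc T.org_α, T.org_α] at hw2
  have huz : T.u ≠ T.z := by rw [inl.inj hw2]; exact hw1.symm
  -- `w` is an uncrossed dart from `v` to `z`
  have hαw : Γ.org (Γ.α (Γ.φ (Γ.φ (Γ.φ (Γ.α T.d))))) = inl T.z := by
    rw [← Γ.org_φ, T.cyc4, T.org_α]
  obtain ⟨w2, hw3, hw4⟩ := Γ.exists_org_far T.org_v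
  rw [Γ.far_unc hαw, hαw] at hw4
  have hvz : T.v ≠ T.z := by rw [inl.inj hw4]; exact hw3.symm
  have ha1 : Γ.org (Γ.φ (Γ.α T.d)) = inl T.u := by rw [Γ.org_φ, Γ.invol, T.org_d]
  have huv : T.u ≠ T.v := by
    have h1 : Γ.org (Γ.α (Γ.φ (Γ.α T.d))) = inr T.y := by rw [← Γ.org_φ, T.org_y]
    have h2 := Γ.cross _ _ h1
    rw [Γ.invol, ha1, ← Γ.φ_apply, ← Γ.org_φ, T.org_v] at h2
    exact fun h => h2 (by rw [h])
  exact ⟨{
    d := T.d
    p1 := Γ.φ T.d
    p2 := Γ.φ (Γ.φ T.d)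
    a0 := Γ.α T.d
    a1 := Γ.φ (Γ.α T.d)
    a2 := Γ.φ (Γ.φ (Γ.α T.d))
    w := Γ.φ (Γ.φ (Γ.φ (Γ.α T.d)))
    u := T.u
    z := T.z
    v := T.v
    x := T.x
    y := T.y
    od := T.org_d
    op1 := by rw [Γ.org_φ, T.org_α]
    op2 := T.org_x
    oa0 := T.org_α
    oa1 := ha1
    oa2 := T.org_y
    ow := T.org_v
    ad := rfl
    f1 := rfl
    f2 := rfl
    f3 := T.cyc3
    g0 := rfl
    g1 := rfl
    g2 := rfl
    g3 := T.cyc4
    uz := huz
    vz := hvz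
    uv := huv }, rfl⟩

variable {V : Type} {Γ : Drawing V} (C : Cfg Γ)

theorem aa0 : Γ.α C.a0 = C.d := by rw [← C.ad, Γ.invol]

/-! ### Distinct darts -/

theorem ne_of_org {a b : Γ.D} (h : Γ.org a ≠ Γ.org b) : a ≠ b := fun h' => h (by rw [h'])

theorem d_p1 : C.d ≠ C.p1 := ne_of_org (by rw [C.od, C.op1]; simpa using C.uz)
theorem d_p2 : C.d ≠ C.p2 := ne_of_org (by rw [C.od, C.op2]; simp)
theorem d_a0 : C.d ≠ C.a0 := ne_of_org (by rw [C.od, C.oa0]; simpa using C.uz)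
theorem d_a2 : C.d ≠ C.a2 := ne_of_org (by rw [C.od, C.oa2]; simp)
theorem d_w : C.d ≠ C.w := ne_of_org (by rw [C.od, C.ow]; simpa using C.uv)
theorem p1_p2 : C.p1 ≠ C.p2 := ne_of_org (by rw [C.op1, C.op2]; simp)
theorem p1_a1 : C.p1 ≠ C.a1 := ne_of_org (by rw [C.op1, C.oa1]; simpa using C.uz.symm)
theorem p1_a2 : C.p1 ≠ C.a2 := ne_of_org (by rw [C.op1, C.oa2]; simp)
theorem p1_w : C.p1 ≠ C.w := ne_of_org (by rw [C.op1, C.ow]; simpa using C.vz.symm)
theorem p2_a0 : C.p2 ≠ C.a0 := ne_of_org (by rw [C.op2, C.oa0]; simp)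
theorem p2_a1 : C.p2 ≠ C.a1 := ne_of_org (by rw [C.op2, C.oa1]; simp)
theorem p2_w : C.p2 ≠ C.w := ne_of_org (by rw [C.op2, C.ow]; simp)
theorem a0_a1 : C.a0 ≠ C.a1 := ne_of_org (by rw [C.oa0, C.oa1]; simpa using C.uz.symm)
theorem a0_a2 : C.a0 ≠ C.a2 := ne_of_org (by rw [C.oa0, C.oa2]; simp)
theorem a0_w : C.a0 ≠ C.w := ne_of_org (by rw [C.oa0, C.ow]; simpa using C.vz.symm)
theorem a1_a2 : C.a1 ≠ C.a2 := ne_of_org (by rw [C.oa1, C.oa2]; simp)
theorem a1_w : C.a1 ≠ C.w := ne_of_org (by rw [C.oa1, C.ow]; simpa using C.uv)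
theorem a2_w : C.a2 ≠ C.w := ne_of_org (by rw [C.oa2, C.ow]; simp)
theorem p1_a0 : C.p1 ≠ C.a0 := by
  intro h
  have h1 := C.f2
  rw [h, C.g0] at h1
  exact p2_a1 C h1.symm
theorem d_a1 : C.d ≠ C.a1 := by
  intro h
  have h1 := C.g1
  rw [← h, C.f1] at h1
  exact p1_a2 C h1
theorem p2_a2 : C.p2 ≠ C.a2 := by
  intro h
  have h1 := C.g2
  rw [← h, C.f3] at h1
  exact d_w C h1

theorem σa0 : Γ.σ C.a0 = C.p1 := by rw [← C.f1, Γ.φ_apply, C.ad]
theorem σd : Γ.σ C.d = C.a1 := by rw [← C.g0, Γ.φ_apply, aa0]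
theorem σαp1 : Γ.σ (Γ.α C.p1) = C.p2 := C.f2
theorem σαp2 : Γ.σ (Γ.α C.p2) = C.d := C.f3
theorem σαa1 : Γ.σ (Γ.α C.a1) = C.a2 := C.g1
theorem σαa2 : Γ.σ (Γ.α C.a2) = C.w := C.g2
theorem σαw : Γ.σ (Γ.α C.w) = C.a0 := C.g3

/-! ### The new map -/

/-- new darts -/
abbrev Dn (Γ : Drawing V) : Type := Γ.D ⊕ Fin 10

/-- local rotation (`3, 4, 5` fixed) -/
def tau : Equiv.Perm (Fin 10) where
  toFun := ![1, 2, 0, 3, 4, 5, 8, 9, 7, 6]
  invFun := ![2, 0, 1, 3, 4, 5, 9, 8, 6, 7]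
  left_inv := by decide
  right_inv := by decide

noncomputable instance decDn : DecidableEq (Dn Γ) := Classical.decEq _

/-- the three insertions -/
noncomputable def S : Equiv.Perm (Dn Γ) :=
  Equiv.swap (inl C.d) (inr 3) * (Equiv.swap (inl C.p1) (inr 4) * Equiv.swap (inl C.w) (inr 5))

theorem S_d : S C (inl C.d) = inr 3 := by
  simp [S, Equiv.swap_apply_def, d_w C, d_p1 C]

theorem S_p1 : S C (inl C.p1) = inr 4 := by
  simp [S, Equiv.swap_apply_def, p1_w C]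

theorem S_w : S C (inl C.w) = inr 5 := by
  simp [S, Equiv.swap_apply_def]

theorem S_3 : S C (inr 3) = inl C.d := by
  simp [S, Equiv.swap_apply_def]

theorem S_4 : S C (inr 4) = inl C.p1 := by
  simp [S, Equiv.swap_apply_def, (d_p1 C).symm]

theorem S_5 : S C (inr 5) = inl C.w := by
  simp [S, Equiv.swap_apply_def, (p1_w C).symm, (d_w C).symm]

theorem S_inl {e : Γ.D} (h1 : e ≠ C.d) (h2 : e ≠ C.p1) (h3 : e ≠ C.w) :
    S C (inl e) = inl e := by
  simp [S, Equiv.swap_apply_def, h1, h2, h3]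

theorem S_inr {k : Fin 10} (h1 : k ≠ 3) (h2 : k ≠ 4) (h3 : k ≠ 5) :
    S C (inr k) = inr k := by
  simp [S, Equiv.swap_apply_def, h1, h2, h3]

/-- the new rotation -/
noncomputable def sg : Equiv.Perm (Dn Γ) := S C * Equiv.Perm.sumCongr Γ.σ tau

theorem sg_inl' (e : Γ.D) : sg C (inl e) = S C (inl (Γ.σ e)) := rfl

theorem sg_inr' (k : Fin 10) : sg C (inr k) = S C (inr (tau k)) := rfl

theorem sg_0 : sg C (inr 0) = inr 1 := by rw [sg_inr']; exact S_inr C (by decide) (by decide) (by decide)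
theorem sg_1 : sg C (inr 1) = inr 2 := by rw [sg_inr']; exact S_inr C (by decide) (by decide) (by decide)
theorem sg_2 : sg C (inr 2) = inr 0 := by rw [sg_inr']; exact S_inr C (by decide) (by decide) (by decide)
theorem sg_3 : sg C (inr 3) = inl C.d := by rw [sg_inr']; exact S_3 C
theorem sg_4 : sg C (inr 4) = inl C.p1 := by rw [sg_inr']; exact S_4 C
theorem sg_5 : sg C (inr 5) = inl C.w := by rw [sg_inr']; exact S_5 C
theorem sg_6 : sg C (inr 6) = inr 8 := by rw [sg_inr']; exact S_inr C (by decide) (by decide) (by decide)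
theorem sg_8 : sg C (inr 8) = inr 7 := by rw [sg_inr']; exact S_inr C (by decide) (by decide) (by decide)
theorem sg_7 : sg C (inr 7) = inr 9 := by rw [sg_inr']; exact S_inr C (by decide) (by decide) (by decide)
theorem sg_9 : sg C (inr 9) = inr 6 := by rw [sg_inr']; exact S_inr C (by decide) (by decide) (by decide)

theorem sg_a0 : sg C (inl C.a0) = inr 4 := by rw [sg_inl', σa0, S_p1]
theorem sg_αp2 : sg C (inl (Γ.α C.p2)) = inr 3 := by rw [sg_inl', σαp2, S_d]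
theorem sg_αa2 : sg C (inl (Γ.α C.a2)) = inr 5 := by rw [sg_inl', σαa2, S_w]

theorem sg_inl {e : Γ.D} (h1 : Γ.σ e ≠ C.d) (h2 : Γ.σ e ≠ C.p1) (h3 : Γ.σ e ≠ C.w) :
    sg C (inl e) = inl (Γ.σ e) := by rw [sg_inl', S_inl C h1 h2 h3]

theorem sg_cr {e : Γ.D} {x : Γ.X} (h : Γ.org e = inr x) : sg C (inl e) = inl (Γ.σ e) := by
  have h1 : Γ.org (Γ.σ e) = inr x := by rw [Γ.org_σ, h]
  apply sg_inl
  · exact ne_of_org (by rw [h1, C.od]; simp)
  · exact ne_of_org (by rw [h1, C.op1]; simp)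
  · exact ne_of_org (by rw [h1, C.ow]; simp)

open Classical in
/-- the new involution -/
noncomputable def alf : Dn Γ → Dn Γ
  | inl e => if e = C.d then inr 6 else if e = C.a0 then inr 7 else inl (Γ.α e)
  | inr k => (![inr 3, inr 4, inr 8, inr 0, inr 1, inr 9, inl C.d, inl C.a0, inr 2, inr 5] :
      Fin 10 → Dn Γ) k

theorem alf_d : alf C (inl C.d) = inr 6 := by rw [alf, if_pos rfl]
theorem alf_a0 : alf C (inl C.a0) = inr 7 := by rw [alf, if_neg (d_a0 C).symm, if_pos rfl]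
theorem alf_inl {e : Γ.D} (h1 : e ≠ C.d) (h2 : e ≠ C.a0) : alf C (inl e) = inl (Γ.α e) := by
  rw [alf, if_neg h1, if_neg h2]
theorem alf_0 : alf C (inr 0) = inr 3 := rfl
theorem alf_1 : alf C (inr 1) = inr 4 := rfl
theorem alf_2 : alf C (inr 2) = inr 8 := rfl
theorem alf_3 : alf C (inr 3) = inr 0 := rfl
theorem alf_4 : alf C (inr 4) = inr 1 := rfl
theorem alf_5 : alf C (inr 5) = inr 9 := rfl
theorem alf_6 : alf C (inr 6) = inl C.d := rfl
theorem alf_7 : alf C (inr 7) = inl C.a0 := rfl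
theorem alf_8 : alf C (inr 8) = inr 2 := rfl
theorem alf_9 : alf C (inr 9) = inr 5 := rfl

theorem alf_alf (e : Dn Γ) : alf C (alf C e) = e := by
  rcases e with e | k
  · by_cases h1 : e = C.d
    · rw [h1, alf_d, alf_6]
    · by_cases h2 : e = C.a0
      · rw [h2, alf_a0, alf_7]
      · rw [alf_inl C h1 h2, alf_inl, Γ.invol]
        · intro h; apply h2; rw [← C.ad, ← h, Γ.invol]
        · intro h; apply h1; rw [← aa0, ← h, Γ.invol]
  · fin_cases k
    · rfl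
    · rfl
    · rfl
    · rfl
    · rfl
    · rfl
    · exact alf_d C
    · exact alf_a0 C
    · rfl
    · rfl

theorem alf_ne (e : Dn Γ) : alf C e ≠ e := by
  rcases e with e | k
  · by_cases h1 : e = C.d
    · rw [h1, alf_d]; simp
    · by_cases h2 : e = C.a0
      · rw [h2, alf_a0]; simp
      · rw [alf_inl C h1 h2]
        simpa using Γ.ne e
  · fin_cases k <;> simp [alf]

/-- the new involution as a permutation -/
noncomputable def al : Equiv.Perm (Dn Γ) := ⟨alf C, alf C, alf_alf C, alf_alf C⟩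

theorem al_apply (e : Dn Γ) : al C e = alf C e := rfl

/-- the new origins -/
def og : Dn Γ → (V ⊕ Fin 1) ⊕ (Γ.X ⊕ Fin 1)
  | inl e => Sum.map inl inl (Γ.org e)
  | inr k => (![inl (inr 0), inl (inr 0), inl (inr 0), inl (inl C.u), inl (inl C.z), inl (inl C.v),
      inr (inr 0), inr (inr 0), inr (inr 0), inr (inr 0)] :
      Fin 10 → (V ⊕ Fin 1) ⊕ (Γ.X ⊕ Fin 1)) k

theorem og_inl {e : Γ.D} {v : V} (h : Γ.org e = inl v) : og C (inl e) = inl (inl v) := by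
  rw [og, h]; rfl

theorem og_inr {e : Γ.D} {x : Γ.X} (h : Γ.org e = inr x) : og C (inl e) = inr (inl x) := by
  rw [og, h]; rfl

/-- new faces -/
noncomputable def ph (e : Dn Γ) : Dn Γ := sg C (alf C e)

theorem ph_3 : ph C (inr 3) = inr 1 := by rw [ph, alf_3, sg_0]
theorem ph_1 : ph C (inr 1) = inl C.p1 := by rw [ph, alf_1, sg_4]
theorem ph_p1 : ph C (inl C.p1) = inl C.p2 := by
  rw [ph, alf_inl C (d_p1 C).symm (p1_a0 C), sg_inl, σαp1]
  · rw [σαp1]; exact (d_p2 C).symm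
  · rw [σαp1]; exact (p1_p2 C).symm
  · rw [σαp1]; exact p2_w C
theorem ph_p2 : ph C (inl C.p2) = inr 3 := by
  rw [ph, alf_inl C (d_p2 C).symm (p2_a0 C), sg_αp2]
theorem ph_d : ph C (inl C.d) = inr 8 := by rw [ph, alf_d, sg_6]
theorem ph_8 : ph C (inr 8) = inr 0 := by rw [ph, alf_8, sg_2]
theorem ph_0 : ph C (inr 0) = inl C.d := by rw [ph, alf_0, sg_3]
theorem ph_2 : ph C (inr 2) = inr 7 := by rw [ph, alf_2, sg_8]
theorem ph_7 : ph C (inr 7) = inr 4 := by rw [ph, alf_7, sg_a0]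
theorem ph_4 : ph C (inr 4) = inr 2 := by rw [ph, alf_4, sg_1]
theorem ph_6 : ph C (inr 6) = inl C.a1 := by
  rw [ph, alf_6, sg_inl, σd]
  · rw [σd]; exact (d_a1 C).symm
  · rw [σd]; exact (p1_a1 C).symm
  · rw [σd]; exact a1_w C
theorem ph_a1 : ph C (inl C.a1) = inl C.a2 := by
  rw [ph, alf_inl C (d_a1 C).symm (a0_a1 C).symm, sg_inl, σαa1]
  · rw [σαa1]; exact (d_a2 C).symm
  · rw [σαa1]; exact (p1_a2 C).symm
  · rw [σαa1]; exact a2_w C
theorem ph_a2 : ph C (inl C.a2) = inr 5 := by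
  rw [ph, alf_inl C (d_a2 C).symm (a0_a2 C).symm, sg_αa2]
theorem ph_5 : ph C (inr 5) = inr 6 := by rw [ph, alf_5, sg_9]
theorem ph_w : ph C (inl C.w) = inl C.a0 := by
  rw [ph, alf_inl C (d_w C).symm (a0_w C).symm, sg_inl, σαw]
  · rw [σαw]; exact (d_a0 C).symm
  · rw [σαw]; exact (p1_a0 C).symm
  · rw [σαw]; exact a0_w C
theorem ph_a0 : ph C (inl C.a0) = inr 9 := by rw [ph, alf_a0, sg_7]
theorem ph_9 : ph C (inr 9) = inl C.w := by rw [ph, alf_9, sg_5]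

/-- an old dart outside the two faces of the tip -/
structure Out (e : Γ.D) : Prop where
  d : e ≠ C.d
  p1 : e ≠ C.p1
  p2 : e ≠ C.p2
  a0 : e ≠ C.a0
  a1 : e ≠ C.a1
  a2 : e ≠ C.a2
  w : e ≠ C.w

theorem Out.φ {e : Γ.D} (h : Out C e) : Out C (Γ.φ e) where
  d := fun h' => h.p2 (Γ.φ.injective (h'.trans C.f3.symm))
  p1 := fun h' => h.d (Γ.φ.injective (h'.trans C.f1.symm))
  p2 := fun h' => h.p1 (Γ.φ.injective (h'.trans C.f2.symm))
  a0 := fun h' => h.w (Γ.φ.injective (h'.trans C.g3.symm))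
  a1 := fun h' => h.a0 (Γ.φ.injective (h'.trans C.g0.symm))
  a2 := fun h' => h.a1 (Γ.φ.injective (h'.trans C.g1.symm))
  w := fun h' => h.a2 (Γ.φ.injective (h'.trans C.g2.symm))

theorem ph_out {e : Γ.D} (h : Out C e) : ph C (inl e) = inl (Γ.φ e) := by
  have h' := Out.φ C h
  rw [ph, alf_inl C h.d h.a0, sg_inl, Γ.φ_apply]
  · exact h'.d
  · exact h'.p1
  · exact h'.w

/-! ### Points -/

theorem sc_step {A : Type*} (π : Equiv.Perm A) (a : A) : π.SameCycle a (π a) := ⟨1, by simp⟩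

theorem sc_eq {A : Type*} {π : Equiv.Perm A} {a b : A} (h : π a = b) : π.SameCycle a b := by
  rw [← h]; exact sc_step π a

theorem sc_σ (e : Γ.D) : (sg C).SameCycle (inl e) (inl (Γ.σ e)) := by
  by_cases h1 : Γ.σ e = C.d
  · have h : sg C (inl e) = inr 3 := by rw [sg_inl', h1, S_d]
    rw [h1]; exact (sc_eq h).trans (sc_eq (sg_3 C))
  · by_cases h2 : Γ.σ e = C.p1
    · have h : sg C (inl e) = inr 4 := by rw [sg_inl', h2, S_p1]
      rw [h2]; exact (sc_eq h).trans (sc_eq (sg_4 C))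
    · by_cases h3 : Γ.σ e = C.w
      · have h : sg C (inl e) = inr 5 := by rw [sg_inl', h3, S_w]
        rw [h3]; exact (sc_eq h).trans (sc_eq (sg_5 C))
      · exact sc_eq (sg_inl C h1 h2 h3)

theorem sc_lift {e e' : Γ.D} (h : Γ.σ.SameCycle e e') : (sg C).SameCycle (inl e) (inl e') := by
  have := Γ.finD
  obtain ⟨n, rfl⟩ := h.exists_nat_pow_eq
  induction n with
  | zero => exact Equiv.Perm.SameCycle.refl _ _
  | succ n ih =>
    rw [pow_succ', Equiv.Perm.mul_apply]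
    exact (ih ⟨n, rfl⟩).trans (sc_σ C _)

theorem og_eq_iff {e e' : Γ.D} : og C (inl e) = og C (inl e') ↔ Γ.org e = Γ.org e' := by
  constructor
  · intro h
    rcases h1 : Γ.org e with a | a <;> rcases h2 : Γ.org e' with b | b
    · rw [og_inl C h1, og_inl C h2] at h
      rw [inl.inj (inl.inj h)]
    · rw [og_inl C h1, og_inr C h2] at h
      simp at h
    · rw [og_inr C h1, og_inl C h2] at h
      simp at h
    · rw [og_inr C h1, og_inr C h2] at h
      rw [inl.inj (inr.inj h)]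
  · intro h
    rw [og, og, h]

theorem red (x : Dn Γ) : (∃ e, (sg C).SameCycle x (inl e) ∧ og C x = og C (inl e)) ∨
    ((sg C).SameCycle x (inr 0) ∧ og C x = inl (inr 0)) ∨
    ((sg C).SameCycle x (inr 6) ∧ og C x = inr (inr 0)) := by
  rcases x with e | k
  · exact Or.inl ⟨e, Equiv.Perm.SameCycle.refl _ _, rfl⟩
  · have h12 : (sg C).SameCycle (inr 1) (inr 0) := (sc_eq (sg_0 C)).symm
    have h20 : (sg C).SameCycle (inr 2) (inr 0) := sc_eq (sg_2 C)
    have h86 : (sg C).SameCycle (inr 8) (inr 6) := (sc_eq (sg_6 C)).symm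
    have h76 : (sg C).SameCycle (inr 7) (inr 6) := ((sc_eq (sg_8 C)).symm).trans h86
    have h96 : (sg C).SameCycle (inr 9) (inr 6) := sc_eq (sg_9 C)
    fin_cases k
    · exact Or.inr (Or.inl ⟨Equiv.Perm.SameCycle.refl _ _, rfl⟩)
    · exact Or.inr (Or.inl ⟨h12, rfl⟩)
    · exact Or.inr (Or.inl ⟨h20, rfl⟩)
    · exact Or.inl ⟨C.d, sc_eq (sg_3 C), (og_inl C C.od).symm⟩
    · exact Or.inl ⟨C.p1, sc_eq (sg_4 C), (og_inl C C.op1).symm⟩
    · exact Or.inl ⟨C.w, sc_eq (sg_5 C), (og_inl C C.ow).symm⟩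
    · exact Or.inr (Or.inr ⟨Equiv.Perm.SameCycle.refl _ _, rfl⟩)
    · exact Or.inr (Or.inr ⟨h76, rfl⟩)
    · exact Or.inr (Or.inr ⟨h86, rfl⟩)
    · exact Or.inr (Or.inr ⟨h96, rfl⟩)

theorem og_inl_ne_z (e : Γ.D) (j : Fin 1) : og C (inl e) ≠ inl (inr j) := by
  rcases h : Γ.org e with a | a
  · rw [og_inl C h]; simp
  · rw [og_inr C h]; simp

theorem og_inl_ne_X (e : Γ.D) (j : Fin 1) : og C (inl e) ≠ inr (inr j) := by
  rcases h : Γ.org e with a | a
  · rw [og_inl C h]; simp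
  · rw [og_inr C h]; simp

theorem og_sg (x : Dn Γ) : og C (sg C x) = og C x := by
  rcases x with e | k
  · by_cases h1 : Γ.σ e = C.d
    · have h : sg C (inl e) = inr 3 := by rw [sg_inl', h1, S_d]
      have h' : Γ.org e = inl C.u := by rw [← Γ.org_σ, h1, C.od]
      rw [h, og_inl C h']; rfl
    · by_cases h2 : Γ.σ e = C.p1
      · have h : sg C (inl e) = inr 4 := by rw [sg_inl', h2, S_p1]
        have h' : Γ.org e = inl C.z := by rw [← Γ.org_σ, h2, C.op1]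
        rw [h, og_inl C h']; rfl
      · by_cases h3 : Γ.σ e = C.w
        · have h : sg C (inl e) = inr 5 := by rw [sg_inl', h3, S_w]
          have h' : Γ.org e = inl C.v := by rw [← Γ.org_σ, h3, C.ow]
          rw [h, og_inl C h']; rfl
        · rw [sg_inl C h1 h2 h3, og_eq_iff, Γ.org_σ]
  · fin_cases k
    · show og C (sg C (inr 0)) = og C (inr 0)
      rw [sg_0]; rfl
    · show og C (sg C (inr 1)) = og C (inr 1)
      rw [sg_1]; rfl
    · show og C (sg C (inr 2)) = og C (inr 2)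
      rw [sg_2]; rfl
    · show og C (sg C (inr 3)) = og C (inr 3)
      rw [sg_3, og_inl C C.od]; rfl
    · show og C (sg C (inr 4)) = og C (inr 4)
      rw [sg_4, og_inl C C.op1]; rfl
    · show og C (sg C (inr 5)) = og C (inr 5)
      rw [sg_5, og_inl C C.ow]; rfl
    · show og C (sg C (inr 6)) = og C (inr 6)
      rw [sg_6]; rfl
    · show og C (sg C (inr 7)) = og C (inr 7)
      rw [sg_7]; rfl
    · show og C (sg C (inr 8)) = og C (inr 8)
      rw [sg_8]; rfl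
    · show og C (sg C (inr 9)) = og C (inr 9)
      rw [sg_9]; rfl

theorem inv_sc {A B : Type*} [Finite A] {π : Equiv.Perm A} {f : A → B} (h : ∀ a, f (π a) = f a)
    {a b : A} (hab : π.SameCycle a b) : f a = f b := by
  obtain ⟨n, rfl⟩ := hab.exists_nat_pow_eq
  clear hab
  induction n with
  | zero => rfl
  | succ n ih => rw [pow_succ', Equiv.Perm.mul_apply, h, ← ih]

theorem finite_Dn : Finite (Dn Γ) := by
  have := Γ.finD
  infer_instance

theorem orbit' (x y : Dn Γ) : og C x = og C y ↔ (sg C).SameCycle x y := by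
  have := finite_Dn (Γ := Γ)
  constructor
  · intro h
    rcases red C x with ⟨e, h1, h2⟩ | ⟨h1, h2⟩ | ⟨h1, h2⟩ <;>
      rcases red C y with ⟨e', h3, h4⟩ | ⟨h3, h4⟩ | ⟨h3, h4⟩
    · refine h1.trans (Equiv.Perm.SameCycle.trans (sc_lift C ?_) h3.symm)
      rw [← Γ.orbit, ← og_eq_iff C, ← h2, ← h4, h]
    · rw [h2, h4] at h; exact absurd h (og_inl_ne_z C _ _)
    · rw [h2, h4] at h; exact absurd h (og_inl_ne_X C _ _)
    · rw [h2, h4] at h; exact absurd h.symm (og_inl_ne_z C _ _)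
    · exact h1.trans h3.symm
    · rw [h2, h4] at h; simp at h
    · rw [h2, h4] at h; exact absurd h.symm (og_inl_ne_X C _ _)
    · rw [h2, h4] at h; simp at h
    · exact h1.trans h3.symm
  · exact inv_sc (og_sg C)

theorem onto' : Function.Surjective (og C) := by
  rintro ((a | j) | (a | j))
  · obtain ⟨e, he⟩ := Γ.onto (inl a)
    exact ⟨inl e, og_inl C he⟩
  · refine ⟨inr 0, ?_⟩
    have : j = 0 := Subsingleton.elim _ _
    rw [this]; rfl
  · obtain ⟨e, he⟩ := Γ.onto (inr a)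
    exact ⟨inl e, og_inr C he⟩
  · refine ⟨inr 6, ?_⟩
    have : j = 0 := Subsingleton.elim _ _
    rw [this]; rfl

/-! ### Connectedness of the map -/

theorem mem_sc {A : Type*} [Finite A] {π : Equiv.Perm A} {T : Set A} (h : ∀ a ∈ T, π a ∈ T)
    {a b : A} (hab : π.SameCycle a b) (ha : a ∈ T) : b ∈ T := by
  obtain ⟨n, rfl⟩ := hab.exists_nat_pow_eq
  clear hab
  induction n with
  | zero => exact ha
  | succ n ih => rw [pow_succ', Equiv.Perm.mul_apply]; exact h _ ih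

theorem conn' (T : Set (Dn Γ)) (hne : T.Nonempty) (h : ∀ x ∈ T, sg C x ∈ T ∧ alf C x ∈ T) :
    T = Set.univ := by
  have := finite_Dn (Γ := Γ)
  have hs : ∀ {a b : Dn Γ}, (sg C).SameCycle a b → a ∈ T → b ∈ T := fun hab ha =>
    mem_sc (fun a ha => (h a ha).1) hab ha
  have ha : ∀ {a b : Dn Γ}, alf C a = b → a ∈ T → b ∈ T := fun hab ha => by
    rw [← hab]; exact (h _ ha).2
  have h68 : (sg C).SameCycle (inr 6) (inr 7) := (sc_eq (sg_6 C)).trans (sc_eq (sg_8 C))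
  have hcross : (inl C.d : Dn Γ) ∈ T ↔ (inl C.a0 : Dn Γ) ∈ T :=
    ⟨fun h1 => ha (alf_7 C) (hs h68 (ha (alf_d C) h1)),
      fun h1 => ha (alf_6 C) (hs h68.symm (ha (alf_a0 C) h1))⟩
  -- the old darts
  have hold : (∃ e : Γ.D, inl e ∈ T) → ∀ e : Γ.D, (inl e : Dn Γ) ∈ T := by
    rintro ⟨e0, he0⟩
    have h1 := Γ.conn {e | (inl e : Dn Γ) ∈ T} ⟨e0, he0⟩ (fun e he => ?_)
    · intro e
      have : e ∈ {e | (inl e : Dn Γ) ∈ T} := by rw [h1]; trivial
      exact this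
    · refine ⟨hs (sc_σ C e) he, ?_⟩
      by_cases h1 : e = C.d
      · rw [h1, C.ad]
        exact hcross.1 (by rw [← h1]; exact he)
      · by_cases h2 : e = C.a0
        · rw [h2, aa0]
          exact hcross.2 (by rw [← h2]; exact he)
        · exact ha (alf_inl C h1 h2) he
  have hex : ∃ e : Γ.D, inl e ∈ T := by
    obtain ⟨x, hx⟩ := hne
    rcases red C x with ⟨e, h1, -⟩ | ⟨h1, -⟩ | ⟨h1, -⟩
    · exact ⟨e, hs h1 hx⟩
    · exact ⟨C.d, hs (sc_eq (sg_3 C)) (ha (alf_0 C) (hs h1 hx))⟩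
    · exact ⟨C.d, ha (alf_6 C) (hs h1 hx)⟩
  have hold' := hold hex
  ext x
  simp only [Set.mem_univ, iff_true]
  rcases red C x with ⟨e, h1, -⟩ | ⟨h1, -⟩ | ⟨h1, -⟩
  · exact hs h1.symm (hold' e)
  · exact hs h1.symm (ha (alf_3 C) (hs (sc_eq (sg_3 C)).symm (hold' C.d)))
  · exact hs h1.symm (ha (alf_d C) (hold' C.d))

/-! ### Faces -/

theorem out_cases (e : Γ.D) : e = C.d ∨ e = C.p1 ∨ e = C.p2 ∨ e = C.a0 ∨ e = C.a1 ∨ e = C.a2 ∨
    e = C.w ∨ Out C e := by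
  by_cases h1 : e = C.d
  · simp [h1]
  by_cases h2 : e = C.p1
  · simp [h2]
  by_cases h3 : e = C.p2
  · simp [h3]
  by_cases h4 : e = C.a0
  · simp [h4]
  by_cases h5 : e = C.a1
  · simp [h5]
  by_cases h6 : e = C.a2
  · simp [h6]
  by_cases h7 : e = C.w
  · simp [h7]
  exact Or.inr (Or.inr (Or.inr (Or.inr (Or.inr (Or.inr (Or.inr ⟨h1, h2, h3, h4, h5, h6, h7⟩))))))

theorem Out.sc {e e' : Γ.D} (h : Out C e) (hs : Γ.φ.SameCycle e e') : Out C e' := by
  have := Γ.finD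
  exact mem_sc (T := {e | Out C e}) (fun a ha => Out.φ C ha) hs h

theorem fc_p1 : Γ.fc C.p1 = Γ.fc C.d := Γ.fc_eq.2 (sc_eq C.f1).symm
theorem fc_p2 : Γ.fc C.p2 = Γ.fc C.d := Γ.fc_eq.2 (sc_eq C.f3)
theorem fc_w : Γ.fc C.w = Γ.fc C.a0 := Γ.fc_eq.2 (sc_eq C.g3)
theorem fc_a1 : Γ.fc C.a1 = Γ.fc C.a0 := Γ.fc_eq.2 (sc_eq C.g0).symm
theorem fc_a2 : Γ.fc C.a2 = Γ.fc C.a0 :=
  Γ.fc_eq.2 ((sc_eq C.g2).trans (sc_eq C.g3))

theorem Fd_ne_Fa : Γ.fc C.d ≠ Γ.fc C.a0 := by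
  have := Γ.finD
  intro h
  have h1 : C.a0 ∈ ({C.d, C.p1, C.p2} : Set Γ.D) := by
    refine mem_sc (π := Γ.φ) ?_ (Γ.fc_eq.1 h) (Or.inl rfl)
    rintro a (rfl | rfl | rfl)
    · right; left; exact C.f1
    · right; right; exact C.f2
    · left; exact C.f3
  rcases h1 with h1 | h1 | h1
  · exact d_a0 C h1.symm
  · exact p1_a0 C h1.symm
  · exact p2_a0 C h1.symm

theorem Out.fd {e : Γ.D} (h : Out C e) : Γ.fc e ≠ Γ.fc C.d := fun h' =>
  (h.sc C (Γ.fc_eq.1 h')).d rfl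

theorem Out.fa {e : Γ.D} (h : Out C e) : Γ.fc e ≠ Γ.fc C.a0 := fun h' =>
  (h.sc C (Γ.fc_eq.1 h')).a0 rfl

open Classical in
/-- new faces -/
noncomputable def fcn : Dn Γ → Γ.Face ⊕ Fin 3
  | inl e => if e = C.d then inr 0 else if e = C.w ∨ e = C.a0 then inr 2 else inl (Γ.fc e)
  | inr k => (![inr 0, inl (Γ.fc C.d), inr 1, inl (Γ.fc C.d), inr 1, inl (Γ.fc C.a0),
      inl (Γ.fc C.a0), inr 1, inr 0, inr 2] : Fin 10 → Γ.Face ⊕ Fin 3) k

theorem fcn_d : fcn C (inl C.d) = inr 0 := by simp [fcn]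
theorem fcn_w : fcn C (inl C.w) = inr 2 := by simp [fcn, (d_w C).symm]
theorem fcn_a0 : fcn C (inl C.a0) = inr 2 := by simp [fcn, (d_a0 C).symm]
theorem fcn_p1 : fcn C (inl C.p1) = inl (Γ.fc C.d) := by
  simp [fcn, (d_p1 C).symm, p1_w C, p1_a0 C, fc_p1 C]
theorem fcn_p2 : fcn C (inl C.p2) = inl (Γ.fc C.d) := by
  simp [fcn, (d_p2 C).symm, p2_w C, p2_a0 C, fc_p2 C]
theorem fcn_a1 : fcn C (inl C.a1) = inl (Γ.fc C.a0) := by
  simp [fcn, (d_a1 C).symm, a1_w C, (a0_a1 C).symm, fc_a1 C]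
theorem fcn_a2 : fcn C (inl C.a2) = inl (Γ.fc C.a0) := by
  simp [fcn, (d_a2 C).symm, a2_w C, (a0_a2 C).symm, fc_a2 C]
theorem fcn_out {e : Γ.D} (h : Out C e) : fcn C (inl e) = inl (Γ.fc e) := by
  simp [fcn, h.d, h.w, h.a0]

/-- the new face permutation -/
noncomputable def phP : Equiv.Perm (Dn Γ) := sg C * al C

theorem phP_apply (x : Dn Γ) : phP C x = ph C x := rfl

theorem fcn_phP (x : Dn Γ) : fcn C (phP C x) = fcn C x := by
  rw [phP_apply]
  rcases x with e | k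
  · rcases out_cases C e with rfl | rfl | rfl | rfl | rfl | rfl | rfl | h
    · rw [ph_d, fcn_d]; rfl
    · rw [ph_p1, fcn_p1, fcn_p2]
    · rw [ph_p2, fcn_p2]; rfl
    · rw [ph_a0, fcn_a0]; rfl
    · rw [ph_a1, fcn_a1, fcn_a2]
    · rw [ph_a2, fcn_a2]; rfl
    · rw [ph_w, fcn_w, fcn_a0]
    · rw [ph_out C h, fcn_out C h, fcn_out C (Out.φ C h)]
      congr 1
      exact Γ.fc_eq.2 (Γ.sameFace_φ e).symm
  · fin_cases k
    · show fcn C (ph C (inr 0)) = fcn C (inr 0)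
      rw [ph_0, fcn_d]; rfl
    · show fcn C (ph C (inr 1)) = fcn C (inr 1)
      rw [ph_1, fcn_p1]; rfl
    · show fcn C (ph C (inr 2)) = fcn C (inr 2)
      rw [ph_2]; rfl
    · show fcn C (ph C (inr 3)) = fcn C (inr 3)
      rw [ph_3]; rfl
    · show fcn C (ph C (inr 4)) = fcn C (inr 4)
      rw [ph_4]; rfl
    · show fcn C (ph C (inr 5)) = fcn C (inr 5)
      rw [ph_5]; rfl
    · show fcn C (ph C (inr 6)) = fcn C (inr 6)
      rw [ph_6, fcn_a1]; rfl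
    · show fcn C (ph C (inr 7)) = fcn C (inr 7)
      rw [ph_7]; rfl
    · show fcn C (ph C (inr 8)) = fcn C (inr 8)
      rw [ph_8]; rfl
    · show fcn C (ph C (inr 9)) = fcn C (inr 9)
      rw [ph_9, fcn_w]; rfl

theorem psc {x y : Dn Γ} (h : ph C x = y) : (phP C).SameCycle x y := by
  rw [← h, ← phP_apply]; exact sc_step _ _

/-- the six kinds of new faces -/
theorem fred (x : Dn Γ) :
    ((phP C).SameCycle x (inr 3) ∧ fcn C x = inl (Γ.fc C.d)) ∨
    ((phP C).SameCycle x (inr 0) ∧ fcn C x = inr 0) ∨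
    ((phP C).SameCycle x (inr 4) ∧ fcn C x = inr 1) ∨
    ((phP C).SameCycle x (inr 5) ∧ fcn C x = inl (Γ.fc C.a0)) ∨
    ((phP C).SameCycle x (inr 9) ∧ fcn C x = inr 2) ∨
    (∃ e, x = inl e ∧ Out C e ∧ fcn C x = inl (Γ.fc e)) := by
  have r3 : (phP C).SameCycle (inl C.p2) (inr 3) := psc C (ph_p2 C)
  have r3' : (phP C).SameCycle (inl C.p1) (inr 3) := (psc C (ph_p1 C)).trans r3
  have r1 : (phP C).SameCycle (inr 1) (inr 3) := (psc C (ph_1 C)).trans r3'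
  have q8 : (phP C).SameCycle (inr 8) (inr 0) := psc C (ph_8 C)
  have qd : (phP C).SameCycle (inl C.d) (inr 0) := (psc C (ph_0 C)).symm
  have t7 : (phP C).SameCycle (inr 7) (inr 4) := psc C (ph_7 C)
  have t2 : (phP C).SameCycle (inr 2) (inr 4) := (psc C (ph_2 C)).trans t7
  have s2 : (phP C).SameCycle (inl C.a2) (inr 5) := psc C (ph_a2 C)
  have s1 : (phP C).SameCycle (inl C.a1) (inr 5) := (psc C (ph_a1 C)).trans s2
  have s6 : (phP C).SameCycle (inr 6) (inr 5) := (psc C (ph_5 C)).symm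
  have va : (phP C).SameCycle (inl C.a0) (inr 9) := psc C (ph_a0 C)
  have vw : (phP C).SameCycle (inl C.w) (inr 9) := (psc C (ph_w C)).trans va
  rcases x with e | k
  · rcases out_cases C e with rfl | rfl | rfl | rfl | rfl | rfl | rfl | h
    · exact Or.inr (Or.inl ⟨qd, fcn_d C⟩)
    · exact Or.inl ⟨r3', fcn_p1 C⟩
    · exact Or.inl ⟨r3, fcn_p2 C⟩
    · exact Or.inr (Or.inr (Or.inr (Or.inr (Or.inl ⟨va, fcn_a0 C⟩))))
    · exact Or.inr (Or.inr (Or.inr (Or.inl ⟨s1, fcn_a1 C⟩)))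
    · exact Or.inr (Or.inr (Or.inr (Or.inl ⟨s2, fcn_a2 C⟩)))
    · exact Or.inr (Or.inr (Or.inr (Or.inr (Or.inl ⟨vw, fcn_w C⟩))))
    · exact Or.inr (Or.inr (Or.inr (Or.inr (Or.inr ⟨e, rfl, h, fcn_out C h⟩))))
  · fin_cases k
    · exact Or.inr (Or.inl ⟨Equiv.Perm.SameCycle.refl _ _, rfl⟩)
    · exact Or.inl ⟨r1, rfl⟩
    · exact Or.inr (Or.inr (Or.inl ⟨t2, rfl⟩))
    · exact Or.inl ⟨Equiv.Perm.SameCycle.refl _ _, rfl⟩
    · exact Or.inr (Or.inr (Or.inl ⟨Equiv.Perm.SameCycle.refl _ _, rfl⟩))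
    · exact Or.inr (Or.inr (Or.inr (Or.inl ⟨Equiv.Perm.SameCycle.refl _ _, rfl⟩)))
    · exact Or.inr (Or.inr (Or.inr (Or.inl ⟨s6, rfl⟩)))
    · exact Or.inr (Or.inr (Or.inl ⟨t7, rfl⟩))
    · exact Or.inr (Or.inl ⟨q8, rfl⟩)
    · exact Or.inr (Or.inr (Or.inr (Or.inr (Or.inl ⟨Equiv.Perm.SameCycle.refl _ _, rfl⟩))))

theorem fsc_lift {e e' : Γ.D} (he : Out C e) (h : Γ.φ.SameCycle e e') :
    (phP C).SameCycle (inl e) (inl e') := by
  have := Γ.finD
  obtain ⟨n, rfl⟩ := h.exists_nat_pow_eq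
  clear h
  induction n with
  | zero => exact Equiv.Perm.SameCycle.refl _ _
  | succ n ih =>
    rw [pow_succ', Equiv.Perm.mul_apply]
    have h1 : Out C ((Γ.φ ^ n) e) := he.sc C ⟨n, by simp⟩
    exact ih.trans (psc C (ph_out C h1))

theorem fcn_iff (x y : Dn Γ) : fcn C x = fcn C y ↔ (phP C).SameCycle x y := by
  have := finite_Dn (Γ := Γ)
  have hne := Fd_ne_Fa C
  constructor
  · intro h
    rcases fred C x with ⟨h1, h2⟩ | ⟨h1, h2⟩ | ⟨h1, h2⟩ | ⟨h1, h2⟩ | ⟨h1, h2⟩ | ⟨e, rfl, h1, h2⟩ <;>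
      rcases fred C y with ⟨h3, h4⟩ | ⟨h3, h4⟩ | ⟨h3, h4⟩ | ⟨h3, h4⟩ | ⟨h3, h4⟩ | ⟨e', rfl, h3, h4⟩ <;>
      rw [h2, h4] at h
    all_goals first
      | exact h1.trans h3.symm
      | (exfalso; simp at h; done)
      | exact absurd (inl.inj h) hne
      | exact absurd (inl.inj h).symm hne
      | exact absurd (inl.inj h) (h1.fd C)
      | exact absurd (inl.inj h) (h1.fa C)
      | exact absurd (inl.inj h).symm (h3.fd C)
      | exact absurd (inl.inj h).symm (h3.fa C)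
      | exact fsc_lift C h1 (Γ.fc_eq.1 (inl.inj h))
  · exact inv_sc (fcn_phP C)

theorem fcn_surj : Function.Surjective (fcn C) := by
  rintro (f | j)
  · obtain ⟨e, rfl⟩ := Quotient.exists_rep f
    show ∃ a, fcn C a = inl (Γ.fc e)
    rcases out_cases C e with rfl | rfl | rfl | rfl | rfl | rfl | rfl | h
    · exact ⟨inr 3, rfl⟩
    · rw [fc_p1]; exact ⟨inr 3, rfl⟩
    · rw [fc_p2]; exact ⟨inr 3, rfl⟩
    · exact ⟨inr 5, rfl⟩
    · rw [fc_a1]; exact ⟨inr 5, rfl⟩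
    · rw [fc_a2]; exact ⟨inr 5, rfl⟩
    · rw [fc_w]; exact ⟨inr 5, rfl⟩
    · exact ⟨inl e, fcn_out C h⟩
  · fin_cases j
    · exact ⟨inr 0, rfl⟩
    · exact ⟨inr 2, rfl⟩
    · exact ⟨inr 9, rfl⟩

theorem card_faces : Nat.card (Quotient (Equiv.Perm.SameCycle.setoid (phP C))) =
    Nat.card Γ.Face + 3 := by
  have := Γ.finD
  have h1 : Nat.card (Quotient (Equiv.Perm.SameCycle.setoid (phP C))) =
      Nat.card (Γ.Face ⊕ Fin 3) := by
    apply Nat.card_congr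
    refine Equiv.ofBijective (Quotient.lift (fcn C) fun a b hab => (fcn_iff C a b).2 hab) ⟨?_, ?_⟩
    · rintro ⟨a⟩ ⟨b⟩ hab
      exact Quotient.sound ((fcn_iff C a b).1 hab)
    · intro y
      obtain ⟨x, hx⟩ := fcn_surj C y
      exact ⟨Quotient.mk _ x, hx⟩
  rw [h1, Nat.card_sum, Nat.card_eq_fintype_card (α := Fin 3), Fintype.card_fin]

/-! ### Far darts -/

/-- the far dart in the new map -/
noncomputable def farn (x : Dn Γ) : Dn Γ :=
  if (og C (alf C x)).isRight then alf C (sg C (sg C (alf C x))) else alf C x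

theorem farn_d : farn C (inl C.d) = inl C.a0 := by
  rw [farn, alf_d, if_pos (show (og C (inr 6)).isRight = true from rfl), sg_6, sg_8, alf_7]

theorem farn_a0 : farn C (inl C.a0) = inl C.d := by
  rw [farn, alf_a0, if_pos (show (og C (inr 7)).isRight = true from rfl), sg_7, sg_9, alf_6]

theorem cr_ne_d {e : Γ.D} {x : Γ.X} (h : Γ.org e = inr x) : e ≠ C.d :=
  ne_of_org (by rw [h, C.od]; simp)

theorem cr_ne_a0 {e : Γ.D} {x : Γ.X} (h : Γ.org e = inr x) : e ≠ C.a0 :=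
  ne_of_org (by rw [h, C.oa0]; simp)

theorem farn_inl {e : Γ.D} {a : V} (h : Γ.org e = inl a) : farn C (inl e) = inl (Γ.far e) := by
  by_cases h1 : e = C.d
  · rw [h1, farn_d, Γ.far_unc (v := C.z) (by rw [C.ad, C.oa0]), C.ad]
  · by_cases h2 : e = C.a0
    · rw [h2, farn_a0, Γ.far_unc (v := C.u) (by rw [aa0, C.od]), aa0]
    · rw [farn, alf_inl C h1 h2]
      rcases h3 : Γ.org (Γ.α e) with b | x
      · rw [og_inl C h3, Γ.far_unc h3]
        simp
      · have h4 : Γ.org (Γ.σ (Γ.α e)) = inr x := by rw [Γ.org_σ, h3]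
        have h5 : Γ.org (Γ.σ (Γ.σ (Γ.α e))) = inr x := by rw [Γ.org_σ, h4]
        rw [og_inr C h3, Γ.far_cr h3, sg_cr C h3, sg_cr C h4,
          alf_inl C (cr_ne_d C h5) (cr_ne_a0 C h5)]
        simp

theorem farn_0 : farn C (inr 0) = inr 3 := by
  rw [farn, alf_0, if_neg (show ¬ (og C (inr 3)).isRight = true from Bool.false_ne_true)]
theorem farn_1 : farn C (inr 1) = inr 4 := by
  rw [farn, alf_1, if_neg (show ¬ (og C (inr 4)).isRight = true from Bool.false_ne_true)]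
theorem farn_2 : farn C (inr 2) = inr 5 := by
  rw [farn, alf_2, if_pos (show (og C (inr 8)).isRight = true from rfl), sg_8, sg_7, alf_9]
theorem farn_3 : farn C (inr 3) = inr 0 := by
  rw [farn, alf_3, if_neg (show ¬ (og C (inr 0)).isRight = true from Bool.false_ne_true)]
theorem farn_4 : farn C (inr 4) = inr 1 := by
  rw [farn, alf_4, if_neg (show ¬ (og C (inr 1)).isRight = true from Bool.false_ne_true)]
theorem farn_5 : farn C (inr 5) = inr 2 := by
  rw [farn, alf_5, if_pos (show (og C (inr 9)).isRight = true from rfl), sg_9, sg_6, alf_8]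

theorem og0 : og C (inr 0) = inl (inr 0) := rfl
theorem og1 : og C (inr 1) = inl (inr 0) := rfl
theorem og2 : og C (inr 2) = inl (inr 0) := rfl
theorem og3 : og C (inr 3) = inl (inl C.u) := rfl
theorem og4 : og C (inr 4) = inl (inl C.z) := rfl
theorem og5 : og C (inr 5) = inl (inl C.v) := rfl
theorem og6 : og C (inr 6) = inr (inr 0) := rfl
theorem og7 : og C (inr 7) = inr (inr 0) := rfl
theorem og8 : og C (inr 8) = inr (inr 0) := rfl
theorem og9 : og C (inr 9) = inr (inr 0) := rfl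

/-- kinds of darts at vertices -/
theorem at_vertex {x : Dn Γ} {q : V ⊕ Fin 1} (h : og C x = inl q) :
    (∃ e a, x = inl e ∧ Γ.org e = inl a ∧ q = inl a) ∨
    (x = inr 0 ∧ q = inr 0) ∨ (x = inr 1 ∧ q = inr 0) ∨ (x = inr 2 ∧ q = inr 0) ∨
    (x = inr 3 ∧ q = inl C.u) ∨ (x = inr 4 ∧ q = inl C.z) ∨ (x = inr 5 ∧ q = inl C.v) := by
  rcases x with e | k
  · rcases h1 : Γ.org e with a | a
    · rw [og_inl C h1] at h
      exact Or.inl ⟨e, a, rfl, h1, (inl.inj h).symm⟩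
    · rw [og_inr C h1] at h
      exact absurd h (by simp)
  · fin_cases k
    · exact Or.inr (Or.inl ⟨rfl, (inl.inj h).symm⟩)
    · exact Or.inr (Or.inr (Or.inl ⟨rfl, (inl.inj h).symm⟩))
    · exact Or.inr (Or.inr (Or.inr (Or.inl ⟨rfl, (inl.inj h).symm⟩)))
    · exact Or.inr (Or.inr (Or.inr (Or.inr (Or.inl ⟨rfl, (inl.inj h).symm⟩))))
    · exact Or.inr (Or.inr (Or.inr (Or.inr (Or.inr (Or.inl ⟨rfl, (inl.inj h).symm⟩)))))
    · exact Or.inr (Or.inr (Or.inr (Or.inr (Or.inr (Or.inr ⟨rfl, (inl.inj h).symm⟩)))))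
    · exact absurd h (by simp [og])
    · exact absurd h (by simp [og])
    · exact absurd h (by simp [og])
    · exact absurd h (by simp [og])

/-- kinds of darts at crossings -/
theorem at_crossing {x : Dn Γ} {q : Γ.X ⊕ Fin 1} (h : og C x = inr q) :
    (∃ e a, x = inl e ∧ Γ.org e = inr a ∧ q = inl a) ∨
    x = inr 6 ∨ x = inr 7 ∨ x = inr 8 ∨ x = inr 9 := by
  rcases x with e | k
  · rcases h1 : Γ.org e with a | a
    · rw [og_inl C h1] at h
      exact absurd h (by simp)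
    · rw [og_inr C h1] at h
      exact Or.inl ⟨e, a, rfl, h1, (inr.inj h).symm⟩
  · fin_cases k
    · exact absurd h (by simp [og])
    · exact absurd h (by simp [og])
    · exact absurd h (by simp [og])
    · exact absurd h (by simp [og])
    · exact absurd h (by simp [og])
    · exact absurd h (by simp [og])
    · exact Or.inr (Or.inl rfl)
    · exact Or.inr (Or.inr (Or.inl rfl))
    · exact Or.inr (Or.inr (Or.inr (Or.inl rfl)))
    · exact Or.inr (Or.inr (Or.inr (Or.inr rfl)))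

theorem og_farn_inl {e : Γ.D} {a : V} (h : Γ.org e = inl a) :
    ∃ b, b ≠ a ∧ Γ.org (Γ.far e) = inl b ∧ og C (farn C (inl e)) = inl (inl b) := by
  obtain ⟨b, hb, hb2⟩ := Γ.exists_org_far h
  exact ⟨b, hb, hb2, by rw [farn_inl C h, og_inl C hb2]⟩

theorem deg4' (x : Dn Γ) (q : Γ.X ⊕ Fin 1) (h : og C x = inr q) :
    sg C (sg C (sg C (sg C x))) = x ∧ sg C (sg C x) ≠ x := by
  rcases at_crossing C h with ⟨e, a, rfl, h1, -⟩ | rfl | rfl | rfl | rfl
  · have h2 : Γ.org (Γ.σ e) = inr a := by rw [Γ.org_σ, h1]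
    have h3 : Γ.org (Γ.σ (Γ.σ e)) = inr a := by rw [Γ.org_σ, h2]
    have h4 : Γ.org (Γ.σ (Γ.σ (Γ.σ e))) = inr a := by rw [Γ.org_σ, h3]
    rw [sg_cr C h1, sg_cr C h2, sg_cr C h3, sg_cr C h4, Γ.σ4 h1]
    exact ⟨rfl, fun h' => Γ.σσ_ne h1 (inl.inj h')⟩
  · rw [sg_6, sg_8, sg_7, sg_9]; exact ⟨rfl, by simp⟩
  · rw [sg_7, sg_9, sg_6, sg_8]; exact ⟨rfl, by simp⟩
  · rw [sg_8, sg_7, sg_9, sg_6]; exact ⟨rfl, by simp⟩
  · rw [sg_9, sg_6, sg_8, sg_7]; exact ⟨rfl, by simp⟩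

theorem once' (x : Dn Γ) (q : Γ.X ⊕ Fin 1) (h : og C x = inr q) :
    ∃ v, og C (alf C x) = inl v := by
  rcases at_crossing C h with ⟨e, a, rfl, h1, -⟩ | rfl | rfl | rfl | rfl
  · obtain ⟨b, hb⟩ := Γ.once _ _ h1
    exact ⟨inl b, by rw [alf_inl C (cr_ne_d C h1) (cr_ne_a0 C h1), og_inl C hb]⟩
  · exact ⟨_, by rw [alf_6, og_inl C C.od]⟩
  · exact ⟨_, by rw [alf_7, og_inl C C.oa0]⟩
  · exact ⟨_, by rw [alf_8, og2]⟩
  · exact ⟨_, by rw [alf_9, og5]⟩

theorem loopless' (x : Dn Γ) (q : V ⊕ Fin 1) (h : og C x = inl q) : og C (farn C x) ≠ inl q := by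
  rcases at_vertex C h with ⟨e, a, rfl, h1, rfl⟩ | ⟨rfl, rfl⟩ | ⟨rfl, rfl⟩ | ⟨rfl, rfl⟩ |
    ⟨rfl, rfl⟩ | ⟨rfl, rfl⟩ | ⟨rfl, rfl⟩
  · obtain ⟨b, hb, -, hb2⟩ := og_farn_inl C h1
    rw [hb2]
    simpa using hb
  · rw [farn_0, og3]; simp
  · rw [farn_1, og4]; simp
  · rw [farn_2, og5]; simp
  · rw [farn_3, og0]; simp
  · rw [farn_4, og1]; simp
  · rw [farn_5, og2]; simp

theorem simple' (x y : Dn Γ) (q : V ⊕ Fin 1) (hx : og C x = inl q) (hy : og C y = inl q)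
    (h : og C (farn C x) = og C (farn C y)) : x = y := by
  have huz := C.uz
  have hvz := C.vz
  have huv := C.uv
  rcases at_vertex C hx with ⟨e, a, rfl, h1, rfl⟩ | ⟨rfl, rfl⟩ | ⟨rfl, rfl⟩ | ⟨rfl, rfl⟩ |
    ⟨rfl, rfl⟩ | ⟨rfl, rfl⟩ | ⟨rfl, rfl⟩
  · obtain ⟨b, hb, hb1, hb2⟩ := og_farn_inl C h1
    rw [hb2] at h
    rcases at_vertex C hy with ⟨e', a', rfl, h1', h2'⟩ | ⟨rfl, h2'⟩ | ⟨rfl, h2'⟩ | ⟨rfl, h2'⟩ |
      ⟨rfl, h2'⟩ | ⟨rfl, h2'⟩ | ⟨rfl, h2'⟩
    · obtain ⟨b', hb', hb1', hb2'⟩ := og_farn_inl C h1'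
      rw [hb2'] at h
      rw [← inl.inj h2'] at h1'
      rw [Γ.far_inj h1 h1' (by rw [hb1, hb1', inl.inj (inl.inj h)])]
    · exact absurd h2' (by simp)
    · exact absurd h2' (by simp)
    · exact absurd h2' (by simp)
    · rw [farn_3, og0] at h; exact absurd h (by simp)
    · rw [farn_4, og1] at h; exact absurd h (by simp)
    · rw [farn_5, og2] at h; exact absurd h (by simp)
  all_goals
    rcases at_vertex C hy with ⟨e', a', rfl, h1', h2'⟩ | ⟨rfl, h2'⟩ | ⟨rfl, h2'⟩ | ⟨rfl, h2'⟩ |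
      ⟨rfl, h2'⟩ | ⟨rfl, h2'⟩ | ⟨rfl, h2'⟩
  all_goals first
    | rfl
    | (exfalso; simp at h2'; done)
    | (exfalso; simp only [farn_0, farn_1, farn_2, farn_3, farn_4, farn_5, og0, og1, og2, og3, og4,
        og5, inl.injEq] at h h2'; first
        | exact huz h
        | exact huz h.symm
        | exact huv h
        | exact huv h.symm
        | exact hvz h
        | exact hvz h.symm
        | exact huz h2'
        | exact huz h2'.symm
        | exact huv h2'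
        | exact huv h2'.symm
        | exact hvz h2'
        | exact hvz h2'.symm)
    | (exfalso
       obtain ⟨b', hb', hb1', hb2'⟩ := og_farn_inl C h1'
       rw [hb2'] at h
       simp only [farn_3, farn_4, farn_5, og0, og1, og2] at h
       exact absurd h (by simp))

theorem cross' (x : Dn Γ) (q : Γ.X ⊕ Fin 1) (h : og C x = inr q) :
    og C (alf C x) ≠ og C (alf C (sg C x)) := by
  rcases at_crossing C h with ⟨e, a, rfl, h1, -⟩ | rfl | rfl | rfl | rfl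
  · have h2 : Γ.org (Γ.σ e) = inr a := by rw [Γ.org_σ, h1]
    rw [sg_cr C h1, alf_inl C (cr_ne_d C h1) (cr_ne_a0 C h1),
      alf_inl C (cr_ne_d C h2) (cr_ne_a0 C h2), Ne, og_eq_iff]
    exact Γ.cross _ _ h1
  · rw [sg_6, alf_6, alf_8, og_inl C C.od, og2]; simp
  · rw [sg_7, alf_7, alf_9, og_inl C C.oa0, og5]; simpa using C.vz.symm
  · rw [sg_8, alf_8, alf_7, og_inl C C.oa0, og2]; simp
  · rw [sg_9, alf_9, alf_6, og_inl C C.od, og5]; simpa using C.uv.symm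

/-! ### The new drawing -/

theorem euler' [Finite V] : 2 * (Nat.card ((V ⊕ Fin 1) ⊕ (Γ.X ⊕ Fin 1)) +
    Nat.card (Quotient (Equiv.Perm.SameCycle.setoid (sg C * al C)))) = Nat.card (Dn Γ) + 4 := by
  have := Γ.finD
  have := Γ.finX
  have h1 := card_faces C
  have h2 := Γ.euler
  have h3 : Nat.card (Quotient (Equiv.Perm.SameCycle.setoid (Γ.σ * Γ.α))) = Nat.card Γ.Face := rfl
  rw [h3] at h2
  rw [show sg C * al C = phP C from rfl, h1]
  rw [Nat.card_sum] at h2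
  rw [Nat.card_sum, Nat.card_sum, Nat.card_sum, Nat.card_sum]
  simp only [Nat.card_eq_fintype_card (α := Fin 1), Nat.card_eq_fintype_card (α := Fin 10),
    Fintype.card_fin]
  omega

/-- the new drawing -/
noncomputable def nD [Finite V] : Drawing (V ⊕ Fin 1) where
  D := Dn Γ
  X := Γ.X ⊕ Fin 1
  finD := finite_Dn
  finX := by have := Γ.finX; infer_instance
  σ := sg C
  α := al C
  org := og C
  invol := alf_alf C
  ne := alf_ne C
  onto := onto' C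
  orbit := orbit' C
  conn := conn' C
  euler := euler' C
  deg4 := deg4' C
  once := once' C
  loopless := loopless' C
  simple := simple' C
  cross := cross' C

variable [Finite V]

theorem nD_far (x : Dn Γ) : (nD C).far x = farn C x := rfl

theorem adj_old {a b : V} (h : Γ.graph.Adj a b) : (nD C).graph.Adj (inl a) (inl b) := by
  obtain ⟨e, h1, h2⟩ := (Γ.adj_iff a b).1 h
  rw [(nD C).adj_iff]
  refine ⟨inl e, og_inl C h1, ?_⟩
  rw [nD_far, farn_inl C h1]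
  exact og_inl C h2

theorem adj_zu : (nD C).graph.Adj (inr 0) (inl C.u) :=
  ((nD C).adj_iff _ _).2 ⟨inr 0, rfl, by rw [nD_far, farn_0]; rfl⟩

theorem adj_zz : (nD C).graph.Adj (inr 0) (inl C.z) :=
  ((nD C).adj_iff _ _).2 ⟨inr 1, rfl, by rw [nD_far, farn_1]; rfl⟩

theorem adj_zv : (nD C).graph.Adj (inr 0) (inl C.v) :=
  ((nD C).adj_iff _ _).2 ⟨inr 2, rfl, by rw [nD_far, farn_2]; rfl⟩

theorem adj_uz : Γ.graph.Adj C.u C.z :=
  Γ.adj_α C.od (by rw [C.ad, C.oa0])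

theorem adj_vz : Γ.graph.Adj C.v C.z :=
  Γ.adj_α C.ow (by rw [← Γ.org_φ, C.g3, C.oa0])

theorem adj_uv (hM : Γ.Maximal) : Γ.graph.Adj C.u C.v :=
  hM.inside C.u C.v C.uv ⟨C.a1, C.w, C.oa1, C.ow, (sc_eq C.g1).trans (sc_eq C.g2)⟩

theorem nD_φ_sc {x y : Dn Γ} : (nD C).φ.SameCycle x y ↔ fcn C x = fcn C y :=
  (fcn_iff C x y).symm

/-- the vertices on the new faces -/
theorem face_vertex {x : Dn Γ} {q : V ⊕ Fin 1} (h : og C x = inl q) :
    (fcn C x = inl (Γ.fc C.d) ∧ (q = inl C.u ∨ q = inr 0 ∨ q = inl C.z)) ∨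
    (fcn C x = inr 0 ∧ (q = inl C.u ∨ q = inr 0)) ∨
    (fcn C x = inr 1 ∧ (q = inr 0 ∨ q = inl C.z)) ∨
    (fcn C x = inl (Γ.fc C.a0) ∧ (q = inl C.u ∨ q = inl C.v)) ∨
    (fcn C x = inr 2 ∧ (q = inl C.v ∨ q = inl C.z)) ∨
    (∃ e a, x = inl e ∧ Out C e ∧ fcn C x = inl (Γ.fc e) ∧ Γ.org e = inl a ∧ q = inl a) := by
  rcases at_vertex C h with ⟨e, a, rfl, h1, rfl⟩ | ⟨rfl, rfl⟩ | ⟨rfl, rfl⟩ | ⟨rfl, rfl⟩ |
    ⟨rfl, rfl⟩ | ⟨rfl, rfl⟩ | ⟨rfl, rfl⟩
  · rcases out_cases C e with rfl | rfl | rfl | rfl | rfl | rfl | rfl | h2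
    · rw [C.od] at h1
      exact Or.inr (Or.inl ⟨fcn_d C, Or.inl (by rw [inl.inj h1])⟩)
    · rw [C.op1] at h1
      exact Or.inl ⟨fcn_p1 C, Or.inr (Or.inr (by rw [inl.inj h1]))⟩
    · rw [C.op2] at h1
      exact absurd h1 (by simp)
    · rw [C.oa0] at h1
      exact Or.inr (Or.inr (Or.inr (Or.inr (Or.inl ⟨fcn_a0 C, Or.inr (by rw [inl.inj h1])⟩))))
    · rw [C.oa1] at h1
      exact Or.inr (Or.inr (Or.inr (Or.inl ⟨fcn_a1 C, Or.inl (by rw [inl.inj h1])⟩)))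
    · rw [C.oa2] at h1
      exact absurd h1 (by simp)
    · rw [C.ow] at h1
      exact Or.inr (Or.inr (Or.inr (Or.inr (Or.inl ⟨fcn_w C, Or.inl (by rw [inl.inj h1])⟩))))
    · exact Or.inr (Or.inr (Or.inr (Or.inr (Or.inr ⟨e, a, rfl, h2, fcn_out C h2, h1, rfl⟩))))
  · exact Or.inr (Or.inl ⟨rfl, Or.inr rfl⟩)
  · exact Or.inl ⟨rfl, Or.inr (Or.inl rfl)⟩
  · exact Or.inr (Or.inr (Or.inl ⟨rfl, Or.inl rfl⟩))
  · exact Or.inl ⟨rfl, Or.inl rfl⟩
  · exact Or.inr (Or.inr (Or.inl ⟨rfl, Or.inr rfl⟩))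
  · exact Or.inr (Or.inr (Or.inr (Or.inl ⟨rfl, Or.inr rfl⟩)))

theorem inside' (hM : Γ.Maximal) (p q : V ⊕ Fin 1) (hpq : p ≠ q) (x y : Dn Γ)
    (hx : og C x = inl p) (hy : og C y = inl q) (h : fcn C x = fcn C y) :
    (nD C).graph.Adj p q := by
  have hne := Fd_ne_Fa C
  have k1 := adj_old C (adj_uz C)
  have k2 := adj_old C (adj_vz C)
  have k3 := adj_old C (adj_uv C hM)
  have k4 := adj_zu C
  have k5 := adj_zz C
  have k6 := adj_zv C
  rcases face_vertex C hx with ⟨h1, h2⟩ | ⟨h1, h2⟩ | ⟨h1, h2⟩ | ⟨h1, h2⟩ | ⟨h1, h2⟩ |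
      ⟨e, a, h0, h1, h2, h5, rfl⟩ <;>
    rcases face_vertex C hy with ⟨h3, h4⟩ | ⟨h3, h4⟩ | ⟨h3, h4⟩ | ⟨h3, h4⟩ | ⟨h3, h4⟩ |
      ⟨e', a', h0', h3, h4, h6, rfl⟩
  all_goals first
    | (rw [h1, h3] at h; exfalso; first
        | (simp at h; done)
        | exact hne (inl.inj h)
        | exact hne (inl.inj h).symm)
    | (rw [h1, h4] at h; exfalso; first
        | (simp at h; done)
        | exact (h3.fd C) (inl.inj h).symm
        | exact (h3.fa C) (inl.inj h).symm)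
    | (rw [h2, h3] at h; exfalso; first
        | (simp at h; done)
        | exact (h1.fd C) (inl.inj h)
        | exact (h1.fa C) (inl.inj h))
    | (rcases h2 with rfl | rfl | rfl <;> rcases h4 with rfl | rfl | rfl <;> first
        | exact absurd rfl hpq
        | assumption
        | (apply SimpleGraph.Adj.symm; assumption))
    | (rcases h2 with rfl | rfl <;> rcases h4 with rfl | rfl <;> first
        | exact absurd rfl hpq
        | assumption
        | (apply SimpleGraph.Adj.symm; assumption))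
    | (rw [h2, h4] at h
       exact adj_old C (hM.inside a a' (fun h' => hpq (by rw [h'])) ⟨e, e', h5, h6,
         Γ.fc_eq.1 (inl.inj h)⟩))

theorem fv0 {x : Dn Γ} {q : V ⊕ Fin 1} (h : og C x = inl q) (hf : fcn C x = inr 0) :
    q = inl C.u ∨ q = inr 0 := by
  rcases face_vertex C h with ⟨h1, h2⟩ | ⟨h1, h2⟩ | ⟨h1, h2⟩ | ⟨h1, h2⟩ | ⟨h1, h2⟩ |
      ⟨e, a, h0, h1, h2, h5, rfl⟩
  · rw [h1] at hf; simp at hf
  · exact h2
  · rw [h1] at hf; simp at hf
  · rw [h1] at hf; simp at hf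
  · rw [h1] at hf; simp at hf
  · rw [h2] at hf; simp at hf

theorem fv1 {x : Dn Γ} {q : V ⊕ Fin 1} (h : og C x = inl q) (hf : fcn C x = inr 1) :
    q = inr 0 ∨ q = inl C.z := by
  rcases face_vertex C h with ⟨h1, h2⟩ | ⟨h1, h2⟩ | ⟨h1, h2⟩ | ⟨h1, h2⟩ | ⟨h1, h2⟩ |
      ⟨e, a, h0, h1, h2, h5, rfl⟩
  · rw [h1] at hf; simp at hf
  · rw [h1] at hf; simp at hf
  · exact h2
  · rw [h1] at hf; simp at hf
  · rw [h1] at hf; simp at hf
  · rw [h2] at hf; simp at hf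

theorem fv2 {x : Dn Γ} {q : V ⊕ Fin 1} (h : og C x = inl q) (hf : fcn C x = inr 2) :
    q = inl C.v ∨ q = inl C.z := by
  rcases face_vertex C h with ⟨h1, h2⟩ | ⟨h1, h2⟩ | ⟨h1, h2⟩ | ⟨h1, h2⟩ | ⟨h1, h2⟩ |
      ⟨e, a, h0, h1, h2, h5, rfl⟩
  · rw [h1] at hf; simp at hf
  · rw [h1] at hf; simp at hf
  · rw [h1] at hf; simp at hf
  · rw [h1] at hf; simp at hf
  · exact h2
  · rw [h2] at hf; simp at hf

theorem fvo {x : Dn Γ} {q : V ⊕ Fin 1} (h : og C x = inl q) {e : Γ.D} (he : Out C e)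
    (hf : fcn C x = inl (Γ.fc e)) :
    ∃ e' a, Γ.org e' = inl a ∧ q = inl a ∧ Γ.φ.SameCycle e' e := by
  rcases face_vertex C h with ⟨h1, h2⟩ | ⟨h1, h2⟩ | ⟨h1, h2⟩ | ⟨h1, h2⟩ | ⟨h1, h2⟩ |
      ⟨e', a, h0, h1, h2, h5, h6⟩
  · rw [h1] at hf; exact absurd (inl.inj hf).symm (he.fd C)
  · rw [h1] at hf; simp at hf
  · rw [h1] at hf; simp at hf
  · rw [h1] at hf; exact absurd (inl.inj hf).symm (he.fa C)
  · rw [h1] at hf; simp at hf
  · rw [h2] at hf
    exact ⟨e', a, h5, h6, Γ.fc_eq.1 (inl.inj hf)⟩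

theorem across' (hM : Γ.Maximal) (p q : V ⊕ Fin 1) (hpq : p ≠ q) (x y g : Dn Γ) (a b : V ⊕ Fin 1)
    (hx : og C x = inl p) (hy : og C y = inl q) (hap : a ≠ p) (haq : a ≠ q) (hbp : b ≠ p)
    (hbq : b ≠ q) (hg : og C g = inl a) (hg' : og C (alf C g) = inl b)
    (h : fcn C x = fcn C g) (h' : fcn C y = fcn C (alf C g)) :
    (nD C).graph.Adj p q := by
  rcases at_vertex C hg with ⟨e, a', rfl, h1, rfl⟩ | ⟨rfl, rfl⟩ | ⟨rfl, rfl⟩ | ⟨rfl, rfl⟩ |
    ⟨rfl, rfl⟩ | ⟨rfl, rfl⟩ | ⟨rfl, rfl⟩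
  · rcases out_cases C e with rfl | rfl | rfl | rfl | rfl | rfl | rfl | h2
    · rw [alf_d, og6] at hg'; exact absurd hg' (by simp)
    · rw [alf_inl C (d_p1 C).symm (p1_a0 C), og_inr C (x := C.x)
        (by rw [← Γ.org_φ, C.f2, C.op2])] at hg'
      exact absurd hg' (by simp)
    · rw [C.op2] at h1; exact absurd h1 (by simp)
    · rw [alf_a0, og7] at hg'; exact absurd hg' (by simp)
    · rw [alf_inl C (d_a1 C).symm (a0_a1 C).symm, og_inr C (x := C.y)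
        (by rw [← Γ.org_φ, C.g1, C.oa2])] at hg'
      exact absurd hg' (by simp)
    · rw [C.oa2] at h1; exact absurd h1 (by simp)
    · rw [C.ow] at h1
      rw [alf_inl C (d_w C).symm (a0_w C).symm, og_inl C (v := C.z)
        (by rw [← Γ.org_φ, C.g3, C.oa0])] at hg'
      rw [fcn_w] at h
      rcases fv2 C hx h with h3 | h3
      · exact absurd (by rw [h3, inl.inj h1]) hap
      · exact absurd (by rw [h3, ← inl.inj hg']) hbp
    · rw [alf_inl C h2.d h2.a0] at hg' h'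
      rw [fcn_out C h2] at h
      rcases out_cases C (Γ.α e) with h3 | h3 | h3 | h3 | h3 | h3 | h3 | h3
      · exact absurd (by rw [← C.ad, ← h3, Γ.invol]) h2.a0
      · have h4 : Γ.org e = inr C.x := by
          rw [← Γ.invol e, h3, ← Γ.org_φ, C.f2, C.op2]
        rw [h4] at h1; exact absurd h1 (by simp)
      · rw [h3, og_inr C C.op2] at hg'; exact absurd hg' (by simp)
      · exact absurd (by rw [← aa0, ← h3, Γ.invol]) h2.d
      · have h4 : Γ.org e = inr C.y := by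
          rw [← Γ.invol e, h3, ← Γ.org_φ, C.g1, C.oa2]
        rw [h4] at h1; exact absurd h1 (by simp)
      · rw [h3, og_inr C C.oa2] at hg'; exact absurd hg' (by simp)
      · have h4 : Γ.org e = inl C.z := by
          rw [← Γ.invol e, h3, ← Γ.org_φ, C.g3, C.oa0]
        rw [h4] at h1
        rw [h3, og_inl C C.ow] at hg'
        rw [h3, fcn_w] at h'
        rcases fv2 C hy h' with h5 | h5
        · exact absurd (by rw [h5, ← inl.inj hg']) hbq
        · exact absurd (by rw [h5, inl.inj h1]) haq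
      · rw [fcn_out C h3] at h'
        obtain ⟨e1, p', h5, rfl, h6⟩ := fvo C hx h2 h
        obtain ⟨e2, q', h7, rfl, h8⟩ := fvo C hy h3 h'
        obtain ⟨b', hb'⟩ : ∃ b', Γ.org (Γ.α e) = inl b' := by
          rcases h9 : Γ.org (Γ.α e) with c | c
          · exact ⟨c, rfl⟩
          · rw [og_inr C h9] at hg'; exact absurd hg' (by simp)
        rw [og_inl C hb'] at hg'
        have hb'' := (inl.inj hg').symm
        subst hb''
        exact adj_old C (hM.across p' q' (fun h' => hpq (by rw [h'])) ⟨e1, e2, e, h5, h7,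
          ⟨a', b', fun h' => hap (by rw [h']), fun h' => haq (by rw [h']),
            fun h' => hbp (by rw [h']), fun h' => hbq (by rw [h']), h1, hb'⟩, h6, h8⟩)
  · rw [alf_0, og3] at hg'
    rcases fv0 C hx h with h3 | h3
    · exact absurd (by rw [h3]; exact (inl.inj hg').symm) hbp
    · exact absurd h3.symm hap
  · rw [alf_1, og4] at hg'
    rw [alf_1] at h'
    rcases fv1 C hy h' with h3 | h3
    · exact absurd h3.symm haq
    · exact absurd (by rw [h3]; exact (inl.inj hg').symm) hbq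
  · rw [alf_2, og8] at hg'; exact absurd hg' (by simp)
  · rw [alf_3, og0] at hg'
    rw [alf_3] at h'
    rcases fv0 C hy h' with h3 | h3
    · exact absurd h3.symm haq
    · exact absurd (by rw [h3]; exact (inl.inj hg').symm) hbq
  · rw [alf_4, og1] at hg'
    rcases fv1 C hx h with h3 | h3
    · exact absurd (by rw [h3]; exact (inl.inj hg').symm) hbp
    · exact absurd h3.symm hap
  · rw [alf_5, og9] at hg'; exact absurd hg' (by simp)

theorem maximal' (hM : Γ.Maximal) : (nD C).Maximal where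
  inside := by
    rintro p q hpq ⟨x, y, hx, hy, h⟩
    exact inside' C hM p q hpq x y hx hy ((nD_φ_sc C).1 h)
  across := by
    rintro p q hpq ⟨x, y, g, hx, hy, ⟨a, b, h1, h2, h3, h4, h5, h6⟩, h7, h8⟩
    exact across' C hM p q hpq x y g a b hx hy h1 h2 h3 h4 h5 h6 ((nD_φ_sc C).1 h7)
      ((nD_φ_sc C).1 h8)

theorem kconn' (hADD : SpecADD) (h3 : KConn Γ.graph 3) : KConn (nD C).graph 3 := by
  refine hADD V 1 Γ.graph (nD C).graph h3 (fun _ _ h => adj_old C h) (fun j => ?_)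
  have hj : j = 0 := Subsingleton.elim _ _
  subst hj
  refine ⟨![inl C.u, inl C.z, inl C.v], ?_, ?_⟩
  · have huz := C.uz
    have hvz := C.vz
    have huv := C.uv
    intro i k hik
    fin_cases i <;> fin_cases k <;> simp_all
  · intro i
    refine ⟨?_, fun j' hj' => ?_⟩
    · fin_cases i
      · exact adj_zu C
      · exact adj_zz C
      · exact adj_zv C
    · exfalso
      fin_cases i <;> simp at hj'

/-- the new tip -/
noncomputable def tip' : Tip (nD C) where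
  d := inr 4
  u := inl C.z
  z := inr 0
  v := inl C.u
  org_d := rfl
  org_α := rfl
  x := inr 0
  org_x := by
    show og C (ph C (ph C (inr 4))) = _
    rw [ph_4, ph_2]; rfl
  cyc3 := by
    show ph C (ph C (ph C (inr 4))) = _
    rw [ph_4, ph_2, ph_7]
  y := inl C.x
  org_y := by
    show og C (ph C (ph C (alf C (inr 4)))) = _
    rw [alf_4, ph_1, ph_p1, og_inr C C.op2]; rfl
  org_v := by
    show og C (ph C (ph C (ph C (alf C (inr 4))))) = _
    rw [alf_4, ph_1, ph_p1, ph_p2]; rfl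
  cyc4 := by
    show ph C (ph C (ph C (ph C (alf C (inr 4))))) = alf C (inr 4)
    rw [alf_4, ph_1, ph_p1, ph_p2, ph_3]

theorem size' (hSZD : SpecSZD) : (nD C).size = Γ.size + 3 := by
  have := Γ.finD
  have := Γ.finX
  have h1 := hSZD V Γ
  have h2 := hSZD (V ⊕ Fin 1) (nD C)
  have h3 : (nD C).cr = Γ.cr + 1 := by
    show Nat.card (Γ.X ⊕ Fin 1) = Nat.card Γ.X + 1
    rw [Nat.card_sum]; simp
  have h4 : Nat.card (nD C).D = Nat.card Γ.D + 10 := by
    show Nat.card (Γ.D ⊕ Fin 10) = Nat.card Γ.D + 10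
    rw [Nat.card_sum]; simp
  omega

theorem nb' : {w | (nD C).graph.Adj (inr 0) w}.ncard ≤ 3 := by
  have h1 : {w | (nD C).graph.Adj (inr 0) w} ⊆ {inl C.u, inl C.z, inl C.v} := by
    intro q hq
    obtain ⟨x, hx1, hx2⟩ := ((nD C).adj_iff _ _).1 hq
    change og C x = inl (inr 0) at hx1
    change og C (farn C x) = inl q at hx2
    rcases at_vertex C hx1 with ⟨e, a, rfl, h1, h2⟩ | ⟨rfl, -⟩ | ⟨rfl, -⟩ | ⟨rfl, -⟩ |
      ⟨rfl, h2⟩ | ⟨rfl, h2⟩ | ⟨rfl, h2⟩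
    · exact absurd h2 (by simp)
    · rw [farn_0] at hx2
      left; exact (inl.inj hx2).symm
    · rw [farn_1] at hx2
      right; left; exact (inl.inj hx2).symm
    · rw [farn_2] at hx2
      right; right; exact (inl.inj hx2).symm
    · exact absurd h2 (by simp)
    · exact absurd h2 (by simp)
    · exact absurd h2 (by simp)
  refine (Set.ncard_le_ncard h1 (Set.toFinite _)).trans ?_
  refine (Set.ncard_insert_le _ _).trans ?_
  have := Set.ncard_insert_le (inl C.z : V ⊕ Fin 1) {inl C.v}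
  rw [Set.ncard_singleton] at this
  omega

end TIPM

open TIPM in
/-- TIP -/
theorem specTIP (hADD : SpecADD) (hSZD : SpecSZD) : SpecTIP := by
  intro V _ Γ hM h3 T
  obtain ⟨C, -⟩ := exists_cfg Γ T
  exact ⟨nD C, maximal' C hM, kconn' C hADD h3, ⟨tip' C⟩, size' C hSZD, nb' C⟩

end Pool.Agent.Lib.MP0c8bd9
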