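import Pool.Agent.Lib.MP_0c8bd9_co.Defs

/-!
# MP_0c8bd9_co : first consequences of the definitions
-/

set_option autoImplicit false

namespace Pool.Agent.Lib.MP0c8bd9

open Sum

namespace Drawing

variable {V : Type} (Γ : Drawing V)

theorem φ_apply (d : Γ.D) : Γ.φ d = Γ.σ (Γ.α d) := rfl

theorem org_σ (d : Γ.D) : Γ.org (Γ.σ d) = Γ.org d :=
  ((Γ.orbit d (Γ.σ d)).2 ⟨1, by simp⟩).symm

theorem org_σ_symm (d : Γ.D) : Γ.org (Γ.σ.symm d) = Γ.org d := by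
  have h := Γ.org_σ (Γ.σ.symm d)
  rw [Equiv.apply_symm_apply] at h
  exact h.symm

theorem org_φ (d : Γ.D) : Γ.org (Γ.φ d) = Γ.org (Γ.α d) := Γ.org_σ _

theorem α_symm (d : Γ.D) : Γ.α.symm d = Γ.α d := by
  rw [Equiv.symm_apply_eq, Γ.invol]

theorem φ_symm (d : Γ.D) : Γ.φ.symm d = Γ.α (Γ.σ.symm d) := by
  rw [Equiv.symm_apply_eq, φ_apply, Γ.invol, Equiv.apply_symm_apply]

/-- the dart after `α d` around the face of `α d` -/
theorem φ_α (d : Γ.D) : Γ.φ (Γ.α d) = Γ.σ d := by rw [φ_apply, Γ.invol]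

theorem sameFace_φ (d : Γ.D) : Γ.φ.SameCycle d (Γ.φ d) := ⟨1, by simp⟩

theorem sameFace_σ (d : Γ.D) : Γ.φ.SameCycle (Γ.α d) (Γ.σ d) := ⟨1, by simp [φ_apply, Γ.invol]⟩

theorem σ4 {d : Γ.D} {x : Γ.X} (h : Γ.org d = inr x) : Γ.σ (Γ.σ (Γ.σ (Γ.σ d))) = d :=
  (Γ.deg4 d x h).1

theorem σσ_ne {d : Γ.D} {x : Γ.X} (h : Γ.org d = inr x) : Γ.σ (Γ.σ d) ≠ d := (Γ.deg4 d x h).2

theorem far_unc {d : Γ.D} {v : V} (h : Γ.org (Γ.α d) = inl v) : Γ.far d = Γ.α d := by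
  simp [far, h]

theorem far_cr {d : Γ.D} {x : Γ.X} (h : Γ.org (Γ.α d) = inr x) :
    Γ.far d = Γ.α (Γ.σ (Γ.σ (Γ.α d))) := by
  simp [far, h]

/-- the other end of the edge of a dart at a crossing -/
theorem far_α {d : Γ.D} {x : Γ.X} (h : Γ.org d = inr x) :
    Γ.far (Γ.α d) = Γ.α (Γ.σ (Γ.σ d)) := by
  rw [Γ.far_cr (x := x) (by rw [Γ.invol]; exact h), Γ.invol]

theorem exists_org_far {d : Γ.D} {v : V} (h : Γ.org d = inl v) :
    ∃ w, w ≠ v ∧ Γ.org (Γ.far d) = inl w := by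
  have hl := Γ.loopless d v h
  have h2 : ∃ w, Γ.org (Γ.far d) = inl w := by
    rcases hα : Γ.org (Γ.α d) with w | x
    · exact ⟨w, by rw [Γ.far_unc hα, hα]⟩
    · rw [Γ.far_cr hα]
      apply Γ.once _ x
      rw [Γ.org_σ, Γ.org_σ, hα]
  obtain ⟨w, hw⟩ := h2
  refine ⟨w, ?_, hw⟩
  rintro rfl
  exact hl hw

theorem far_far {d : Γ.D} {v : V} (h : Γ.org d = inl v) : Γ.far (Γ.far d) = d := by
  rcases hα : Γ.org (Γ.α d) with w | x
  · rw [Γ.far_unc hα, Γ.far_unc (v := v) (by rw [Γ.invol]; exact h), Γ.invol]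
  · rw [Γ.far_cr hα, Γ.far_α (x := x) (by rw [Γ.org_σ, Γ.org_σ, hα]), Γ.σ4 hα, Γ.invol]

theorem far_inj {d e : Γ.D} {v : V} (hd : Γ.org d = inl v) (he : Γ.org e = inl v)
    (h : Γ.org (Γ.far d) = Γ.org (Γ.far e)) : d = e := Γ.simple d e v hd he h

theorem adj_iff (u v : V) : Γ.graph.Adj u v ↔
    ∃ d, Γ.org d = inl u ∧ Γ.org (Γ.far d) = inl v := by
  rw [graph, SimpleGraph.fromRel_adj]
  constructor
  · rintro ⟨-, ⟨d, h1, h2⟩ | ⟨d, h1, h2⟩⟩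
    · exact ⟨d, h1, h2⟩
    · exact ⟨Γ.far d, h2, by rw [Γ.far_far h1]; exact h1⟩
  · rintro ⟨d, h1, h2⟩
    refine ⟨?_, Or.inl ⟨d, h1, h2⟩⟩
    rintro rfl
    obtain ⟨w, hw, hw2⟩ := Γ.exists_org_far h1
    rw [h2] at hw2
    exact hw (inl.inj hw2).symm

theorem adj_far {d : Γ.D} {u v : V} (h1 : Γ.org d = inl u) (h2 : Γ.org (Γ.far d) = inl v) :
    Γ.graph.Adj u v := (Γ.adj_iff u v).2 ⟨d, h1, h2⟩

theorem adj_α {d : Γ.D} {u v : V} (h1 : Γ.org d = inl u) (h2 : Γ.org (Γ.α d) = inl v) :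
    Γ.graph.Adj u v := Γ.adj_far h1 (by rw [Γ.far_unc h2, h2])

theorem org_σ2 (d : Γ.D) : Γ.org (Γ.σ (Γ.σ d)) = Γ.org d := by rw [Γ.org_σ, Γ.org_σ]

theorem org_σ3 (d : Γ.D) : Γ.org (Γ.σ (Γ.σ (Γ.σ d))) = Γ.org d := by rw [Γ.org_σ, Γ.org_σ2]

/-- The four ends at a crossing are different. -/
theorem ends {d : Γ.D} {x : Γ.X} (h : Γ.org d = inr x) : ∃ a : Fin 4 → V, Function.Injective a ∧
    Γ.org (Γ.α d) = inl (a 0) ∧ Γ.org (Γ.α (Γ.σ d)) = inl (a 1) ∧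
    Γ.org (Γ.α (Γ.σ (Γ.σ d))) = inl (a 2) ∧ Γ.org (Γ.α (Γ.σ (Γ.σ (Γ.σ d)))) = inl (a 3) := by
  have h1 : Γ.org (Γ.σ d) = inr x := by rw [Γ.org_σ, h]
  have h2 : Γ.org (Γ.σ (Γ.σ d)) = inr x := by rw [Γ.org_σ, h1]
  have h3 : Γ.org (Γ.σ (Γ.σ (Γ.σ d))) = inr x := by rw [Γ.org_σ, h2]
  obtain ⟨a0, ha0⟩ := Γ.once _ _ h
  obtain ⟨a1, ha1⟩ := Γ.once _ _ h1
  obtain ⟨a2, ha2⟩ := Γ.once _ _ h2
  obtain ⟨a3, ha3⟩ := Γ.once _ _ h3
  have c1 := Γ.cross _ _ h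
  have c2 := Γ.cross _ _ h1
  have c3 := Γ.cross _ _ h2
  have c4 := Γ.cross _ _ h3
  rw [Γ.σ4 h] at c4
  have e1 : a2 ≠ a0 := by
    obtain ⟨w, hw, hw2⟩ := Γ.exists_org_far ha0
    rw [Γ.far_α h, ha2] at hw2
    rw [inl.inj hw2]
    exact hw
  have e2 : a3 ≠ a1 := by
    obtain ⟨w, hw, hw2⟩ := Γ.exists_org_far ha1
    rw [Γ.far_α h1, ha3] at hw2
    rw [inl.inj hw2]
    exact hw
  rw [ha0, ha1] at c1
  rw [ha1, ha2] at c2
  rw [ha2, ha3] at c3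
  rw [ha3, ha0] at c4
  have n1 : a0 ≠ a1 := fun h => c1 (by rw [h])
  have n2 : a1 ≠ a2 := fun h => c2 (by rw [h])
  have n3 : a2 ≠ a3 := fun h => c3 (by rw [h])
  have n4 : a3 ≠ a0 := fun h => c4 (by rw [h])
  refine ⟨![a0, a1, a2, a3], ?_, ha0, ha1, ha2, ha3⟩
  intro i j hij
  fin_cases i <;> fin_cases j <;> simp_all

theorem σ_ne {d : Γ.D} {x : Γ.X} (h : Γ.org d = inr x) : Γ.σ d ≠ d := by
  intro h1
  apply Γ.σσ_ne h
  rw [h1, h1]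

theorem σσσ_ne {d : Γ.D} {x : Γ.X} (h : Γ.org d = inr x) : Γ.σ (Γ.σ (Γ.σ d)) ≠ d := by
  intro h1
  have h2 := Γ.σ4 h
  rw [h1] at h2
  exact Γ.σ_ne h h2

/-- A dart at the same crossing is one of the four. -/
theorem eq_of_org {d e : Γ.D} {x : Γ.X} (hd : Γ.org d = inr x) (he : Γ.org e = inr x) :
    e = d ∨ e = Γ.σ d ∨ e = Γ.σ (Γ.σ d) ∨ e = Γ.σ (Γ.σ (Γ.σ d)) := by
  have := Γ.finD
  obtain ⟨n, hn⟩ := ((Γ.orbit d e).1 (by rw [hd, he])).exists_nat_pow_eq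
  have key : ∀ n : ℕ, (Γ.σ ^ n) d = d ∨ (Γ.σ ^ n) d = Γ.σ d ∨ (Γ.σ ^ n) d = Γ.σ (Γ.σ d) ∨
      (Γ.σ ^ n) d = Γ.σ (Γ.σ (Γ.σ d)) := by
    intro n
    induction n with
    | zero => left; simp
    | succ n ih =>
      rw [pow_succ', Equiv.Perm.mul_apply]
      rcases ih with h | h | h | h <;> rw [h]
      · right; left; trivial
      · right; right; left; trivial
      · right; right; right; trivial
      · left; exact Γ.σ4 hd
  rw [← hn]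
  exact key n

/-- The face of a dart. -/
def fc (d : Γ.D) : Γ.Face := Quotient.mk _ d

theorem fc_eq {d e : Γ.D} : Γ.fc d = Γ.fc e ↔ Γ.φ.SameCycle d e := Quotient.eq

/-- The number of vertices (with multiplicity) on the boundary of a face. -/
noncomputable def tn (f : Γ.Face) : ℕ := Nat.card {d : Γ.D // Γ.fc d = f ∧ (Γ.org d).isLeft}

/-- The number of crossings (with multiplicity) on the boundary of a face. -/
noncomputable def sn (f : Γ.Face) : ℕ := Nat.card {d : Γ.D // Γ.fc d = f ∧ (Γ.org d).isRight}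

/-- The number of faces with exactly `k` vertices. -/
noncomputable def Fn (k : ℕ) : ℕ := Nat.card {f : Γ.Face // Γ.tn f = k}

/-- `d` and `e` are darts at vertices, and their edges cross each other. -/
def Cr (d e : Γ.D) : Prop := ∃ x, Γ.org (Γ.α d) = inr x ∧
  (Γ.α e = Γ.σ (Γ.α d) ∨ Γ.α e = Γ.σ (Γ.σ (Γ.σ (Γ.α d))))

/-- `d` is a dart of an edge without crossing. -/
def Unc (d : Γ.D) : Prop := (∃ u, Γ.org d = inl u) ∧ ∃ v, Γ.org (Γ.α d) = inl v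

/-- The face of `d` has exactly three vertices. -/
def T3 (d : Γ.D) : Prop := Γ.tn (Γ.fc d) = 3

/-- `d` is a dart of an uncrossed edge between two faces with three vertices. -/
def E33 (d : Γ.D) : Prop := Γ.Unc d ∧ Γ.T3 d ∧ Γ.T3 (Γ.α d)

end Drawing

/-- The hypotheses of the lower bounds. -/
structure Good {V : Type} (Γ : Drawing V) : Prop where
  fin : Finite V
  max : Γ.Maximal
  k3 : KConn Γ.graph 3
  five : 5 ≤ Nat.card V

/-- Indicator function of one dart, mod 2. -/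
noncomputable def ind {D : Type} (a d : D) : ZMod 2 := Set.indicator {a} 1 d

end Pool.Agent.Lib.MP0c8bd9
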