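import Pool.Agent.Lib.MP_0c8bd9_co.Spec2
import Pool.Agent.Lib.MP_0c8bd9_co.Basic

section
/-!
# MP_0c8bd9_co : module ADD
-/
set_option autoImplicit false

namespace Pool.Agent.Lib.MP0c8bd9

open Sum

namespace ADDM

theorem exists_notMem {V : Type} [Finite V] {S : Set V} (hS : S.ncard < 3) (a : Fin 3 → V)
    (ha : Function.Injective a) : ∃ i, a i ∉ S := by
  by_contra hcon
  push Not at hcon
  have hsub : Set.range a ⊆ S := by
    rintro _ ⟨i, rfl⟩
    exact hcon i
  have h1 := Set.ncard_le_ncard hsub (Set.toFinite _)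
  have h2 : (Set.range a).ncard = 3 := by
    rw [← Set.image_univ, Set.ncard_image_of_injective _ ha, Set.ncard_univ,
      Nat.card_eq_fintype_card, Fintype.card_fin]
  omega

theorem adj_induce {V : Type} {G : SimpleGraph V} {S : Set V} {u v : V} (hu : u ∈ S) (hv : v ∈ S)
    (h : G.Adj u v) : (G.induce S).Adj ⟨u, hu⟩ ⟨v, hv⟩ := h

end ADDM

open ADDM in
theorem specADD : SpecADD := by
  intro V _ k G G' hG hadj hnew
  refine ⟨?_, ?_⟩
  · have h1 := hG.1
    rw [Nat.card_sum]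
    omega
  intro S hS
  have hT : (inl ⁻¹' S : Set V).ncard < 3 := by
    refine lt_of_le_of_lt ?_ hS
    have hinj : Function.Injective (inl : V → V ⊕ Fin k) := Sum.inl_injective
    rw [← Set.ncard_image_of_injective _ hinj]
    exact Set.ncard_le_ncard (Set.image_preimage_subset _ _) (Set.toFinite _)
  have hc := hG.2 _ hT
  -- old vertices
  let F : G.induce (inl ⁻¹' S)ᶜ →g G'.induce Sᶜ :=
    { toFun := fun v => ⟨inl v.1, v.2⟩
      map_rel' := fun {u v} h => hadj u.1 v.1 h }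
  have hold : ∀ (u v : V) (hu : (inl u : V ⊕ Fin k) ∉ S) (hv : (inl v : V ⊕ Fin k) ∉ S),
      (G'.induce Sᶜ).Reachable ⟨inl u, hu⟩ ⟨inl v, hv⟩ := by
    intro u v hu hv
    exact (hc.preconnected ⟨u, hu⟩ ⟨v, hv⟩).map F
  obtain ⟨⟨v0, hv0⟩⟩ := hc.nonempty
  have hnew' : ∀ (n : ℕ) (j : Fin k), j.1 = n → ∀ (hj : (inr j : V ⊕ Fin k) ∉ S),
      (G'.induce Sᶜ).Reachable ⟨inr j, hj⟩ ⟨inl v0, hv0⟩ := by
    intro n
    induction n using Nat.strong_induction_on with
    | _ n ih =>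
      intro j hjn hj
      obtain ⟨a, ha, ha2⟩ := hnew j
      obtain ⟨i, hi⟩ := exists_notMem hS a ha
      obtain ⟨h1, h2⟩ := ha2 i
      have hstep : (G'.induce Sᶜ).Reachable ⟨inr j, hj⟩ ⟨a i, hi⟩ :=
        (adj_induce (G := G') (S := Sᶜ) hj hi h1).reachable
      refine hstep.trans ?_
      have key : ∀ (y : V ⊕ Fin k) (hy : y ∉ S), (∀ j' : Fin k, y = inr j' → j' < j) →
          (G'.induce Sᶜ).Reachable ⟨y, hy⟩ ⟨inl v0, hv0⟩ := by
        rintro (u | j') hy hlt
        · exact hold u v0 hy hv0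
        · exact ih j'.1 (by rw [← hjn]; exact hlt j' rfl) j' rfl hy
      exact key (a i) hi h2
  have hall : ∀ x : (Sᶜ : Set (V ⊕ Fin k)), (G'.induce Sᶜ).Reachable x ⟨inl v0, hv0⟩ := by
    rintro ⟨v | j, hx⟩
    · exact hold v v0 hx hv0
    · exact hnew' j.1 j rfl hx
  have : Nonempty (Sᶜ : Set (V ⊕ Fin k)) := ⟨⟨inl v0, hv0⟩⟩
  exact SimpleGraph.Connected.mk fun x y => (hall x).trans (hall y).symm

end Pool.Agent.Lib.MP0c8bd9
end

section
/-!
# MP_0c8bd9_co : module D3
-/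
set_option autoImplicit false

namespace Pool.Agent.Lib.MP0c8bd9

open Sum

namespace D3M

/-- a walk which starts at an isolated vertex is constant -/
theorem walk_isolated {W : Type} {H : SimpleGraph W} {a b : W} (p : H.Walk a b)
    (h : ∀ c, ¬ H.Adj a c) : a = b := by
  cases p with
  | nil => rfl
  | cons hadj _ => exact absurd hadj (h _)

end D3M

theorem specD3 : SpecD3 := by
  intro V _ G v h3 h5 hk
  have h1 := hk.2 {w | G.Adj v w} (by omega)
  have hv : v ∈ ({w | G.Adj v w} : Set V)ᶜ := fun h => G.loopless.irrefl v h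
  obtain ⟨x, hx⟩ : ∃ x, x ∉ insert v ({w | G.Adj v w} : Set V) := by
    by_contra hcon
    push Not at hcon
    have h2 : (insert v ({w | G.Adj v w} : Set V)) = Set.univ :=
      Set.eq_univ_of_forall hcon
    have h4 : (insert v ({w | G.Adj v w} : Set V)).ncard ≤ 4 :=
      (Set.ncard_insert_le _ _).trans (by omega)
    rw [h2, Set.ncard_univ] at h4
    omega
  rw [Set.mem_insert_iff, not_or] at hx
  obtain ⟨p⟩ := h1.preconnected ⟨v, hv⟩ ⟨x, hx.2⟩
  have h2 := D3M.walk_isolated p (by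
    rintro ⟨c, hc⟩ hadj
    have hadj' : G.Adj v c := hadj
    exact hc hadj')
  have h6 : v = x := congrArg Subtype.val h2
  exact hx.1 h6.symm

end Pool.Agent.Lib.MP0c8bd9
end

section
/-!
# MP_0c8bd9_co : module ELI
-/
set_option autoImplicit false

namespace Pool.Agent.Lib.MP0c8bd9

open Sum

open ADDM in
theorem specELI : SpecELI := by
  intro n G hn h4 hj
  refine ⟨by rw [Nat.card_eq_fintype_card, Fintype.card_fin]; omega, ?_⟩
  intro S hS
  obtain ⟨i0, hi0⟩ := exists_notMem hS (fun i : Fin 3 => (⟨i.1, by omega⟩ : Fin n))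
    (by intro a b hab; exact Fin.ext (by simpa using congrArg Fin.val hab))
  set v0 : Fin n := ⟨i0.1, by omega⟩ with hv0
  have hsmall : v0.1 < 4 := by rw [hv0]; simp only; omega
  have hall : ∀ (m : ℕ) (j : Fin n), j.1 = m → ∀ (hjS : j ∉ S),
      (G.induce Sᶜ).Reachable ⟨j, hjS⟩ ⟨v0, hi0⟩ := by
    intro m
    induction m using Nat.strong_induction_on with
    | _ m ih =>
      intro j hjm hjS
      by_cases hj4 : j.1 < 4
      · by_cases hjv : j = v0
        · subst hjv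
          exact SimpleGraph.Reachable.refl _
        · exact (adj_induce (G := G) (S := Sᶜ) hjS hi0 (h4 j v0 hj4 hsmall hjv)).reachable
      · obtain ⟨a, ha, ha2⟩ := hj j (by omega)
        obtain ⟨i, hi⟩ := exists_notMem hS a ha
        obtain ⟨h1, h2⟩ := ha2 i
        refine (adj_induce (G := G) (S := Sᶜ) hjS hi h1).reachable.trans ?_
        exact ih (a i).1 (by rw [← hjm]; exact h2) (a i) rfl hi
  have : Nonempty (Sᶜ : Set (Fin n)) := ⟨⟨v0, hi0⟩⟩
  exact SimpleGraph.Connected.mk fun x y => (hall x.1.1 x.1 rfl x.2).trans (hall y.1.1 y.1 rfl y.2).symm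

end Pool.Agent.Lib.MP0c8bd9
end

section
/-!
# MP_0c8bd9_co : the planar drawing of `K₄`
-/
set_option autoImplicit false

namespace Pool.Agent.Lib.MP0c8bd9

open Sum

namespace K4M

/-- table of the planar drawing of `K₄` -/
def T4 : Tab 4 0 12 4 where
  sg d := Fin.ofNat 12 (([1, 2, 0, 4, 5, 3, 7, 8, 6, 10, 11, 9] : List ℕ).getD d 0)
  si d := Fin.ofNat 12 (([2, 0, 1, 5, 3, 4, 8, 6, 7, 11, 9, 10] : List ℕ).getD d 0)
  al d := Fin.ofNat 12 (([5, 9, 6, 8, 10, 0, 2, 11, 3, 1, 4, 7] : List ℕ).getD d 0)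
  nd d := inl (Fin.ofNat 4 (([0, 0, 0, 1, 1, 1, 2, 2, 2, 3, 3, 3] : List ℕ).getD d 0))
  rp p := Sum.elim (fun i => Fin.ofNat 12 (3 * i.1)) (fun i => i.elim0) p
  ps d := ([0, 1, 2, 0, 1, 2, 0, 1, 2, 0, 1, 2] : List ℕ).getD d 0
  fc d := Fin.ofNat 4 (([0, 1, 2, 0, 3, 1, 0, 2, 3, 2, 1, 3] : List ℕ).getD d 0)
  fr d := Fin.ofNat 12 (([0, 1, 2, 4] : List ℕ).getD d 0)
  fp d := ([0, 0, 0, 1, 0, 2, 2, 1, 2, 2, 1, 1] : List ℕ).getD d 0
  rk d := ([0, 2, 1, 4, 3, 1, 2, 4, 3, 3, 4, 4] : List ℕ).getD d 0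
  el _ _ := 0

theorem okD : T4.OkD := by
  constructor <;> decide +kernel

theorem okM : T4.OkM := by
  constructor <;> decide +kernel

theorem okK : T4.OkK := by
  constructor <;> decide +kernel

end K4M

theorem specK4 (hTAB : SpecTAB) : SpecK4 := by
  obtain ⟨Γ, h1, h2, h3, h4, -⟩ := hTAB 4 0 12 4 K4M.T4 K4M.okD K4M.okM K4M.okK
  refine ⟨Γ, h1, ⟨h2, fun h => ?_⟩, h3, by omega⟩
  have := h.1
  rw [Nat.card_eq_fintype_card, Fintype.card_fin] at this
  exact lt_irrefl _ this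

end Pool.Agent.Lib.MP0c8bd9
end

section
/-!
# MP_0c8bd9_co : OPO, the points of the new drawing
-/
set_option autoImplicit false

namespace Pool.Agent.Lib.MP0c8bd9

open Sum

namespace OPOM

open Op

/-! ### tables -/

theorem tab_nx_inl : ∀ m m' : Fin 74, nx m = inl m' → nd m' = nd m := by decide +kernel

theorem tab_nx_inr : ∀ (m : Fin 74) (i : Fin 3), nx m = inr i → nd m = i.1 := by decide +kernel

theorem tab_ent : ∀ i : Fin 3, nd (ent i) = i.1 := by decide +kernel

theorem tab_lt : ∀ m : Fin 74, nd m < 16 := by decide +kernel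

/-- the next local dart in the list -/
def nxt (m : Fin 74) : Fin 74 := Fin.ofNat 74 (m.1 + 1)

/-- the previous local dart in the list -/
def prv (m : Fin 74) : Fin 74 := Fin.ofNat 74 (m.1 - 1)

/-- the first local dart at the same node -/
def fstc (c : ℕ) : Fin 74 := Fin.ofNat 74 (ndL.findIdx (fun a => a = c))

theorem tab_small : ∀ m : Fin 74, nd m < 3 →
    nx m = inr (Fin.ofNat 3 (nd m)) ∨ (nx m = inl (nxt m) ∧ nd (nxt m) = nd m ∧ m < nxt m) := by
  decide +kernel

theorem tab_big : ∀ m : Fin 74, 3 ≤ nd m →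
    m = fstc (nd m) ∨ (nx (prv m) = inl m ∧ nd (prv m) = nd m ∧ prv m < m) := by
  decide +kernel

theorem tab_new : ∀ j : Fin 9, ∃ m : Fin 74, nd m = j.1 + 4 := by decide +kernel

theorem tab_cross : ∀ j : Fin 3, ∃ m : Fin 74, nd m = j.1 + 13 := by decide +kernel

theorem tab_t : nd 15 = 3 := by decide +kernel

variable {V : Type} (Γ : Drawing V) (S : Star Γ)

/-! ### the nodes -/

theorem node_P {c : ℕ} (h : c < 3) : node Γ S c = inl (inl (S.P (Fin.ofNat 3 c))) := by
  rw [node, if_pos h]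

theorem node_t : node Γ S 3 = inl (inl S.t) := by
  rw [node, if_neg (by norm_num), if_pos rfl]

theorem node_new {c : ℕ} (h : 4 ≤ c) (h' : c < 13) :
    node Γ S c = inl (inr (Fin.ofNat 9 (c - 4))) := by
  rw [node, if_neg (by omega), if_neg (by omega), if_pos h']

theorem node_cross {c : ℕ} (h : 13 ≤ c) : node Γ S c = inr (inr (Fin.ofNat 3 (c - 13))) := by
  rw [node, if_neg (by omega), if_neg (by omega), if_neg (by omega)]

theorem node_fin (i : Fin 3) : node Γ S i.1 = inl (inl (S.P i)) := by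
  rw [node_P Γ S i.2]
  congr 3
  exact Fin.ext (Nat.mod_eq_of_lt i.2)

theorem node_inj {c c' : ℕ} (hc : c < 16) (hc' : c' < 16) (h : node Γ S c = node Γ S c') :
    c = c' := by
  have h4 : c < 3 ∨ c = 3 ∨ (4 ≤ c ∧ c < 13) ∨ 13 ≤ c := by omega
  have h4' : c' < 3 ∨ c' = 3 ∨ (4 ≤ c' ∧ c' < 13) ∨ 13 ≤ c' := by omega
  rcases h4 with h1 | rfl | ⟨h1, h2⟩ | h1 <;> rcases h4' with h1' | rfl | ⟨h1', h2'⟩ | h1'
  · rw [node_P Γ S h1, node_P Γ S h1'] at h
    have h3 := congrArg Fin.val (P_inj Γ S (inl.inj (inl.inj h)))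
    simp only [Fin.ofNat] at h3
    rw [Nat.mod_eq_of_lt h1, Nat.mod_eq_of_lt h1'] at h3
    exact h3
  · rw [node_P Γ S h1, node_t] at h
    exact absurd (inl.inj (inl.inj h)) (P_ne_t Γ S _)
  · rw [node_P Γ S h1, node_new Γ S h1' h2'] at h
    exact absurd (inl.inj h) Sum.inl_ne_inr
  · rw [node_P Γ S h1, node_cross Γ S h1'] at h
    exact absurd h Sum.inl_ne_inr
  · rw [node_P Γ S h1', node_t] at h
    exact absurd (inl.inj (inl.inj h)).symm (P_ne_t Γ S _)
  · rfl
  · rw [node_t, node_new Γ S h1' h2'] at h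
    exact absurd (inl.inj h) Sum.inl_ne_inr
  · rw [node_t, node_cross Γ S h1'] at h
    exact absurd h Sum.inl_ne_inr
  · rw [node_P Γ S h1', node_new Γ S h1 h2] at h
    exact absurd (inl.inj h) Sum.inr_ne_inl
  · rw [node_t, node_new Γ S h1 h2] at h
    exact absurd (inl.inj h) Sum.inr_ne_inl
  · rw [node_new Γ S h1' h2', node_new Γ S h1 h2] at h
    have h3 := congrArg Fin.val (inr.inj (inl.inj h))
    simp only [Fin.ofNat] at h3
    rw [Nat.mod_eq_of_lt (by omega), Nat.mod_eq_of_lt (by omega)] at h3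
    omega
  · rw [node_new Γ S h1 h2, node_cross Γ S h1'] at h
    exact absurd h Sum.inl_ne_inr
  · rw [node_P Γ S h1', node_cross Γ S h1] at h
    exact absurd h Sum.inr_ne_inl
  · rw [node_t, node_cross Γ S h1] at h
    exact absurd h Sum.inr_ne_inl
  · rw [node_new Γ S h1' h2', node_cross Γ S h1] at h
    exact absurd h Sum.inr_ne_inl
  · rw [node_cross Γ S h1', node_cross Γ S h1] at h
    have h3 := congrArg Fin.val (inr.inj (inr.inj h))
    simp only [Fin.ofNat] at h3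
    rw [Nat.mod_eq_of_lt (by omega), Nat.mod_eq_of_lt (by omega)] at h3
    omega

/-! ### the darts at `t` -/

theorem at_t {d : Γ.D} (h : Γ.org d = inl S.t) : ∃ i, d = S.d i := by
  have := Γ.finD
  obtain ⟨n, hn⟩ := ((Γ.orbit (S.d 0) d).1 (by rw [S.org_d, h])).exists_nat_pow_eq
  have key : ∀ n : ℕ, ∃ i, (Γ.σ ^ n) (S.d 0) = S.d i := by
    intro n
    induction n with
    | zero => exact ⟨0, rfl⟩
    | succ n ih =>
      obtain ⟨i, hi⟩ := ih
      exact ⟨i + 1, by rw [pow_succ', Equiv.Perm.mul_apply, hi, S.rot]⟩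
  obtain ⟨i, hi⟩ := key n
  exact ⟨i, by rw [← hn, hi]⟩

theorem old_org_ne_t (o : O Γ S) : Γ.org o.1 ≠ inl S.t := by
  intro h
  obtain ⟨i, hi⟩ := at_t Γ S h
  exact (o.2 i).1 hi

theorem org_ex (i : Fin 3) : Γ.org (ex Γ S i).1 = inl (S.P i) := by
  change Γ.org (Γ.σ (Γ.α (S.d i))) = _
  rw [Γ.org_σ, S.org_α]

/-! ### `og` is invariant -/

theorem og_sg (d : D' Γ S) : og Γ S (sg Γ S d) = og Γ S d := by
  rcases d with o | m
  · by_cases h : Old Γ S (Γ.σ o.1)
    · rw [sg_old _ _ _ h]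
      change Sum.map inl inl (Γ.org (Γ.σ o.1)) = Sum.map inl inl (Γ.org o.1)
      rw [Γ.org_σ]
    · obtain ⟨i, hi⟩ := not_old_σ Γ S o h
      rw [sg_entry _ _ _ i hi]
      change node Γ S (nd (ent i)) = Sum.map inl inl (Γ.org o.1)
      rw [← Γ.org_σ, hi, S.org_α, tab_ent, node_fin]
      rfl
  · rcases hm : nx m with m' | i
    · rw [sg_inl _ _ hm]
      change node Γ S (nd m') = node Γ S (nd m)
      rw [tab_nx_inl m m' hm]
    · rw [sg_inr _ _ hm]
      change Sum.map inl inl (Γ.org (ex Γ S i).1) = node Γ S (nd m)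
      rw [org_ex, tab_nx_inr m i hm, node_fin]
      rfl

theorem og_same {d e : D' Γ S} (h : (sgP Γ S).SameCycle d e) : og Γ S d = og Γ S e := by
  have := finite_D' Γ S
  obtain ⟨n, hn⟩ := h.exists_nat_pow_eq
  have key : ∀ n : ℕ, og Γ S (((sgP Γ S) ^ n) d) = og Γ S d := by
    intro n
    induction n with
    | zero => rfl
    | succ n ih => rw [pow_succ', Equiv.Perm.mul_apply, sgP_apply, og_sg, ih]
  rw [← hn, key]

/-! ### cycles -/

theorem step (d : D' Γ S) : (sgP Γ S).SameCycle d (sg Γ S d) := ⟨1, by simp [sgP_apply]⟩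

theorem step_inl {m m' : Fin 74} (h : nx m = inl m') : (sgP Γ S).SameCycle (inr m) (inr m') := by
  have := step Γ S (inr m)
  rwa [sg_inl _ _ h] at this

theorem step_inr {m : Fin 74} {i : Fin 3} (h : nx m = inr i) :
    (sgP Γ S).SameCycle (inr m) (inl (ex Γ S i)) := by
  have := step Γ S (inr m)
  rwa [sg_inr _ _ h] at this

theorem small_ex : ∀ (k : ℕ) (m : Fin 74), 74 - m.1 = k → nd m < 3 →
    (sgP Γ S).SameCycle (inr m) (inl (ex Γ S (Fin.ofNat 3 (nd m)))) := by
  intro k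
  induction k using Nat.strong_induction_on with
  | _ k ih =>
    intro m hk hm
    rcases tab_small m hm with h | ⟨h1, h2, h3⟩
    · exact step_inr Γ S h
    · have h4 := m.2
      have h5 := (nxt m).2
      have h3' : m.1 < (nxt m).1 := h3
      have h6 := ih (74 - (nxt m).1) (by omega) (nxt m) rfl (by rw [h2]; exact hm)
      rw [h2] at h6
      exact (step_inl Γ S h1).trans h6

theorem small_ex' (m : Fin 74) (i : Fin 3) (h : nd m = i.1) :
    (sgP Γ S).SameCycle (inr m) (inl (ex Γ S i)) := by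
  have h1 := small_ex Γ S _ m rfl (by rw [h]; exact i.2)
  have h2 : Fin.ofNat 3 (nd m) = i := by
    rw [h]
    exact Fin.ext (Nat.mod_eq_of_lt i.2)
  rwa [h2] at h1

theorem big_fst : ∀ (k : ℕ) (m : Fin 74), m.1 = k → 3 ≤ nd m →
    (sgP Γ S).SameCycle (inr (fstc (nd m))) (inr m) := by
  intro k
  induction k using Nat.strong_induction_on with
  | _ k ih =>
    intro m hk hm
    rcases tab_big m hm with h | ⟨h1, h2, h3⟩
    · rw [← h]
    · have h3' : (prv m).1 < m.1 := h3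
      have h6 := ih (prv m).1 (by omega) (prv m) rfl (by rw [h2]; exact hm)
      rw [h2] at h6
      exact h6.trans (step_inl Γ S h1)

theorem old_same : ∀ (n : ℕ) (o o' : O Γ S), (Γ.σ ^ n) o.1 = o'.1 →
    (sgP Γ S).SameCycle (inl o) (inl o') := by
  intro n
  induction n using Nat.strong_induction_on with
  | _ n ih =>
    intro o o' h
    rcases n with _ | n
    · have : o = o' := Subtype.ext h
      rw [this]
    · rw [pow_succ, Equiv.Perm.mul_apply] at h
      by_cases h1 : Old Γ S (Γ.σ o.1)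
      · have h2 := step Γ S (inl o)
        rw [sg_old _ _ _ h1] at h2
        exact h2.trans (ih n (by omega) ⟨Γ.σ o.1, h1⟩ o' h)
      · obtain ⟨i, hi⟩ := not_old_σ Γ S o h1
        have h2 := step Γ S (inl o)
        rw [sg_entry _ _ _ i hi] at h2
        have h3 := h2.trans (small_ex' Γ S (ent i) i (tab_ent i))
        rcases n with _ | n
        · exfalso
          rw [hi] at h
          exact (o'.2 i).2 h.symm
        · rw [pow_succ, Equiv.Perm.mul_apply, hi] at h
          exact h3.trans (ih n (by omega) (ex Γ S i) o' h)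

theorem old_same' {o o' : O Γ S} (h : Γ.org o.1 = Γ.org o'.1) :
    (sgP Γ S).SameCycle (inl o) (inl o') := by
  have := Γ.finD
  obtain ⟨n, hn⟩ := ((Γ.orbit o.1 o'.1).1 h).exists_nat_pow_eq
  exact old_same Γ S n o o' hn

theorem mixed (o : O Γ S) (m : Fin 74) (h : og Γ S (inl o) = og Γ S (inr m)) :
    (sgP Γ S).SameCycle (inl o) (inr m) := by
  change Sum.map inl inl (Γ.org o.1) = node Γ S (nd m) at h
  have h4 : nd m < 3 ∨ nd m = 3 ∨ (4 ≤ nd m ∧ nd m < 13) ∨ 13 ≤ nd m := by omega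
  rcases h4 with h1 | h1 | ⟨h1, h2⟩ | h1
  · have h5 : nd m = (⟨nd m, h1⟩ : Fin 3).1 := rfl
    rw [h5, node_fin] at h
    have h6 : Γ.org o.1 = inl (S.P ⟨nd m, h1⟩) := by
      rcases ho : Γ.org o.1 with v | x
      · rw [ho] at h
        rw [inl.inj (inl.inj h)]
      · rw [ho] at h
        exact absurd h Sum.inr_ne_inl
    have h7 := small_ex' Γ S m ⟨nd m, h1⟩ rfl
    exact (old_same' Γ S (by rw [h6, org_ex])).trans h7.symm
  · rw [h1, node_t] at h
    exfalso
    apply old_org_ne_t Γ S o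
    rcases ho : Γ.org o.1 with v | x
    · rw [ho] at h
      rw [inl.inj (inl.inj h)]
    · rw [ho] at h
      exact absurd h Sum.inr_ne_inl
  · rw [node_new Γ S h1 h2] at h
    exfalso
    rcases ho : Γ.org o.1 with v | x
    · rw [ho] at h
      exact absurd (inl.inj h) Sum.inl_ne_inr
    · rw [ho] at h
      exact absurd h Sum.inr_ne_inl
  · rw [node_cross Γ S h1] at h
    exfalso
    rcases ho : Γ.org o.1 with v | x
    · rw [ho] at h
      exact absurd h Sum.inl_ne_inr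
    · rw [ho] at h
      exact absurd (inr.inj h) Sum.inl_ne_inr

theorem same_of_og (d e : D' Γ S) (h : og Γ S d = og Γ S e) : (sgP Γ S).SameCycle d e := by
  rcases d with o | m <;> rcases e with o' | m'
  · apply old_same'
    have hinj : Function.Injective
        (Sum.map inl inl : V ⊕ Γ.X → (V ⊕ Fin 9) ⊕ (Γ.X ⊕ Fin 3)) :=
      Sum.inl_injective.sumMap Sum.inl_injective
    exact hinj h
  · exact mixed Γ S o m' h
  · exact (mixed Γ S o' m h.symm).symm
  · have h1 : nd m = nd m' := node_inj Γ S (tab_lt m) (tab_lt m') h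
    by_cases h2 : nd m < 3
    · exact (small_ex' Γ S m ⟨nd m, h2⟩ rfl).trans (small_ex' Γ S m' ⟨nd m, h2⟩ h1.symm).symm
    · have h3 := big_fst Γ S _ m rfl (by omega)
      have h4 := big_fst Γ S _ m' rfl (by omega)
      rw [← h1] at h4
      exact h3.symm.trans h4

theorem og_surj : Function.Surjective (og Γ S) := by
  rintro ((v | j) | (x | j))
  · obtain ⟨d, hd⟩ := Γ.onto (inl v)
    by_cases h : Old Γ S d
    · refine ⟨inl ⟨d, h⟩, ?_⟩
      change Sum.map inl inl (Γ.org d) = _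
      rw [hd]
      rfl
    · simp only [Old, not_forall, not_and_or, not_not] at h
      obtain ⟨i, rfl | rfl⟩ := h
      · rw [S.org_d] at hd
        refine ⟨inr 15, ?_⟩
        change node Γ S (nd 15) = _
        rw [tab_t, node_t, inl.inj hd]
      · rw [S.org_α] at hd
        refine ⟨inr (ent i), ?_⟩
        change node Γ S (nd (ent i)) = _
        rw [tab_ent, node_fin, inl.inj hd]
  · obtain ⟨m, hm⟩ := tab_new j
    refine ⟨inr m, ?_⟩
    change node Γ S (nd m) = _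
    have := j.2
    rw [hm, node_new Γ S (by omega) (by omega)]
    congr 2
    apply Fin.ext
    change (j.1 + 4 - 4) % 9 = j.1
    rw [Nat.add_sub_cancel, Nat.mod_eq_of_lt j.2]
  · obtain ⟨d, hd⟩ := Γ.onto (inr x)
    have h : Old Γ S d := by
      intro i
      refine ⟨fun h => ?_, fun h => ?_⟩
      · rw [h, S.org_d] at hd
        exact absurd hd Sum.inl_ne_inr
      · rw [h, S.org_α] at hd
        exact absurd hd Sum.inl_ne_inr
    refine ⟨inl ⟨d, h⟩, ?_⟩
    change Sum.map inl inl (Γ.org d) = _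
    rw [hd]
    rfl
  · obtain ⟨m, hm⟩ := tab_cross j
    refine ⟨inr m, ?_⟩
    change node Γ S (nd m) = _
    rw [hm, node_cross Γ S (by omega)]
    congr 2
    apply Fin.ext
    change (j.1 + 13 - 13) % 3 = j.1
    rw [Nat.add_sub_cancel, Nat.mod_eq_of_lt j.2]

end OPOM

theorem specOPO : SpecOPO := by
  intro V Γ S
  exact ⟨OPOM.og_surj Γ S, fun d e => ⟨OPOM.same_of_og Γ S d e, OPOM.og_same Γ S⟩⟩

end Pool.Agent.Lib.MP0c8bd9
end

section
/-!
# MP_0c8bd9_co : OPC, the new map is connected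
-/
set_option autoImplicit false

namespace Pool.Agent.Lib.MP0c8bd9

open Sum

namespace OPCM

open Op OPOM

/-- a rank of the nodes, zero only at the node `3` -/
def rk (c : ℕ) : ℕ := [1, 3, 1, 0, 2, 2, 1, 1, 2, 2, 1, 1, 1, 1, 1, 1].getD c 0

theorem tab_rk : ∀ m : Fin 74, nd m = 3 ∨
    ∃ m' : Fin 74, nd m' = nd m ∧ rk (nd (al m')) < rk (nd m) := by decide +kernel

variable {V : Type} (Γ : Drawing V) (S : Star Γ) (A : Set (D' Γ S))
  (hA : ∀ d ∈ A, sg Γ S d ∈ A ∧ av Γ S d ∈ A)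

include hA

theorem mem_same {d e : D' Γ S} (hd : d ∈ A) (h : (sgP Γ S).SameCycle d e) : e ∈ A := by
  have := finite_D' Γ S
  obtain ⟨n, hn⟩ := h.exists_nat_pow_eq
  have key : ∀ n : ℕ, ((sgP Γ S) ^ n) d ∈ A := by
    intro n
    induction n with
    | zero => exact hd
    | succ n ih =>
      rw [pow_succ', Equiv.Perm.mul_apply, sgP_apply]
      exact (hA _ ih).1
  rw [← hn]
  exact key n

theorem mem_nd {m m' : Fin 74} (h : nd m = nd m') (hm : (inr m : D' Γ S) ∈ A) :
    (inr m' : D' Γ S) ∈ A := by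
  apply mem_same Γ S A hA hm
  apply same_of_og
  change node Γ S (nd m) = node Γ S (nd m')
  rw [h]

theorem mem_al {m : Fin 74} (hm : (inr m : D' Γ S) ∈ A) : (inr (al m) : D' Γ S) ∈ A :=
  (hA _ hm).2

theorem to_t : ∀ (k : ℕ) (m : Fin 74), rk (nd m) = k → (inr m : D' Γ S) ∈ A →
    (inr 15 : D' Γ S) ∈ A := by
  intro k
  induction k using Nat.strong_induction_on with
  | _ k ih =>
    intro m hk hm
    rcases tab_rk m with h | ⟨m', h1, h2⟩
    · exact mem_nd Γ S A hA (h.trans tab_t.symm) hm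
    · exact ih _ (by omega) (al m') rfl (mem_al Γ S A hA (mem_nd Γ S A hA h1.symm hm))

theorem from_t (h15 : (inr 15 : D' Γ S) ∈ A) : ∀ (k : ℕ) (m : Fin 74), rk (nd m) = k →
    (inr m : D' Γ S) ∈ A := by
  intro k
  induction k using Nat.strong_induction_on with
  | _ k ih =>
    intro m hk
    rcases tab_rk m with h | ⟨m', h1, h2⟩
    · exact mem_nd Γ S A hA (tab_t.trans h.symm) h15
    · have h3 := mem_al Γ S A hA (ih _ (by omega) (al m') rfl)
      rw [al_al] at h3
      exact mem_nd Γ S A hA h1 h3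

theorem exists_loc (hne : A.Nonempty) : ∃ m, (inr m : D' Γ S) ∈ A := by
  by_contra hc
  push Not at hc
  obtain ⟨d, hd⟩ := hne
  rcases d with o | m
  · have h := Γ.conn {d : Γ.D | ∃ h : Old Γ S d, (inl ⟨d, h⟩ : D' Γ S) ∈ A} ⟨o.1, o.2, hd⟩ ?_
    · have h1 : S.d 0 ∈ (Set.univ : Set Γ.D) := Set.mem_univ _
      rw [← h] at h1
      obtain ⟨h2, -⟩ := h1
      exact (h2 0).1 rfl
    · rintro d ⟨h1, h2⟩
      refine ⟨?_, old_α Γ S h1, (hA _ h2).2⟩
      have h3 := (hA _ h2).1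
      by_cases h4 : Old Γ S (Γ.σ d)
      · rw [sg_old _ _ _ h4] at h3
        exact ⟨h4, h3⟩
      · obtain ⟨i, hi⟩ := not_old_σ Γ S ⟨d, h1⟩ h4
        rw [sg_entry _ _ _ i hi] at h3
        exact absurd h3 (hc _)
  · exact hc m hd

theorem all (hne : A.Nonempty) : A = Set.univ := by
  obtain ⟨m, hm⟩ := exists_loc Γ S A hA hne
  have h15 := to_t Γ S A hA _ m rfl hm
  have hloc : ∀ m, (inr m : D' Γ S) ∈ A := fun m => from_t Γ S A hA h15 _ m rfl
  have hex : ∀ i, (inl (ex Γ S i) : D' Γ S) ∈ A := fun i =>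
    mem_same Γ S A hA (hloc (ent i)) (small_ex' Γ S (ent i) i (tab_ent i))
  have h := Γ.conn {d : Γ.D | ∀ h : Old Γ S d, (inl ⟨d, h⟩ : D' Γ S) ∈ A}
    ⟨S.d 0, fun h => absurd rfl (h 0).1⟩ ?_
  · apply Set.eq_univ_of_forall
    rintro (o | m)
    · have h1 : o.1 ∈ (Set.univ : Set Γ.D) := Set.mem_univ _
      rw [← h] at h1
      exact h1 o.2
    · exact hloc m
  · intro d hd
    constructor
    · intro h1
      by_cases h2 : Old Γ S d
      · have h3 := (hA _ (hd h2)).1
        rwa [sg_old Γ S ⟨d, h2⟩ h1] at h3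
      · simp only [Old, not_forall, not_and_or, not_not] at h2
        obtain ⟨i, rfl | rfl⟩ := h2
        · exfalso
          exact (h1 (i + 1)).1 (S.rot i)
        · exact hex i
    · intro h1
      have h2 : Old Γ S d := by
        have := old_α Γ S h1
        rwa [Γ.invol] at this
      exact (hA _ (hd h2)).2

end OPCM

theorem specOPC : SpecOPC := by
  intro V Γ S A hne hA
  exact OPCM.all Γ S A hA hne

end Pool.Agent.Lib.MP0c8bd9
end

section
/-!
# MP_0c8bd9_co : the star operation keeps maximality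
-/
set_option autoImplicit false

namespace Pool.Agent.Lib.MP0c8bd9

open Sum

namespace OPMM

open Op

/-! ### Tables -/

/-- local adjacency of nodes -/
def LA (c c' : ℕ) : Prop := ∃ l : Fin 74, nd l = c ∧ nd (farL l) = c'

instance (c c' : ℕ) : Decidable (LA c c') := by unfold LA; infer_instance

/-- the pairs of nodes which are adjacent by the tables, or are both at the boundary -/
def Ok (c c' : ℕ) : Prop := LA c c' ∨ (c < 3 ∧ c' < 3)

instance (c c' : ℕ) : Decidable (Ok c c') := by unfold Ok; infer_instance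

theorem tab_in : ∀ m : Fin 74, 3 ≤ fcn m → nd m < 13 → ∀ m' : Fin 74, fcn m' = fcn m →
    nd m' < 13 → nd m ≠ nd m' → Ok (nd m) (nd m') := by decide +kernel

theorem tab_side : ∀ m : Fin 74, ∀ i : Fin 3, fcn m = i.1 → nd m = i.1 ∨ nd m = 8 + i.1 := by
  decide +kernel

theorem tab_LA : ∀ i : Fin 3, LA (8 + i.1) i.1 ∧ LA (8 + i.1) (i + 1).1 ∧
    LA i.1 (8 + i.1) ∧ LA (i + 1).1 (8 + i.1) := by decide +kernel

/-- condition on the second dart -/
def C2 (m : Fin 74) (c : ℕ) (l' : Fin 74) : Prop :=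
  (nd l' < 13 ∧ nd l' ≠ nd m ∧ nd l' ≠ nd (al m) ∧ c ≠ nd l') → Ok c (nd l') ∧ Ok (nd l') c

instance (m : Fin 74) (c : ℕ) (l' : Fin 74) : Decidable (C2 m c l') := by
  unfold C2; infer_instance

/-- condition on the first node -/
def C1 (m : Fin 74) (c : ℕ) : Prop :=
  (c ≠ nd m ∧ c ≠ nd (al m)) → ∀ l' : Fin 74, fcn l' = fcn (al m) → C2 m c l'

instance (m : Fin 74) (c : ℕ) : Decidable (C1 m c) := by
  unfold C1; infer_instance

theorem tab_ac : ∀ m : Fin 74, (3 ≤ fcn m ∧ 3 ≤ fcn (al m) ∧ nd m < 13 ∧ nd (al m) < 13) →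
    ∀ l : Fin 74, (fcn l = fcn m ∧ nd l < 13) → C1 m (nd l) := by decide +kernel

theorem tab_acs : ∀ (i : Fin 3) (m : Fin 74), (fcn m = i.1 ∧ nd m < 13 ∧ nd (al m) < 13) →
    3 ≤ fcn (al m) ∧ C1 m i.1 ∧ C1 m (i + 1).1 ∧ C1 m (8 + i.1) := by decide +kernel

/-! ### Nodes -/

variable {V : Type} (Γ : Drawing V) (S : Star Γ)

/-- the vertex with number `c < 13` -/
def nodeV (c : ℕ) : V' V :=
  if c < 3 then inl (S.P (Fin.ofNat 3 c)) else if c = 3 then inl S.t else inr (Fin.ofNat 9 (c - 4))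

theorem node_eq {c : ℕ} (h : c < 13) : node Γ S c = inl (nodeV Γ S c) := by
  unfold node nodeV
  split_ifs <;> rfl

theorem node_lt {c : ℕ} {u : V' V} (h : node Γ S c = inl u) : c < 13 ∧ nodeV Γ S c = u := by
  by_cases hc : c < 13
  · exact ⟨hc, inl.inj ((node_eq Γ S hc).symm.trans h)⟩
  · exfalso
    unfold node at h
    rw [if_neg (by omega), if_neg (by omega), if_neg hc] at h
    exact Sum.inr_ne_inl h

theorem nodeV_P (i : Fin 3) : nodeV Γ S i.1 = inl (S.P i) := by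
  unfold nodeV
  rw [if_pos i.2]
  congr 2
  fin_cases i <;> rfl

theorem nodeV_new (i : Fin 3) : nodeV Γ S (8 + i.1) = inr (Fin.ofNat 9 (4 + i.1)) := by
  unfold nodeV
  rw [if_neg (by omega), if_neg (by omega)]
  congr 2
  omega

/-- the far dart -/
noncomputable def farD (d : D' Γ S) : D' Γ S :=
  if (og Γ S (av Γ S d)).isRight then av Γ S (sg Γ S (sg Γ S (av Γ S d))) else av Γ S d

/-- adjacency in the new drawing -/
def Ad (u v : V' V) : Prop := ∃ d, og Γ S d = inl u ∧ og Γ S (farD Γ S d) = inl v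

theorem nd_farL_lt : ∀ l : Fin 74, nd l < 13 → nd (farL l) < 13 := by decide +kernel

/-! ### The side faces -/

theorem φ1 (i : Fin 3) : Γ.φ (Γ.α (S.d i)) = S.d (i + 1) := by rw [Γ.φ_α, S.rot]

theorem φ2 (i : Fin 3) : Γ.φ (S.d (i + 1)) = (ex Γ S (i + 1)).1 := rfl

theorem same1 (i : Fin 3) : Γ.φ.SameCycle (ex Γ S (i + 1)).1 (Γ.α (S.d i)) := by
  have h1 := Γ.sameFace_φ (Γ.α (S.d i))
  rw [φ1] at h1
  exact (h1.trans (Γ.sameFace_φ (S.d (i + 1)))).symm

theorem org_ex (i : Fin 3) : Γ.org (ex Γ S i).1 = inl (S.P i) := by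
  change Γ.org (Γ.σ (Γ.α (S.d i))) = _
  rw [Γ.org_σ, S.org_α]

theorem mem_of_closed (A : Set Γ.D) {p q : Γ.D} (hp : p ∈ A) (hA : ∀ d ∈ A, Γ.φ d ∈ A)
    (h : Γ.φ.SameCycle p q) : q ∈ A := by
  have := Γ.finD
  obtain ⟨n, hn⟩ := h.exists_nat_pow_eq
  rw [← hn]
  clear hn h
  induction n with
  | zero => simpa using hp
  | succ n ih =>
    rw [pow_succ', Equiv.Perm.mul_apply]
    exact hA _ ih

/-- the darts of a side face -/
theorem side_dart (i : Fin 3) {z : Γ.D} (h : Γ.φ.SameCycle (ex Γ S (i + 1)).1 z) :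
    z = Γ.α (S.d i) ∨ z = S.d (i + 1) ∨ z = (ex Γ S (i + 1)).1 ∨
      ((∃ x, Γ.org z = inr x) ∧ z = Γ.φ (ex Γ S (i + 1)).1) := by
  have e1 := φ1 Γ S i
  have e2 := φ2 Γ S i
  rcases S.side i with ⟨h1, -⟩ | ⟨⟨x, hx⟩, h1⟩
  · rw [e1, e2] at h1
    have := mem_of_closed Γ {z | z = Γ.α (S.d i) ∨ z = S.d (i + 1) ∨ z = (ex Γ S (i + 1)).1}
      (Or.inr (Or.inr rfl)) (by
        rintro d (rfl | rfl | rfl)
        · exact Or.inr (Or.inl e1)
        · exact Or.inr (Or.inr e2)
        · exact Or.inl h1) h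
    rcases this with h2 | h2 | h2
    · exact Or.inl h2
    · exact Or.inr (Or.inl h2)
    · exact Or.inr (Or.inr (Or.inl h2))
  · rw [e1, e2] at h1 hx
    have := mem_of_closed Γ {z | z = Γ.α (S.d i) ∨ z = S.d (i + 1) ∨ z = (ex Γ S (i + 1)).1 ∨
      z = Γ.φ (ex Γ S (i + 1)).1}
      (Or.inr (Or.inr (Or.inl rfl))) (by
        rintro d (rfl | rfl | rfl | rfl)
        · exact Or.inr (Or.inl e1)
        · exact Or.inr (Or.inr (Or.inl e2))
        · exact Or.inr (Or.inr (Or.inr rfl))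
        · exact Or.inl h1) h
    rcases this with h2 | h2 | h2 | h2
    · exact Or.inl h2
    · exact Or.inr (Or.inl h2)
    · exact Or.inr (Or.inr (Or.inl h2))
    · exact Or.inr (Or.inr (Or.inr ⟨⟨x, by rw [h2, hx]⟩, h2⟩))

theorem side_vertex (i : Fin 3) {z : Γ.D} (h : Γ.φ.SameCycle (ex Γ S (i + 1)).1 z) {v : V}
    (hv : Γ.org z = inl v) : v = S.P i ∨ v = S.t ∨ v = S.P (i + 1) := by
  rcases side_dart Γ S i h with h2 | h2 | h2 | ⟨⟨x, hx⟩, -⟩
  · rw [h2, S.org_α] at hv
    exact Or.inl (inl.inj hv).symm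
  · rw [h2, S.org_d] at hv
    exact Or.inr (Or.inl (inl.inj hv).symm)
  · rw [h2, org_ex] at hv
    exact Or.inr (Or.inr (inl.inj hv).symm)
  · rw [hx] at hv
    exact absurd hv Sum.inr_ne_inl

theorem side_ne {i j : Fin 3} (h : Γ.φ.SameCycle (ex Γ S (i + 1)).1 (ex Γ S (j + 1)).1) :
    i = j := by
  have h0 : Γ.φ.SameCycle (S.d (j + 1)) (ex Γ S (j + 1)).1 := Γ.sameFace_φ (S.d (j + 1))
  have h1 : Γ.φ.SameCycle (ex Γ S (i + 1)).1 (S.d (j + 1)) := h.trans h0.symm
  have h2 := S.org_d (j + 1)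
  rcases side_dart Γ S i h1 with h3 | h3 | h3 | ⟨⟨x, hx⟩, -⟩
  · rw [h3, S.org_α] at h2
    exact absurd (inl.inj h2) (P_ne_t Γ S i)
  · exact (add_right_cancel (S.inj h3)).symm
  · rw [h3, org_ex] at h2
    exact absurd (inl.inj h2) (P_ne_t Γ S (i + 1))
  · rw [hx] at h2
    exact absurd h2 Sum.inr_ne_inl

/-- the darts at `t` -/
theorem at_t {z : Γ.D} (h : Γ.org z = inl S.t) : ∃ i, z = S.d i := by
  have h1 : Γ.σ.SameCycle (S.d 0) z := (Γ.orbit _ _).1 (by rw [S.org_d, h])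
  have := Γ.finD
  obtain ⟨n, hn⟩ := h1.exists_nat_pow_eq
  rw [← hn]
  clear hn h1
  induction n with
  | zero => exact ⟨0, by simp⟩
  | succ n ih =>
    obtain ⟨i, hi⟩ := ih
    exact ⟨i + 1, by rw [pow_succ', Equiv.Perm.mul_apply, hi, S.rot]⟩

/-! ### Adjacency in the new drawing -/

theorem ad_old (hOPL : SpecOPL) {v v' : V} (h : Γ.graph.Adj v v') (hv : v ≠ S.t)
    (hv' : v' ≠ S.t) : Ad Γ S (inl v) (inl v') := by
  obtain ⟨d, h1, h2⟩ := (Γ.adj_iff v v').1 h
  have hd : Old Γ S d := by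
    intro i
    constructor
    · rintro rfl
      rw [S.org_d] at h1
      exact hv (inl.inj h1).symm
    · rintro rfl
      rw [Γ.far_unc (v := S.t) (by rw [Γ.invol, S.org_d]), Γ.invol, S.org_d] at h2
      exact hv' (inl.inj h2).symm
  obtain ⟨h', hf⟩ := (hOPL V Γ S).2.2.2.2.2.1 ⟨d, hd⟩ v h1
  refine ⟨inl ⟨d, hd⟩, ?_, ?_⟩
  · change Sum.map inl inl (Γ.org d) = _
    rw [h1]
    rfl
  · have h3 : farD Γ S (inl ⟨d, hd⟩) = inl ⟨Γ.far d, h'⟩ := hf
    rw [h3]
    change Sum.map inl inl (Γ.org (Γ.far d)) = _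
    rw [h2]
    rfl

theorem ad_LA (hOPL : SpecOPL) {c c' : ℕ} (hc : c < 13) (hc' : c' < 13) (h : LA c c') :
    Ad Γ S (nodeV Γ S c) (nodeV Γ S c') := by
  obtain ⟨l, rfl, rfl⟩ := h
  refine ⟨inr l, node_eq Γ S hc, ?_⟩
  have h3 : farD Γ S (inr l) = inr (farL l) := (hOPL V Γ S).2.2.2.2.2.2 l hc
  rw [h3]
  exact node_eq Γ S hc'

theorem adj_PP (hM : Γ.Maximal) {i j : Fin 3} (h : i ≠ j) : Γ.graph.Adj (S.P i) (S.P j) := by
  have key : ∀ i : Fin 3, Γ.graph.Adj (S.P i) (S.P (i + 1)) := by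
    intro i
    apply hM.inside _ _ ?_ ⟨Γ.α (S.d i), (ex Γ S (i + 1)).1, S.org_α i, org_ex Γ S (i + 1),
      (same1 Γ S i).symm⟩
    intro h
    have h1 := P_inj Γ S h
    clear h
    revert h1
    revert i
    decide
  have h2 : j = i + 1 ∨ i = j + 1 := by
    revert h
    revert i j
    decide
  rcases h2 with rfl | rfl
  · exact key i
  · exact (key j).symm

theorem ad_Ok (hOPL : SpecOPL) (hM : Γ.Maximal) {c c' : ℕ} (hc : c < 13) (hc' : c' < 13)
    (hne : nodeV Γ S c ≠ nodeV Γ S c') (h : Ok c c') : Ad Γ S (nodeV Γ S c) (nodeV Γ S c') := by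
  rcases h with h | ⟨h1, h2⟩
  · exact ad_LA Γ S hOPL hc hc' h
  · have e1 := nodeV_P Γ S ⟨c, h1⟩
    have e2 := nodeV_P Γ S ⟨c', h2⟩
    simp only at e1 e2
    rw [e1, e2] at hne ⊢
    apply ad_old Γ S hOPL _ (P_ne_t Γ S _) (P_ne_t Γ S _)
    apply adj_PP Γ S hM
    rintro h
    exact hne (by rw [h])

/-! ### Faces -/

/-- `d` is in the old face of `q` -/
def InF (d : D' Γ S) (q : Γ.D) : Prop :=
  (∃ o, d = inl o ∧ Γ.φ.SameCycle o.1 q) ∨
  (∃ (m : Fin 74) (i : Fin 3), d = inr m ∧ fcn m = i.1 ∧ Γ.φ.SameCycle (ex Γ S (i + 1)).1 q)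

theorem inF (hOPF : SpecOPF) {d : D' Γ S} {o : O Γ S} (h : (phP Γ S).SameCycle d (inl o)) :
    InF Γ S d o.1 := by
  obtain ⟨h1, h2, h3⟩ := hOPF V Γ S
  rcases d with o' | m
  · exact Or.inl ⟨o', rfl, (h1 o' o).1 h⟩
  · by_cases hm : 3 ≤ fcn m
    · obtain ⟨m', h4, -⟩ := (h3 m _ hm).1 h
      exact absurd h4 Sum.inl_ne_inr
    · right
      refine ⟨m, ⟨fcn m, by omega⟩, rfl, rfl, ?_⟩
      exact (h1 _ _).1 ((h2 m ⟨fcn m, by omega⟩ rfl).symm.trans h)

/-- every dart is in an inner face or in an old face -/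
theorem cases_face (hOPF : SpecOPF) (d : D' Γ S) :
    (∃ m, d = inr m ∧ 3 ≤ fcn m) ∨ (∃ o : O Γ S, (phP Γ S).SameCycle d (inl o)) := by
  obtain ⟨h1, h2, h3⟩ := hOPF V Γ S
  rcases d with o' | m
  · exact Or.inr ⟨o', Equiv.Perm.SameCycle.refl _ _⟩
  · by_cases hm : 3 ≤ fcn m
    · exact Or.inl ⟨m, rfl, hm⟩
    · exact Or.inr ⟨_, h2 m ⟨fcn m, by omega⟩ rfl⟩

/-- `u` is a vertex of the old face of `q` in the new drawing -/
def VF (u : V' V) (q : Γ.D) : Prop :=
  (∃ v z, u = inl v ∧ v ≠ S.t ∧ Γ.org z = inl v ∧ Γ.φ.SameCycle z q) ∨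
  (∃ i : Fin 3, u = nodeV Γ S (8 + i.1) ∧ Γ.φ.SameCycle (ex Γ S (i + 1)).1 q)

theorem vF {d : D' Γ S} {q : Γ.D} (h : InF Γ S d q) {u : V' V} (hu : og Γ S d = inl u) :
    VF Γ S u q := by
  rcases h with ⟨o, rfl, h1⟩ | ⟨m, i, rfl, hm, h1⟩
  · left
    change Sum.map inl inl (Γ.org o.1) = _ at hu
    rcases ho : Γ.org o.1 with v | x
    · rw [ho] at hu
      refine ⟨v, o.1, (inl.inj hu).symm, ?_, ho, h1⟩
      rintro rfl
      obtain ⟨i, hi⟩ := at_t Γ S ho
      exact (o.2 i).1 hi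
    · rw [ho] at hu
      exact absurd hu Sum.inr_ne_inl
  · obtain ⟨-, hu2⟩ := node_lt Γ S hu
    rcases tab_side m i hm with h2 | h2
    · rw [h2, nodeV_P] at hu2
      exact Or.inl ⟨S.P i, Γ.α (S.d i), hu2.symm, P_ne_t Γ S i, S.org_α i,
        (same1 Γ S i).symm.trans h1⟩
    · rw [h2] at hu2
      exact Or.inr ⟨i, hu2.symm, h1⟩

/-- the vertices of a side face -/
theorem vF_side {u : V' V} {i : Fin 3} (h : VF Γ S u (ex Γ S (i + 1)).1) :
    u = nodeV Γ S i.1 ∨ u = nodeV Γ S (i + 1).1 ∨ u = nodeV Γ S (8 + i.1) := by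
  rcases h with ⟨v, z, rfl, hv, hz, h1⟩ | ⟨j, rfl, h1⟩
  · rw [nodeV_P, nodeV_P]
    rcases side_vertex Γ S i h1.symm hz with rfl | rfl | rfl
    · exact Or.inl rfl
    · exact absurd rfl hv
    · exact Or.inr (Or.inl rfl)
  · rw [side_ne Γ S h1]
    exact Or.inr (Or.inr rfl)

theorem ad_in (hOPL : SpecOPL) (hM : Γ.Maximal) {u v : V' V} {q : Γ.D} (hu : VF Γ S u q)
    (hv : VF Γ S v q) (huv : u ≠ v) : Ad Γ S u v := by
  rcases hu with ⟨u', z, rfl, hu', hz, h1⟩ | ⟨i, rfl, h1⟩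
  · rcases hv with ⟨v', w, rfl, hv', hw, h2⟩ | ⟨j, rfl, h2⟩
    · apply ad_old Γ S hOPL _ hu' hv'
      apply hM.inside
      · rintro rfl
        exact huv rfl
      · exact ⟨z, w, hz, hw, h1.trans h2.symm⟩
    · rcases side_vertex Γ S j (h2.trans h1.symm) hz with rfl | rfl | rfl
      · rw [← nodeV_P]
        exact ad_LA Γ S hOPL (by omega) (by omega) (tab_LA j).2.2.1
      · exact absurd rfl hu'
      · rw [← nodeV_P]
        exact ad_LA Γ S hOPL (by omega) (by omega) (tab_LA j).2.2.2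
  · rcases hv with ⟨v', w, rfl, hv', hw, h2⟩ | ⟨j, rfl, h2⟩
    · rcases side_vertex Γ S i (h1.trans h2.symm) hw with rfl | rfl | rfl
      · rw [← nodeV_P]
        exact ad_LA Γ S hOPL (by omega) (by omega) (tab_LA i).1
      · exact absurd rfl hv'
      · rw [← nodeV_P]
        exact ad_LA Γ S hOPL (by omega) (by omega) (tab_LA i).2.1
    · rw [side_ne Γ S (h1.trans h2.symm)] at huv
      exact absurd rfl huv

/-- `inside` for the new drawing -/
theorem inside' (hOPF : SpecOPF) (hOPL : SpecOPL) (hM : Γ.Maximal) {u v : V' V} (huv : u ≠ v)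
    {d d' : D' Γ S} (hd : og Γ S d = inl u) (hd' : og Γ S d' = inl v)
    (h : (phP Γ S).SameCycle d d') : Ad Γ S u v := by
  rcases cases_face Γ S hOPF d with ⟨m, rfl, hm⟩ | ⟨o, ho⟩
  · obtain ⟨m', rfl, hm'⟩ := ((hOPF V Γ S).2.2 m d' hm).1 h
    obtain ⟨h1, rfl⟩ := node_lt Γ S hd
    obtain ⟨h2, rfl⟩ := node_lt Γ S hd'
    refine ad_Ok Γ S hOPL hM h1 h2 huv (tab_in m hm h1 m' hm' h2 ?_)
    intro h3
    exact huv (by rw [h3])
  · exact ad_in Γ S hOPL hM (vF Γ S (inF Γ S hOPF ho) hd)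
      (vF Γ S (inF Γ S hOPF (h.symm.trans ho)) hd') huv

/-- an old edge on a side face, and a new vertex -/
theorem across_new {v : V' V} {o : O Γ S} {a b : V}
    (ha : Γ.org o.1 = inl a) (hb : Γ.org (Γ.α o.1) = inl b) (hva : v ≠ inl a) (hvb : v ≠ inl b)
    {i : Fin 3} (h1 : Γ.φ.SameCycle (ex Γ S (i + 1)).1 o.1) (hv : VF Γ S v (Γ.α o.1)) :
    False := by
  have ho : o.1 = (ex Γ S (i + 1)).1 := by
    rcases side_dart Γ S i h1 with h2 | h2 | h2 | ⟨⟨x, hx⟩, -⟩
    · exact absurd h2 (o.2 i).2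
    · exact absurd h2 (o.2 (i + 1)).1
    · exact h2
    · rw [hx] at ha
      exact absurd ha Sum.inr_ne_inl
  rcases S.side i with ⟨h2, h3⟩ | ⟨⟨x, hx⟩, -⟩
  · rw [φ1, φ2, ← ho] at h2 h3
    have ha' : a = S.P (i + 1) := by
      rw [ho, org_ex] at ha
      exact (inl.inj ha).symm
    have hb' : b = S.P i := by
      rw [← Γ.org_φ, h2, S.org_α] at hb
      exact (inl.inj hb).symm
    rcases hv with ⟨v', z, rfl, hv', hz, h4⟩ | ⟨j, rfl, h4⟩
    · rcases h3 z v' hz h4 with rfl | rfl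
      · exact hvb (by rw [hb'])
      · exact hva (by rw [ha'])
    · have h5 : Γ.φ.SameCycle (S.d (j + 1)) (Γ.α o.1) := (Γ.sameFace_φ (S.d (j + 1))).trans h4
      rcases h3 _ _ (S.org_d (j + 1)) h5 with h6 | h6
      · exact P_ne_t Γ S _ h6.symm
      · exact P_ne_t Γ S _ h6.symm
  · rw [φ1, φ2, ← ho, Γ.org_φ, hb] at hx
    exact Sum.inl_ne_inr hx

/-- a local edge on a side face -/
theorem across_side (hOPF : SpecOPF) (hOPL : SpecOPL) (hM : Γ.Maximal) {u v : V' V} (huv : u ≠ v)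
    {m : Fin 74} {i : Fin 3} (hm : fcn m = i.1) {d d' : D' Γ S}
    (h1 : (phP Γ S).SameCycle d (inr m)) (h2 : (phP Γ S).SameCycle d' (inr (al m)))
    (hd : og Γ S d = inl u) (hd' : og Γ S d' = inl v)
    (hau : nodeV Γ S (nd m) ≠ u) (hav : nodeV Γ S (nd m) ≠ v)
    (hbu : nodeV Γ S (nd (al m)) ≠ u) (hbv : nodeV Γ S (nd (al m)) ≠ v)
    (hm1 : nd m < 13) (hm2 : nd (al m) < 13) : Ad Γ S u v ∧ Ad Γ S v u := by
  obtain ⟨h3, c1, c2, c3⟩ := tab_acs i m ⟨hm, hm1, hm2⟩
  have h4 : (phP Γ S).SameCycle d (inl (ex Γ S (i + 1))) := h1.trans ((hOPF V Γ S).2.1 m i hm)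
  have h5 := vF_side Γ S (vF Γ S (inF Γ S hOPF h4) hd)
  obtain ⟨l', rfl, hl'⟩ := ((hOPF V Γ S).2.2 (al m) d' h3).1 h2.symm
  obtain ⟨h6, rfl⟩ := node_lt Γ S hd'
  have key : ∀ c : ℕ, c < 13 → u = nodeV Γ S c → C1 m c → Ad Γ S u (nodeV Γ S (nd l')) ∧
      Ad Γ S (nodeV Γ S (nd l')) u := by
    rintro c hc rfl hC
    have h7 := hC ⟨fun h => hau (by rw [h]), fun h => hbu (by rw [h])⟩ l' hl' ⟨h6,
      fun h => hav (by rw [h]), fun h => hbv (by rw [h]), fun h => huv (by rw [h])⟩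
    exact ⟨ad_Ok Γ S hOPL hM hc h6 huv h7.1, ad_Ok Γ S hOPL hM h6 hc huv.symm h7.2⟩
  rcases h5 with h5 | h5 | h5
  · exact key _ (by omega) h5 c1
  · exact key _ (by omega) h5 c2
  · exact key _ (by omega) h5 c3

/-- `across` for the new drawing -/
theorem across' (hOPF : SpecOPF) (hOPL : SpecOPL) (hM : Γ.Maximal) {u v : V' V} (huv : u ≠ v)
    {d d' g : D' Γ S} {a b : V' V} (hau : a ≠ u) (hav : a ≠ v) (hbu : b ≠ u) (hbv : b ≠ v)
    (hd : og Γ S d = inl u) (hd' : og Γ S d' = inl v)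
    (hga : og Γ S g = inl a) (hgb : og Γ S (av Γ S g) = inl b)
    (h1 : (phP Γ S).SameCycle d g) (h2 : (phP Γ S).SameCycle d' (av Γ S g)) : Ad Γ S u v := by
  rcases g with o | m
  · have hu := vF Γ S (inF Γ S hOPF h1) hd
    have hv : VF Γ S v (Γ.α o.1) :=
      vF Γ S (inF Γ S hOPF (o := ⟨Γ.α o.1, old_α Γ S o.2⟩) h2) hd'
    change Sum.map inl inl (Γ.org o.1) = _ at hga
    change Sum.map inl inl (Γ.org (Γ.α o.1)) = _ at hgb
    rcases hoa : Γ.org o.1 with a' | x
    · rcases hob : Γ.org (Γ.α o.1) with b' | x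
      · rw [hoa] at hga
        rw [hob] at hgb
        have ha' : a = inl a' := (inl.inj hga).symm
        have hb' : b = inl b' := (inl.inj hgb).symm
        rcases hu with ⟨u', z, rfl, hu', hz, h3⟩ | ⟨i, rfl, h3⟩
        · rcases hv with ⟨v', w, rfl, hv', hw, h4⟩ | ⟨j, rfl, h4⟩
          · apply ad_old Γ S hOPL _ hu' hv'
            apply hM.across
            · rintro rfl
              exact huv rfl
            · refine ⟨z, w, o.1, hz, hw, ⟨a', b', ?_, ?_, ?_, ?_, hoa, hob⟩, h3, h4⟩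
              · rintro rfl; exact hau ha'
              · rintro rfl; exact hav ha'
              · rintro rfl; exact hbu hb'
              · rintro rfl; exact hbv hb'
          · exfalso
            refine across_new Γ S (o := ⟨Γ.α o.1, old_α Γ S o.2⟩) (v := inl u') hob
              (by change Γ.org (Γ.α (Γ.α o.1)) = _; rw [Γ.invol, hoa])
              (by rw [← hb']; exact hbu.symm) (by rw [← ha']; exact hau.symm) h4 ?_
            left
            refine ⟨u', z, rfl, hu', hz, ?_⟩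
            change Γ.φ.SameCycle z (Γ.α (Γ.α o.1))
            rw [Γ.invol]
            exact h3
        · exfalso
          exact across_new Γ S hoa hob (by rw [← ha']; exact hav.symm)
            (by rw [← hb']; exact hbv.symm) h3 hv
      · rw [hob] at hgb
        exact absurd hgb Sum.inr_ne_inl
    · rw [hoa] at hga
      exact absurd hga Sum.inr_ne_inl
  · change (phP Γ S).SameCycle d' (inr (al m)) at h2
    change og Γ S (inr (al m)) = _ at hgb
    obtain ⟨hm1, rfl⟩ := node_lt Γ S hga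
    obtain ⟨hm2, rfl⟩ := node_lt Γ S hgb
    by_cases h3 : 3 ≤ fcn m
    · by_cases h4 : 3 ≤ fcn (al m)
      · obtain ⟨l, rfl, hl⟩ := ((hOPF V Γ S).2.2 m d h3).1 h1.symm
        obtain ⟨l', rfl, hl'⟩ := ((hOPF V Γ S).2.2 (al m) d' h4).1 h2.symm
        obtain ⟨h5, rfl⟩ := node_lt Γ S hd
        obtain ⟨h6, rfl⟩ := node_lt Γ S hd'
        have h7 := tab_ac m ⟨h3, h4, hm1, hm2⟩ l ⟨hl, h5⟩ ⟨fun h => hau (by rw [h]),
          fun h => hbu (by rw [h])⟩ l' hl' ⟨h6, fun h => hav (by rw [h]),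
          fun h => hbv (by rw [h]), fun h => huv (by rw [h])⟩
        exact ad_Ok Γ S hOPL hM h5 h6 huv h7.1
      · have hm3 : nd (al (al m)) < 13 := by rw [al_al]; exact hm1
        refine (across_side Γ S hOPF hOPL hM huv.symm (m := al m) (i := ⟨fcn (al m), by omega⟩) rfl
          h2 (by rw [al_al]; exact h1) hd' hd hbv hbu (by rw [al_al]; exact hav)
          (by rw [al_al]; exact hau) hm2 hm3).2
    · exact (across_side Γ S hOPF hOPL hM huv (m := m) (i := ⟨fcn m, by omega⟩) rfl h1 h2 hd hd'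
        hau hav hbu hbv hm1 hm2).1

end OPMM

open OPMM Op in
theorem specOPM (hOPF : SpecOPF) (hOPL : SpecOPL) : SpecOPM := by
  intro V _ Γ S hM Γ' e x hσ hα ho
  have hφ : ∀ d, e (Γ'.φ d) = phP Γ S (e d) := by
    intro d
    rw [Γ'.φ_apply, hσ, hα]
    rfl
  have hsame : ∀ d d', Γ'.φ.SameCycle d d' → (phP Γ S).SameCycle (e d) (e d') := by
    intro d d' h
    have := Γ'.finD
    obtain ⟨n, hn⟩ := h.exists_nat_pow_eq
    rw [← hn]
    clear hn h
    induction n with
    | zero => exact Equiv.Perm.SameCycle.refl _ _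
    | succ n ih =>
      rw [pow_succ', Equiv.Perm.mul_apply, hφ]
      exact ih.trans ⟨1, by rw [zpow_one]⟩
  have horg : ∀ d u, Γ'.org d = inl u → og Γ S (e d) = inl u := by
    intro d u h
    rw [← ho, h]
    rfl
  have horg' : ∀ d u, og Γ S (e d) = inl u → Γ'.org d = inl u := by
    intro d u h
    rw [← ho] at h
    rcases h2 : Γ'.org d with w | y
    · rw [h2] at h
      have := inl.inj h
      exact congrArg inl this
    · rw [h2] at h
      exact absurd h Sum.inr_ne_inl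
  have hright : ∀ d, (Γ'.org d).isRight = (og Γ S (e d)).isRight := by
    intro d
    rw [← ho]
    cases Γ'.org d <;> rfl
  have hfar : ∀ d, e (Γ'.far d) = farD Γ S (e d) := by
    intro d
    unfold Drawing.far farD
    rw [hright, hα]
    split_ifs
    · rw [hα, hσ, hσ, hα]
    · rw [hα]
  have hAd : ∀ u v, Ad Γ S u v → Γ'.graph.Adj u v := by
    rintro u v ⟨d, h1, h2⟩
    rw [Γ'.adj_iff]
    refine ⟨e.symm d, horg' _ _ (by rw [Equiv.apply_symm_apply]; exact h1), horg' _ _ ?_⟩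
    rw [hfar, Equiv.apply_symm_apply]
    exact h2
  constructor
  · rintro u v huv ⟨d, d', h1, h2, h3⟩
    exact hAd _ _ (inside' Γ S hOPF hOPL hM huv (horg _ _ h1) (horg _ _ h2) (hsame _ _ h3))
  · rintro u v huv ⟨d, d', g, h1, h2, ⟨a, b, hau, hav, hbu, hbv, ha, hb⟩, h3, h4⟩
    apply hAd
    refine across' Γ S hOPF hOPL hM huv hau hav hbu hbv (horg _ _ h1) (horg _ _ h2) (horg _ _ ha)
      ?_ (hsame _ _ h3) ?_
    · rw [← hα]
      exact horg _ _ hb
    · rw [← hα]
      exact hsame _ _ h4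

end Pool.Agent.Lib.MP0c8bd9
end

section
/-!
# MP_0c8bd9_co : module OPF, faces of the new drawing
-/
set_option autoImplicit false

namespace Pool.Agent.Lib.MP0c8bd9

open Sum

namespace OPFM

open Op

variable {V : Type} (Γ : Drawing V) (S : Star Γ)

/-- the next local dart in the face -/
def pt (m : Fin 74) : Fin 74 := Fin.ofNat 74 (nxL.getD (al m).1 0)

/-- the second local dart of the side face `i` -/
def m2 (i : Fin 3) : Fin 74 := pt (ent i)

/-! ### table facts -/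

theorem nx_ent : ∀ i : Fin 3, nx (al (ent i)) = inl (m2 i) := by decide +kernel

theorem nx_m2 : ∀ i : Fin 3, nx (al (m2 i)) = inr (i + 1) := by decide +kernel

theorem side_tab : ∀ (m : Fin 74) (i : Fin 3), fcn m = i.1 → m = ent i ∨ m = m2 i := by
  decide +kernel

theorem nx_pt : ∀ m : Fin 74, 3 ≤ fcn m → nx (al m) = inl (pt m) := by decide +kernel

theorem fcn_pt : ∀ m : Fin 74, 3 ≤ fcn m → fcn (pt m) = fcn m := by decide +kernel

theorem face_tab : ∀ m m' : Fin 74, 3 ≤ fcn m → fcn m' = fcn m →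
    m' = m ∨ m' = pt m ∨ m' = pt (pt m) ∨ m' = pt (pt (pt m)) := by decide +kernel

/-! ### steps -/

/-- the exit dart at `P i` -/
theorem ex_val (i : Fin 3) : (ex Γ S i).1 = Γ.σ (Γ.α (S.d i)) := rfl

theorem ph_old (o : O Γ S) (h : Old Γ S (Γ.φ o.1)) :
    phP Γ S (inl o) = inl ⟨Γ.φ o.1, h⟩ := sg_old Γ S ⟨Γ.α o.1, old_α Γ S o.2⟩ h

theorem ph_entry (o : O Γ S) (i : Fin 3) (h : Γ.φ o.1 = Γ.α (S.d i)) :
    phP Γ S (inl o) = inr (ent i) := sg_entry Γ S ⟨Γ.α o.1, old_α Γ S o.2⟩ i h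

theorem ph_loc {m m' : Fin 74} (h : nx (al m) = inl m') : phP Γ S (inr m) = inr m' :=
  sg_inl Γ S h

theorem ph_exit {m : Fin 74} {i : Fin 3} (h : nx (al m) = inr i) :
    phP Γ S (inr m) = inl (ex Γ S i) := sg_inr Γ S h

theorem not_old (o : O Γ S) (h : ¬ Old Γ S (Γ.φ o.1)) : ∃ i, Γ.φ o.1 = Γ.α (S.d i) :=
  not_old_σ Γ S ⟨Γ.α o.1, old_α Γ S o.2⟩ h

/-- one step, in a face -/
theorem step (d : D' Γ S) : (phP Γ S).SameCycle d (phP Γ S d) := ⟨1, by simp⟩

theorem side_step (i : Fin 3) : (phP Γ S).SameCycle (inr (m2 i)) (inl (ex Γ S (i + 1))) := by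
  have h := step Γ S (inr (m2 i))
  rwa [ph_exit Γ S (nx_m2 i)] at h

theorem ent_step (i : Fin 3) : (phP Γ S).SameCycle (inr (ent i)) (inl (ex Γ S (i + 1))) := by
  have h := step Γ S (inr (ent i))
  rw [ph_loc Γ S (nx_ent i)] at h
  exact h.trans (side_step Γ S i)

theorem phi2 (i : Fin 3) : Γ.φ (Γ.α (S.d i)) = S.d (i + 1) := by rw [Γ.φ_α, S.rot]

theorem phi3 (i : Fin 3) : Γ.φ (S.d (i + 1)) = (ex Γ S (i + 1)).1 := rfl

theorem exists_pow {D : Type} [Finite D] {f : Equiv.Perm D} {d e : D} (h : f.SameCycle d e) :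
    ∃ k : ℕ, f^[k] d = e := by
  obtain ⟨k, hk⟩ := h.exists_nat_pow_eq
  refine ⟨k, ?_⟩
  rw [← hk, Equiv.Perm.iterate_eq_pow]

theorem new_of_old (k : ℕ) : ∀ o o' : O Γ S, Γ.φ^[k] o.1 = o'.1 →
    (phP Γ S).SameCycle (inl o) (inl o') := by
  induction k using Nat.strong_induction_on with
  | _ k ih =>
    intro o o' h
    rcases k with _ | k
    · have : o = o' := Subtype.ext h
      rw [this]
    rw [Function.iterate_succ_apply] at h
    by_cases ho : Old Γ S (Γ.φ o.1)
    · have h1 := step Γ S (inl o)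
      rw [ph_old Γ S o ho] at h1
      exact h1.trans (ih k (by omega) ⟨_, ho⟩ o' h)
    obtain ⟨i, hi⟩ := not_old Γ S o ho
    rw [hi] at h
    have h1 := step Γ S (inl o)
    rw [ph_entry Γ S o i hi] at h1
    have h2 := h1.trans (ent_step Γ S i)
    rcases k with _ | k
    · exact absurd h.symm (o'.2 i).2
    rw [Function.iterate_succ_apply, phi2] at h
    rcases k with _ | k
    · exact absurd h.symm (o'.2 (i + 1)).1
    rw [Function.iterate_succ_apply, phi3] at h
    exact h2.trans (ih k (by omega) (ex Γ S (i + 1)) o' h)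

theorem old_of_new (k : ℕ) : ∀ o o' : O Γ S, (phP Γ S)^[k] (inl o) = inl o' →
    Γ.φ.SameCycle o.1 o'.1 := by
  induction k using Nat.strong_induction_on with
  | _ k ih =>
    intro o o' h
    rcases k with _ | k
    · have : o = o' := inl.inj h
      rw [this]
    rw [Function.iterate_succ_apply] at h
    by_cases ho : Old Γ S (Γ.φ o.1)
    · rw [ph_old Γ S o ho] at h
      exact (Γ.sameFace_φ o.1).trans (ih k (by omega) ⟨_, ho⟩ o' h)
    obtain ⟨i, hi⟩ := not_old Γ S o ho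
    rw [ph_entry Γ S o i hi] at h
    have h3 : Γ.φ.SameCycle o.1 (ex Γ S (i + 1)).1 := by
      refine (Γ.sameFace_φ o.1).trans ?_
      rw [hi]
      refine (Γ.sameFace_φ _).trans ?_
      rw [phi2]
      exact Γ.sameFace_φ _
    rcases k with _ | k
    · exact absurd h inr_ne_inl
    rw [Function.iterate_succ_apply, ph_loc Γ S (nx_ent i)] at h
    rcases k with _ | k
    · exact absurd h inr_ne_inl
    rw [Function.iterate_succ_apply, ph_exit Γ S (nx_m2 i)] at h
    exact h3.trans (ih k (by omega) (ex Γ S (i + 1)) o' h)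

theorem loc_pow (k : ℕ) : ∀ m : Fin 74, 3 ≤ fcn m →
    ∃ m', (phP Γ S)^[k] (inr m) = inr m' ∧ fcn m' = fcn m := by
  induction k with
  | zero => intro m _; exact ⟨m, rfl, rfl⟩
  | succ k ih =>
    intro m hm
    rw [Function.iterate_succ_apply, ph_loc Γ S (nx_pt m hm)]
    obtain ⟨m', h1, h2⟩ := ih (pt m) (by rw [fcn_pt m hm]; exact hm)
    exact ⟨m', h1, by rw [h2, fcn_pt m hm]⟩

theorem loc_step {m : Fin 74} (hm : 3 ≤ fcn m) : (phP Γ S).SameCycle (inr m) (inr (pt m)) := by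
  have h := step Γ S (inr m)
  rwa [ph_loc Γ S (nx_pt m hm)] at h

end OPFM

open Op OPFM in
theorem specOPF : SpecOPF := by
  intro V Γ S
  have := Γ.finD
  have hf := finite_D' Γ S
  refine ⟨?_, ?_, ?_⟩
  · intro o o'
    constructor
    · intro h
      obtain ⟨k, hk⟩ := exists_pow h
      exact old_of_new Γ S k o o' hk
    · intro h
      obtain ⟨k, hk⟩ := exists_pow h
      exact new_of_old Γ S k o o' hk
  · intro m i h
    rcases side_tab m i h with rfl | rfl
    · exact ent_step Γ S i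
    · exact side_step Γ S i
  · intro m d hm
    constructor
    · intro h
      obtain ⟨k, hk⟩ := exists_pow h
      obtain ⟨m', h1, h2⟩ := loc_pow Γ S k m hm
      exact ⟨m', by rw [← hk, h1], h2⟩
    · rintro ⟨m', rfl, h⟩
      have e1 := fcn_pt m hm
      have h1 := loc_step Γ S hm
      have h2 := loc_step Γ S (m := pt m) (by rw [e1]; exact hm)
      have e2 := fcn_pt (pt m) (by rw [e1]; exact hm)
      have h3 := loc_step Γ S (m := pt (pt m)) (by rw [e2, e1]; exact hm)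
      rcases face_tab m m' hm h with rfl | rfl | rfl | rfl
      · exact Equiv.Perm.SameCycle.refl _ _
      · exact h1
      · exact h1.trans h2
      · exact (h1.trans h2).trans h3

end Pool.Agent.Lib.MP0c8bd9
end

section
/-!
# MP_0c8bd9_co : module OPL, local conditions of the new drawing
-/
set_option autoImplicit false

namespace Pool.Agent.Lib.MP0c8bd9

open Sum

namespace OPLM

open Op

variable {V : Type} (Γ : Drawing V) (S : Star Γ)

/-- the next local dart (at nodes `≥ 3`) -/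
def nxt (m : Fin 74) : Fin 74 := Fin.ofNat 74 (nxL.getD m.1 0)

/-! ### table facts -/

theorem nx_eq : ∀ m : Fin 74, 3 ≤ nd m → nx m = inl (nxt m) := by decide +kernel

theorem nd_nxt : ∀ m : Fin 74, 3 ≤ nd m → nd (nxt m) = nd m := by decide +kernel

theorem nd_lt : ∀ m : Fin 74, nd m < 16 := by decide +kernel

theorem nxt4 : ∀ m : Fin 74, 13 ≤ nd m → nxt (nxt (nxt (nxt m))) = m ∧ nxt (nxt m) ≠ m := by
  decide +kernel

theorem once_tab : ∀ m : Fin 74, 13 ≤ nd m → nd (al m) < 13 := by decide +kernel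

theorem cross_tab : ∀ m : Fin 74, 13 ≤ nd m → nd (al m) ≠ nd (al (nxt m)) := by decide +kernel

theorem farL_cr : ∀ m : Fin 74, 13 ≤ nd (al m) → farL m = al (nxt (nxt (al m))) := by
  decide +kernel

theorem farL_unc : ∀ m : Fin 74, ¬ 13 ≤ nd (al m) → farL m = al m := by decide +kernel

theorem far_ne : ∀ m : Fin 74, nd m < 13 → nd (farL m) ≠ nd m := by decide +kernel

theorem far_P : ∀ m : Fin 74, nd m < 3 → 3 ≤ nd (farL m) := by decide +kernel

theorem far_inj_tab : ∀ m m' : Fin 74, nd m < 13 → nd m = nd m' → nd (farL m) = nd (farL m') →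
    m = m' := by decide +kernel

/-! ### nodes -/

theorem node_P {c : ℕ} (h : c < 3) : node Γ S c = inl (inl (S.P (Fin.ofNat 3 c))) := by
  rw [node, if_pos h]

theorem node_t : node Γ S 3 = inl (inl S.t) := by
  rw [node, if_neg (by omega), if_pos rfl]

theorem node_new {c : ℕ} (h : 3 < c) (h' : c < 13) :
    node Γ S c = inl (inr (Fin.ofNat 9 (c - 4))) := by
  rw [node, if_neg (by omega), if_neg (by omega), if_pos h']

theorem node_cr {c : ℕ} (h : 13 ≤ c) : node Γ S c = inr (inr (Fin.ofNat 3 (c - 13))) := by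
  rw [node, if_neg (by omega), if_neg (by omega), if_neg (by omega)]

theorem node_isRight (c : ℕ) : (node Γ S c).isRight = true ↔ 13 ≤ c := by
  rcases lt_or_ge c 3 with h | h
  · rw [node_P Γ S h]
    simp
    omega
  rcases eq_or_lt_of_le h with h | h
  · subst h
    rw [node_t Γ S]
    simp
  rcases lt_or_ge c 13 with h' | h'
  · rw [node_new Γ S h h']
    simp
    omega
  · rw [node_cr Γ S h']
    simp
    omega

theorem node_inr {c : ℕ} {x : Γ.X ⊕ Fin 3} (h : node Γ S c = inr x) : 13 ≤ c := by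
  rw [← node_isRight Γ S c, h]; rfl

theorem node_inl {c : ℕ} {v : V' V} (h : node Γ S c = inl v) : c < 13 := by
  by_contra hc
  have := (node_isRight Γ S c).2 (by omega)
  rw [h] at this
  exact absurd this (by simp)

theorem ofNat3_inj {a b : ℕ} (ha : a < 3) (hb : b < 3)
    (h : Fin.ofNat 3 a = Fin.ofNat 3 b) : a = b := by
  have := congrArg Fin.val h
  simp only [Fin.ofNat, Nat.mod_eq_of_lt ha, Nat.mod_eq_of_lt hb] at this
  exact this

theorem ofNat9_inj {a b : ℕ} (ha : a < 9) (hb : b < 9)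
    (h : Fin.ofNat 9 a = Fin.ofNat 9 b) : a = b := by
  have := congrArg Fin.val h
  simp only [Fin.ofNat, Nat.mod_eq_of_lt ha, Nat.mod_eq_of_lt hb] at this
  exact this

theorem node_inj {a b : ℕ} (ha : a < 16) (hb : b < 16) (h : node Γ S a = node Γ S b) : a = b := by
  have key : ∀ {a b : ℕ}, a < 16 → b < 16 → node Γ S a = node Γ S b → a ≤ b → a = b := by
    intro a b ha hb h hab
    rcases lt_or_ge a 3 with h1 | h1
    · rw [node_P Γ S h1] at h
      rcases lt_or_ge b 3 with h2 | h2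
      · rw [node_P Γ S h2] at h
        exact ofNat3_inj h1 h2 (P_inj Γ S (inl.inj (inl.inj h)))
      rcases eq_or_lt_of_le h2 with h2 | h2
      · subst h2
        rw [node_t Γ S] at h
        exact absurd (inl.inj (inl.inj h)) (P_ne_t Γ S _)
      rcases lt_or_ge b 13 with h3 | h3
      · rw [node_new Γ S h2 h3] at h
        exact absurd (inl.inj h) inl_ne_inr
      · rw [node_cr Γ S h3] at h
        exact absurd h inl_ne_inr
    rcases eq_or_lt_of_le h1 with h1 | h1
    · subst h1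
      rcases eq_or_lt_of_le hab with h2 | h2
      · exact h2
      rw [node_t Γ S] at h
      rcases lt_or_ge b 13 with h3 | h3
      · rw [node_new Γ S h2 h3] at h
        exact absurd (inl.inj h) inl_ne_inr
      · rw [node_cr Γ S h3] at h
        exact absurd h inl_ne_inr
    rcases lt_or_ge a 13 with h2 | h2
    · rw [node_new Γ S h1 h2] at h
      rcases lt_or_ge b 13 with h3 | h3
      · rw [node_new Γ S (by omega) h3] at h
        have := ofNat9_inj (by omega) (by omega) (inr.inj (inl.inj h))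
        omega
      · rw [node_cr Γ S h3] at h
        exact absurd h inl_ne_inr
    · rw [node_cr Γ S h2, node_cr Γ S (by omega)] at h
      have := ofNat3_inj (by omega) (by omega) (inr.inj (inr.inj h))
      omega
  rcases le_total a b with h1 | h1
  · exact key ha hb h h1
  · exact (key hb ha h.symm h1).symm

/-! ### old darts -/

theorem old_cr {d : Γ.D} {x : Γ.X} (h : Γ.org d = inr x) : Old Γ S d := by
  intro i
  constructor
  · rintro rfl
    rw [S.org_d] at h
    exact inl_ne_inr h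
  · rintro rfl
    rw [S.org_α] at h
    exact inl_ne_inr h

theorem at_t {d : Γ.D} (h : Γ.org d = inl S.t) : ∃ i, d = S.d i := by
  have := Γ.finD
  have hs : Γ.σ.SameCycle (S.d 0) d := (Γ.orbit _ _).1 (by rw [S.org_d, h])
  obtain ⟨k, hk⟩ := hs.exists_nat_pow_eq
  rw [← hk]
  clear hk hs
  induction k with
  | zero => exact ⟨0, rfl⟩
  | succ k ih =>
    obtain ⟨i, hi⟩ := ih
    refine ⟨i + 1, ?_⟩
    rw [pow_succ', Equiv.Perm.mul_apply, hi, S.rot]

theorem og_inl (o : O Γ S) : og Γ S (inl o) = Sum.map inl inl (Γ.org o.1) := rfl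

theorem og_inr (m : Fin 74) : og Γ S (inr m) = node Γ S (nd m) := rfl

theorem av_inl (o : O Γ S) : av Γ S (inl o) = inl ⟨Γ.α o.1, old_α Γ S o.2⟩ := rfl

theorem av_inr (m : Fin 74) : av Γ S (inr m) = inr (al m) := rfl

theorem og_inl_inr {o : O Γ S} {x : Γ.X ⊕ Fin 3} (h : og Γ S (inl o) = inr x) :
    ∃ y, Γ.org o.1 = inr y ∧ x = inl y := by
  rw [og_inl] at h
  rcases hv : Γ.org o.1 with v | y
  · rw [hv] at h
    exact absurd h inl_ne_inr
  · rw [hv] at h
    exact ⟨y, rfl, (inr.inj h).symm⟩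

theorem og_inl_inl {o : O Γ S} {v : V' V} (h : og Γ S (inl o) = inl v) :
    ∃ w, Γ.org o.1 = inl w ∧ v = inl w := by
  rw [og_inl] at h
  rcases hv : Γ.org o.1 with w | y
  · rw [hv] at h
    exact ⟨w, rfl, (inl.inj h).symm⟩
  · rw [hv] at h
    exact absurd h inr_ne_inl

theorem og_of_inl {o : O Γ S} {v : V} (h : Γ.org o.1 = inl v) : og Γ S (inl o) = inl (inl v) := by
  rw [og_inl, h]; rfl

theorem og_of_inr {o : O Γ S} {x : Γ.X} (h : Γ.org o.1 = inr x) : og Γ S (inl o) = inr (inl x) := by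
  rw [og_inl, h]; rfl

/-- the other end in the new drawing -/
noncomputable def fr (d : D' Γ S) : D' Γ S :=
  if (og Γ S (av Γ S d)).isRight then av Γ S (sg Γ S (sg Γ S (av Γ S d))) else av Γ S d

theorem sg_cr {d : Γ.D} {x : Γ.X} (h : Γ.org d = inr x) (hd : Old Γ S d) :
    sg Γ S (inl ⟨d, hd⟩) = inl ⟨Γ.σ d, old_cr Γ S (x := x) (by rw [Γ.org_σ, h])⟩ :=
  sg_old Γ S _ _

theorem sg_loc {m : Fin 74} (h : 3 ≤ nd m) : sg Γ S (inr m) = inr (nxt m) :=
  sg_inl Γ S (nx_eq m h)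

theorem fr_inl (o : O Γ S) (v : V) (hv : Γ.org o.1 = inl v) : ∃ h' : Old Γ S (Γ.far o.1),
    fr Γ S (inl o) = inl ⟨Γ.far o.1, h'⟩ := by
  rcases hw : Γ.org (Γ.α o.1) with w | x
  · have hf := Γ.far_unc hw
    have ho : Old Γ S (Γ.far o.1) := by rw [hf]; exact old_α Γ S o.2
    refine ⟨ho, ?_⟩
    rw [fr, av_inl, og_of_inl Γ S (v := w) hw, if_neg (by simp)]
    congr 1
    exact Subtype.ext hf.symm
  · have hf := Γ.far_cr hw
    have h1 : Γ.org (Γ.σ (Γ.α o.1)) = inr x := by rw [Γ.org_σ, hw]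
    have h2 : Γ.org (Γ.σ (Γ.σ (Γ.α o.1))) = inr x := by rw [Γ.org_σ, h1]
    have ho : Old Γ S (Γ.far o.1) := by rw [hf]; exact old_α Γ S (old_cr Γ S h2)
    refine ⟨ho, ?_⟩
    rw [fr, av_inl, og_of_inr Γ S (x := x) hw, if_pos (by simp), sg_cr Γ S hw, sg_cr Γ S h1, av_inl]
    congr 1
    exact Subtype.ext hf.symm

theorem fr_inr (m : Fin 74) : fr Γ S (inr m) = inr (farL m) := by
  by_cases h : 13 ≤ nd (al m)
  · rw [fr, av_inr, og_inr, if_pos ((node_isRight Γ S _).2 h), sg_loc Γ S (by omega),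
      sg_loc Γ S (by rw [nd_nxt _ (by omega)]; omega), av_inr, farL_cr m h]
  · rw [fr, av_inr, og_inr, if_neg (fun h1 => h ((node_isRight Γ S _).1 h1)), farL_unc m h]

theorem simple_om (o : O Γ S) (m : Fin 74) (v : V' V) (h1 : og Γ S (inl o) = inl v)
    (h2 : og Γ S (inr m) = inl v)
    (h3 : og Γ S (fr Γ S (inl o)) = og Γ S (fr Γ S (inr m))) : False := by
  obtain ⟨w, hw, rfl⟩ := og_inl_inl Γ S h1
  rw [og_inr] at h2
  obtain ⟨h', hf⟩ := fr_inl Γ S o w hw
  obtain ⟨w', hw', hw2⟩ := Γ.exists_org_far hw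
  rw [hf, fr_inr, og_inr, og_of_inl Γ S (o := ⟨Γ.far o.1, h'⟩) hw2] at h3
  have h13 := node_inl Γ S h2
  rcases lt_or_ge (nd m) 3 with h4 | h4
  · have h5 := far_P m h4
    have h6 := node_inl Γ S h3.symm
    rcases eq_or_lt_of_le h5 with h5 | h5
    · rw [← h5, node_t] at h3
      have h7 : w' = S.t := inl.inj (inl.inj h3)
      subst h7
      obtain ⟨j, hj⟩ := at_t Γ S hw2
      have h8 : o.1 = Γ.α (S.d j) := by
        rw [← Γ.far_far hw, hj, Γ.far_unc (S.org_α j)]
      exact (o.2 j).2 h8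
    · rw [node_new Γ S h5 h6] at h3
      exact absurd (inl.inj h3) inl_ne_inr
  rcases eq_or_lt_of_le h4 with h4 | h4
  · rw [← h4, node_t] at h2
    have h7 : S.t = w := inl.inj (inl.inj h2)
    subst h7
    obtain ⟨j, hj⟩ := at_t Γ S hw
    exact (o.2 j).1 hj
  · rw [node_new Γ S h4 h13] at h2
    exact absurd (inl.inj h2) inr_ne_inl

end OPLM

open Op OPLM in
theorem specOPL : SpecOPL := by
  intro V Γ S
  refine ⟨?_, ?_, ?_, ?_, ?_, ?_, ?_⟩
  · rintro (⟨d, hd⟩ | m) x hx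
    · obtain ⟨y, hy, rfl⟩ := og_inl_inr Γ S hx
      have h0 : Γ.org d = inr y := hy
      have h1 : Γ.org (Γ.σ d) = inr y := by rw [Γ.org_σ, h0]
      have h2 : Γ.org (Γ.σ (Γ.σ d)) = inr y := by rw [Γ.org_σ, h1]
      have h3 : Γ.org (Γ.σ (Γ.σ (Γ.σ d))) = inr y := by rw [Γ.org_σ, h2]
      rw [sg_cr Γ S h0, sg_cr Γ S h1, sg_cr Γ S h2, sg_cr Γ S h3]
      constructor
      · congr 1
        exact Subtype.ext (Γ.σ4 h0)
      · intro h
        exact Γ.σσ_ne h0 (congrArg Subtype.val (inl.inj h))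
    · have h13 := node_inr Γ S hx
      obtain ⟨h1, h2⟩ := nxt4 m h13
      have n1 : nd (nxt m) = nd m := nd_nxt m (by omega)
      have n2 : nd (nxt (nxt m)) = nd m := by rw [nd_nxt _ (by omega), n1]
      have n3 : nd (nxt (nxt (nxt m))) = nd m := by rw [nd_nxt _ (by omega), n2]
      rw [sg_loc Γ S (by omega), sg_loc Γ S (by omega), sg_loc Γ S (by omega),
        sg_loc Γ S (by omega), h1]
      exact ⟨rfl, fun h => h2 (inr.inj h)⟩
  · rintro (o | m) x hx
    · obtain ⟨y, hy, rfl⟩ := og_inl_inr Γ S hx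
      obtain ⟨v, hv⟩ := Γ.once _ _ hy
      exact ⟨inl v, og_of_inl Γ S (o := ⟨Γ.α o.1, old_α Γ S o.2⟩) hv⟩
    · have h13 := node_inr Γ S hx
      have h1 := once_tab m h13
      rw [av_inr, og_inr]
      rcases hn : node Γ S (nd (al m)) with v | y
      · exact ⟨v, rfl⟩
      · have := node_inr Γ S hn
        omega
  · intro d v hd
    change og Γ S (fr Γ S d) ≠ inl v
    rcases d with o | m
    · obtain ⟨w, hw, rfl⟩ := og_inl_inl Γ S hd
      obtain ⟨h', hf⟩ := fr_inl Γ S o w hw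
      obtain ⟨w', hw', hw2⟩ := Γ.exists_org_far hw
      rw [hf, og_of_inl Γ S (o := ⟨Γ.far o.1, h'⟩) hw2]
      intro h
      exact hw' (inl.inj (inl.inj h))
    · rw [og_inr] at hd
      rw [fr_inr, og_inr, ← hd]
      intro h
      exact far_ne m (node_inl Γ S hd) (node_inj Γ S (nd_lt _) (nd_lt _) h)
  · intro d e v hd he h
    change og Γ S (fr Γ S d) = og Γ S (fr Γ S e) at h
    rcases d with o | m <;> rcases e with o' | m'
    · obtain ⟨w, hw, rfl⟩ := og_inl_inl Γ S hd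
      obtain ⟨w', hw', h1⟩ := og_inl_inl Γ S he
      have h2 : w = w' := inl.inj h1
      subst h2
      obtain ⟨h', hf⟩ := fr_inl Γ S o w hw
      obtain ⟨h'', hf'⟩ := fr_inl Γ S o' w hw'
      obtain ⟨z, -, hz⟩ := Γ.exists_org_far hw
      obtain ⟨z', -, hz'⟩ := Γ.exists_org_far hw'
      rw [hf, hf', og_of_inl Γ S (o := ⟨Γ.far o.1, h'⟩) hz,
        og_of_inl Γ S (o := ⟨Γ.far o'.1, h''⟩) hz'] at h
      have h3 : z = z' := inl.inj (inl.inj h)
      congr 1
      exact Subtype.ext (Γ.far_inj hw hw' (by rw [hz, hz', h3]))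
    · exact (simple_om Γ S o m' v hd he h).elim
    · exact (simple_om Γ S o' m v he hd h.symm).elim
    · rw [og_inr] at hd he
      rw [fr_inr, fr_inr, og_inr, og_inr] at h
      congr 1
      apply far_inj_tab m m' (node_inl Γ S hd)
      · exact node_inj Γ S (nd_lt _) (nd_lt _) (by rw [hd, he])
      · exact node_inj Γ S (nd_lt _) (nd_lt _) h
  · rintro (⟨d, hd⟩ | m) x hx
    · obtain ⟨y, hy, rfl⟩ := og_inl_inr Γ S hx
      have h0 : Γ.org d = inr y := hy
      have h1 : Γ.org (Γ.σ d) = inr y := by rw [Γ.org_σ, h0]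
      obtain ⟨a, ha⟩ := Γ.once _ _ h0
      obtain ⟨b, hb⟩ := Γ.once _ _ h1
      have hc := Γ.cross _ _ h0
      rw [sg_cr Γ S h0, av_inl, av_inl, og_of_inl Γ S (v := a) ha, og_of_inl Γ S (v := b) hb]
      intro h
      rw [ha, hb] at hc
      exact hc (by rw [inl.inj (inl.inj h)])
    · have h13 := node_inr Γ S hx
      rw [sg_loc Γ S (by omega), av_inr, av_inr, og_inr, og_inr]
      intro h
      exact cross_tab m h13 (node_inj Γ S (nd_lt _) (nd_lt _) h)
  · intro o v hv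
    exact fr_inl Γ S o v hv
  · intro m _
    exact fr_inr Γ S m

end Pool.Agent.Lib.MP0c8bd9
end

section
/-!
# MP_0c8bd9_co : module REL
-/
set_option autoImplicit false

namespace Pool.Agent.Lib.MP0c8bd9

open Sum

namespace RELM

theorem kconn_iso {V W : Type} {G : SimpleGraph V} {G' : SimpleGraph W} (e : G ≃g G') (k : ℕ)
    (h : KConn G k) : KConn G' k := by
  refine ⟨by rw [← Nat.card_congr e.toEquiv]; exact h.1, fun S hS => ?_⟩
  have h1 : (e ⁻¹' S).ncard < k := by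
    have : (e ⁻¹' S).ncard = S.ncard :=
      Set.ncard_congr' (e.toEquiv.subtypeEquiv (fun a => Iff.rfl))
    omega
  have h2 := h.2 _ h1
  have e2 : G.induce (e ⁻¹' S)ᶜ ≃g G'.induce Sᶜ :=
    { toEquiv := e.toEquiv.subtypeEquiv (fun a => Iff.rfl)
      map_rel_iff' := by
        rintro ⟨a, ha⟩ ⟨b, hb⟩
        exact e.map_rel_iff }
  exact e2.connected_iff.1 h2

variable {V W : Type} (e : V ≃ W) (Γ : Drawing V)

/-- relabelling of the points -/
def E : V ⊕ Γ.X ≃ W ⊕ Γ.X := Equiv.sumCongr e (Equiv.refl _)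

theorem E_inr (y : V ⊕ Γ.X) (x : Γ.X) : E e Γ y = inr x ↔ y = inr x := by
  rcases y with v | x' <;> simp [E]

theorem E_inl (y : V ⊕ Γ.X) (v : V) : E e Γ y = inl (e v) ↔ y = inl v := by
  rcases y with v' | x' <;> simp [E]

theorem E_inl' (y : V ⊕ Γ.X) (w : W) : E e Γ y = inl w ↔ y = inl (e.symm w) := by
  rw [← E_inl e Γ y (e.symm w), Equiv.apply_symm_apply]

theorem E_isRight (y : V ⊕ Γ.X) : (E e Γ y).isRight = y.isRight := by
  rcases y with v' | x' <;> simp [E]

/-- the relabelled drawing -/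
def rel : Drawing W where
  D := Γ.D
  X := Γ.X
  finD := Γ.finD
  finX := Γ.finX
  σ := Γ.σ
  α := Γ.α
  org := fun d => E e Γ (Γ.org d)
  invol := Γ.invol
  ne := Γ.ne
  onto := (E e Γ).surjective.comp Γ.onto
  orbit := fun d d' => by rw [(E e Γ).apply_eq_iff_eq]; exact Γ.orbit d d'
  conn := Γ.conn
  euler := by
    rw [← Nat.card_congr (E e Γ)]
    exact Γ.euler
  deg4 := fun d x h => Γ.deg4 d x ((E_inr e Γ _ _).1 h)
  once := fun d x h => by
    obtain ⟨v, hv⟩ := Γ.once d x ((E_inr e Γ _ _).1 h)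
    exact ⟨e v, (E_inl e Γ _ _).2 hv⟩
  loopless := fun d w h => by
    rw [E_isRight]
    rw [E_inl'] at h
    rw [Ne, E_inl']
    exact Γ.loopless d _ h
  simple := fun d d' w h h' hh => by
    rw [E_isRight, E_isRight] at hh
    rw [E_inl'] at h h'
    exact Γ.simple d d' _ h h' ((E e Γ).injective hh)
  cross := fun d x h => by
    rw [Ne, (E e Γ).apply_eq_iff_eq]
    exact Γ.cross d x ((E_inr e Γ _ _).1 h)

theorem rel_far (d : Γ.D) : (rel e Γ).far d = Γ.far d := by
  change (if (E e Γ (Γ.org (Γ.α d))).isRight then _ else _) = _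
  rw [E_isRight]
  rfl

theorem rel_org (d : Γ.D) (v : V) : (rel e Γ).org d = inl (e v) ↔ Γ.org d = inl v :=
  E_inl e Γ _ _

theorem rel_org' (d : Γ.D) (w : W) : (rel e Γ).org d = inl w ↔ Γ.org d = inl (e.symm w) :=
  E_inl' e Γ _ _

theorem rel_adj (u v : V) : (rel e Γ).graph.Adj (e u) (e v) ↔ Γ.graph.Adj u v := by
  rw [Drawing.adj_iff, Drawing.adj_iff]
  constructor
  · rintro ⟨d, h1, h2⟩
    refine ⟨d, (rel_org e Γ _ _).1 h1, ?_⟩
    have h3 := (rel_org e Γ _ _).1 h2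
    have h4 : (rel e Γ).far d = Γ.far d := rel_far e Γ d
    rw [h4] at h3
    exact h3
  · rintro ⟨d, h1, h2⟩
    refine ⟨d, (rel_org e Γ _ _).2 h1, (rel_org e Γ _ _).2 ?_⟩
    rw [rel_far]
    exact h2

/-- the isomorphism -/
def iso : Γ.graph ≃g (rel e Γ).graph where
  toEquiv := e
  map_rel_iff' := fun {u v} => rel_adj e Γ u v

theorem rel_adj' (u v : W) : (rel e Γ).graph.Adj u v ↔ Γ.graph.Adj (e.symm u) (e.symm v) := by
  rw [← rel_adj e Γ, Equiv.apply_symm_apply, Equiv.apply_symm_apply]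

theorem maximal (h : Γ.Maximal) : (rel e Γ).Maximal := by
  constructor
  · rintro u v huv ⟨d, d', h1, h2, h3⟩
    rw [rel_adj']
    refine h.inside _ _ (fun hh => huv (e.symm.injective hh)) ⟨d, d', ?_, ?_, h3⟩
    · exact (rel_org' e Γ _ _).1 h1
    · exact (rel_org' e Γ _ _).1 h2
  · rintro u v huv ⟨d, d', g, h1, h2, ⟨a, b, ha1, ha2, hb1, hb2, hg1, hg2⟩, h3, h4⟩
    rw [rel_adj']
    refine h.across _ _ (fun hh => huv (e.symm.injective hh)) ⟨d, d', g, ?_, ?_,
      ⟨e.symm a, e.symm b, ?_, ?_, ?_, ?_, ?_, ?_⟩, h3, h4⟩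
    · exact (rel_org' e Γ _ _).1 h1
    · exact (rel_org' e Γ _ _).1 h2
    · exact fun hh => ha1 (e.symm.injective hh)
    · exact fun hh => ha2 (e.symm.injective hh)
    · exact fun hh => hb1 (e.symm.injective hh)
    · exact fun hh => hb2 (e.symm.injective hh)
    · exact (rel_org' e Γ _ _).1 hg1
    · exact (rel_org' e Γ _ _).1 hg2

end RELM

open RELM

theorem specREL : SpecREL := by
  intro V W e Γ
  refine ⟨rel e Γ, maximal e Γ, kconn_iso (iso e Γ) 3, fun h h' => h ?_, rfl, ?_⟩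
  · exact kconn_iso (iso e Γ).symm 4 h'
  · exact Set.ncard_congr' (iso e Γ).mapEdgeSet.symm

end Pool.Agent.Lib.MP0c8bd9
end

section
/-!
# MP_0c8bd9_co : number of darts
-/
set_option autoImplicit false

namespace Pool.Agent.Lib.MP0c8bd9

open Sum

namespace SZDM

variable {V : Type} (Γ : Drawing V)

/-- a dart at every crossing -/
noncomputable def rep (x : Γ.X) : Γ.D := (Γ.onto (inr x)).choose

theorem org_rep (x : Γ.X) : Γ.org (rep Γ x) = inr x := (Γ.onto (inr x)).choose_spec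

theorem isRight_iter (x : Γ.X) (i : ℕ) : Γ.org ((Γ.σ)^[i] (rep Γ x)) = inr x := by
  induction i with
  | zero => exact org_rep Γ x
  | succ n ih => rw [Function.iterate_succ_apply', Γ.org_σ, ih]

/-- the darts at the crossings -/
noncomputable def cmap (p : Γ.X × Fin 4) : {d : Γ.D // (Γ.org d).isRight} :=
  ⟨(Γ.σ)^[p.2.1] (rep Γ p.1), by rw [isRight_iter]; rfl⟩

theorem cmap_bij : Function.Bijective (cmap Γ) := by
  constructor
  · rintro ⟨x, i⟩ ⟨y, j⟩ h
    have h1 : (Γ.σ)^[i.1] (rep Γ x) = (Γ.σ)^[j.1] (rep Γ y) := congrArg Subtype.val h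
    have h2 := congrArg Γ.org h1
    rw [isRight_iter, isRight_iter] at h2
    have h3 : x = y := inr.inj h2
    subst h3
    have ho := org_rep Γ x
    have n1 := Γ.σ_ne ho
    have n2 := Γ.σσ_ne ho
    have n3 := Γ.σσσ_ne ho
    have : i = j := by
      fin_cases i <;> fin_cases j <;>
        simp only [Function.iterate_succ, Function.comp, Function.iterate_zero, id] at h1 <;>
        first
          | rfl
          | exact absurd h1 n1
          | exact absurd h1 n2
          | exact absurd h1 n3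
          | exact absurd h1.symm n1
          | exact absurd h1.symm n2
          | exact absurd h1.symm n3
          | exact absurd (Γ.σ.injective h1) n1
          | exact absurd (Γ.σ.injective h1) n2
          | exact absurd (Γ.σ.injective h1).symm n1
          | exact absurd (Γ.σ.injective h1).symm n2
          | exact absurd (Γ.σ.injective (Γ.σ.injective h1)) n1
          | exact absurd (Γ.σ.injective (Γ.σ.injective h1)).symm n1
    rw [this]
  · rintro ⟨d, hd⟩
    obtain ⟨x, hx⟩ := Sum.isRight_iff.1 hd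
    rcases Γ.eq_of_org (org_rep Γ x) hx with h | h | h | h
    · exact ⟨(x, 0), Subtype.ext h.symm⟩
    · exact ⟨(x, 1), Subtype.ext h.symm⟩
    · exact ⟨(x, 2), Subtype.ext h.symm⟩
    · exact ⟨(x, 3), Subtype.ext h.symm⟩

theorem exists_ends (d : {d : Γ.D // (Γ.org d).isLeft}) :
    ∃ p : V × V, Γ.org d.1 = inl p.1 ∧ Γ.org (Γ.far d.1) = inl p.2 := by
  obtain ⟨u, hu⟩ := Sum.isLeft_iff.1 d.2
  obtain ⟨w, -, hw⟩ := Γ.exists_org_far hu
  exact ⟨(u, w), hu, hw⟩

/-- the darts at the vertices are the darts of the graph -/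
noncomputable def vmap (d : {d : Γ.D // (Γ.org d).isLeft}) : Γ.graph.Dart :=
  ⟨(exists_ends Γ d).choose, Γ.adj_far (exists_ends Γ d).choose_spec.1
    (exists_ends Γ d).choose_spec.2⟩

theorem vmap_bij : Function.Bijective (vmap Γ) := by
  constructor
  · intro d e h
    have h1 : (exists_ends Γ d).choose = (exists_ends Γ e).choose :=
      congrArg SimpleGraph.Dart.toProd h
    obtain ⟨a1, a2⟩ := (exists_ends Γ d).choose_spec
    obtain ⟨b1, b2⟩ := (exists_ends Γ e).choose_spec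
    rw [← h1] at b1 b2
    exact Subtype.ext (Γ.far_inj a1 b1 (by rw [a2, b2]))
  · intro q
    obtain ⟨d, h1, h2⟩ := (Γ.adj_iff q.fst q.snd).1 q.adj
    have hd : (Γ.org d).isLeft := by rw [h1]; rfl
    refine ⟨⟨d, hd⟩, ?_⟩
    obtain ⟨a1, a2⟩ := (exists_ends Γ ⟨d, hd⟩).choose_spec
    apply SimpleGraph.Dart.ext
    show (exists_ends Γ ⟨d, hd⟩).choose = q.toProd
    apply Prod.ext
    · exact (inl.inj (h1.symm.trans a1)).symm
    · exact (inl.inj (h2.symm.trans a2)).symm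

end SZDM

open SZDM in
theorem specSZD : SpecSZD := by
  classical
  intro V _ Γ
  have := Γ.finD
  have := Γ.finX
  have : Fintype V := Fintype.ofFinite V
  have h1 : Nat.card {d : Γ.D // (Γ.org d).isRight} = 4 * Γ.cr := by
    rw [← Nat.card_congr (Equiv.ofBijective _ (cmap_bij Γ)), Nat.card_prod, Nat.card_fin,
      Drawing.cr, mul_comm]
  have h2 : Nat.card {d : Γ.D // (Γ.org d).isLeft} = 2 * Γ.size := by
    rw [Nat.card_congr (Equiv.ofBijective _ (vmap_bij Γ)), Nat.card_eq_fintype_card,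
      SimpleGraph.dart_card_eq_twice_card_edges, Drawing.size,
      Set.ncard_eq_toFinset_card', SimpleGraph.edgeFinset]
  have h3 : Nat.card Γ.D = Nat.card {d : Γ.D // (Γ.org d).isLeft} +
      Nat.card {d : Γ.D // ¬ (Γ.org d).isLeft} := by
    rw [← Nat.card_sum]
    exact Nat.card_congr (Equiv.sumCompl fun d => ((Γ.org d).isLeft = true)).symm
  have h4 : Nat.card {d : Γ.D // ¬ (Γ.org d).isLeft} = Nat.card {d : Γ.D // (Γ.org d).isRight} := by
    apply Nat.card_congr
    apply Equiv.subtypeEquivRight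
    intro d
    rcases Γ.org d with v | x <;> simp
  rw [h3, h4, h1, h2]

end Pool.Agent.Lib.MP0c8bd9
end

section
/-!
# MP_0c8bd9_co : module TAB, tables give drawings
-/
set_option autoImplicit false

namespace Pool.Agent.Lib.MP0c8bd9

open Sum

namespace TABM

variable {n c N F : ℕ} (T : Tab n c N F) (h : T.OkD)

include h

/-- rotation -/
def sP : Equiv.Perm (Fin N) := ⟨T.sg, T.si, h.si_sg, h.sg_si⟩

/-- involution -/
def aP : Equiv.Perm (Fin N) := ⟨T.al, T.al, h.al_al, h.al_al⟩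

omit h in
theorem sP_apply (h : T.OkD) (d : Fin N) : sP T h d = T.sg d := rfl

omit h in
theorem aP_apply (h : T.OkD) (d : Fin N) : aP T h d = T.al d := rfl

omit h in
theorem pP_apply (h : T.OkD) (d : Fin N) : (sP T h * aP T h) d = T.ph d := rfl

theorem nd_pow (k : ℕ) (d : Fin N) : T.nd (T.sg^[k] d) = T.nd d := by
  induction k with
  | zero => rfl
  | succ k ih => rw [Function.iterate_succ_apply', h.nd_sg, ih]

theorem fc_pow (k : ℕ) (d : Fin N) : T.fc (T.ph^[k] d) = T.fc d := by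
  induction k with
  | zero => rfl
  | succ k ih => rw [Function.iterate_succ_apply', h.fc_ph, ih]

omit h in
theorem sP_pow (h : T.OkD) (k : ℕ) (d : Fin N) : (sP T h ^ k) d = T.sg^[k] d := by
  induction k with
  | zero => rfl
  | succ k ih => rw [pow_succ', Equiv.Perm.mul_apply, ih, Function.iterate_succ_apply']; rfl

omit h in
theorem pP_pow (h : T.OkD) (k : ℕ) (d : Fin N) : ((sP T h * aP T h) ^ k) d = T.ph^[k] d := by
  induction k with
  | zero => rfl
  | succ k ih => rw [pow_succ', Equiv.Perm.mul_apply, ih, Function.iterate_succ_apply']; rfl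

theorem orbit (d e : Fin N) : T.nd d = T.nd e ↔ (sP T h).SameCycle d e := by
  constructor
  · intro hde
    have key : ∀ d, (sP T h).SameCycle (T.rp (T.nd d)) d := by
      intro d
      refine ⟨(T.ps d : ℤ), ?_⟩
      rw [zpow_natCast, sP_pow]
      exact h.ps_ok d
    have h1 := key d
    have h2 := key e
    rw [hde] at h1
    exact h1.symm.trans h2
  · intro hs
    obtain ⟨k, hk⟩ := hs.exists_nat_pow_eq
    rw [sP_pow] at hk
    rw [← hk, nd_pow T h]

theorem face (d e : Fin N) : T.fc d = T.fc e ↔ (sP T h * aP T h).SameCycle d e := by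
  constructor
  · intro hde
    have key : ∀ d, (sP T h * aP T h).SameCycle (T.fr (T.fc d)) d := by
      intro d
      refine ⟨(T.fp d : ℤ), ?_⟩
      rw [zpow_natCast, pP_pow]
      exact h.fp_ok d
    have h1 := key d
    have h2 := key e
    rw [hde] at h1
    exact h1.symm.trans h2
  · intro hs
    obtain ⟨k, hk⟩ := hs.exists_nat_pow_eq
    rw [pP_pow] at hk
    rw [← hk, fc_pow T h]

/-- the faces -/
def faceEquiv : Quotient (Equiv.Perm.SameCycle.setoid (sP T h * aP T h)) ≃ Fin F where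
  toFun := Quotient.lift T.fc fun d e hde => (face T h d e).2 hde
  invFun f := Quotient.mk _ (T.fr f)
  left_inv q := by
    induction q using Quotient.inductionOn with
    | h d =>
      apply Quotient.sound
      exact (face T h _ _).1 (h.fc_fr _)
  right_inv f := h.fc_fr f

theorem back (S : Set (Fin N)) (hS : ∀ d ∈ S, T.sg d ∈ S) {d : Fin N} (hd : T.sg d ∈ S) :
    d ∈ S := by
  have key : ∀ k : ℕ, ∀ e ∈ S, (sP T h ^ k) e ∈ S := by
    intro k
    induction k with
    | zero => intro e he; simpa using he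
    | succ k ih =>
      intro e he
      rw [pow_succ', Equiv.Perm.mul_apply]
      exact hS _ (ih e he)
  have h1 := key (orderOf (sP T h) - 1) _ hd
  have h2 : (sP T h ^ (orderOf (sP T h) - 1)) (T.sg d) = d := by
    rw [← sP_apply T h, ← Equiv.Perm.mul_apply, ← pow_succ,
      Nat.sub_add_cancel (orderOf_pos _), pow_orderOf_eq_one]
    rfl
  rwa [h2] at h1

theorem conn (S : Set (Fin N)) (hne : S.Nonempty) (hS : ∀ d ∈ S, T.sg d ∈ S ∧ T.al d ∈ S) :
    S = Set.univ := by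
  obtain ⟨d0, hd0, hr0⟩ : ∃ d ∈ S, T.rk d = 0 := by
    obtain ⟨d, hd⟩ := hne
    generalize hk : T.rk d = k
    induction k using Nat.strong_induction_on generalizing d with
    | _ k ih =>
      subst hk
      rcases h.rk_ok d with h0 | h1 | h1
      · exact ⟨d, hd, h0⟩
      · exact ih _ h1 _ (hS d hd).1 rfl
      · exact ih _ h1 _ (hS d hd).2 rfl
  rw [Set.eq_univ_iff_forall]
  intro e
  generalize hk : T.rk e = k
  induction k using Nat.strong_induction_on generalizing e with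
  | _ k ih =>
    subst hk
    rcases h.rk_ok e with h0 | h1 | h1
    · rw [h.rk_zero e d0 h0 hr0]; exact hd0
    · exact back T h S (fun d hd => (hS d hd).1) (ih _ h1 _ rfl)
    · have := (hS _ (ih _ h1 _ rfl)).2
      rwa [h.al_al] at this

/-- The drawing of a table. -/
def dr : Drawing (Fin n) where
  D := Fin N
  X := Fin c
  finD := inferInstance
  finX := inferInstance
  σ := sP T h
  α := aP T h
  org := T.nd
  invol := h.al_al
  ne := h.al_ne
  onto p := ⟨T.rp p, h.nd_rp p⟩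
  orbit := orbit T h
  conn := conn T h
  euler := by
    rw [Nat.card_congr (faceEquiv T h), Nat.card_sum, Nat.card_fin, Nat.card_fin, Nat.card_fin,
      Nat.card_fin]
    exact h.euler
  deg4 d x hx := h.deg4 d (by rw [hx]; rfl)
  once d x hx := by
    have h1 := h.once d (by rw [hx]; rfl)
    exact Sum.isLeft_iff.1 h1
  loopless d v hv := by
    have h1 := h.loopless d (by rw [hv]; rfl)
    rw [hv] at h1
    exact h1
  simple d e v hd he h1 := h.simple d e (by rw [hd]; rfl) (by rw [hd, he]) h1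
  cross d x hx := h.cross d (by rw [hx]; rfl)

theorem far_eq (d : Fin N) : (dr T h).far d = T.far d := rfl

theorem ph_eq (d : Fin N) : (dr T h).φ d = T.ph d := rfl

theorem fc_iff (d e : Fin N) : T.fc d = T.fc e ↔ (dr T h).φ.SameCycle d e := face T h d e

theorem adj_of {u v : Fin n} (hT : T.adj (inl u) (inl v)) : (dr T h).graph.Adj u v := by
  obtain ⟨z, h1, h2⟩ := hT
  exact ((dr T h).adj_iff u v).2 ⟨z, h1, h2⟩

theorem maximal (hM : T.OkM) : (dr T h).Maximal where
  inside u v huv := by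
    rintro ⟨d, e, hd, he, hde⟩
    apply adj_of T h
    have hd' : T.nd d = inl u := hd
    have he' : T.nd e = inl v := he
    have := hM.inside d e ((fc_iff T h d e).2 hde) (by rw [hd']; rfl) (by rw [he']; rfl)
      (by rw [hd', he']; exact fun h1 => huv (inl.inj h1))
    rwa [hd', he'] at this
  across u v huv := by
    rintro ⟨d, e, g, hd, he, ⟨a, b, -, -, -, -, ha, hb⟩, hdg, heg⟩
    apply adj_of T h
    have hd' : T.nd d = inl u := hd
    have he' : T.nd e = inl v := he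
    have ha' : T.nd g = inl a := ha
    have hb' : T.nd (T.al g) = inl b := hb
    have := hM.across g (by rw [ha']; rfl) (by rw [hb']; rfl) d ((fc_iff T h d g).2 hdg)
      (by rw [hd']; rfl) e ((fc_iff T h e (T.al g)).2 heg) (by rw [he']; rfl)
      (by rw [hd', he']; exact fun h1 => huv (inl.inj h1))
    rwa [hd', he'] at this

theorem k3 (hELI : SpecELI) (hK : T.OkK) : KConn (dr T h).graph 3 := by
  apply hELI n _ hK.four
  · intro i j hi hj hij
    exact adj_of T h (hK.k4 i j hi hj hij)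
  · intro j hj
    obtain ⟨h1, h2, h3, h4⟩ := hK.el_ok j hj
    refine ⟨T.el j, ?_, fun i => ⟨adj_of T h (h4 i).1, (h4 i).2⟩⟩
    intro a b hab
    fin_cases a <;> fin_cases b <;> simp_all

theorem star {d : Fin 3 → Fin N} (hS : T.OkS d) : Nonempty (Star (dr T h)) := by
  obtain ⟨t, ht⟩ := Sum.isLeft_iff.1 (hS.uncr 0).1
  have hP : ∀ i, ∃ v, T.nd (T.al (d i)) = inl v := fun i => Sum.isLeft_iff.1 (hS.uncr i).2
  choose P hP using hP
  have ho : ∀ i, T.nd (d i) = inl t := by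
    have h1 : T.nd (d 1) = inl t := by
      have := hS.rot 0
      rw [zero_add] at this
      rw [← this, h.nd_sg, ht]
    have h2 : T.nd (d 2) = inl t := by
      have := hS.rot 1
      rw [show (1 : Fin 3) + 1 = 2 from rfl] at this
      rw [← this, h.nd_sg, h1]
    intro i
    fin_cases i
    · exact ht
    · exact h1
    · exact h2
  obtain ⟨n1, n2, n3⟩ := hS.ne
  refine ⟨⟨t, P, d, ho, hP, hS.rot, ?_, ?_⟩⟩
  · intro a b hab
    fin_cases a <;> fin_cases b <;> simp_all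
  · intro i
    rcases hS.side i with ⟨h1, h2⟩ | ⟨h1, h2⟩
    · left
      refine ⟨h1, ?_⟩
      intro z v hz hzz
      have hz' : T.nd z = inl v := hz
      have := h2 z ((fc_iff T h _ _).2 hzz) (by rw [hz']; rfl)
      rw [hz', hP, hP] at this
      exact this.imp (fun h => inl.inj h) (fun h => inl.inj h)
    · right
      exact ⟨Sum.isRight_iff.1 h1, h2⟩

theorem tip {d : Fin N} (hT : T.OkT d) : Nonempty (Tip (dr T h)) := by
  obtain ⟨u, hu⟩ := Sum.isLeft_iff.1 hT.uncr.1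
  obtain ⟨z, hz⟩ := Sum.isLeft_iff.1 hT.uncr.2
  obtain ⟨x, hx⟩ := Sum.isRight_iff.1 hT.x
  obtain ⟨y, hy⟩ := Sum.isRight_iff.1 hT.y
  obtain ⟨v, hv⟩ := Sum.isLeft_iff.1 hT.v
  exact ⟨⟨d, u, z, v, hu, hz, x, hx, hT.cyc3, y, hy, hv, hT.cyc4⟩⟩

theorem not_k4 (hD3 : SpecD3) (hd : ∃ d, (T.nd d).isLeft ∧ T.sg (T.sg (T.sg d)) = d)
    (hn : 5 ≤ n) : ¬ KConn (dr T h).graph 4 := by
  obtain ⟨d, hd1, hd3⟩ := hd
  obtain ⟨v, hv⟩ := Sum.isLeft_iff.1 hd1
  apply hD3 (Fin n) _ v _ (by rw [Nat.card_fin]; exact hn)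
  have hcyc : ∀ k : ℕ, T.sg^[k] d = d ∨ T.sg^[k] d = T.sg d ∨ T.sg^[k] d = T.sg (T.sg d) := by
    intro k
    induction k with
    | zero => left; rfl
    | succ k ih =>
      rw [Function.iterate_succ_apply']
      rcases ih with h1 | h1 | h1 <;> rw [h1]
      · right; left; trivial
      · right; right; trivial
      · left; exact hd3
  have hsub : inl '' {w : Fin n | (dr T h).graph.Adj v w} ⊆
      ({T.nd (T.far d), T.nd (T.far (T.sg d)), T.nd (T.far (T.sg (T.sg d)))} :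
        Set (Fin n ⊕ Fin c)) := by
    rintro p ⟨w, hw, rfl⟩
    obtain ⟨e, he1, he2⟩ := ((dr T h).adj_iff v w).1 hw
    have he1' : T.nd e = inl v := he1
    have he2' : T.nd (T.far e) = inl w := he2
    have hs : (sP T h).SameCycle d e := (orbit T h d e).1 (by rw [hv, he1'])
    obtain ⟨k, hk⟩ := hs.exists_nat_pow_eq
    rw [sP_pow] at hk
    rcases hcyc k with h1 | h1 | h1 <;> rw [hk] at h1 <;> subst h1 <;> rw [← he2'] <;> simp
  have h1 := Set.ncard_le_ncard hsub (Set.toFinite _)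
  rw [Set.ncard_image_of_injective _ inl_injective] at h1
  refine h1.trans ?_
  refine (Set.ncard_insert_le _ _).trans ?_
  have := Set.ncard_insert_le (T.nd (T.far (T.sg d))) {T.nd (T.far (T.sg (T.sg d)))}
  rw [Set.ncard_singleton] at this
  omega

end TABM

theorem specTAB (hELI : SpecELI) (hD3 : SpecD3) (hSZD : SpecSZD) : SpecTAB := by
  intro n c N F T h hM hK
  refine ⟨TABM.dr T h, TABM.maximal T h hM, TABM.k3 T h hELI hK, ?_, ?_, ?_, ?_, ?_⟩
  · exact Nat.card_fin c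
  · have h1 := hSZD (Fin n) (TABM.dr T h)
    have h2 : (TABM.dr T h).cr = c := Nat.card_fin c
    have h3 : Nat.card (TABM.dr T h).D = N := Nat.card_fin N
    rw [h2, h3] at h1
    exact h1.symm
  · intro d hS
    exact TABM.star T h hS
  · intro d hT
    exact TABM.tip T h hT
  · intro hd hn
    exact TABM.not_k4 T h hD3 hd hn

end Pool.Agent.Lib.MP0c8bd9
end
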