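import Pool.Agent.Lib.MP_0c8bd9_co.Spec

section
/-!
# MP_0c8bd9_co : module CLF
-/
set_option autoImplicit false

namespace Pool.Agent.Lib.MP0c8bd9

open Sum

namespace CLFM

variable {V : Type}

theorem three_cycle {D : Type} [Finite D] (σ : Equiv.Perm D) {d e : D} (h3 : σ (σ (σ d)) = d)
    (h : σ.SameCycle d e) : e = d ∨ e = σ d ∨ e = σ (σ d) := by
  obtain ⟨n, hn⟩ := h.exists_nat_pow_eq
  have key : ∀ n : ℕ, (σ ^ n) d = d ∨ (σ ^ n) d = σ d ∨ (σ ^ n) d = σ (σ d) := by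
    intro n
    induction n with
    | zero => left; simp
    | succ n ih =>
      rw [pow_succ', Equiv.Perm.mul_apply]
      rcases ih with h | h | h <;> rw [h]
      · right; left; trivial
      · right; right; trivial
      · left; exact h3
  rw [← hn]
  exact key n

theorem third (hD : SpecDIST) [Finite V] (Γ : Drawing V) (hk : KConn Γ.graph 3) (β : Γ.D)
    {b c : V} (hb : Γ.org β = inl b) (hc : Γ.org (Γ.α β) = inl c) (h3 : Γ.T3 (Γ.α β)) :
    ∃ q a', Γ.org q = inl a' ∧ Γ.φ.SameCycle q (Γ.α β) ∧ a' ≠ b ∧ a' ≠ c := by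
  by_contra hcon
  push Not at hcon
  have := Γ.finD
  have hsub : {d : Γ.D | Γ.fc d = Γ.fc (Γ.α β) ∧ (Γ.org d).isLeft} ⊆ {Γ.σ β, Γ.α β} := by
    intro d hd
    obtain ⟨h1, h2⟩ := hd
    rw [Γ.fc_eq] at h1
    obtain ⟨w, hw⟩ := Sum.isLeft_iff.1 h2
    by_cases hwb : w = b
    · left
      apply hD V Γ hk
      · have := Γ.sameFace_σ β
        exact h1.trans this
      · rw [Γ.org_σ, hw, hb, hwb]
    · right
      have := hcon d w hw h1 hwb
      apply hD V Γ hk _ _ h1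
      rw [hw, hc, this]
  have hcard : Set.ncard {d : Γ.D | Γ.fc d = Γ.fc (Γ.α β) ∧ (Γ.org d).isLeft} = 3 := h3
  have hle := Set.ncard_le_ncard hsub (Set.toFinite _)
  have h2 : Set.ncard ({Γ.σ β, Γ.α β} : Set Γ.D) ≤ 2 := by
    refine (Set.ncard_insert_le _ _).trans ?_
    rw [Set.ncard_singleton]
  omega

/-- The local configuration. -/
structure Cfg (Γ : Drawing V) (β q : Fin 3 → Γ.D) (v t : Fin 3 → V) : Prop where
  nxt : ∀ i, Γ.φ (β i) = β (i + 1)
  ov : ∀ i, Γ.org (β i) = inl (v i)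
  oq : ∀ i, Γ.org (q i) = inl (t i)
  fq : ∀ i, Γ.φ.SameCycle (q i) (Γ.α (β i))
  t0 : ∀ i, t i ≠ v i
  t1 : ∀ i, t i ≠ v (i + 1)
  t3 : ∀ i, Γ.T3 (Γ.α (β i))

theorem i21 (i : Fin 3) : i + 2 + 1 = i := by fin_cases i <;> rfl
theorem i12 (i : Fin 3) : i + 1 + 2 = i := by fin_cases i <;> rfl
theorem i11 (i : Fin 3) : i + 1 + 1 = i + 2 := by fin_cases i <;> rfl
theorem i22 (i : Fin 3) : i + 2 + 2 = i + 1 := by fin_cases i <;> rfl
theorem fin3 (i j : Fin 3) : j = i ∨ j = i + 1 ∨ j = i + 2 := by revert i j; decide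

namespace Cfg

variable {Γ : Drawing V} {β q : Fin 3 → Γ.D} {v t : Fin 3 → V}

theorem ow (C : Cfg Γ β q v t) (i : Fin 3) : Γ.org (Γ.α (β i)) = inl (v (i + 1)) := by
  rw [← Γ.org_φ, C.nxt, C.ov]

theorem vne (C : Cfg Γ β q v t) (i : Fin 3) : v (i + 1) ≠ v i := by
  obtain ⟨w, hw, hw2⟩ := Γ.exists_org_far (C.ov i)
  rw [Γ.far_unc (C.ow i), C.ow i] at hw2
  rw [inl.inj hw2]
  exact hw

theorem vne2 (C : Cfg Γ β q v t) (i : Fin 3) : v (i + 2) ≠ v i := by
  have := C.vne (i + 2)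
  rw [i21] at this
  exact this.symm

theorem vne21 (C : Cfg Γ β q v t) (i : Fin 3) : v (i + 2) ≠ v (i + 1) := by
  have := C.vne (i + 1)
  rwa [i11] at this

theorem sig (C : Cfg Γ β q v t) (i : Fin 3) : Γ.σ (Γ.α (β (i + 2))) = β i := by
  have := C.nxt (i + 2)
  rw [i21] at this
  exact this

theorem same2 (C : Cfg Γ β q v t) (i : Fin 3) : Γ.φ.SameCycle (β (i + 2)) (β i) := by
  have := Γ.sameFace_φ (β (i + 2))
  rw [C.nxt, i21] at this
  exact this

theorem same1 (C : Cfg Γ β q v t) (i : Fin 3) : Γ.φ.SameCycle (β (i + 1)) (β i) := by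
  have := Γ.sameFace_φ (β i)
  rw [C.nxt] at this
  exact this.symm

theorem t2 (hT : SpecTHI) [Finite V] (hk : KConn Γ.graph 3) (C : Cfg Γ β q v t) (i : Fin 3) :
    v (i + 2) ≠ t i :=
  hT V Γ hk _ _ (v i) (v (i + 1)) (β i) (β (i + 2)) (q i) (C.ov i) (C.ow i) (C.ov _) (C.same2 i)
    (C.oq i) (C.fq i) (C.vne2 i) (C.vne21 i) (C.t0 i) (C.t1 i)

theorem adj (hT : SpecTHI) [Finite V] (hk : KConn Γ.graph 3) (hM : Γ.Maximal)
    (C : Cfg Γ β q v t) (i : Fin 3) :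
    ∃ ε, Γ.org ε = inl (v (i + 2)) ∧ Γ.org (Γ.far ε) = inl (t i) := by
  rw [← Γ.adj_iff]
  refine hM.across _ _ (C.t2 hT hk i) ⟨β (i + 2), q i, β i, C.ov _, C.oq i,
    ⟨v i, v (i + 1), (C.vne2 i).symm, (C.t0 i).symm, (C.vne21 i).symm, (C.t1 i).symm,
      C.ov i, C.ow i⟩, C.same2 i, C.fq i⟩

theorem d1 (hD : SpecDIST) (hN : SpecMIN) [Finite V] (hk : KConn Γ.graph 3)
    (C : Cfg Γ β q v t) (i : Fin 3) : ¬ Γ.φ.SameCycle (Γ.α (β i)) (β i) := by
  intro h
  have h1 : Γ.φ.SameCycle (Γ.σ (β i)) (β i) := (Γ.sameFace_σ (β i)).symm.trans h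
  exact (hN V Γ hk (β i) (v i) (C.ov i)).1 (hD V Γ hk _ _ h1 (Γ.org_σ _))

theorem d2 (hD : SpecDIST) (hN : SpecMIN) [Finite V] (hk : KConn Γ.graph 3)
    (C : Cfg Γ β q v t) (i : Fin 3) : ¬ Γ.φ.SameCycle (Γ.α (β (i + 2))) (Γ.α (β i)) := by
  intro h
  have h1 : Γ.φ.SameCycle (Γ.α (β (i + 2))) (Γ.σ (β i)) := h.trans (Γ.sameFace_σ (β i))
  have ho : Γ.org (Γ.α (β (i + 2))) = inl (v i) := by rw [C.ow, i21]
  have h2 := hD V Γ hk _ _ h1 (by rw [Γ.org_σ, ho, C.ov])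
  have h3 := (hN V Γ hk (Γ.α (β (i + 2))) (v i) ho).2
  rw [C.sig, ← h2] at h3
  exact h3 rfl

/-- The case of three different third vertices. -/
theorem case1 (hK : SpecKIT) (hT : SpecTHI) (hD : SpecDIST) (hN : SpecMIN) [Finite V]
    (hk : KConn Γ.graph 3) (hM : Γ.Maximal) (C : Cfg Γ β q v t)
    (h : ∀ i, t (i + 2) ≠ t i) : False := by
  obtain ⟨ε0, a0, b0⟩ := C.adj hT hk hM 0
  obtain ⟨ε1, a1, b1⟩ := C.adj hT hk hM 1
  obtain ⟨ε2, a2, b2⟩ := C.adj hT hk hM 2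
  have e12 : (1 : Fin 3) + 2 = 0 := rfl
  have e22 : (2 : Fin 3) + 2 = 1 := rfl
  have e02 : (0 : Fin 3) + 2 = 2 := rfl
  have e11 : (1 : Fin 3) + 1 = 2 := rfl
  have e01 : (0 : Fin 3) + 1 = 1 := rfl
  have e21 : (2 : Fin 3) + 1 = 0 := rfl
  rw [e02] at a0
  rw [e12] at a1
  rw [e22] at a2
  have v01 := C.vne 0
  have v12 := C.vne 1
  have v20 := C.vne 2
  have t00 := C.t0 0
  have t11 := C.t0 1
  have t22 := C.t0 2
  have t01 := C.t1 0
  have t12 := C.t1 1
  have t20 := C.t1 2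
  have t02 := C.t2 hT hk 0
  have t10 := C.t2 hT hk 1
  have t21 := C.t2 hT hk 2
  have s0 := h 0
  have s1 := h 1
  have s2 := h 2
  have w0 := C.ow 0
  have w1 := C.ow 1
  have w2 := C.ow 2
  rw [e01] at v01 t01 w0
  rw [e11] at v12 t12 w1
  rw [e21] at v20 t20 w2
  rw [e02] at t02 s0
  rw [e12] at t10 s1
  rw [e22] at t21 s2
  obtain ⟨s, hs, hE, hF⟩ := hK V Γ hk (v 2) (t 0) (v 0) (v 1) (β 0) (β 2) (q 0) ε0 (C.ov 0) w0
    (C.ov 2) (C.same2 0) (C.oq 0) (C.fq 0) v20.symm v12 t00 t01 t02 a0 b0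
  have d20 := C.d2 hD hN hk 0
  rw [e02] at d20
  have d10 := C.d2 hD hN hk 1
  rw [e12] at d10
  have hs1 : s (v 0) = s (t 2) := by
    refine hF (Γ.α (β 2)) (q 2) (v 0) (t 2) w2 (C.oq 2) v20 t00.symm
      t22 s0 (C.fq 2).symm ?_ d20
    intro hc
    exact C.d1 hD hN hk 2 (hc.trans (C.same2 0).symm)
  have hs2 : s (v 1) = s (t 1) := by
    refine hF (Γ.σ (β 1)) (q 1) (v 1) (t 1) (by rw [Γ.org_σ, C.ov]) (C.oq 1) v12.symm t01.symm
      t12 s1.symm ((Γ.sameFace_σ (β 1)).symm.trans (C.fq 1).symm) ?_ ?_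
    · intro hc
      exact C.d1 hD hN hk 1 ((Γ.sameFace_σ (β 1)).trans (hc.trans (C.same1 0).symm))
    · intro hc
      exact d10 (((Γ.sameFace_σ (β 1)).trans hc).symm)
  have c2 : Γ.Cr ε0 ε2 := by
    by_contra hc
    have := hE ε2 (v 1) (t 2) a2 b2 v12.symm t01.symm t22 s0 ?_ ?_ hc
    · exact hs (hs1.trans this.symm)
    · intro he
      rw [he, C.ov] at a2
      exact v01 (inl.inj a2).symm
    · intro he
      rw [he, Γ.far_unc (v := v 0) (by rw [Γ.invol, C.ov]), Γ.invol, C.ov] at b2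
      exact t20 (inl.inj b2).symm
  have c1 : Γ.Cr ε0 ε1 := by
    by_contra hc
    have := hE ε1 (v 0) (t 1) a1 b1 v20 t00.symm t12 s1.symm ?_ ?_ hc
    · exact hs (this.trans hs2.symm)
    · intro he
      rw [he, Γ.far_unc w0, w0] at b1
      exact t11 (inl.inj b1).symm
    · intro he
      rw [he, w0] at a1
      exact v01 (inl.inj a1)
  obtain ⟨x, hx, hc1⟩ := c1
  obtain ⟨-, -, hc2⟩ := c2
  have hne : Γ.α ε1 ≠ Γ.α ε2 := by
    intro he
    rw [Γ.α.injective he, a2] at a1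
    exact v01 (inl.inj a1)
  have hfar : Γ.far ε1 = ε2 := by
    rcases hc1 with h1 | h1 <;> rcases hc2 with h2 | h2
    · exact absurd (h1.trans h2.symm) hne
    · rw [Γ.far_cr (x := x) (by rw [h1, Γ.org_σ, hx]), h1, ← h2, Γ.invol]
    · rw [Γ.far_cr (x := x) (by rw [h1, Γ.org_σ3, hx]), h1, Γ.σ4 hx, ← h2, Γ.invol]
    · exact absurd (h1.trans h2.symm) hne
  rw [hfar, a2] at b1
  exact t11 (inl.inj b1).symm

/-- If two neighbours of the face have the same third vertex, the common vertex has degree three. -/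
theorem deg3 (hL : SpecL1) (hT : SpecTHI) (hD : SpecDIST) (hN : SpecMIN) [Finite V]
    (hk : KConn Γ.graph 3) (C : Cfg Γ β q v t) (i : Fin 3) (h : t (i + 2) = t i) :
    Γ.σ (Γ.σ (β i)) = Γ.α (β (i + 2)) ∧ Γ.org (Γ.α (Γ.σ (β i))) = inl (t i) := by
  have ho : Γ.org (Γ.α (β (i + 2))) = inl (v i) := by rw [C.ow, i21]
  obtain ⟨p, hp, hp2, hcase⟩ := hL V Γ hk (v i) (t i) (Γ.α (β (i + 2))) (q (i + 2)) (Γ.σ (β i))
    (q i) (C.t0 i).symm ho (by rw [C.oq, h]) (by rw [Γ.org_σ, C.ov]) (C.oq i)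
    (C.fq (i + 2)).symm ((Γ.sameFace_σ (β i)).symm.trans (C.fq i).symm)
    (fun hc => C.d2 hD hN hk i (hc.trans (Γ.sameFace_σ (β i)).symm))
  rcases hcase with ⟨h1, -⟩ | ⟨h1, h2, -⟩
  · exfalso
    rw [← h1, Γ.invol, C.ov] at hp2
    exact C.t2 hT hk i (inl.inj hp2)
  · rw [← h2] at h1 hp2
    exact ⟨h1.symm, hp2⟩

theorem darts (C : Cfg Γ β q v t) (i : Fin 3)
    (h : Γ.σ (Γ.σ (β i)) = Γ.α (β (i + 2)) ∧ Γ.org (Γ.α (Γ.σ (β i))) = inl (t i))
    {e : Γ.D} (he : Γ.org e = inl (v i)) :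
    Γ.org (Γ.far e) = inl (v (i + 1)) ∨ Γ.org (Γ.far e) = inl (v (i + 2)) ∨
      Γ.org (Γ.far e) = inl (t i) := by
  have := Γ.finD
  have hs : Γ.σ.SameCycle (β i) e := (Γ.orbit _ _).1 (by rw [C.ov, he])
  have h3 : Γ.σ (Γ.σ (Γ.σ (β i))) = β i := by rw [h.1, C.sig]
  rcases three_cycle Γ.σ h3 hs with h1 | h1 | h1
  · left
    rw [h1, Γ.far_unc (C.ow i), C.ow]
  · right; right
    rw [h1, Γ.far_unc h.2, h.2]
  · right; left
    rw [h1, h.1, Γ.far_unc (v := v (i + 2)) (by rw [Γ.invol, C.ov]), Γ.invol, C.ov]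

theorem case2 (hC : SpecCUT) (hL : SpecL1) (hT : SpecTHI) (hD : SpecDIST) (hN : SpecMIN)
    [Finite V] (hk : KConn Γ.graph 3) (hM : Γ.Maximal) (h5 : 5 ≤ Nat.card V)
    (C : Cfg Γ β q v t) (i : Fin 3) (h : t (i + 2) = t i) : False := by
  have step : ∀ i, t (i + 2) = t i → t (i + 1) = t i := by
    intro i h
    obtain ⟨ε, h1, h2⟩ := C.adj hT hk hM (i + 1)
    rw [i12] at h1
    rcases C.darts i (C.deg3 hL hT hD hN hk i h) h1 with h3 | h3 | h3 <;> rw [h3] at h2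
    · exact absurd (inl.inj h2).symm (C.t0 (i + 1))
    · exact absurd (inl.inj h2).symm (by have := C.t1 (i + 1); rwa [i11] at this)
    · exact (inl.inj h2).symm
  have h1 := step i h
  have hall : ∀ j, t j = t i := by
    intro j
    rcases fin3 i j with rfl | rfl | rfl
    · rfl
    · exact h1
    · exact h
  have hdeg : ∀ j, Γ.σ (Γ.σ (β j)) = Γ.α (β (j + 2)) ∧ Γ.org (Γ.α (Γ.σ (β j))) = inl (t j) :=
    fun j => C.deg3 hL hT hD hN hk j (by rw [hall, hall j])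
  have hnb : ∀ j x, Γ.graph.Adj (v j) x → x ≠ t i → x ∈ Set.range v := by
    intro j x hx hxt
    obtain ⟨e, he1, he2⟩ := (Γ.adj_iff _ _).1 hx
    rcases C.darts j (hdeg j) he1 with h3 | h3 | h3 <;> rw [h3] at he2
    · exact ⟨_, inl.inj he2⟩
    · exact ⟨_, inl.inj he2⟩
    · rw [hall] at he2
      exact absurd (inl.inj he2).symm hxt
  classical
  have hcut := hC V Γ.graph hk (t i) (t i) (fun x => if x ∈ Set.range v then 1 else 0) (by
    intro p q hpq hp _ hq _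
    have : p ∈ Set.range v ↔ q ∈ Set.range v := by
      constructor
      · rintro ⟨j, rfl⟩
        exact hnb j q hpq hq
      · rintro ⟨j, rfl⟩
        exact hnb j p hpq.symm hp
    simp only [this])
  have hex : ∃ x, x ∉ Set.range v ∧ x ≠ t i := by
    by_contra hcon
    push Not at hcon
    have hsub : (Set.univ : Set V) ⊆ insert (t i) (Set.range v) := by
      intro x _
      by_cases hx : x ∈ Set.range v
      · right; exact hx
      · left; exact hcon x hx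
    have h1 := Set.ncard_le_ncard hsub (Set.toFinite _)
    rw [Set.ncard_univ] at h1
    have h2 := Set.ncard_insert_le (t i) (Set.range v)
    have h3 : (Set.range v).ncard ≤ 3 := by
      rw [← Set.image_univ]
      refine (Set.ncard_image_le (Set.toFinite _)).trans ?_
      rw [Set.ncard_univ, Nat.card_eq_fintype_card, Fintype.card_fin]
    omega
  obtain ⟨x, hx, hxt⟩ := hex
  have := hcut x (v i) hxt hxt (C.t0 i).symm (C.t0 i).symm
  rw [if_neg hx, if_pos ⟨i, rfl⟩] at this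
  exact zero_ne_one this

end Cfg

end CLFM

open CLFM in
theorem specCLF (hC : SpecCUT) (hN : SpecMIN) (hD : SpecDIST) (hL : SpecL1) (hT : SpecTHI)
    (hK : SpecKIT) : SpecCLF := by
  intro V Γ G β h3 u0 u1 u2 f0 f1 f2
  have := G.fin
  have hk := G.k3
  obtain ⟨⟨b, hb⟩, ⟨c, hc⟩⟩ := u0
  obtain ⟨⟨c', hc'⟩, ⟨a, ha⟩⟩ := u1
  obtain ⟨⟨a', ha'⟩, ⟨b', hb'⟩⟩ := u2
  obtain ⟨q0, t0, hq0, hf0, n0, m0⟩ := third hD Γ hk β hb hc f0
  obtain ⟨q1, t1, hq1, hf1, n1, m1⟩ := third hD Γ hk (Γ.φ β) hc' ha f1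
  obtain ⟨q2, t2, hq2, hf2, n2, m2⟩ := third hD Γ hk (Γ.φ (Γ.φ β)) ha' hb' f2
  have e1 : c' = c := by
    rw [Γ.org_φ, hc] at hc'
    exact (inl.inj hc').symm
  have e2 : a' = a := by
    rw [Γ.org_φ, ha] at ha'
    exact (inl.inj ha').symm
  have e3 : b' = b := by
    rw [← Γ.org_φ, h3, hb] at hb'
    exact (inl.inj hb').symm
  subst e1 e2 e3
  have C : Cfg Γ ![β, Γ.φ β, Γ.φ (Γ.φ β)] ![q0, q1, q2] ![b', c', a'] ![t0, t1, t2] := by
    constructor
    · intro i; fin_cases i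
      · rfl
      · rfl
      · exact h3
    · intro i; fin_cases i
      · exact hb
      · exact hc'
      · exact ha'
    · intro i; fin_cases i
      · exact hq0
      · exact hq1
      · exact hq2
    · intro i; fin_cases i
      · exact hf0
      · exact hf1
      · exact hf2
    · intro i; fin_cases i
      · exact n0
      · exact n1
      · exact n2
    · intro i; fin_cases i
      · exact m0
      · exact m1
      · exact m2
    · intro i; fin_cases i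
      · exact f0
      · exact f1
      · exact f2
  by_cases h : ∀ i, (![t0, t1, t2] : Fin 3 → V) (i + 2) ≠ ![t0, t1, t2] i
  · exact C.case1 hK hT hD hN hk G.max h
  · push Not at h
    obtain ⟨i, hi⟩ := h
    exact C.case2 hC hL hT hD hN hk G.max G.five i hi

end Pool.Agent.Lib.MP0c8bd9
end

section
/-!
# MP_0c8bd9_co : CUT
-/
set_option autoImplicit false

namespace Pool.Agent.Lib.MP0c8bd9

namespace CUTM

theorem walk_const {V : Type} {A : Type} (H : SimpleGraph V) (f : V → A)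
    (h : ∀ p q, H.Adj p q → f p = f q) {p q : V} (w : H.Walk p q) : f p = f q := by
  induction w with
  | nil => rfl
  | cons hadj _ ih => exact (h _ _ hadj).trans ih

theorem pair_ncard {V : Type} (u v : V) : ({u, v} : Set V).ncard < 3 := by
  have := Set.ncard_insert_le u ({v} : Set V)
  rw [Set.ncard_singleton] at this
  omega

end CUTM

theorem specCUT : SpecCUT := by
  intro V _ G hG u v f hf p q hpu hpv hqu hqv
  have hc := hG.2 {u, v} (CUTM.pair_ncard u v)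
  have hp : p ∈ ({u, v} : Set V)ᶜ := by simp [hpu, hpv]
  have hq : q ∈ ({u, v} : Set V)ᶜ := by simp [hqu, hqv]
  obtain ⟨w⟩ := hc.preconnected ⟨p, hp⟩ ⟨q, hq⟩
  refine CUTM.walk_const (G.induce ({u, v} : Set V)ᶜ) (fun x => f x.1) ?_ w
  rintro ⟨a, ha⟩ ⟨b, hb⟩ hab
  simp only [Set.mem_compl_iff, Set.mem_insert_iff, Set.mem_singleton_iff, not_or] at ha hb
  exact hf a b hab ha.1 ha.2 hb.1 hb.2

end Pool.Agent.Lib.MP0c8bd9
end

section
/-!
# MP_0c8bd9_co : two different darts of a face have different origins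
-/
set_option autoImplicit false

namespace Pool.Agent.Lib.MP0c8bd9

open Sum

namespace DISTM

variable {V : Type} (Γ : Drawing V)

theorem ind_self {D : Type} (a : D) : ind a a = 1 := by simp [ind]

theorem ind_ne {D : Type} {a d : D} (h : d ≠ a) : ind a d = 0 := by simp [ind, h]

/-- a function which is constant along `σ` at a point is constant at this point -/
theorem const {s : Γ.D → ZMod 2} {z z' : Γ.D} (h : Γ.org z = Γ.org z')
    (hs : ∀ y, Γ.org y = Γ.org z → s (Γ.σ y) = s y) : s z' = s z := by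
  have := Γ.finD
  obtain ⟨n, hn⟩ := ((Γ.orbit z z').1 h).exists_nat_pow_eq
  subst hn
  clear h
  induction n with
  | zero => simp
  | succ n ih =>
    rw [pow_succ', Equiv.Perm.mul_apply, hs _ ?_, ih]
    exact ((Γ.orbit _ _).2 ⟨n, by simp⟩).symm

/-- the edge of `g` respects `s` if it has no crossing or `s` is constant at the crossing -/
theorem far_eq {s : Γ.D → ZMod 2} (hα : ∀ d, s (Γ.α d) = s d) {g : Γ.D} 
    (hs : ∀ x, Γ.org (Γ.α g) = inr x → s (Γ.σ (Γ.σ (Γ.α g))) = s (Γ.α g)) :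
    s (Γ.far g) = s g := by
  rcases h : Γ.org (Γ.α g) with w | x
  · rw [Γ.far_unc h, hα]
  · rw [Γ.far_cr h, hα, hs x h, hα]

theorem exists_dart (w : V) : ∃ z, Γ.org z = inl w := Γ.onto (inl w)

end DISTM

open DISTM

theorem specDIST (hJ : SpecJORC) (hCUT : SpecCUT) (hMIN : SpecMIN) : SpecDIST := by
  classical
  intro V _ Γ hk d e hde horg
  by_contra hne
  set a := Γ.σ.symm d with ha
  set b := Γ.σ.symm e with hb
  have hσa : Γ.σ a = d := by simp [ha]
  have hσb : Γ.σ b = e := by simp [hb]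
  have hab : a ≠ b := fun h => hne (by rw [← hσa, ← hσb, h])
  have hoa : Γ.org a = Γ.org d := by rw [← hσa, Γ.org_σ]
  have hob : Γ.org b = Γ.org d := by rw [horg, ← hσb, Γ.org_σ]
  obtain ⟨s, hα, hs⟩ := hJ V Γ 1 (fun _ => a) (fun _ => b)
    (fun _ => (Γ.orbit a b).1 (by rw [hoa, hob]))
    (fun _ => by simp only [hσa, hσb]; exact hde.symm)
  simp only [Finset.univ_unique, Finset.sum_const, Finset.card_singleton, one_smul] at hs
  have hs0 : ∀ z, z ≠ a → z ≠ b → s (Γ.σ z) = s z := by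
    intro z h1 h2
    rw [hs, ind_ne h1, ind_ne h2]; simp
  have hsa : s (Γ.σ a) = s a + 1 := by
    rw [hs, ind_self, ind_ne hab]; simp
  have hsb : s (Γ.σ b) = s b + 1 := by
    rw [hs, ind_self, ind_ne (Ne.symm hab)]; simp
  have hoff : ∀ z, Γ.org z ≠ Γ.org d → s (Γ.σ z) = s z := by
    intro z hz
    apply hs0
    · rintro rfl; exact hz hoa
    · rintro rfl; exact hz hob
  have hcon : ∀ z z', Γ.org z = Γ.org z' → Γ.org z ≠ Γ.org d → s z' = s z := by
    intro z z' h1 h2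
    refine const Γ h1 fun y hy => hoff y (by rw [hy]; exact h2)
  choose t ht using exists_dart Γ
  have one_ne : ∀ u : ZMod 2, u + 1 ≠ u := by decide
  rcases hd : Γ.org d with v | x
  · -- a vertex
    rw [hd] at hoa hob hoff hcon
    -- all edges respect `s`
    have hfar : ∀ g, s (Γ.far g) = s g := by
      intro g
      apply far_eq Γ hα
      intro x hx
      rw [hoff _ (by rw [Γ.org_σ, hx]; simp), hoff _ (by rw [hx]; simp)]
    have hcut := hCUT V Γ.graph hk v v (fun w => s (t w)) (by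
      intro p q hpq hp _ hq _
      obtain ⟨g, hg1, hg2⟩ := (Γ.adj_iff p q).1 hpq
      have e1 : s g = s (t p) := hcon _ _ (by rw [ht, hg1]) (by rw [ht]; simpa using hp)
      have e2 : s (Γ.far g) = s (t q) := hcon _ _ (by rw [ht, hg2]) (by rw [ht]; simpa using hq)
      show s (t p) = s (t q)
      rw [← e1, ← e2, hfar])
    obtain ⟨w1, hw1, hw1'⟩ := Γ.exists_org_far (d := a) (v := v) hoa
    obtain ⟨w2, hw2, hw2'⟩ := Γ.exists_org_far (d := d) (v := v) hd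
    have e1 : s (Γ.far a) = s (t w1) :=
      hcon _ _ (by rw [ht, hw1']) (by rw [ht]; simpa using hw1)
    have e2 : s (Γ.far d) = s (t w2) :=
      hcon _ _ (by rw [ht, hw2']) (by rw [ht]; simpa using hw2)
    have e3 : s (t w1) = s (t w2) := hcut w1 w2 hw1 hw1 hw2 hw2
    rw [← e1, ← e2, hfar, hfar, ← hσa, hsa] at e3
    exact one_ne _ e3.symm
  · -- a crossing
    rw [hd] at hoa hob hoff hcon
    have hver : ∀ z w, Γ.org z = inl w → s (t w) = s z := by
      intro z w hz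
      exact hcon _ _ (by rw [ht, hz]) (by rw [hz]; simp)
    -- an edge respects `s` if it does not pass `x`
    have hfar : ∀ g, Γ.org (Γ.α g) ≠ inr x → s (Γ.far g) = s g := by
      intro g hg
      apply far_eq Γ hα
      intro y hy
      rw [hoff _ (by rw [Γ.org_σ]; exact hg), hoff _ hg]
    have hfarx : ∀ g, Γ.org (Γ.α g) = inr x → s (Γ.far g) = s (Γ.σ (Γ.σ (Γ.α g))) := by
      intro g hg
      rw [Γ.far_cr hg, hα]
    -- one isolated dart is impossible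
    have iso : ∀ z, Γ.org z = inr x → s (Γ.σ z) ≠ s z → s (Γ.σ (Γ.σ z)) = s (Γ.σ z) →
        s (Γ.σ (Γ.σ (Γ.σ z))) = s (Γ.σ z) → False := by
      intro z hz h1 h2 h3
      obtain ⟨w, hw⟩ := Γ.once z x hz
      have hz1 : Γ.org (Γ.σ z) = inr x := by rw [Γ.org_σ, hz]
      obtain ⟨w1, hw1⟩ := Γ.once _ x hz1
      -- edges which do not end at `w`
      have key : ∀ g q, Γ.org (Γ.far g) = inl q → q ≠ w → g ≠ Γ.α z → s (Γ.far g) = s g := by
        intro g q hg hq hgz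
        by_cases hgx : Γ.org (Γ.α g) = inr x
        · rw [hfarx g hgx, ← hα g]
          rcases Γ.eq_of_org hz hgx with h | h | h | h
          · exact absurd (by rw [← h, Γ.invol]) hgz
          · rw [h, h3]
          · exfalso
            rw [Γ.far_cr hgx, h, Γ.σ4 hz, hw] at hg
            exact hq (inl.inj hg).symm
          · rw [h, Γ.σ4 hz, h3]
        · exact hfar g hgx
      have hcut := hCUT V Γ.graph hk w w (fun w => s (t w)) (by
        intro p q hpq hp _ hq _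
        obtain ⟨g, hg1, hg2⟩ := (Γ.adj_iff p q).1 hpq
        show s (t p) = s (t q)
        rw [hver g p hg1, hver _ q hg2]
        refine (key g q hg2 hq ?_).symm
        rintro rfl
        rw [hw] at hg1
        exact hp (inl.inj hg1).symm)
      -- another dart at `w`
      have hg := (hMIN V Γ hk (Γ.α z) w hw).1
      have hgw : Γ.org (Γ.σ (Γ.α z)) = inl w := by rw [Γ.org_σ, hw]
      obtain ⟨q, hq, hq2⟩ := Γ.exists_org_far hgw
      have hw1w : w1 ≠ w := by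
        rintro rfl
        have := Γ.cross z x hz
        rw [hw, hw1] at this
        exact this rfl
      have e1 : s (t q) = s (t w1) := hcut q w1 hq hq hw1w hw1w
      rw [hver _ q hq2, hver _ w1 hw1, hα, key _ q hq2 hq hg] at e1
      have e2 : s (Γ.σ (Γ.α z)) = s z := by
        rw [← hver _ w hgw, hver _ w hw, hα]
      rw [e2] at e1
      exact h1 e1.symm
    have horga : Γ.org a = inr x := hoa
    have hone : ∀ u : ZMod 2, u + 1 + 1 = u := by decide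
    rcases Γ.eq_of_org horga hob with h | h | h | h
    · exact hab h.symm
    · -- `b = σ a`: the dart `σ a = d` is isolated
      have e1 : s (Γ.σ (Γ.σ a)) = s (Γ.σ a) + 1 := by rw [← h]; exact hsb
      have e2 : s (Γ.σ (Γ.σ (Γ.σ a))) = s (Γ.σ (Γ.σ a)) := by
        apply hs0
        · exact Γ.σσ_ne horga
        · rw [h]; exact fun h' => Γ.σ_ne horga (Γ.σ.injective h')
      have e3 : s (Γ.σ (Γ.σ (Γ.σ (Γ.σ a)))) = s a := by rw [Γ.σ4 horga]
      refine iso (Γ.σ a) (by rw [Γ.org_σ, horga]) ?_ e2 ?_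
      · rw [e1]; exact one_ne _
      · rw [e3, e1, hsa, hone]
    · -- `b = σ² a`
      have e1 : s (Γ.σ (Γ.σ a)) = s (Γ.σ a) := by
        apply hs0
        · exact Γ.σ_ne horga
        · rw [h]
          exact fun h' => Γ.σ_ne horga (Γ.σ.injective h'.symm)
      have e2 : s (Γ.σ (Γ.σ (Γ.σ a))) = s (Γ.σ (Γ.σ a)) + 1 := by rw [← h]; exact hsb
      obtain ⟨f, hf, hf0, hf1, hf2, hf3⟩ := Γ.ends horga
      have hcut := hCUT V Γ.graph hk (f 0) (f 1) (fun w => s (t w)) (by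
        intro p q hpq hp hp' hq hq'
        obtain ⟨g, hg1, hg2⟩ := (Γ.adj_iff p q).1 hpq
        show s (t p) = s (t q)
        rw [hver g p hg1, hver _ q hg2]
        by_cases hgx : Γ.org (Γ.α g) = inr x
        · exfalso
          rw [Γ.far_cr hgx] at hg2
          have hg1' : Γ.org (Γ.α (Γ.α g)) = inl p := by rw [Γ.invol, hg1]
          rcases Γ.eq_of_org horga hgx with h' | h' | h' | h' <;> rw [h'] at hg1' hg2
          · rw [hf0] at hg1'; exact hp (inl.inj hg1').symm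
          · rw [hf1] at hg1'; exact hp' (inl.inj hg1').symm
          · rw [Γ.σ4 horga, hf0] at hg2; exact hq (inl.inj hg2).symm
          · rw [Γ.σ4 horga, hf1] at hg2; exact hq' (inl.inj hg2).symm
        · exact (hfar g hgx).symm)
      have e3 : s (t (f 2)) = s (t (f 3)) := by
        apply hcut <;> exact fun h => absurd (hf h) (by decide)
      rw [hver _ _ hf2, hver _ _ hf3, hα, hα, e2] at e3
      exact one_ne _ e3.symm
    · -- `b = σ³ a`: the dart `a` is isolated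
      have e1 : s (Γ.σ (Γ.σ a)) = s (Γ.σ a) := by
        apply hs0
        · exact Γ.σ_ne horga
        · rw [h]
          exact fun h' => Γ.σσ_ne horga (Γ.σ.injective h'.symm)
      have e2 : s (Γ.σ (Γ.σ (Γ.σ a))) = s (Γ.σ (Γ.σ a)) := by
        apply hs0
        · exact Γ.σσ_ne horga
        · rw [h]
          exact fun h' => Γ.σ_ne horga (Γ.σ.injective (Γ.σ.injective h'.symm))
      exact iso a horga (by rw [hsa]; exact one_ne _) e1 (by rw [e2, e1])

end Pool.Agent.Lib.MP0c8bd9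
end

section
/-!
# MP_0c8bd9_co : module PIV
-/
set_option autoImplicit false

namespace Pool.Agent.Lib.MP0c8bd9

open Sum

namespace PivM

variable {V : Type} (Γ : Drawing V)

/-- two darts of edges which cross the same edge belong to the same edge -/
lemma cr_eq {ε e1 e2 : Γ.D} (h1 : Γ.Cr ε e1) (h2 : Γ.Cr ε e2) : e2 = e1 ∨ e2 = Γ.far e1 := by
  obtain ⟨x, hx, h1⟩ := h1
  obtain ⟨y, hy, h2⟩ := h2
  have hinj : ∀ a b, Γ.α a = Γ.α b → a = b := fun a b h => Γ.α.injective h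
  have hx1 : Γ.org (Γ.α e1) = inr x := by
    rcases h1 with h1 | h1 <;> rw [h1]
    · rw [Γ.org_σ, hx]
    · rw [Γ.org_σ3, hx]
  have hfar := Γ.far_cr hx1
  have h4 := Γ.σ4 hx
  rcases h1 with h1 | h1 <;> rcases h2 with h2 | h2
  · left
    apply hinj
    rw [h1, h2]
  · right
    rw [hfar, h1, ← h2, Γ.invol]
  · right
    rw [hfar, h1, h4, ← h2, Γ.invol]
  · left
    apply hinj
    rw [h1, h2]

lemma cr_org {ε e : Γ.D} (h : Γ.Cr ε e) : ∃ x, Γ.org (Γ.α e) = inr x := by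
  obtain ⟨x, hx, h | h⟩ := h
  · exact ⟨x, by rw [h, Γ.org_σ, hx]⟩
  · exact ⟨x, by rw [h, Γ.org_σ3, hx]⟩

lemma cr_org' {ε e : Γ.D} (h : Γ.Cr ε e) : ∃ x, Γ.org (Γ.α ε) = inr x := by
  obtain ⟨x, hx, _⟩ := h
  exact ⟨x, hx⟩

/-- the two sides of an edge at a vertex are different faces -/
lemma sides [Finite V] (hDIST : SpecDIST) (hMIN : SpecMIN) (hk : KConn Γ.graph 3) {β : Γ.D} {b : V}
    (hb : Γ.org β = inl b) : ¬ Γ.φ.SameCycle β (Γ.α β) := by
  intro h
  have h1 : Γ.φ.SameCycle β (Γ.σ β) := h.trans (Γ.sameFace_σ β)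
  have h2 := hDIST V Γ hk β (Γ.σ β) h1 (Γ.org_σ β).symm
  exact (hMIN V Γ hk β b hb).1 h2.symm

lemma T3_congr {d e : Γ.D} (h : Γ.φ.SameCycle d e) (hd : Γ.T3 d) : Γ.T3 e := by
  have h1 : Γ.fc d = Γ.fc e := Γ.fc_eq.mpr h
  unfold Drawing.T3 at hd ⊢
  rw [← h1]
  exact hd

/-- the third vertex of a face with three vertices -/
lemma third {β : Γ.D} {b c : V} (hb : Γ.org β = inl b) (hc : Γ.org (Γ.α β) = inl c)
    (hT : Γ.T3 β) : ∃ p : Γ.D, (∃ a, Γ.org p = inl a) ∧ Γ.φ.SameCycle p β ∧ p ≠ β ∧ p ≠ Γ.φ β ∧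
      ∀ q, Γ.φ.SameCycle q β → (∃ a, Γ.org q = inl a) → q = β ∨ q = Γ.φ β ∨ q = p := by
  have hne : β ≠ Γ.φ β := by
    intro h
    have h1 := Γ.org_φ β
    rw [← h, hb, hc] at h1
    have h2 := (Γ.adj_α hb hc).ne
    exact h2 (inl.inj h1)
  set T : Set Γ.D := {d | Γ.fc d = Γ.fc β ∧ (Γ.org d).isLeft} with hTdef
  have hcard : T.ncard = 3 := hT
  have hiff : ∀ q, q ∈ T ↔ Γ.φ.SameCycle q β ∧ ∃ a, Γ.org q = inl a := by
    intro q
    rw [hTdef, Set.mem_ofPred_eq, Γ.fc_eq, Sum.isLeft_iff]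
  have hβ : β ∈ T := (hiff β).mpr ⟨Equiv.Perm.SameCycle.refl _ _, b, hb⟩
  have hφβ : Γ.φ β ∈ T := (hiff _).mpr ⟨(Γ.sameFace_φ β).symm, c, by rw [Γ.org_φ, hc]⟩
  obtain ⟨x, y, z, hxy, hxz, hyz, hT3⟩ := Set.ncard_eq_three.mp hcard
  have key : ∃ p, p ∈ T ∧ p ≠ β ∧ p ≠ Γ.φ β ∧ ∀ q ∈ T, q = β ∨ q = Γ.φ β ∨ q = p := by
    rw [hT3] at hβ hφβ ⊢
    simp only [Set.mem_insert_iff, Set.mem_singleton_iff] at hβ hφβ ⊢
    rcases hβ with h1 | h1 | h1 <;> rcases hφβ with h2 | h2 | h2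
    · exact absurd (h1.trans h2.symm) hne
    · refine ⟨z, Or.inr (Or.inr rfl), ?_, ?_, ?_⟩
      · rw [h1]; exact hxz.symm
      · rw [h2]; exact hyz.symm
      · intro q hq
        rw [h2, h1]
        exact hq
    · refine ⟨y, Or.inr (Or.inl rfl), ?_, ?_, ?_⟩
      · rw [h1]; exact hxy.symm
      · rw [h2]; exact hyz
      · intro q hq
        rw [h2, h1]
        tauto
    · refine ⟨z, Or.inr (Or.inr rfl), ?_, ?_, ?_⟩
      · rw [h1]; exact hyz.symm
      · rw [h2]; exact hxz.symm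
      · intro q hq
        rw [h2, h1]
        tauto
    · exact absurd (h1.trans h2.symm) hne
    · refine ⟨x, Or.inl rfl, ?_, ?_, ?_⟩
      · rw [h1]; exact hxy
      · rw [h2]; exact hxz
      · intro q hq
        rw [h2, h1]
        tauto
    · refine ⟨y, Or.inr (Or.inl rfl), ?_, ?_, ?_⟩
      · rw [h1]; exact hyz
      · rw [h2]; exact hxy.symm
      · intro q hq
        rw [h2, h1]
        tauto
    · refine ⟨x, Or.inl rfl, ?_, ?_, ?_⟩
      · rw [h1]; exact hxz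
      · rw [h2]; exact hxy
      · intro q hq
        rw [h2, h1]
        tauto
    · exact absurd (h1.trans h2.symm) hne
  obtain ⟨p, hp, hp1, hp2, hp3⟩ := key
  obtain ⟨hp4, hp5⟩ := (hiff p).mp hp
  exact ⟨p, hp5, hp4, hp1, hp2, fun q h1 h2 => hp3 q ((hiff q).mpr ⟨h1, h2⟩)⟩

/-- the third vertex, with DIST -/
lemma third' [Finite V] (hDIST : SpecDIST) (hk : KConn Γ.graph 3) {β : Γ.D} {b c : V}
    (hb : Γ.org β = inl b) (hc : Γ.org (Γ.α β) = inl c) (hT : Γ.T3 β) :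
    ∃ (p : Γ.D) (a : V), Γ.org p = inl a ∧ Γ.φ.SameCycle p β ∧ a ≠ b ∧ a ≠ c ∧
      ∀ q, Γ.φ.SameCycle q β → (∃ a, Γ.org q = inl a) → q = β ∨ q = Γ.φ β ∨ q = p := by
  obtain ⟨p, ⟨a, ha⟩, hp1, hp2, hp3, hp4⟩ := third Γ hb hc hT
  refine ⟨p, a, ha, hp1, ?_, ?_, hp4⟩
  · rintro rfl
    exact hp2 (hDIST V Γ hk p β hp1 (by rw [ha, hb]))
  · rintro rfl
    exact hp3 (hDIST V Γ hk p (Γ.φ β) (hp1.trans (Γ.sameFace_φ β)) (by rw [Γ.org_φ, ha, hc]))

lemma ne_of_not {d : Γ.D} {v : V} (hv : Γ.org d = inl v) (hT : Γ.T3 d) (h : ¬ Γ.E33 d) :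
    Γ.NE d := by
  refine ⟨⟨v, hv⟩, hT, ?_⟩
  rcases hα : Γ.org (Γ.φ d) with w | x
  · right
    intro h2
    apply h
    refine ⟨⟨⟨v, hv⟩, ⟨w, ?_⟩⟩, hT, h2⟩
    rw [← Γ.org_φ, hα]
  · left
    exact ⟨x, rfl⟩

lemma not_NE {d : Γ.D} (h : Γ.E33 d) : ¬ Γ.NE d := by
  rintro ⟨-, -, ⟨x, hx⟩ | h3⟩
  · obtain ⟨⟨-, w, hw⟩, -, -⟩ := h
    rw [Γ.org_φ, hw] at hx
    exact absurd hx (by simp)
  · exact h3 h.2.2

end PivM

open PivM in
/-- PIV -/
theorem specPIV (hKIT : SpecKIT) (hL1 : SpecL1) (hTHI : SpecTHI) (hDIST : SpecDIST)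
    (hMIN : SpecMIN) (hEXN : SpecEXN) : SpecPIV := by
  intro V Γ hG hNE δ hδ
  have : Finite V := hG.fin
  have hk := hG.k3
  obtain ⟨hE1, hE2⟩ := hδ
  have hE1' := hE1
  have hE2' := hE2
  obtain ⟨⟨⟨v, hv⟩, ⟨w1, hw1⟩⟩, hT1, hT2⟩ := hE1
  obtain ⟨⟨⟨w0, hw0⟩, -⟩, hT3, hT4⟩ := hE2
  obtain ⟨γ, hγ⟩ : ∃ γ, γ = Γ.φ.symm δ := ⟨_, rfl⟩
  rw [← hγ] at hw0 hT3 hT4 hE2'
  have hφγ : Γ.φ γ = δ := by rw [hγ, Equiv.apply_symm_apply]
  have hαγ : Γ.org (Γ.α γ) = inl v := by rw [← Γ.org_φ, hφγ, hv]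
  have hγδ : Γ.φ.SameCycle γ δ := by
    have := Γ.sameFace_φ γ
    rwa [hφγ] at this
  have hw0v : w0 ≠ v := (Γ.adj_α hw0 hαγ).ne
  have hvw1 : v ≠ w1 := (Γ.adj_α hv hw1).ne
  have hw01 : w0 ≠ w1 := by
    rintro rfl
    have e1 : Γ.α γ = Γ.σ.symm δ := by rw [hγ, Γ.φ_symm, Γ.invol]
    have h1 : Γ.α γ = δ := by
      apply Γ.far_inj hαγ hv
      rw [Γ.far_unc (d := Γ.α γ) (v := w0) (by rw [Γ.invol, hw0]), Γ.far_unc hw1, Γ.invol, hw0, hw1]
    rw [e1, Equiv.symm_apply_eq] at h1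
    exact (hMIN V Γ hk δ v hv).1 h1.symm
  -- vertices of the face of `δ`
  have hF : ∀ q, Γ.φ.SameCycle q δ → (∃ a, Γ.org q = inl a) → q = δ ∨ q = Γ.φ δ ∨ q = γ := by
    obtain ⟨p, a, ha, hp1, hp2, hp3, hp4⟩ := third' Γ hDIST hk hv hw1 hT1
    have hγp : γ = p := by
      rcases hp4 γ hγδ ⟨w0, hw0⟩ with h | h | h
      · rw [h, hv] at hw0
        exact absurd (inl.inj hw0).symm hw0v
      · rw [h, Γ.org_φ, hw1] at hw0
        exact absurd (inl.inj hw0).symm hw01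
      · exact h
    rw [hγp]
    exact hp4
  -- the face of `α δ`
  have hασ : Γ.φ (Γ.α δ) = Γ.σ δ := Γ.φ_α δ
  have hσδ : Γ.org (Γ.σ δ) = inl v := by rw [Γ.org_σ, hv]
  have hsc1 : Γ.φ.SameCycle (Γ.α δ) (Γ.σ δ) := Γ.sameFace_σ δ
  obtain ⟨ε, w2, hε, hεs, hw21, hw2v, hGf⟩ :=
    third' Γ hDIST hk hw1 (by rw [Γ.invol, hv] : Γ.org (Γ.α (Γ.α δ)) = inl v) hT2
  rw [hασ] at hGf
  have hTσ : Γ.T3 (Γ.σ δ) := T3_congr Γ hsc1 hT2
  have hTε : Γ.T3 ε := T3_congr Γ hεs.symm hT2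
  refine ⟨?_, ?_⟩
  swap
  · rw [Γ.φ_symm, Equiv.symm_apply_apply]
    exact ⟨⟨⟨w1, hw1⟩, ⟨v, by rw [Γ.invol, hv]⟩⟩, hT2, by rw [Γ.invol]; exact hT1⟩
  by_contra hcon
  have hN := ne_of_not Γ hσδ hTσ hcon
  have hεE : Γ.E33 ε := by
    by_contra h
    have h1 := hNE ε (Γ.σ δ) (ne_of_not Γ hε hTε h) hN (hεs.trans hsc1)
    rw [h1, hσδ] at hε
    exact hw2v (inl.inj hε).symm
  obtain ⟨⟨-, t, ht⟩, -, hTk⟩ := hεE
  have hφε : Γ.φ ε = Γ.α δ := by
    rcases hGf (Γ.φ ε) ((Γ.sameFace_φ ε).symm.trans hεs) ⟨t, by rw [Γ.org_φ, ht]⟩ with h | h | h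
    · exact h
    · exfalso
      rw [← hασ] at h
      have h1 := Γ.φ.injective h
      rw [h1, hw1] at hε
      exact hw21 (inl.inj hε).symm
    · exfalso
      have h1 := Γ.org_φ ε
      rw [h, hε, ht] at h1
      exact (Γ.adj_α hε ht).ne (inl.inj h1)
  have hαε : Γ.org (Γ.α ε) = inl w1 := by rw [← Γ.org_φ, hφε, hw1]
  obtain ⟨κ, u, hκ, hκs, huw1, huw2, -⟩ :=
    third' Γ hDIST hk hαε (by rw [Γ.invol, hε] : Γ.org (Γ.α (Γ.α ε)) = inl w2) hTk
  obtain ⟨ω, w, hω, hωs, hwv, hww0, -⟩ :=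
    third' Γ hDIST hk hαγ (by rw [Γ.invol, hw0] : Γ.org (Γ.α (Γ.α γ)) = inl w0) hT4
  have hφδ : Γ.org (Γ.φ δ) = inl w1 := by rw [Γ.org_φ, hw1]
  have hw02 : w0 ≠ w2 := hTHI V Γ hk w0 w2 v w1 δ γ ε hv hw1 hw0 hγδ hε hεs hw0v hw01 hw2v hw21
  have hw1w : w1 ≠ w := hTHI V Γ hk w1 w w0 v γ (Γ.φ δ) ω hw0 hαγ hφδ
    ((Γ.sameFace_φ δ).symm.trans hγδ.symm) hω hωs hw01.symm hvw1.symm hww0 hwv
  have hvu : v ≠ u := hTHI V Γ hk v u w2 w1 ε (Γ.σ δ) κ hε hαε hσδ
    (hsc1.symm.trans hεs.symm) hκ hκs hw2v.symm hvw1 huw2 huw1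
  have hA1 : Γ.graph.Adj w0 w2 := hG.max.across w0 w2 hw02
    ⟨γ, ε, δ, hw0, hε, ⟨v, w1, hw0v.symm, hw2v.symm, hw01.symm, hw21.symm, hv, hw1⟩, hγδ, hεs⟩
  have hA2 : Γ.graph.Adj w1 w := hG.max.across w1 w hw1w
    ⟨Γ.φ δ, ω, γ, hφδ, hω, ⟨w0, v, hw01, hww0.symm, hvw1, hwv.symm, hw0, hαγ⟩,
      (Γ.sameFace_φ δ).symm.trans hγδ.symm, hωs⟩
  have hA3 : Γ.graph.Adj v u := hG.max.across v u hvu
    ⟨Γ.σ δ, κ, ε, hσδ, hκ, ⟨w2, w1, hw2v, huw2.symm, hvw1.symm, huw1.symm, hε, hαε⟩,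
      hsc1.symm.trans hεs.symm, hκs⟩
  obtain ⟨ε', hε'1, hε'2⟩ := (Γ.adj_iff w0 w2).mp hA1
  obtain ⟨s, hs0, hs1, hs2⟩ := hKIT V Γ hk w0 w2 v w1 δ γ ε ε' hv hw1 hw0 hγδ hε hεs hw0v hw01 hw2v
    hw21 hw02 hε'1 hε'2
  -- the faces
  have hf2 : ∀ q, Γ.φ.SameCycle q δ → Γ.org q ≠ inl w2 := by
    intro q hq h
    rcases hF q hq ⟨w2, h⟩ with h1 | h1 | h1
    · rw [h1, hv] at h; exact hw2v (inl.inj h).symm
    · rw [h1, hφδ] at h; exact hw21 (inl.inj h).symm
    · rw [h1, hw0] at h; exact hw02 (inl.inj h)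
  have hg0 : ∀ q, Γ.φ.SameCycle q (Γ.α δ) → Γ.org q ≠ inl w0 := by
    intro q hq h
    rcases hGf q hq ⟨w0, h⟩ with h1 | h1 | h1
    · rw [h1, hw1] at h; exact hw01 (inl.inj h).symm
    · rw [h1, hσδ] at h; exact hw0v (inl.inj h).symm
    · rw [h1, hε] at h; exact hw02 (inl.inj h).symm
  have hkf : ¬ Γ.φ.SameCycle (Γ.α ε) δ := by
    intro h
    apply hf2 (Γ.σ ε) ((Γ.sameFace_σ ε).symm.trans h)
    rw [Γ.org_σ, hε]
  have hkg : ¬ Γ.φ.SameCycle (Γ.α ε) (Γ.α δ) := by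
    intro h
    exact sides Γ hDIST hMIN hk hε (hεs.trans h.symm)
  have hhf : ¬ Γ.φ.SameCycle (Γ.α γ) δ := by
    intro h
    exact sides Γ hDIST hMIN hk hw0 (hγδ.trans h.symm)
  have hhg : ¬ Γ.φ.SameCycle (Γ.α γ) (Γ.α δ) := by
    intro h
    apply hg0 (Γ.σ γ) ((Γ.sameFace_σ γ).symm.trans h)
    rw [Γ.org_σ, hw0]
  have hu0 : u ≠ w0 := by
    rintro rfl
    obtain ⟨p, hp1, hp2, h | h⟩ := hL1 V Γ hk u w1 γ (Γ.φ δ) κ (Γ.α ε) hw01 hw0 hφδ hκ hαε
      (hγδ.trans (Γ.sameFace_φ δ)) hκs (fun h => hkf ((hκs.symm.trans h.symm).trans hγδ))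
    · obtain ⟨h1, -, -, -⟩ := h
      rw [← h1, hαγ] at hp2
      exact hvw1 (inl.inj hp2)
    · obtain ⟨-, h2, h3, -⟩ := h
      have hEφ : Γ.E33 (Γ.φ δ) := by
        refine ⟨⟨⟨w1, hφδ⟩, ⟨u, ?_⟩⟩, T3_congr Γ (Γ.sameFace_φ δ) hT1, ?_⟩
        · rw [h3, Γ.invol, hp1]
        · rw [h3, Γ.invol, ← h2]
          exact T3_congr Γ hκs.symm hTk
      obtain ⟨d, hd1, hd2⟩ := hEXN V Γ hG (Γ.fc δ) hT1
      rcases hF d (Γ.fc_eq.mp hd1) hd2.1 with h4 | h4 | h4
      · rw [h4] at hd2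
        exact not_NE Γ hE1' hd2
      · rw [h4] at hd2
        exact not_NE Γ hEφ hd2
      · rw [h4] at hd2
        exact not_NE Γ hE2' hd2
  have hw2' : w ≠ w2 := by
    rintro rfl
    obtain ⟨p, hp1, hp2, h | h⟩ := hL1 V Γ hk v w (Γ.σ δ) ε (Γ.α γ) ω hw2v.symm hσδ hε hαγ hω
      (hsc1.symm.trans hεs.symm) hωs.symm (fun h => hhg (h.symm.trans hsc1.symm))
    · obtain ⟨h1, -, -, h4⟩ := h
      apply hcon
      refine ⟨⟨⟨v, hσδ⟩, ⟨w, ?_⟩⟩, hTσ, ?_⟩
      · rw [h1, hp2]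
      · rw [h1, ← h4]
        exact T3_congr Γ hωs.symm hT4
    · obtain ⟨-, h2, -, -⟩ := h
      rw [← h2, Γ.invol, hw0] at hp2
      exact hw02 (inl.inj hp2)
  -- values of `s`
  have hsu : s u = s w1 := hs2 κ (Γ.α ε) u w1 hκ hαε hu0 huw2 hw01.symm hw21.symm hκs
    (fun h => hkf (hκs.symm.trans h)) (fun h => hkg (hκs.symm.trans h))
  have hsw : s w = s v := hs2 ω (Γ.α γ) w v hω hαγ hww0 hw2' hw0v.symm hw2v.symm hωs
    (fun h => hhf (hωs.symm.trans h)) (fun h => hhg (hωs.symm.trans h))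
  obtain ⟨e1, he1, he1'⟩ := (Γ.adj_iff v u).mp hA3
  obtain ⟨e2, he2, he2'⟩ := (Γ.adj_iff w1 w).mp hA2
  have hC1 : Γ.Cr ε' e1 := by
    by_contra h
    have h1 := hs1 e1 v u he1 he1' hw0v.symm hw2v.symm hu0 huw2 ?_ ?_ h
    · rw [hsu] at h1
      exact hs0 h1
    · rintro rfl
      rw [Γ.far_unc hw1, hw1] at he1'
      exact huw1 (inl.inj he1').symm
    · rintro rfl
      rw [hw1] at he1
      exact hvw1 (inl.inj he1).symm
  have hC2 : Γ.Cr ε' e2 := by
    by_contra h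
    have h1 := hs1 e2 w1 w he2 he2' hw01.symm hw21.symm hww0 hw2' ?_ ?_ h
    · rw [hsw] at h1
      exact hs0 h1.symm
    · rintro rfl
      rw [hv] at he2
      exact hvw1 (inl.inj he2)
    · rintro rfl
      rw [Γ.far_unc (v := v) (by rw [Γ.invol, hv]), Γ.invol, hv] at he2'
      exact hwv (inl.inj he2').symm
  rcases cr_eq Γ hC1 hC2 with h | h
  · rw [h, he1] at he2
    exact hvw1 (inl.inj he2)
  · rw [h, he1'] at he2
    exact huw1 (inl.inj he2)

end Pool.Agent.Lib.MP0c8bd9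
end

section
/-!
# MP_0c8bd9_co : module DEG
-/
set_option autoImplicit false

namespace Pool.Agent.Lib.MP0c8bd9

open Sum

namespace DegM

open PivM

variable {V : Type} (Γ : Drawing V)

/-- different uncrossed darts at `v` have different ends -/
lemma wne {v wx wy : V} {x y : Γ.D} (hx : Γ.org x = inl v) (hy : Γ.org y = inl v)
    (hwx : Γ.org (Γ.α x) = inl wx) (hwy : Γ.org (Γ.α y) = inl wy) (h : x ≠ y) : wx ≠ wy := by
  rintro rfl
  apply h
  apply Γ.far_inj hx hy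
  rw [Γ.far_unc hwx, Γ.far_unc hwy, hwx, hwy]

/-- five consecutive uncrossed darts at a vertex -/
lemma core [Finite V] (hKIT : SpecKIT) (hMIN : SpecMIN) (hG : Good Γ) {v : V}
    {a b c d e : Γ.D} (hb : b = Γ.σ a) (hc : c = Γ.σ b) (hd : d = Γ.σ c) (he : e = Γ.σ d)
    (hva : Γ.org a = inl v) {wa wb wc wd we : V} (hwa : Γ.org (Γ.α a) = inl wa)
    (hwb : Γ.org (Γ.α b) = inl wb) (hwc : Γ.org (Γ.α c) = inl wc) (hwd : Γ.org (Γ.α d) = inl wd)
    (hwe : Γ.org (Γ.α e) = inl we) (hda : d ≠ a) (heb : e ≠ b) :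
    e = a ∧ ∃ ε e1, Γ.org ε = inl wb ∧ Γ.org (Γ.far ε) = inl wd ∧ Γ.org e1 = inl wc ∧
      Γ.org (Γ.far e1) = inl we ∧ Γ.Cr ε e1 := by
  have hk := hG.k3
  have hvb : Γ.org b = inl v := by rw [hb, Γ.org_σ, hva]
  have hvc : Γ.org c = inl v := by rw [hc, Γ.org_σ, hvb]
  have hvd : Γ.org d = inl v := by rw [hd, Γ.org_σ, hvc]
  have hve : Γ.org e = inl v := by rw [he, Γ.org_σ, hvd]
  obtain ⟨m1, m2⟩ := hMIN V Γ hk a v hva
  obtain ⟨m3, m4⟩ := hMIN V Γ hk b v hvb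
  obtain ⟨m5, m6⟩ := hMIN V Γ hk c v hvc
  obtain ⟨m7, -⟩ := hMIN V Γ hk d v hvd
  rw [← hb] at m1
  rw [← hb, ← hc] at m2
  rw [← hc] at m3
  rw [← hc, ← hd] at m4
  rw [← hd] at m5
  rw [← hd, ← he] at m6
  rw [← he] at m7
  have nba := wne Γ hvb hva hwb hwa m1
  have nca := wne Γ hvc hva hwc hwa m2
  have ncb := wne Γ hvc hvb hwc hwb m3
  have ndb := wne Γ hvd hvb hwd hwb m4
  have ndc := wne Γ hvd hvc hwd hwc m5
  have nec := wne Γ hve hvc hwe hwc m6
  have ned := wne Γ hve hvd hwe hwd m7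
  have nda := wne Γ hvd hva hwd hwa hda
  have neb := wne Γ hve hvb hwe hwb heb
  have va := (Γ.adj_α hva hwa).ne
  have vb := (Γ.adj_α hvb hwb).ne
  have vc := (Γ.adj_α hvc hwc).ne
  have vd := (Γ.adj_α hvd hwd).ne
  have ve := (Γ.adj_α hve hwe).ne
  -- faces
  have f1 : Γ.φ.SameCycle (Γ.α a) b := by
    have := Γ.sameFace_σ a
    rwa [← hb] at this
  have f2 : Γ.φ.SameCycle (Γ.α b) c := by
    have := Γ.sameFace_σ b
    rwa [← hc] at this
  have f3 : Γ.φ.SameCycle (Γ.α c) d := by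
    have := Γ.sameFace_σ c
    rwa [← hd] at this
  have f4 : Γ.φ.SameCycle (Γ.α d) e := by
    have := Γ.sameFace_σ d
    rwa [← he] at this
  have oc : Γ.org (Γ.φ c) = inl wc := by rw [Γ.org_φ, hwc]
  have od : Γ.org (Γ.φ d) = inl wd := by rw [Γ.org_φ, hwd]
  have oe : Γ.org (Γ.φ e) = inl we := by rw [Γ.org_φ, hwe]
  have A1 : Γ.graph.Adj wb wd := hG.max.across wb wd ndb.symm
    ⟨Γ.α b, Γ.φ d, c, hwb, od, ⟨v, wc, vb, vd, ncb, ndc.symm, hvc, hwc⟩, f2,
      (Γ.sameFace_φ d).symm.trans f3.symm⟩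
  have A2 : Γ.graph.Adj wc wa := (hG.max.across wa wc nca.symm
    ⟨Γ.α a, Γ.φ c, b, hwa, oc, ⟨v, wb, va, vc, nba, ncb.symm, hvb, hwb⟩, f1,
      (Γ.sameFace_φ c).symm.trans f2.symm⟩).symm
  have A3 : Γ.graph.Adj wc we := hG.max.across wc we nec.symm
    ⟨Γ.α c, Γ.φ e, d, hwc, oe, ⟨v, wd, vc, ve, ndc, ned.symm, hvd, hwd⟩, f3,
      (Γ.sameFace_φ e).symm.trans f4.symm⟩
  obtain ⟨ε, hε, hε'⟩ := (Γ.adj_iff wb wd).mp A1
  obtain ⟨e2, he2, he2'⟩ := (Γ.adj_iff wc wa).mp A2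
  obtain ⟨e1, he1, he1'⟩ := (Γ.adj_iff wc we).mp A3
  obtain ⟨s, s0, s1, -⟩ := hKIT V Γ hk wb wd v wc c (Γ.α b) (Γ.φ d) ε hvc hwc hwb f2 od
    ((Γ.sameFace_φ d).symm.trans f3.symm) vb.symm ncb.symm vd.symm ndc ndb.symm hε hε'
  have key : ∀ (t g : Γ.D) (wt : V), Γ.org t = inl v → Γ.org (Γ.α t) = inl wt → t ≠ c → wt ≠ wb →
      wt ≠ wd → v ≠ wt → Γ.org g = inl wc → Γ.org (Γ.far g) = inl wt → Γ.Cr ε g := by
    intro t g wt ht1 ht2 htc h1 h2 h3 hg1 hg2
    by_contra hcr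
    have r1 : s v = s wt := by
      refine s1 t v wt ht1 ?_ vb vd h1 h2 htc ?_ ?_
      · rw [Γ.far_unc ht2, ht2]
      · rintro rfl
        rw [hwc] at ht1
        exact vc (inl.inj ht1).symm
      · intro hcr
        obtain ⟨x, hx⟩ := cr_org Γ hcr
        rw [ht2] at hx
        exact absurd hx (by simp)
    have r2 : s wc = s wt := by
      refine s1 g wc wt hg1 hg2 ncb ndc.symm h1 h2 ?_ ?_ hcr
      · rintro rfl
        rw [hvc] at hg1
        exact vc (inl.inj hg1)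
      · rintro rfl
        rw [Γ.far_unc (v := v) (by rw [Γ.invol, hvc]), Γ.invol, hvc] at hg2
        exact h3 (inl.inj hg2)
    exact s0 (r1.trans r2.symm)
  have C1 := key e e1 we hve hwe m6 neb ned ve he1 he1'
  have C2 := key a e2 wa hva hwa m2.symm nba.symm nda.symm va he2 he2'
  refine ⟨?_, ε, e1, hε, hε', he1, he1', C1⟩
  rcases cr_eq Γ C1 C2 with h | h
  · by_contra hne
    have := wne Γ hve hva hwe hwa hne
    rw [h, he1'] at he2'
    exact this (inl.inj he2')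
  · rw [h, he1'] at he2
    exact absurd (inl.inj he2) nec

/-- the neighbours of the end of `b` -/
lemma loc [Finite V] (hL1 : SpecL1) (hDIST : SpecDIST) (hk : KConn Γ.graph 3) {v : V}
    {a b c : Γ.D} (hb : b = Γ.σ a) (hc : c = Γ.σ b)
    (hvb : Γ.org b = inl v) {wa wb wc wd : V} (hwa : Γ.org (Γ.α a) = inl wa)
    (hwb : Γ.org (Γ.α b) = inl wb) (hwc : Γ.org (Γ.α c) = inl wc)
    (nba : wb ≠ wa) (nbc : wb ≠ wc) (vc : v ≠ wc) {ε e1 : Γ.D} (hε : Γ.org ε = inl wb)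
    (hε' : Γ.org (Γ.far ε) = inl wd) (he1 : Γ.org e1 = inl wc) (he1' : Γ.org (Γ.far e1) = inl wa)
    (hCr : Γ.Cr ε e1) (q : Γ.D) (hq : Γ.org q = inl wb) :
    Γ.org (Γ.far q) = inl v ∨ Γ.org (Γ.far q) = inl wa ∨ Γ.org (Γ.far q) = inl wc ∨
      Γ.org (Γ.far q) = inl wd := by
  obtain ⟨x, hx, hcr⟩ := hCr
  have hvc : Γ.org c = inl v := by rw [hc, Γ.org_σ, hvb]
  have hσε : Γ.org (Γ.σ ε) = inl wb := by rw [Γ.org_σ, hε]
  have hφb : Γ.org (Γ.φ b) = inl wb := by rw [Γ.org_φ, hwb]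
  have hφc : Γ.org (Γ.φ c) = inl wc := by rw [Γ.org_φ, hwc]
  have f1 : Γ.φ.SameCycle (Γ.α a) b := by
    have := Γ.sameFace_σ a
    rwa [← hb] at this
  have f2 : Γ.φ.SameCycle (Γ.α b) c := by
    have := Γ.sameFace_σ b
    rwa [← hc] at this
  have h4 := Γ.σ4 hx
  have hεσ : Γ.φ ε = Γ.σ (Γ.α ε) := rfl
  have hinv : Γ.α (Γ.α b) = b := Γ.invol b
  have hbε : ∀ p : Γ.D, Γ.α b = p → Γ.org (Γ.α p) = inl v := by
    rintro p rfl
    rw [hinv, hvb]
  rcases hcr with hcr | hcr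
  · -- the wrong orientation
    exfalso
    have g1 : Γ.φ.SameCycle ε (Γ.σ e1) := by
      have h1 : Γ.φ.SameCycle ε (Γ.α e1) := by
        have := Γ.sameFace_φ ε
        rwa [hεσ, ← hcr] at this
      exact h1.trans (Γ.sameFace_σ e1)
    obtain ⟨p, hp1, hp2, h | h⟩ := hL1 V Γ hk wb wc (Γ.α b) (Γ.φ c) ε (Γ.σ e1) nbc hwb hφc hε
      (by rw [Γ.org_σ, he1]) (f2.trans (Γ.sameFace_φ c)) g1 (by
        intro h
        have h1 := hDIST V Γ hk _ _ h (by rw [hwb, hε])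
        have h2 := hbε _ h1
        rw [hx] at h2
        exact absurd h2 (by simp))
    · have h2 := hbε _ h.1
      rw [hp2] at h2
      exact vc (inl.inj h2).symm
    · rw [← h.2.1, hx] at hp2
      exact absurd hp2 (by simp)
  · -- the right orientation
    have hφe1 : Γ.φ e1 = Γ.α ε := by
      rw [Γ.φ_apply, hcr, h4]
    have g1 : Γ.φ.SameCycle (Γ.σ ε) e1 := by
      have h1 := Γ.sameFace_φ e1
      rw [hφe1] at h1
      exact (h1.trans (Γ.sameFace_σ ε)).symm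
    have R1 : Γ.α b = Γ.σ ε ∨ (Γ.α b = Γ.σ (Γ.σ ε) ∧ Γ.org (Γ.α (Γ.σ ε)) = inl wc) := by
      by_cases hs : Γ.φ.SameCycle (Γ.α b) (Γ.σ ε)
      · left
        exact hDIST V Γ hk _ _ hs (by rw [hwb, hσε])
      · right
        obtain ⟨p, hp1, hp2, h | h⟩ := hL1 V Γ hk wb wc (Γ.α b) (Γ.φ c) (Γ.σ ε) e1 nbc hwb hφc hσε
          he1 (f2.trans (Γ.sameFace_φ c)) g1 hs
        · have h2 := hbε _ h.1
          rw [hp2] at h2
          exact absurd (inl.inj h2).symm vc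
        · obtain ⟨h1, h2, -, -⟩ := h
          rw [h2]
          exact ⟨h1, hp2⟩
    have hfe : Γ.far e1 = Γ.α (Γ.σ (Γ.α ε)) := by
      have hx1 : Γ.org (Γ.α e1) = inr x := by rw [hcr, Γ.org_σ3, hx]
      rw [Γ.far_cr hx1, hcr, h4]
    have hθ : Γ.org (Γ.σ (Γ.α (Γ.σ (Γ.α ε)))) = inl wa := by rw [Γ.org_σ, ← hfe, he1']
    have g2 : Γ.φ.SameCycle ε (Γ.σ (Γ.α (Γ.σ (Γ.α ε)))) := by
      have h1 := Γ.sameFace_φ ε
      have h2 := Γ.sameFace_φ (Γ.φ ε)
      exact h1.trans h2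
    have R2 : Γ.φ b = ε ∨ (ε = Γ.σ (Γ.φ b) ∧ Γ.org (Γ.α (Γ.φ b)) = inl wa) := by
      by_cases hs : Γ.φ.SameCycle (Γ.φ b) ε
      · left
        exact hDIST V Γ hk _ _ hs (by rw [hφb, hε])
      · right
        obtain ⟨p, hp1, hp2, h | h⟩ := hL1 V Γ hk wb wa (Γ.φ b) (Γ.α a) ε
          (Γ.σ (Γ.α (Γ.σ (Γ.α ε)))) nba hφb hwa hε hθ
          ((f1.trans (Γ.sameFace_φ b)).symm) g2 hs
        · obtain ⟨h1, h2, -, -⟩ := h
          rw [h1]
          exact ⟨h2, hp2⟩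
        · rw [← h.2.1, hx] at hp2
          exact absurd hp2 (by simp)
    -- the darts at `wb`
    have := Γ.finD
    have hS : ∀ n : ℕ, (Γ.σ ^ n) (Γ.α b) = Γ.α b ∨ (Γ.σ ^ n) (Γ.α b) = Γ.φ b ∨
        (Γ.σ ^ n) (Γ.α b) = ε ∨ (Γ.σ ^ n) (Γ.α b) = Γ.σ ε := by
      intro n
      induction n with
      | zero => left; simp
      | succ n ih =>
        rw [pow_succ', Equiv.Perm.mul_apply]
        rcases ih with h | h | h | h <;> rw [h]
        · right; left; rfl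
        · rcases R2 with h2 | ⟨h2, -⟩
          · rw [h2]; tauto
          · rw [← h2]; tauto
        · tauto
        · rcases R1 with h2 | ⟨h2, -⟩
          · rw [← h2]; right; left; rfl
          · rw [← h2]; tauto
    obtain ⟨n, hn⟩ := ((Γ.orbit (Γ.α b) q).1 (by rw [hwb, hq])).exists_nat_pow_eq
    have e1' : Γ.org (Γ.far (Γ.α b)) = inl v := by
      rw [Γ.far_unc (v := v) (by rw [hinv, hvb]), hinv, hvb]
    rw [← hn]
    rcases hS n with h | h | h | h <;> rw [h]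
    · exact Or.inl e1'
    · rcases R2 with h2 | ⟨-, h2⟩
      · rw [h2]
        exact Or.inr (Or.inr (Or.inr hε'))
      · rw [Γ.far_unc h2]
        exact Or.inr (Or.inl h2)
    · exact Or.inr (Or.inr (Or.inr hε'))
    · rcases R1 with h2 | ⟨-, h2⟩
      · rw [← h2]
        exact Or.inl e1'
      · rw [Γ.far_unc h2]
        exact Or.inr (Or.inr (Or.inl h2))

end DegM

open DegM PivM in
/-- DEG -/
theorem specDEG (hKIT : SpecKIT) (hL1 : SpecL1) (hDIST : SpecDIST) (hMIN : SpecMIN)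
    (hCUT : SpecCUT) : SpecDEG := by
  intro V Γ hG h6 δ hδ
  have : Finite V := hG.fin
  have := Γ.finD
  have hk := hG.k3
  by_contra h3
  have hU : ∀ k : ℕ, Γ.Unc ((Γ.σ ^ k) δ) := fun k => (hδ k).1.1
  obtain ⟨v, hv⟩ := (hU 0).1
  rw [pow_zero, Equiv.Perm.one_apply] at hv
  have hvk : ∀ k : ℕ, Γ.org ((Γ.σ ^ k) δ) = inl v := by
    intro k
    rw [← hv]
    exact ((Γ.orbit δ _).2 ⟨k, by simp⟩).symm
  have hwk : ∀ k : ℕ, ∃ w, Γ.org (Γ.α ((Γ.σ ^ k) δ)) = inl w := fun k => (hU k).2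
  choose w hw using hwk
  have hs : ∀ k : ℕ, (Γ.σ ^ (k + 1)) δ = Γ.σ ((Γ.σ ^ k) δ) := by
    intro k
    rw [pow_succ', Equiv.Perm.mul_apply]
  have e3 : (Γ.σ ^ (0 + 1 + 1 + 1)) δ = Γ.σ (Γ.σ (Γ.σ δ)) := by
    rw [hs, hs, hs, pow_zero, Equiv.Perm.one_apply]
  have h3k : ∀ k : ℕ, (Γ.σ ^ (k + 3)) δ ≠ (Γ.σ ^ k) δ := by
    intro k h
    apply h3
    rw [pow_add, Equiv.Perm.mul_apply] at h
    have h1 := (Γ.σ ^ k).injective h
    exact e3.symm.trans h1
  have hne1 : ∀ k, w (k + 1) ≠ w k := fun k =>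
    wne Γ (hvk (k + 1)) (hvk k) (hw (k + 1)) (hw k) (by
      rw [hs k]
      exact (hMIN V Γ hk _ v (hvk k)).1)
  have hvw : ∀ k, v ≠ w k := fun k => (Γ.adj_α (hvk k) (hw k)).ne
  have hcore : ∀ k, (Γ.σ ^ (k + 4)) δ = (Γ.σ ^ k) δ ∧ ∃ ε e1, Γ.org ε = inl (w (k + 1)) ∧
      Γ.org (Γ.far ε) = inl (w (k + 3)) ∧ Γ.org e1 = inl (w (k + 2)) ∧
      Γ.org (Γ.far e1) = inl (w (k + 4)) ∧ Γ.Cr ε e1 := fun k =>
    core Γ hKIT hMIN hG (hs k) (hs (k + 1)) (hs (k + 2)) (hs (k + 3)) (hvk k) (hw k) (hw (k + 1))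
      (hw (k + 2)) (hw (k + 3)) (hw (k + 4)) (h3k k) (h3k (k + 1))
  have hper : ∀ k, w (k + 4) = w k := by
    intro k
    have h1 := hw (k + 4)
    rw [(hcore k).1, hw k] at h1
    exact (inl.inj h1).symm
  have hloc : ∀ k q, Γ.org q = inl (w (k + 1)) → Γ.org (Γ.far q) = inl v ∨
      Γ.org (Γ.far q) = inl (w k) ∨ Γ.org (Γ.far q) = inl (w (k + 2)) ∨
      Γ.org (Γ.far q) = inl (w (k + 3)) := by
    intro k q hq
    obtain ⟨-, ε, e1, h1, h2, h4, h5, h7⟩ := hcore k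
    rw [hper k] at h5
    exact loc Γ hL1 hDIST hk (hs k) (hs (k + 1)) (hvk (k + 1)) (hw k) (hw (k + 1)) (hw (k + 2))
      (hne1 k) (hne1 (k + 1)).symm (hvw (k + 2)) h1 h2 h4 h5 h7 q hq
  set C : Set V := {x | x = v ∨ ∃ k, x = w k} with hC
  have hadj : ∀ x y, Γ.graph.Adj x y → x ∈ C → y ∈ C := by
    rintro x y hxy (rfl | ⟨k, rfl⟩)
    · obtain ⟨d, hd1, hd2⟩ := (Γ.adj_iff x y).mp hxy
      obtain ⟨n, hn⟩ := ((Γ.orbit δ d).1 (by rw [hv, hd1])).exists_nat_pow_eq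
      rw [← hn, Γ.far_unc (hw n), hw n] at hd2
      exact Or.inr ⟨n, (inl.inj hd2).symm⟩
    · obtain ⟨d, hd1, hd2⟩ := (Γ.adj_iff _ y).mp hxy
      have h1 : Γ.org d = inl (w (k + 3 + 1)) := by
        rw [hd1]
        exact congrArg inl (hper k).symm
      rcases hloc (k + 3) d h1 with h | h | h | h <;> rw [hd2] at h
      · exact Or.inl (inl.inj h)
      · exact Or.inr ⟨_, inl.inj h⟩
      · exact Or.inr ⟨_, inl.inj h⟩
      · exact Or.inr ⟨_, inl.inj h⟩
  classical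
  have hall : ∀ x, x ∈ C := by
    intro x
    by_cases hx : x = w 0
    · exact Or.inr ⟨0, hx⟩
    · have h1 := hCUT V Γ.graph hk (w 0) (w 0) (fun x => if x ∈ C then 1 else 0) (by
        intro p q hpq _ _ _ _
        have hiff : p ∈ C ↔ q ∈ C := ⟨hadj p q hpq, hadj q p hpq.symm⟩
        simp only [hiff]) v x (hvw 0) (hvw 0) hx hx
      have hvC : v ∈ C := Or.inl rfl
      by_contra hxC
      simp only [hvC, hxC, if_true, if_false] at h1
      exact absurd h1 (by decide)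
  have hmod : ∀ k, w k = w 0 ∨ w k = w 1 ∨ w k = w 2 ∨ w k = w 3 := by
    intro k
    induction k using Nat.strong_induction_on with
    | _ k ih =>
      rcases Nat.lt_or_ge k 4 with h | h
      · interval_cases k <;> simp
      · obtain ⟨j, rfl⟩ : ∃ j, k = j + 4 := ⟨k - 4, by omega⟩
        rw [hper j]
        exact ih j (by omega)
  have hfin : Fintype V := Fintype.ofFinite V
  have hle : Nat.card V ≤ 5 := by
    rw [Nat.card_eq_fintype_card, ← Finset.card_univ]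
    refine le_trans (Finset.card_le_card (t := {v, w 0, w 1, w 2, w 3}) ?_) Finset.card_le_five
    intro x _
    rcases hall x with h | ⟨k, h⟩
    · rw [h]
      simp
    · rw [h]
      rcases hmod k with h1 | h1 | h1 | h1 <;> rw [h1] <;> simp
  omega

end Pool.Agent.Lib.MP0c8bd9
end

section
/-!
# MP_0c8bd9_co : every face with three vertices contains a dart with `NE`
-/
set_option autoImplicit false

namespace Pool.Agent.Lib.MP0c8bd9

open Sum

theorem specEXN (hCLF : SpecCLF) : SpecEXN := by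
  classical
  intro V Γ hG f hf
  have := Γ.finD
  by_contra hcon
  push Not at hcon
  have hstep : ∀ d, Γ.fc d = f → (Γ.org d).isLeft → (Γ.org (Γ.φ d)).isLeft ∧ Γ.T3 (Γ.α d) := by
    intro d hd hl
    have h1 := hcon d hd
    obtain ⟨v, hv⟩ := Sum.isLeft_iff.mp hl
    have h3 : Γ.T3 d := by unfold Drawing.T3; rw [hd, hf]
    constructor
    · rcases ho : Γ.org (Γ.φ d) with w | x
      · rfl
      · exact absurd ⟨⟨v, hv⟩, h3, Or.inl ⟨x, ho⟩⟩ h1
    · by_contra h4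
      exact h1 ⟨⟨v, hv⟩, h3, Or.inr h4⟩
  -- a dart at a vertex
  have hpos : 0 < Nat.card {d : Γ.D // Γ.fc d = f ∧ (Γ.org d).isLeft} := by
    change 0 < Γ.tn f
    omega
  obtain ⟨⟨β, hβ, hβl⟩⟩ := (Nat.card_pos_iff.1 hpos).1
  have hfφ : ∀ d, Γ.fc (Γ.φ d) = Γ.fc d := fun d => (Γ.fc_eq.2 (Γ.sameFace_φ d)).symm
  have hpow : ∀ n : ℕ, Γ.fc ((Γ.φ ^ n) β) = f ∧ (Γ.org ((Γ.φ ^ n) β)).isLeft := by
    intro n
    induction n with
    | zero => exact ⟨by simpa using hβ, by simpa using hβl⟩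
    | succ n ih =>
      rw [pow_succ', Equiv.Perm.mul_apply]
      exact ⟨by rw [hfφ, ih.1], (hstep _ ih.1 ih.2).1⟩
  -- the cycle has length three
  have hsmall : ∀ k, 0 < k → (Γ.φ ^ k) β = β → 3 ≤ k := by
    intro k hk0 hk
    let F : Fin k → {d : Γ.D // Γ.fc d = f ∧ (Γ.org d).isLeft} := fun i =>
      ⟨(Γ.φ ^ (i : ℕ)) β, hpow i⟩
    have hF : Function.Surjective F := by
      rintro ⟨d, hd, hl⟩
      obtain ⟨n, hn⟩ := (Γ.fc_eq.1 (hβ.trans hd.symm)).exists_nat_pow_eq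
      refine ⟨⟨n % k, Nat.mod_lt _ hk0⟩, Subtype.ext ?_⟩
      show (Γ.φ ^ (n % k)) β = d
      rw [← hn]
      have h2 : ∀ m : ℕ, (Γ.φ ^ (k * m)) β = β := by
        intro m
        induction m with
        | zero => simp
        | succ m ih => rw [Nat.mul_succ, pow_add, Equiv.Perm.mul_apply, hk, ih]
      conv_rhs => rw [← Nat.mod_add_div n k, pow_add, Equiv.Perm.mul_apply, h2]
    have h1 := Nat.card_le_card_of_surjective F hF
    rw [Nat.card_fin] at h1
    change Γ.tn f ≤ k at h1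
    omega
  have h3 : Γ.φ (Γ.φ (Γ.φ β)) = β := by
    have hni : ¬ Function.Injective (fun i : Fin 4 =>
        (⟨(Γ.φ ^ (i : ℕ)) β, hpow i⟩ : {d : Γ.D // Γ.fc d = f ∧ (Γ.org d).isLeft})) := by
      intro h
      have h1 := Nat.card_le_card_of_injective _ h
      rw [Nat.card_fin] at h1
      change 4 ≤ Γ.tn f at h1
      omega
    have hij : ∃ i j : ℕ, i < j ∧ j < 4 ∧ (Γ.φ ^ i) β = (Γ.φ ^ j) β := by
      unfold Function.Injective at hni
      push Not at hni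
      obtain ⟨i, j, h1, h2⟩ := hni
      have h1' := congrArg Subtype.val h1
      simp only at h1'
      rcases lt_or_gt_of_ne (fun h => h2 (Fin.ext h) : (i : ℕ) ≠ j) with h | h
      · exact ⟨i, j, h, j.2, h1'⟩
      · exact ⟨j, i, h, i.2, h1'.symm⟩
    obtain ⟨i, j, h1, h2, h4⟩ := hij
    have h5 : (Γ.φ ^ (j - i)) β = β := by
      have h6 : (Γ.φ ^ j) β = (Γ.φ ^ i) ((Γ.φ ^ (j - i)) β) := by
        rw [← Equiv.Perm.mul_apply, ← pow_add]
        congr 2
        omega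
      rw [h6] at h4
      exact ((Γ.φ ^ i).injective h4).symm
    have h6 := hsmall (j - i) (by omega) h5
    have h7 : j - i = 3 := by omega
    rw [h7] at h5
    simpa [pow_succ] using h5
  have hd : ∀ n : ℕ, Γ.Unc ((Γ.φ ^ n) β) ∧ Γ.T3 (Γ.α ((Γ.φ ^ n) β)) := by
    intro n
    have h1 := hstep _ (hpow n).1 (hpow n).2
    refine ⟨⟨Sum.isLeft_iff.mp (hpow n).2, ?_⟩, h1.2⟩
    rw [← Γ.org_φ]
    exact Sum.isLeft_iff.mp h1.1
  have d0 := hd 0
  have d1 := hd 1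
  have d2 := hd 2
  simp only [pow_zero, pow_one, pow_two, Equiv.Perm.mul_apply, Equiv.Perm.one_apply] at d0 d1 d2
  exact hCLF V Γ hG β h3 d0.1 d1.1 d2.1 d0.2 d1.2 d2.2

end Pool.Agent.Lib.MP0c8bd9
end

section
/-!
# MP_0c8bd9_co : module L1
-/
set_option autoImplicit false

namespace Pool.Agent.Lib.MP0c8bd9

open Sum

namespace L1M

theorem ind_def {D : Type} (a d : D) [Decidable (d = a)] :
    ind a d = if d = a then 1 else 0 := by
  classical
  unfold ind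
  by_cases h : d = a
  · subst h; simp
  · rw [Set.indicator_of_notMem (by simpa using h), if_neg h]

theorem ind_self {D : Type} (a : D) : ind a a = 1 := by classical rw [ind_def, if_pos rfl]

theorem ind_ne {D : Type} {a d : D} (h : d ≠ a) : ind a d = 0 := by
  classical rw [ind_def, if_neg h]

theorem zmod_ne {x y z : ZMod 2} (h1 : x ≠ z) (h2 : y ≠ z) : x = y := by
  revert x y z; decide

theorem zmod_or (x z : ZMod 2) : x + 1 ≠ z ∨ x ≠ z := by
  revert x z; decide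

variable {V : Type}

/-- a function which is invariant under `σ` at a point is constant there -/
theorem const_at (Γ : Drawing V) (s : Γ.D → ZMod 2) (o : V ⊕ Γ.X)
    (h : ∀ d, Γ.org d = o → s (Γ.σ d) = s d) (d e : Γ.D) (hd : Γ.org d = o) (he : Γ.org e = o) :
    s d = s e := by
  have := Γ.finD
  obtain ⟨n, hn⟩ := ((Γ.orbit d e).1 (by rw [hd, he])).exists_nat_pow_eq
  have key : ∀ n : ℕ, Γ.org ((Γ.σ ^ n) d) = o ∧ s ((Γ.σ ^ n) d) = s d := by
    intro n
    induction n with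
    | zero => simp [hd]
    | succ n ih =>
      rw [pow_succ', Equiv.Perm.mul_apply]
      exact ⟨by rw [Γ.org_σ, ih.1], by rw [h _ ih.1, ih.2]⟩
  rw [← hn]
  exact (key n).2.symm

theorem cut_const [Finite V] (hCUT : SpecCUT) (Γ : Drawing V) (hk : KConn Γ.graph 3)
    (s : Γ.D → ZMod 2) (u v : V) (hα : ∀ d, s (Γ.α d) = s d)
    (h : ∀ d, Γ.org d ≠ inl u → Γ.org d ≠ inl v → s (Γ.σ d) = s d) :
    ∃ z, ∀ d, Γ.org d ≠ inl u → Γ.org d ≠ inl v → s d = z := by
  classical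
  -- constant at vertices
  have hc : ∀ o : V ⊕ Γ.X, o ≠ inl u → o ≠ inl v → ∀ d e, Γ.org d = o → Γ.org e = o →
      s d = s e := by
    intro o h1 h2 d e hd he
    exact const_at Γ s o (fun d hd => h d (by rw [hd]; exact h1) (by rw [hd]; exact h2)) d e hd he
  choose D0 hD0 using Γ.onto
  have hf : ∀ p q, Γ.graph.Adj p q → p ≠ u → p ≠ v → q ≠ u → q ≠ v →
      s (D0 (inl p)) = s (D0 (inl q)) := by
    intro p q hpq h1 h2 h3 h4
    obtain ⟨d, hd, hd2⟩ := (Γ.adj_iff p q).1 hpq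
    rw [hc (inl p) (by simpa using h1) (by simpa using h2) _ d (hD0 _) hd]
    rw [hc (inl q) (by simpa using h3) (by simpa using h4) _ (Γ.far d) (hD0 _) hd2]
    rcases hx : Γ.org (Γ.α d) with w | x
    · rw [Γ.far_unc hx, hα]
    · rw [Γ.far_cr hx, hα, ← hα d]
      exact hc (inr x) (by simp) (by simp) _ _ hx (by rw [Γ.org_σ2, hx])
  by_cases hw : ∃ w, w ≠ u ∧ w ≠ v
  · obtain ⟨w, hwu, hwv⟩ := hw
    have hcut := hCUT V Γ.graph hk u v (fun p => s (D0 (inl p))) hf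
    refine ⟨s (D0 (inl w)), ?_⟩
    have hV : ∀ d p, Γ.org d = inl p → p ≠ u → p ≠ v → s d = s (D0 (inl w)) := by
      intro d p hd h1 h2
      rw [hc (inl p) (by simpa using h1) (by simpa using h2) d _ hd (hD0 _)]
      exact hcut p w h1 h2 hwu hwv
    intro d h1 h2
    rcases hd : Γ.org d with p | x
    · rw [hd] at h1 h2
      exact hV d p hd (by simpa using h1) (by simpa using h2)
    · obtain ⟨c, hinj, h0, h1', h2', h3⟩ := Γ.ends hd
      have e1 := hc (inr x) (by simp) (by simp) d _ hd (by rw [Γ.org_σ, hd] : Γ.org (Γ.σ d) = inr x)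
      have e2 := hc (inr x) (by simp) (by simp) d _ hd (by rw [Γ.org_σ2, hd] : Γ.org (Γ.σ (Γ.σ d)) = inr x)
      -- one of the three ends is neither u nor v
      by_cases g0 : c 0 ≠ u ∧ c 0 ≠ v
      · rw [← hα]; exact hV _ _ h0 g0.1 g0.2
      by_cases g1 : c 1 ≠ u ∧ c 1 ≠ v
      · rw [e1, ← hα]; exact hV _ _ h1' g1.1 g1.2
      by_cases g2 : c 2 ≠ u ∧ c 2 ≠ v
      · rw [e2, ← hα]; exact hV _ _ h2' g2.1 g2.2
      exfalso
      have n01 : c 0 ≠ c 1 := fun h => by have := hinj h; simp at this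
      have n02 : c 0 ≠ c 2 := fun h => by have := hinj h; simp at this
      have n12 : c 1 ≠ c 2 := fun h => by have := hinj h; simp at this
      have t0 : c 0 = u ∨ c 0 = v := by tauto
      have t1 : c 1 = u ∨ c 1 = v := by tauto
      have t2 : c 2 = u ∨ c 2 = v := by tauto
      rcases t0 with t0 | t0 <;> rcases t1 with t1 | t1 <;> rcases t2 with t2 | t2 <;>
        first
          | exact n01 (t0.trans t1.symm)
          | exact n02 (t0.trans t2.symm)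
          | exact n12 (t1.trans t2.symm)
  · exfalso
    have hcard : Nat.card V ≤ 2 := by
      have hsub : (Set.univ : Set V) ⊆ {u, v} := by
        intro w _
        by_contra hc
        apply hw
        refine ⟨w, ?_, ?_⟩
        · rintro rfl; simp at hc
        · rintro rfl; simp at hc
      calc Nat.card V = (Set.univ : Set V).ncard := (Set.ncard_univ V).symm
        _ ≤ ({u, v} : Set V).ncard := Set.ncard_le_ncard hsub (Set.toFinite _)
        _ ≤ 2 := by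
          calc ({u, v} : Set V).ncard ≤ ({v} : Set V).ncard + 1 := Set.ncard_insert_le _ _
            _ = 2 := by rw [Set.ncard_singleton]
    have := hk.1
    omega

end L1M

open L1M in
theorem specL1 (hJORC : SpecJORC) (hCUT : SpecCUT) : SpecL1 := by
  classical
  intro V _ Γ hk u v d₁ d₂ e₁ e₂ huv hd₁ hd₂ he₁ he₂ hd he hne
  have hdd : d₁ ≠ e₁ := by
    rintro rfl
    exact hne (Equiv.Perm.SameCycle.refl _ _)
  have hdd2 : d₂ ≠ e₂ := by
    rintro rfl
    exact hne (hd.trans he.symm)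
  obtain ⟨s, hα, hσ⟩ := hJORC V Γ 2 ![Γ.σ.symm d₁, Γ.σ.symm e₂] ![Γ.σ.symm e₁, Γ.σ.symm d₂]
    (by
      intro i
      fin_cases i
      · exact (Γ.orbit _ _).1 (by simp [Γ.org_σ_symm, hd₁, he₁])
      · exact (Γ.orbit _ _).1 (by simp [Γ.org_σ_symm, hd₂, he₂]))
    (by
      intro i
      fin_cases i
      · simpa using he
      · simpa using hd.symm)
  simp only [Fin.sum_univ_two, Matrix.cons_val_zero, Matrix.cons_val_one] at hσ
  have hne_of : ∀ {d e : Γ.D} {x y : V ⊕ Γ.X}, Γ.org d = x → Γ.org e = y → x ≠ y → d ≠ Γ.σ.symm e := by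
    intro d e x y h1 h2 h3 h4
    rw [h4, Γ.org_σ_symm, h2] at h1
    exact h3 h1.symm
  have hother : ∀ d, Γ.org d ≠ inl u → Γ.org d ≠ inl v → s (Γ.σ d) = s d := by
    intro d h1 h2
    rw [hσ, ind_ne (hne_of rfl hd₁ h1), ind_ne (hne_of rfl he₁ h1), ind_ne (hne_of rfl hd₂ h2),
      ind_ne (hne_of rfl he₂ h2)]
    simp
  obtain ⟨z, hz⟩ := cut_const hCUT Γ hk s u v hα hother
  have huvl : (inl u : V ⊕ Γ.X) ≠ inl v := by simpa using huv
  -- uniqueness
  have huni : ∀ (u' v' : V), (u' = u ∧ v' = v ∨ u' = v ∧ v' = u) → ∀ d, Γ.org d = inl u' → s d ≠ z →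
      Γ.org (Γ.α d) = inl v' := by
    intro u' v' huv' d hd hs
    have h1 : s (Γ.α d) ≠ z := by rw [hα]; exact hs
    have h2 : Γ.org (Γ.α d) ≠ inl u' := by
      intro h
      obtain ⟨w, hw, hw2⟩ := Γ.exists_org_far hd
      rw [Γ.far_unc h, h] at hw2
      exact hw (inl.inj hw2).symm
    by_contra h3
    apply h1
    rcases huv' with ⟨rfl, rfl⟩ | ⟨rfl, rfl⟩
    · exact hz _ h2 h3
    · exact hz _ h3 h2
  have huni2 : ∀ (u' v' : V), (u' = u ∧ v' = v ∨ u' = v ∧ v' = u) → ∀ d e, Γ.org d = inl u' →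
      Γ.org e = inl u' → s d ≠ z → s e ≠ z → d = e := by
    intro u' v' huv' d e hd he hs hs'
    have h1 := huni u' v' huv' d hd hs
    have h2 := huni u' v' huv' e he hs'
    apply Γ.far_inj hd he
    rw [Γ.far_unc h1, Γ.far_unc h2, h1, h2]
  -- jumps at u
  have jd1 : s d₁ = s (Γ.σ.symm d₁) + 1 := by
    have h := hσ (Γ.σ.symm d₁)
    rw [Equiv.apply_symm_apply, ind_self, ind_ne (a := Γ.σ.symm e₁), ind_ne (a := Γ.σ.symm e₂),
      ind_ne (a := Γ.σ.symm d₂)] at h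
    · rw [h]; ring
    · intro h2
      exact hne_of (Γ.org_σ_symm d₁) hd₂ (by rw [hd₁]; exact huvl) h2
    · intro h2
      exact hne_of (Γ.org_σ_symm d₁) he₂ (by rw [hd₁]; exact huvl) h2
    · intro h2
      exact hdd (Γ.σ.symm.injective h2)
  have je1 : s e₁ = s (Γ.σ.symm e₁) + 1 := by
    have h := hσ (Γ.σ.symm e₁)
    rw [Equiv.apply_symm_apply, ind_self, ind_ne (a := Γ.σ.symm d₁), ind_ne (a := Γ.σ.symm e₂),
      ind_ne (a := Γ.σ.symm d₂)] at h
    · rw [h]; ring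
    · intro h2
      exact hne_of (Γ.org_σ_symm e₁) hd₂ (by rw [he₁]; exact huvl) h2
    · intro h2
      exact hne_of (Γ.org_σ_symm e₁) he₂ (by rw [he₁]; exact huvl) h2
    · intro h2
      exact hdd (Γ.σ.symm.injective h2.symm)
  have jd2 : s d₂ = s (Γ.σ.symm d₂) + 1 := by
    have h := hσ (Γ.σ.symm d₂)
    rw [Equiv.apply_symm_apply, ind_self, ind_ne (a := Γ.σ.symm d₁), ind_ne (a := Γ.σ.symm e₂),
      ind_ne (a := Γ.σ.symm e₁)] at h
    · rw [h]; ring
    · intro h2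
      exact hne_of (Γ.org_σ_symm d₂) he₁ (by rw [hd₂]; exact huvl.symm) h2
    · intro h2
      exact hdd2 (Γ.σ.symm.injective h2)
    · intro h2
      exact hne_of (Γ.org_σ_symm d₂) hd₁ (by rw [hd₂]; exact huvl.symm) h2
  have je2 : s e₂ = s (Γ.σ.symm e₂) + 1 := by
    have h := hσ (Γ.σ.symm e₂)
    rw [Equiv.apply_symm_apply, ind_self, ind_ne (a := Γ.σ.symm d₁), ind_ne (a := Γ.σ.symm d₂),
      ind_ne (a := Γ.σ.symm e₁)] at h
    · rw [h]; ring
    · intro h2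
      exact hne_of (Γ.org_σ_symm e₂) he₁ (by rw [he₂]; exact huvl.symm) h2
    · intro h2
      exact hdd2 (Γ.σ.symm.injective h2.symm)
    · intro h2
      exact hne_of (Γ.org_σ_symm e₂) hd₁ (by rw [he₂]; exact huvl.symm) h2
  have key : ∀ (u' v' : V), (u' = u ∧ v' = v ∨ u' = v ∧ v' = u) → ∀ d e, Γ.org d = inl u' →
      Γ.org e = inl u' → d ≠ e → s d = s (Γ.σ.symm d) + 1 → s e = s (Γ.σ.symm e) + 1 →
      ∃ p, Γ.org p = inl u' ∧ s p ≠ z ∧ ((d = p ∧ e = Γ.σ p) ∨ (d = Γ.σ p ∧ e = p)) := by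
    intro u' v' huv' d e hd he hde jd je
    have h1 : s d ≠ z ∨ s (Γ.σ.symm d) ≠ z := by
      rw [jd]
      exact zmod_or _ _
    have h2 : s e ≠ z ∨ s (Γ.σ.symm e) ≠ z := by
      rw [je]
      exact zmod_or _ _
    have hd' : Γ.org (Γ.σ.symm d) = inl u' := by rw [Γ.org_σ_symm, hd]
    have he' : Γ.org (Γ.σ.symm e) = inl u' := by rw [Γ.org_σ_symm, he]
    rcases h1 with h1 | h1 <;> rcases h2 with h2 | h2
    · exact absurd (huni2 u' v' huv' _ _ hd he h1 h2) hde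
    · have := huni2 u' v' huv' _ _ hd he' h1 h2
      refine ⟨d, hd, h1, Or.inl ⟨rfl, ?_⟩⟩
      rw [this, Equiv.apply_symm_apply]
    · have := huni2 u' v' huv' _ _ hd' he h1 h2
      refine ⟨e, he, h2, Or.inr ⟨?_, rfl⟩⟩
      rw [← this, Equiv.apply_symm_apply]
    · exact absurd (Γ.σ.symm.injective (huni2 u' v' huv' _ _ hd' he' h1 h2)) hde
  obtain ⟨p, hp, hsp, hp2⟩ := key u v (Or.inl ⟨rfl, rfl⟩) d₁ e₁ hd₁ he₁ hdd jd1 je1
  obtain ⟨q, hq, hsq, hq2⟩ := key v u (Or.inr ⟨rfl, rfl⟩) d₂ e₂ hd₂ he₂ hdd2 jd2 je2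
  have hpα := huni u v (Or.inl ⟨rfl, rfl⟩) p hp hsp
  have hqp : q = Γ.α p := huni2 v u (Or.inr ⟨rfl, rfl⟩) _ _ hq hpα hsq (by rw [hα]; exact hsp)
  subst hqp
  refine ⟨p, hp, hpα, ?_⟩
  rcases hp2 with ⟨h1, h2⟩ | ⟨h1, h2⟩ <;> rcases hq2 with ⟨h3, h4⟩ | ⟨h3, h4⟩
  · exfalso
    apply hne
    have h5 : Γ.φ.SameCycle d₁ e₂ := by
      rw [h1, h4, ← Γ.φ_apply]; exact Γ.sameFace_φ p
    exact h5.trans he.symm
  · exact Or.inl ⟨h1, h2, h3, h4⟩
  · exact Or.inr ⟨h1, h2, h3, h4⟩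
  · exfalso
    apply hne
    have h5 : Γ.φ.SameCycle e₂ d₁ := by
      rw [h1, h4]; exact Γ.sameFace_σ p
    exact (he.trans h5).symm

end Pool.Agent.Lib.MP0c8bd9
end

section
/-!
# MP_0c8bd9_co : module HUG
-/
set_option autoImplicit false

namespace Pool.Agent.Lib.MP0c8bd9

open Sum

namespace HUGM

open L1M

variable {V : Type}

theorem z2a (x r : ZMod 2) : x + (r + 0 + 0 + 0 + 0) = x + r := by ring

/-- The part of a closed curve which runs along an edge. -/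
theorem core (Γ : Drawing V) (d : Γ.D) (a b : V) (ha : Γ.org d = inl a)
    (hb : Γ.org (Γ.far d) = inl b) :
    ∃ m : Γ.D, Γ.σ.SameCycle (Γ.σ.symm (Γ.α d)) m ∧ Γ.φ.SameCycle (Γ.σ m) (Γ.far d) ∧
    ∀ (s R : Γ.D → ZMod 2), (∀ z, s (Γ.α z) = s z) → (∀ z x, Γ.org z = inr x → R z = 0) →
    (∀ z, s (Γ.σ z) = s z + (R z + ind d z + ind (Γ.σ.symm (Γ.α d)) z + ind m z +
      ind (Γ.σ.symm (Γ.far d)) z)) →
    (∀ z v, Γ.org z = inl v → v ≠ a → v ≠ b → s (Γ.σ z) = s z + R z) ∧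
    (∀ e x y, Γ.org e = inl x → Γ.org (Γ.far e) = inl y → x ≠ a → x ≠ b →
      ((s (Γ.far e) = s e ∧ ¬ Γ.Cr d e) ∨ (s (Γ.far e) = s e + 1 ∧ Γ.Cr d e))) ∧
    ∃ s' : Γ.D → ZMod 2, (∀ z, s' (Γ.φ z) = s' z + R (Γ.α z)) ∧
      ∀ z v, Γ.org z = inl v → v ≠ b → s' z = s z := by
  classical
  rcases hx : Γ.org (Γ.α d) with w | x₀
  · -- uncrossed
    have hfar := Γ.far_unc hx
    rw [hfar] at hb
    have hncr : ∀ e, ¬ Γ.Cr d e := by
      rintro e ⟨x, hx', -⟩
      rw [hx'] at hx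
      cases hx
    refine ⟨Γ.σ.symm (Γ.α d), Equiv.Perm.SameCycle.refl _ _, ?_, ?_⟩
    · rw [hfar, Equiv.apply_symm_apply]
    · intro s R hα hR hσ
      rw [hfar] at hσ
      have hσ' : ∀ z, s (Γ.σ z) = s z + (R z + ind d z + ind (Γ.σ.symm (Γ.α d)) z) := by
        intro z
        rw [hσ]
        generalize ind (Γ.σ.symm (Γ.α d)) z = t
        generalize R z + ind d z = r
        generalize s z = q
        revert t r q; decide
      have hcr : ∀ z x, Γ.org z = inr x → s (Γ.σ z) = s z := by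
        intro z x hz
        rw [hσ' z, hR z x hz, ind_ne, ind_ne]
        · ring
        · intro h; rw [h, Γ.org_σ_symm, hb] at hz; cases hz
        · rintro rfl; rw [ha] at hz; cases hz
      refine ⟨?_, ?_, ?_⟩
      · intro z v hz hva hvb
        rw [hσ' z, ind_ne, ind_ne]
        · ring
        · intro h; rw [h, Γ.org_σ_symm, hb] at hz; exact hvb (inl.inj hz).symm
        · rintro rfl; rw [ha] at hz; exact hva (inl.inj hz).symm
      · intro e x y he hfe hxa hxb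
        left
        refine ⟨?_, hncr e⟩
        rcases hα' : Γ.org (Γ.α e) with w' | x'
        · rw [Γ.far_unc hα', hα]
        · rw [Γ.far_cr hα', hα, hcr _ x' (by rw [Γ.org_σ, hα']), hcr _ x' hα', hα]
      · refine ⟨fun z => s z + ind (Γ.α d) z, ?_, ?_⟩
        · intro z
          show s (Γ.φ z) + ind (Γ.α d) (Γ.φ z) = s z + ind (Γ.α d) z + R (Γ.α z)
          rw [Γ.φ_apply, hσ' (Γ.α z), hα]
          have h1 : ind d (Γ.α z) = ind (Γ.α d) z := by
            rw [ind_def, ind_def]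
            have : (Γ.α z = d) ↔ (z = Γ.α d) := by
              constructor
              · rintro rfl; rw [Γ.invol]
              · rintro rfl; rw [Γ.invol]
            simp only [this]
          have h2 : ind (Γ.σ.symm (Γ.α d)) (Γ.α z) = ind (Γ.α d) (Γ.σ (Γ.α z)) := by
            rw [ind_def, ind_def]
            have : (Γ.α z = Γ.σ.symm (Γ.α d)) ↔ (Γ.σ (Γ.α z) = Γ.α d) := by
              rw [Equiv.eq_symm_apply]
            simp only [this]
          rw [h1, h2]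
          generalize s z = t1
          generalize R (Γ.α z) = t2
          generalize ind (Γ.α d) z = t3
          generalize ind (Γ.α d) (Γ.σ (Γ.α z)) = t4
          revert t1 t2 t3 t4; decide
        · intro z v hz hvb
          show s z + ind (Γ.α d) z = s z
          rw [ind_ne, add_zero]
          rintro rfl
          rw [hb] at hz
          exact hvb (inl.inj hz).symm
  · -- crossed
    have hfar := Γ.far_cr hx
    have hαfar : Γ.α (Γ.far d) = Γ.σ (Γ.σ (Γ.α d)) := by rw [hfar, Γ.invol]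
    have hσm : Γ.org (Γ.σ.symm (Γ.α d)) = inr x₀ := by rw [Γ.org_σ_symm, hx]
    have hm2 : Γ.org (Γ.σ (Γ.σ (Γ.α d))) = inr x₀ := by rw [Γ.org_σ2, hx]
    have hbf : Γ.org (Γ.σ.symm (Γ.far d)) = inl b := by rw [Γ.org_σ_symm, hb]
    have hσ3 : Γ.σ.symm (Γ.α d) = Γ.σ (Γ.σ (Γ.σ (Γ.α d))) := by
      rw [Equiv.symm_apply_eq, Γ.σ4 hx]
    refine ⟨Γ.σ (Γ.σ (Γ.α d)), (Γ.orbit _ _).1 (by rw [hσm, hm2]), ?_, ?_⟩
    · have h := Γ.sameFace_φ (Γ.far d)
      rw [Γ.φ_apply, hαfar] at h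
      exact h.symm
    · intro s R hα hR hσ
      have hcr : ∀ z x, Γ.org z = inr x → s (Γ.σ z) = s z + (ind (Γ.σ.symm (Γ.α d)) z +
          ind (Γ.σ (Γ.σ (Γ.α d))) z) := by
        intro z x hz
        rw [hσ z, hR z x hz, ind_ne (a := d), ind_ne (a := Γ.σ.symm (Γ.far d))]
        · ring
        · rintro rfl; rw [hbf] at hz; cases hz
        · rintro rfl; rw [ha] at hz; cases hz
      have hcr' : ∀ z x, Γ.org z = inr x → x ≠ x₀ → s (Γ.σ z) = s z := by
        intro z x hz hxx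
        rw [hcr z x hz, ind_ne, ind_ne]
        · ring
        · rintro rfl; rw [hm2] at hz; exact hxx (inr.inj hz).symm
        · intro h; rw [h, hσm] at hz; exact hxx (inr.inj hz).symm
      -- values at the crossing
      have o1 : Γ.org (Γ.σ (Γ.α d)) = inr x₀ := by rw [Γ.org_σ, hx]
      have n10 : Γ.σ (Γ.α d) ≠ Γ.α d := Γ.σ_ne hx
      have n20 : Γ.σ (Γ.σ (Γ.α d)) ≠ Γ.α d := Γ.σσ_ne hx
      have n30 : Γ.σ (Γ.σ (Γ.σ (Γ.α d))) ≠ Γ.α d := Γ.σσσ_ne hx
      have v1 : s (Γ.σ (Γ.α d)) = s (Γ.α d) := by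
        rw [hcr _ x₀ hx, ind_ne, ind_ne]
        · ring
        · exact n20.symm
        · rw [hσ3]; exact n30.symm
      have v2 : s (Γ.σ (Γ.σ (Γ.α d))) = s (Γ.α d) := by
        rw [hcr _ x₀ o1, ind_ne, ind_ne, v1]
        · ring
        · intro h; exact n10 (Γ.σ.injective h).symm
        · rw [hσ3]; intro h; exact n20 (Γ.σ.injective h).symm
      have v3 : s (Γ.σ (Γ.σ (Γ.σ (Γ.α d)))) = s (Γ.α d) + 1 := by
        rw [hcr _ x₀ hm2, ind_self, ind_ne, v2]
        · ring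
        · rw [hσ3]; intro h; exact n10 (Γ.σ.injective (Γ.σ.injective h)).symm
      refine ⟨?_, ?_, ?_⟩
      · intro z v hz hva hvb
        rw [hσ z, ind_ne (a := d), ind_ne (a := Γ.σ.symm (Γ.α d)),
          ind_ne (a := Γ.σ (Γ.σ (Γ.α d))), ind_ne (a := Γ.σ.symm (Γ.far d))]
        · ring
        · rintro rfl; rw [hbf] at hz; exact hvb (inl.inj hz).symm
        · rintro rfl; rw [hm2] at hz; cases hz
        · rintro rfl; rw [hσm] at hz; cases hz
        · rintro rfl; rw [ha] at hz; exact hva (inl.inj hz).symm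
      · intro e x y he hfe hxa hxb
        rcases hα' : Γ.org (Γ.α e) with w' | x'
        · left
          refine ⟨by rw [Γ.far_unc hα', hα], ?_⟩
          rintro ⟨x2, hx2, h | h⟩
          · have := congrArg Γ.org h
            rw [hα', Γ.org_σ, hx2] at this
            cases this
          · have := congrArg Γ.org h
            rw [hα', Γ.org_σ3, hx2] at this
            cases this
        · have oe1 : Γ.org (Γ.σ (Γ.α e)) = inr x' := by rw [Γ.org_σ, hα']
          by_cases hxx : x' = x₀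
          · subst hxx
            rcases Γ.eq_of_org hx hα' with h | h | h | h
            · exfalso
              have h1 : e = d := Γ.α.injective h
              rw [h1, ha] at he
              exact hxa (inl.inj he).symm
            · right
              refine ⟨?_, ⟨x', hx, Or.inl h⟩⟩
              rw [Γ.far_cr hα', hα, h, v3, ← hα e, h, v1]
            · exfalso
              have h1 : e = Γ.far d := by rw [hfar, ← h, Γ.invol]
              rw [h1, hb] at he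
              exact hxb (inl.inj he).symm
            · right
              refine ⟨?_, ⟨x', hx, Or.inr h⟩⟩
              rw [Γ.far_cr hα', hα, h, Γ.σ4 (by rw [hx] : Γ.org (Γ.α d) = inr x'), ← hα e, h, v1, v3]
              generalize s (Γ.α d) = t
              revert t; decide
          · left
            refine ⟨?_, ?_⟩
            · rw [Γ.far_cr hα', hα, hcr' _ x' oe1 hxx, hcr' _ x' hα' hxx, hα]
            · rintro ⟨x2, hx2, h⟩
              have h3 : Γ.org (Γ.α e) = Γ.org (Γ.α d) := by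
                rcases h with h | h
                · rw [h, Γ.org_σ]
                · rw [h, Γ.org_σ3]
              rw [hα', hx] at h3
              exact hxx (inr.inj h3)
      · refine ⟨fun z => s z + ind (Γ.α d) z + ind (Γ.far d) z, ?_, ?_⟩
        · intro z
          show s (Γ.φ z) + ind (Γ.α d) (Γ.φ z) + ind (Γ.far d) (Γ.φ z) =
            s z + ind (Γ.α d) z + ind (Γ.far d) z + R (Γ.α z)
          rw [Γ.φ_apply, hσ (Γ.α z), hα]
          have h1 : ind d (Γ.α z) = ind (Γ.α d) z := by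
            rw [ind_def, ind_def]
            have : (Γ.α z = d) ↔ (z = Γ.α d) := by
              constructor
              · rintro rfl; rw [Γ.invol]
              · rintro rfl; rw [Γ.invol]
            simp only [this]
          have h2 : ind (Γ.σ.symm (Γ.α d)) (Γ.α z) = ind (Γ.α d) (Γ.σ (Γ.α z)) := by
            rw [ind_def, ind_def]
            have : (Γ.α z = Γ.σ.symm (Γ.α d)) ↔ (Γ.σ (Γ.α z) = Γ.α d) := by
              rw [Equiv.eq_symm_apply]
            simp only [this]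
          have h3 : ind (Γ.σ.symm (Γ.far d)) (Γ.α z) = ind (Γ.far d) (Γ.σ (Γ.α z)) := by
            rw [ind_def, ind_def]
            have : (Γ.α z = Γ.σ.symm (Γ.far d)) ↔ (Γ.σ (Γ.α z) = Γ.far d) := by
              rw [Equiv.eq_symm_apply]
            simp only [this]
          have h4 : ind (Γ.σ (Γ.σ (Γ.α d))) (Γ.α z) = ind (Γ.far d) z := by
            rw [ind_def, ind_def]
            have : (Γ.α z = Γ.σ (Γ.σ (Γ.α d))) ↔ (z = Γ.far d) := by
              rw [← hαfar]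
              exact Γ.α.injective.eq_iff
            simp only [this]
          rw [h1, h2, h3, h4]
          generalize s z = t1
          generalize R (Γ.α z) = t2
          generalize ind (Γ.α d) z = t3
          generalize ind (Γ.α d) (Γ.σ (Γ.α z)) = t4
          generalize ind (Γ.far d) z = t5
          generalize ind (Γ.far d) (Γ.σ (Γ.α z)) = t6
          revert t1 t2 t3 t4 t5 t6; decide
        · intro z v hz hvb
          show s z + ind (Γ.α d) z + ind (Γ.far d) z = s z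
          rw [ind_ne, ind_ne, add_zero, add_zero]
          · rintro rfl
            rw [hb] at hz
            exact hvb (inl.inj hz).symm
          · rintro rfl
            rw [hx] at hz
            cases hz

end HUGM

open L1M HUGM in
theorem specHUG (hJORC : SpecJORC) (hDIST : SpecDIST) : SpecHUG := by
  classical
  intro V _ Γ hk a b d p q hd hfd hp hq hpq
  obtain ⟨m, hm1, hm2, hm⟩ := core Γ d a b hd hfd
  obtain ⟨s, hα, hσ⟩ := hJORC V Γ 3 ![Γ.σ.symm p, Γ.σ.symm (Γ.α d), Γ.σ.symm (Γ.far d)]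
    ![d, m, Γ.σ.symm q]
    (by
      intro i
      fin_cases i
      · exact (Γ.orbit _ _).1 (by simp [Γ.org_σ_symm, hp, hd])
      · simpa using hm1
      · exact (Γ.orbit _ _).1 (by simp [Γ.org_σ_symm, hfd, hq]))
    (by
      intro i
      fin_cases i
      · have h := Γ.sameFace_φ (Γ.α d)
        rw [Γ.φ_α] at h
        simpa using h.symm
      · simpa using hm2
      · simpa using hpq.symm)
  simp only [Fin.sum_univ_three, Matrix.cons_val_zero, Matrix.cons_val_one, Matrix.cons_val_two,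
    Matrix.tail_cons, Matrix.head_cons] at hσ
  have hR : ∀ z x, Γ.org z = inr x → ind (Γ.σ.symm p) z + ind (Γ.σ.symm q) z = 0 := by
    intro z x hz
    rw [ind_ne, ind_ne, add_zero]
    · rintro rfl; rw [Γ.org_σ_symm, hq] at hz; cases hz
    · rintro rfl; rw [Γ.org_σ_symm, hp] at hz; cases hz
  obtain ⟨c1, c2, s', c3, c4⟩ := hm s (fun z => ind (Γ.σ.symm p) z + ind (Γ.σ.symm q) z) hα hR
    (by intro z; rw [hσ z]; ring)
  -- constant at the vertices
  have hc : ∀ x, x ≠ a → x ≠ b → ∀ z w, Γ.org z = inl x → Γ.org w = inl x → s z = s w := by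
    intro x hxa hxb z w hz hw
    refine const_at Γ s (inl x) ?_ z w hz hw
    intro d' hd'
    rw [c1 d' x hd' hxa hxb]
    show s d' + (ind (Γ.σ.symm p) d' + ind (Γ.σ.symm q) d') = s d'
    rw [ind_ne, ind_ne, add_zero, add_zero]
    · rintro rfl; rw [Γ.org_σ_symm, hq] at hd'; exact hxb (inl.inj hd').symm
    · rintro rfl; rw [Γ.org_σ_symm, hp] at hd'; exact hxa (inl.inj hd').symm
  choose D0 hD0 using Γ.onto
  have hval : ∀ x z, x ≠ a → x ≠ b → Γ.org z = inl x → s (D0 (inl x)) = s z :=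
    fun x z h1 h2 hz => hc x h1 h2 _ _ (hD0 _) hz
  have hstep : ∀ z, s' (Γ.φ z) = s' z + (ind p (Γ.φ z) + ind q (Γ.φ z)) := by
    intro z
    rw [c3 z]
    show s' z + (ind (Γ.σ.symm p) (Γ.α z) + ind (Γ.σ.symm q) (Γ.α z)) = _
    have h1 : ∀ r, ind (Γ.σ.symm r) (Γ.α z) = ind r (Γ.φ z) := by
      intro r
      rw [ind_def, ind_def, Γ.φ_apply]
      have : (Γ.α z = Γ.σ.symm r) ↔ (Γ.σ (Γ.α z) = r) := by rw [Equiv.eq_symm_apply]
      simp only [this]
    rw [h1, h1]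
  refine ⟨fun x => s (D0 (inl x)), ?_, ?_, ?_⟩
  · intro e x y he hfe hxa hxb hya hyb
    show s (D0 (inl x)) = s (D0 (inl y)) ↔ _
    rw [hval x e hxa hxb he, hval y _ hya hyb hfe]
    rcases c2 e x y he hfe hxa hxb with ⟨h1, h2⟩ | ⟨h1, h2⟩
    · rw [h1]; simp [h2]
    · rw [h1]
      constructor
      · intro h
        exfalso
        revert h
        generalize s e = t
        revert t; decide
      · intro h; exact absurd h2 h
  · intro z w x y hz hw hxa hxb hya hyb hzw hpz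
    show s (D0 (inl x)) = s (D0 (inl y))
    rw [hval x z hxa hxb hz, hval y w hya hyb hw, ← c4 z x hz hxb, ← c4 w y hw hyb]
    have := Γ.finD
    obtain ⟨n, hn⟩ := hzw.exists_nat_pow_eq
    have key : ∀ n : ℕ, s' ((Γ.φ ^ n) z) = s' z := by
      intro n
      induction n with
      | zero => simp
      | succ n ih =>
        rw [pow_succ', Equiv.Perm.mul_apply, hstep, ih, ind_ne, ind_ne, add_zero, add_zero]
        · intro h
          apply hpz
          have h2 : Γ.φ.SameCycle z q := ⟨((n + 1 : ℕ) : ℤ), by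
            rw [zpow_natCast, pow_succ', Equiv.Perm.mul_apply, h]⟩
          exact hpq.trans h2.symm
        · intro h
          apply hpz
          have h2 : Γ.φ.SameCycle z p := ⟨((n + 1 : ℕ) : ℤ), by
            rw [zpow_natCast, pow_succ', Equiv.Perm.mul_apply, h]⟩
          exact h2.symm
    rw [← hn, key n]
  · intro l L i j x y hl hL hmin hi0 hil hlj hjL hx hy
    show s (D0 (inl x)) ≠ s (D0 (inl y))
    have hinj : ∀ i j : ℕ, i < j → j < L → (Γ.φ ^ i) p ≠ (Γ.φ ^ j) p := by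
      intro i j hij hj h
      apply hmin (j - i) (by omega) (by omega)
      have h2 : j = i + (j - i) := by omega
      rw [h2, pow_add, Equiv.Perm.mul_apply] at h
      exact ((Γ.φ ^ i).injective h).symm
    have hpx : ∀ k, 0 < k → k < L → (Γ.φ ^ k) p ≠ p := hmin
    have hqx : ∀ k, k < L → k ≠ l → (Γ.φ ^ k) p ≠ q := by
      intro k hk hkl h
      rw [← hl] at h
      rcases lt_or_gt_of_ne hkl with h1 | h1
      · exact hinj k l h1 (by omega) h
      · exact hinj l k h1 hk h.symm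
    have key1 : ∀ k, k < l → s' ((Γ.φ ^ k) p) = s' p := by
      intro k
      induction k with
      | zero => intro _; simp
      | succ k ih =>
        intro hk
        rw [pow_succ', Equiv.Perm.mul_apply, hstep, ih (by omega), ← Equiv.Perm.mul_apply,
          ← pow_succ', ind_ne (hpx (k + 1) (by omega) (by omega)),
          ind_ne (hqx (k + 1) (by omega) (by omega)), add_zero, add_zero]
    have key2 : s' ((Γ.φ ^ l) p) = s' p + 1 := by
      obtain ⟨k, rfl⟩ : ∃ k, l = k + 1 := ⟨l - 1, by omega⟩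
      rw [pow_succ', Equiv.Perm.mul_apply, hstep, key1 k (by omega), ← Equiv.Perm.mul_apply,
          ← pow_succ', ind_ne (hpx (k + 1) (by omega) (by omega)), hl, ind_self, zero_add]
    have key3 : ∀ k, l + k < L → s' ((Γ.φ ^ (l + k)) p) = s' p + 1 := by
      intro k
      induction k with
      | zero => intro _; simpa using key2
      | succ k ih =>
        intro hk
        rw [← add_assoc, pow_succ', Equiv.Perm.mul_apply, hstep, ih (by omega),
          ← Equiv.Perm.mul_apply, ← pow_succ', ind_ne (hpx (l + k + 1) (by omega) (by omega)),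
          ind_ne (hqx (l + k + 1) (by omega) (by omega)), add_zero, add_zero]
    have hpi : (Γ.φ ^ i) p ≠ p := hpx i hi0 (by omega)
    have hqi := hqx i (by omega) (by omega)
    have hpj := hpx j (by omega) hjL
    have hqj := hqx j hjL (by omega)
    have same : ∀ k, Γ.φ.SameCycle ((Γ.φ ^ k) p) p := fun k =>
      (Equiv.Perm.SameCycle.symm ⟨(k : ℤ), by rw [zpow_natCast]⟩)
    have hxa : x ≠ a := by
      rintro rfl
      exact hpi (hDIST V Γ hk _ _ (same i) (by rw [hx, hp]))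
    have hya : y ≠ a := by
      rintro rfl
      exact hpj (hDIST V Γ hk _ _ (same j) (by rw [hy, hp]))
    have hxb : x ≠ b := by
      rintro rfl
      exact hqi (hDIST V Γ hk _ _ ((same i).trans hpq) (by rw [hx, hq]))
    have hyb : y ≠ b := by
      rintro rfl
      exact hqj (hDIST V Γ hk _ _ ((same j).trans hpq) (by rw [hy, hq]))
    rw [hval x _ hxa hxb hx, hval y _ hya hyb hy, ← c4 _ x hx hxb, ← c4 _ y hy hyb, key1 i hil]
    obtain ⟨k, rfl⟩ : ∃ k, j = l + k := ⟨j - l, by omega⟩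
    rw [key3 k hjL]
    generalize s' p = t
    revert t; decide

end Pool.Agent.Lib.MP0c8bd9
end

section
/-!
# MP_0c8bd9_co : the darts with `NE` are at most `4 cr`
-/
set_option autoImplicit false

namespace Pool.Agent.Lib.MP0c8bd9

open Sum

namespace INJM

variable {V : Type} (Γ : Drawing V)

/-- There are at most `4 cr` darts at crossings. -/
theorem card_right : Nat.card {d : Γ.D // (Γ.org d).isRight} ≤ 4 * Γ.cr := by
  classical
  have := Γ.finD
  have := Γ.finX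
  choose t ht using fun x : Γ.X => Γ.onto (inr x)
  let F : Fin 4 × Γ.X → {d : Γ.D // (Γ.org d).isRight} := fun p =>
    ⟨(Γ.σ ^ (p.1 : ℕ)) (t p.2), by
      have : Γ.org ((Γ.σ ^ (p.1 : ℕ)) (t p.2)) = Γ.org (t p.2) :=
        ((Γ.orbit _ _).2 ⟨p.1, by simp⟩).symm
      rw [this, ht]; rfl⟩
  have hF : Function.Surjective F := by
    rintro ⟨d, hd⟩
    obtain ⟨x, hx⟩ := Sum.isRight_iff.mp hd
    rcases Γ.eq_of_org (ht x) hx with h | h | h | h
    · exact ⟨(0, x), Subtype.ext (by simpa [F] using h.symm)⟩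
    · exact ⟨(1, x), Subtype.ext (by simpa [F] using h.symm)⟩
    · exact ⟨(2, x), Subtype.ext (by simpa [F, pow_succ] using h.symm)⟩
    · exact ⟨(3, x), Subtype.ext (by simpa [F, pow_succ] using h.symm)⟩
  have h := Nat.card_le_card_of_surjective F hF
  rw [Nat.card_prod, Nat.card_fin] at h
  exact h

/-- In a face with two vertices, a dart `β` whose two ends are vertices is followed by a vertex and
then by a crossing. -/
theorem tri (hSIZ : SpecSIZ) (hG : Good Γ) {β : Γ.D} {u v : V} (hu : Γ.org β = inl u)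
    (hv : Γ.org (Γ.α β) = inl v) (h2 : ¬ Γ.T3 β) : (Γ.org (Γ.φ (Γ.φ β))).isRight := by
  classical
  have := Γ.finD
  obtain ⟨h3, -, h4⟩ := hSIZ V Γ hG (Γ.fc β)
  have htn : Γ.tn (Γ.fc β) = 2 := by
    rcases h3 with h | h
    · exact h
    · exact absurd h h2
  have hsn := h4 htn
  by_contra hcon
  have hl : ∃ w, Γ.org (Γ.φ (Γ.φ β)) = inl w := by
    rcases h : Γ.org (Γ.φ (Γ.φ β)) with w | x
    · exact ⟨w, rfl⟩
    · exact absurd (by rw [h]; rfl) hcon
  obtain ⟨w, hw⟩ := hl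
  have hne : Γ.φ β ≠ β := by
    intro h
    have h1 := Γ.loopless β u hu
    rw [hv] at h1
    simp only [isRight_inl, Bool.false_eq_true, if_false] at h1
    apply h1
    rw [← Γ.org_φ, h, hu]
  have hφ : Γ.org (Γ.φ β) = inl v := by rw [Γ.org_φ, hv]
  have f1 : Γ.fc (Γ.φ β) = Γ.fc β := (Γ.fc_eq.2 (Γ.sameFace_φ β)).symm
  have f2 : Γ.fc (Γ.φ (Γ.φ β)) = Γ.fc β := by
    rw [← f1]; exact (Γ.fc_eq.2 (Γ.sameFace_φ _)).symm
  -- the third dart is one of the two
  have hthird : Γ.φ (Γ.φ β) = β := by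
    by_contra hn
    have hne' : Γ.φ (Γ.φ β) ≠ Γ.φ β := fun h => hne (Γ.φ.injective h)
    have := Fintype.ofFinite {d : Γ.D // Γ.fc d = Γ.fc β ∧ (Γ.org d).isLeft}
    have h3 := (Fintype.two_lt_card_iff (α := {d : Γ.D // Γ.fc d = Γ.fc β ∧ (Γ.org d).isLeft})).2
      ⟨⟨β, rfl, by rw [hu]; rfl⟩, ⟨Γ.φ β, f1, by rw [hφ]; rfl⟩, ⟨Γ.φ (Γ.φ β), f2, by rw [hw]; rfl⟩,
        fun h => hne (congrArg Subtype.val h).symm, fun h => hn (congrArg Subtype.val h).symm,
        fun h => hne' (congrArg Subtype.val h).symm⟩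
    rw [← Nat.card_eq_fintype_card] at h3
    change 2 < Γ.tn (Γ.fc β) at h3
    omega
  -- then the face has no crossing
  have hall : ∀ d, Γ.fc d = Γ.fc β → d = β ∨ d = Γ.φ β := by
    intro d hd
    obtain ⟨n, hn⟩ := ((Γ.fc_eq.1 hd).symm).exists_nat_pow_eq
    subst hn
    clear hd
    induction n with
    | zero => left; simp
    | succ n ih =>
      rw [pow_succ', Equiv.Perm.mul_apply]
      rcases ih with h | h <;> rw [h]
      · right; rfl
      · left; exact hthird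
  have : IsEmpty {d : Γ.D // Γ.fc d = Γ.fc β ∧ (Γ.org d).isRight} := by
    refine ⟨fun ⟨d, hd, hr⟩ => ?_⟩
    rcases hall d hd with h | h
    · rw [h, hu] at hr; exact absurd hr (by simp)
    · rw [h, hφ] at hr; exact absurd hr (by simp)
  have hz : Γ.sn (Γ.fc β) = 0 := Nat.card_of_isEmpty
  omega

end INJM

open INJM

theorem specINJ (hSIZ : SpecSIZ) : SpecINJ := by
  classical
  intro V Γ hG
  have := Γ.finD
  refine le_trans ?_ (card_right Γ)
  -- the map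
  have hex : ∀ d : {d // Γ.NE d}, ∃ e : {d : Γ.D // (Γ.org d).isRight},
      (e.1 = Γ.φ d.1) ∨ ((Γ.org (Γ.φ d.1)).isLeft ∧ ¬ Γ.T3 (Γ.α d.1) ∧
        e.1 = Γ.φ (Γ.φ (Γ.α d.1))) := by
    rintro ⟨d, ⟨v, hv⟩, h3, h⟩
    by_cases hl : (Γ.org (Γ.φ d)).isLeft
    · obtain ⟨w, ho⟩ := Sum.isLeft_iff.mp hl
      rcases h with ⟨x, hx⟩ | h
      · rw [hx] at ho; exact absurd ho (by simp)
      · have hα : Γ.org (Γ.α d) = inl w := by rw [← Γ.org_φ, ho]
        exact ⟨⟨Γ.φ (Γ.φ (Γ.α d)), tri Γ hSIZ hG hα (by rw [Γ.invol, hv]) h⟩,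
          Or.inr ⟨hl, h, rfl⟩⟩
    · exact ⟨⟨Γ.φ d, by simpa using hl⟩, Or.inl rfl⟩
  choose F hF using hex
  apply Nat.card_le_card_of_injective F
  rintro ⟨d, hd⟩ ⟨e, he⟩ hde
  have e1 : (F ⟨d, hd⟩).1 = (F ⟨e, he⟩).1 := by rw [hde]
  apply Subtype.ext
  show d = e
  have fα : ∀ g, Γ.fc (Γ.φ (Γ.α g)) = Γ.fc (Γ.α g) := fun g =>
    (Γ.fc_eq.2 (Γ.sameFace_φ _)).symm
  rcases hF ⟨d, hd⟩ with h1 | ⟨h1, h1', h1''⟩ <;> rcases hF ⟨e, he⟩ with h2 | ⟨h2, h2', h2''⟩
  · rw [h1, h2] at e1; exact Γ.φ.injective e1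
  · rw [h1, h2''] at e1
    have h := Γ.φ.injective e1
    simp only at h
    exfalso
    apply h2'
    have h3 := hd.2.1
    rw [h] at h3
    unfold Drawing.T3 at h3 ⊢
    rwa [fα] at h3
  · rw [h2, h1''] at e1
    have h := Γ.φ.injective e1
    simp only at h
    exfalso
    apply h1'
    have h3 := he.2.1
    rw [← h] at h3
    unfold Drawing.T3 at h3 ⊢
    rwa [fα] at h3
  · rw [h1'', h2''] at e1
    exact Γ.α.injective (Γ.φ.injective (Γ.φ.injective e1))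

end Pool.Agent.Lib.MP0c8bd9
end

section
/-!
# MP_0c8bd9_co : module JORC (closed curves through the points)
-/
set_option autoImplicit false

namespace Pool.Agent.Lib.MP0c8bd9

open Sum

namespace JORCM

theorem sum_ind {D : Type} [Fintype D] (C : Set D) (g : Equiv.Perm D) (x : D) :
    ∑ e, C.indicator (fun e => ind x (g e)) e = C.indicator (1 : D → ZMod 2) (g.symm x) := by
  classical
  rw [Finset.sum_eq_single (g.symm x)]
  · by_cases h : g.symm x ∈ C
    · rw [Set.indicator_of_mem h, Set.indicator_of_mem h, Equiv.apply_symm_apply]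
      simp [ind]
    · rw [Set.indicator_of_notMem h, Set.indicator_of_notMem h]
  · intro e _ he
    by_cases h : e ∈ C
    · rw [Set.indicator_of_mem h]
      have h2 : g e ∉ ({x} : Set D) := by
        intro h3
        apply he
        rw [Set.mem_singleton_iff] at h3
        rw [← h3, Equiv.symm_apply_apply]
      exact Set.indicator_of_notMem h2 _
    · rw [Set.indicator_of_notMem h]
  · intro h
    exact absurd (Finset.mem_univ _) h

theorem finsum_ind {D : Type} [Fintype D] (C : Set D) (g : Equiv.Perm D) {r : ℕ}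
    (a b : Fin r → D) :
    ∑ᶠ e ∈ C, ∑ i, (ind (a i) (g e) + ind (b i) (g e)) =
      ∑ i, (C.indicator (1 : D → ZMod 2) (g.symm (a i)) +
        C.indicator (1 : D → ZMod 2) (g.symm (b i))) := by
  classical
  rw [finsum_mem_def, finsum_eq_sum_of_fintype]
  have h1 : ∀ e, C.indicator (fun e => ∑ i, (ind (a i) (g e) + ind (b i) (g e))) e =
      ∑ i, (C.indicator (fun e => ind (a i) (g e)) e + C.indicator (fun e => ind (b i) (g e)) e) := by
    intro e
    by_cases h : e ∈ C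
    · simp [Set.indicator_of_mem h]
    · simp [Set.indicator_of_notMem h]
  rw [Finset.sum_congr rfl (fun e _ => h1 e), Finset.sum_comm]
  refine Finset.sum_congr rfl (fun i _ => ?_)
  rw [Finset.sum_add_distrib, sum_ind, sum_ind]

end JORCM

open JORCM in
theorem specJORC (hJOR : SpecJOR) : SpecJORC := by
  intro V _ Γ r _ a b h1 h2
  classical
  have := Γ.finD
  let _ : Fintype Γ.D := Fintype.ofFinite _
  apply hJOR V Γ (fun d => ∑ i, (ind (a i) d + ind (b i) d))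
  · intro d
    have h3 := finsum_ind {e | Γ.σ.SameCycle d e} (Equiv.refl Γ.D) a b
    rw [show (∑ᶠ e ∈ {e | Γ.σ.SameCycle d e}, ∑ i, (ind (a i) e + ind (b i) e)) =
      ∑ᶠ e ∈ {e | Γ.σ.SameCycle d e}, ∑ i, (ind (a i) ((Equiv.refl Γ.D) e) +
        ind (b i) ((Equiv.refl Γ.D) e)) from rfl, h3]
    apply Finset.sum_eq_zero
    intro i _
    have h4 : a i ∈ {e | Γ.σ.SameCycle d e} ↔ b i ∈ {e | Γ.σ.SameCycle d e} :=
      ⟨fun h => Equiv.Perm.SameCycle.trans h (h1 i),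
        fun h => Equiv.Perm.SameCycle.trans h (h1 i).symm⟩
    rw [show (Equiv.refl Γ.D).symm (a i) = a i from rfl,
      show (Equiv.refl Γ.D).symm (b i) = b i from rfl]
    by_cases h : a i ∈ {e | Γ.σ.SameCycle d e}
    · rw [Set.indicator_of_mem h, Set.indicator_of_mem (h4.1 h)]
      exact CharTwo.add_self_eq_zero _
    · rw [Set.indicator_of_notMem h, Set.indicator_of_notMem (fun h' => h (h4.2 h')), add_zero]
  · intro d
    have h3 := finsum_ind {e | Γ.φ.SameCycle d e} Γ.σ.symm a b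
    rw [h3, Finset.sum_add_distrib]
    simp only [Equiv.symm_symm]
    have h4 : ∑ i, ({e | Γ.φ.SameCycle d e} : Set Γ.D).indicator (1 : Γ.D → ZMod 2) (Γ.σ (a i)) =
        ∑ i, ({e | Γ.φ.SameCycle d e} : Set Γ.D).indicator (1 : Γ.D → ZMod 2) (Γ.σ (a (i + 1))) :=
      (Equiv.sum_comp (Equiv.addRight (1 : Fin r))
        (fun i => ({e | Γ.φ.SameCycle d e} : Set Γ.D).indicator (1 : Γ.D → ZMod 2) (Γ.σ (a i)))).symm
    have h5 : ∀ i, ({e | Γ.φ.SameCycle d e} : Set Γ.D).indicator (1 : Γ.D → ZMod 2)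
        (Γ.σ (a (i + 1))) =
        ({e | Γ.φ.SameCycle d e} : Set Γ.D).indicator (1 : Γ.D → ZMod 2) (Γ.σ (b i)) := by
      intro i
      have h6 : Γ.σ (a (i + 1)) ∈ {e | Γ.φ.SameCycle d e} ↔ Γ.σ (b i) ∈ {e | Γ.φ.SameCycle d e} :=
        ⟨fun h => Equiv.Perm.SameCycle.trans h (h2 i).symm,
          fun h => Equiv.Perm.SameCycle.trans h (h2 i)⟩
      by_cases h : Γ.σ (a (i + 1)) ∈ {e | Γ.φ.SameCycle d e}
      · rw [Set.indicator_of_mem h, Set.indicator_of_mem (h6.1 h)]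
        rfl
      · rw [Set.indicator_of_notMem h, Set.indicator_of_notMem (fun h' => h (h6.2 h'))]
    rw [h4, Finset.sum_congr rfl (fun i _ => h5 i)]
    exact CharTwo.add_self_eq_zero _

end Pool.Agent.Lib.MP0c8bd9
end

section
/-!
# MP_0c8bd9_co : module KIT
-/
set_option autoImplicit false

namespace Pool.Agent.Lib.MP0c8bd9

open Sum

open L1M HUGM in
theorem specKIT (hJORC : SpecJORC) (hMIN : SpecMIN) : SpecKIT := by
  classical
  intro V _ Γ hk a a' b c β p q ε hβ hαβ hp hpβ hq hqβ hab hac ha'b ha'c haa' hε hfε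
  have hbc : b ≠ c := by
    rintro rfl
    obtain ⟨w, hw, hw2⟩ := Γ.exists_org_far hβ
    rw [Γ.far_unc hαβ, hαβ] at hw2
    exact hw (inl.inj hw2).symm
  have hσβ : Γ.σ β ≠ β := (hMIN V Γ hk β b hβ).1
  obtain ⟨m, hm1, hm2, hm⟩ := core Γ ε a a' hε hfε
  -- the curve: at `b`; at `a` (towards the edge of `ε`); at the crossing; at `a'`
  obtain ⟨s, hα, hσ⟩ := hJORC V Γ 4
    ![β, Γ.σ.symm p, Γ.σ.symm (Γ.α ε), Γ.σ.symm (Γ.far ε)]
    ![Γ.σ.symm β, ε, m, Γ.σ.symm q]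
    (by
      intro i
      fin_cases i
      · exact (Γ.orbit _ _).1 (by simp [Γ.org_σ_symm])
      · exact (Γ.orbit _ _).1 (by simp [Γ.org_σ_symm, hp, hε])
      · simpa using hm1
      · exact (Γ.orbit _ _).1 (by simp [Γ.org_σ_symm, hfε, hq]))
    (by
      intro i
      fin_cases i
      · simpa using hpβ.symm
      · have h := Γ.sameFace_φ (Γ.α ε)
        rw [Γ.φ_α] at h
        simpa using h.symm
      · simpa using hm2
      · have h := Γ.sameFace_σ β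
        simpa using hqβ.trans h)
  simp only [Fin.sum_univ_four, Matrix.cons_val_zero, Matrix.cons_val_one, Matrix.cons_val_two,
    Matrix.cons_val_three, Matrix.tail_cons, Matrix.head_cons] at hσ
  have oβ' : Γ.org (Γ.σ.symm β) = inl b := by rw [Γ.org_σ_symm, hβ]
  have op' : Γ.org (Γ.σ.symm p) = inl a := by rw [Γ.org_σ_symm, hp]
  have oq' : Γ.org (Γ.σ.symm q) = inl a' := by rw [Γ.org_σ_symm, hq]
  have hR : ∀ z x, Γ.org z = inr x → ind (Γ.σ.symm p) z + ind (Γ.σ.symm q) z + ind β z +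
      ind (Γ.σ.symm β) z = 0 := by
    intro z x hz
    rw [ind_ne, ind_ne, ind_ne, ind_ne, add_zero, add_zero, add_zero]
    · rintro rfl; rw [oβ'] at hz; cases hz
    · rintro rfl; rw [hβ] at hz; cases hz
    · rintro rfl; rw [oq'] at hz; cases hz
    · rintro rfl; rw [op'] at hz; cases hz
  obtain ⟨c1, c2, s', c3, c4⟩ := hm s (fun z => ind (Γ.σ.symm p) z + ind (Γ.σ.symm q) z + ind β z +
      ind (Γ.σ.symm β) z) hα hR (by intro z; rw [hσ z]; ring)
  -- constant at the vertices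
  have hc : ∀ x, x ≠ a → x ≠ a' → x ≠ b → ∀ z w, Γ.org z = inl x → Γ.org w = inl x → s z = s w := by
    intro x hxa hxa' hxb z w hz hw
    refine const_at Γ s (inl x) ?_ z w hz hw
    intro d' hd'
    rw [c1 d' x hd' hxa hxa']
    show s d' + (ind (Γ.σ.symm p) d' + ind (Γ.σ.symm q) d' + ind β d' + ind (Γ.σ.symm β) d') = s d'
    rw [ind_ne, ind_ne, ind_ne, ind_ne, add_zero, add_zero, add_zero, add_zero]
    · rintro rfl; rw [oβ'] at hd'; exact hxb (inl.inj hd').symm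
    · rintro rfl; rw [hβ] at hd'; exact hxb (inl.inj hd').symm
    · rintro rfl; rw [oq'] at hd'; exact hxa' (inl.inj hd').symm
    · rintro rfl; rw [op'] at hd'; exact hxa (inl.inj hd').symm
  -- at `b`
  have hb1 : ∀ z, Γ.org z = inl b → s (Γ.σ z) = s z + (ind β z + ind (Γ.σ.symm β) z) := by
    intro z hz
    rw [c1 z b hz hab.symm ha'b.symm]
    show s z + (ind (Γ.σ.symm p) z + ind (Γ.σ.symm q) z + ind β z + ind (Γ.σ.symm β) z) = _
    rw [ind_ne (a := Γ.σ.symm p), ind_ne (a := Γ.σ.symm q), zero_add, zero_add]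
    · rintro rfl; rw [oq'] at hz; exact ha'b (inl.inj hz)
    · rintro rfl; rw [op'] at hz; exact hab (inl.inj hz)
  have hb2 : ∀ n : ℕ, Γ.org ((Γ.σ ^ n) β) = inl b ∧
      ((Γ.σ ^ n) β = β ∨ s ((Γ.σ ^ n) β) = s β + 1) := by
    intro n
    induction n with
    | zero => simp [hβ]
    | succ n ih =>
      rw [pow_succ', Equiv.Perm.mul_apply]
      refine ⟨by rw [Γ.org_σ, ih.1], ?_⟩
      rcases ih.2 with h | h
      · right
        rw [h, hb1 β hβ, ind_self, ind_ne, add_zero]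
        intro h2
        apply hσβ
        have := congrArg Γ.σ h2
        rwa [Equiv.apply_symm_apply] at this
      · by_cases h2 : (Γ.σ ^ n) β = Γ.σ.symm β
        · left; rw [h2, Equiv.apply_symm_apply]
        · right
          rw [hb1 _ ih.1, ind_ne h2, add_zero, h]
          rw [ind_ne, add_zero]
          intro h3
          rw [h3] at h
          revert h
          generalize s β = t
          revert t; decide
  have hb3 : ∀ z, Γ.org z = inl b → z ≠ β → s z = s β + 1 := by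
    intro z hz hzβ
    have := Γ.finD
    obtain ⟨n, hn⟩ := ((Γ.orbit β z).1 (by rw [hβ, hz])).exists_nat_pow_eq
    rcases (hb2 n).2 with h | h
    · exact absurd (hn ▸ h) hzβ
    · rw [← hn]; exact h
  choose D0 hD0 using Γ.onto
  -- the side function
  have hval : ∀ x z, x ≠ a → x ≠ a' → Γ.org z = inl x → z ≠ β →
      (if x = b then s β + 1 else s (D0 (inl x))) = s z := by
    intro x z h1 h2 hz h3
    by_cases hxb : x = b
    · subst hxb
      rw [if_pos rfl, hb3 z hz h3]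
    · rw [if_neg hxb]
      exact hc x h1 h2 hxb _ _ (hD0 _) hz
  have hstep : ∀ z, s' (Γ.φ z) = s' z + (ind p (Γ.φ z) + ind q (Γ.φ z) + ind (Γ.σ β) (Γ.φ z) +
      ind β (Γ.φ z)) := by
    intro z
    rw [c3 z]
    show s' z + (ind (Γ.σ.symm p) (Γ.α z) + ind (Γ.σ.symm q) (Γ.α z) + ind β (Γ.α z) +
      ind (Γ.σ.symm β) (Γ.α z)) = _
    have h1 : ∀ r, ind (Γ.σ.symm r) (Γ.α z) = ind r (Γ.φ z) := by
      intro r
      rw [ind_def, ind_def, Γ.φ_apply]
      have : (Γ.α z = Γ.σ.symm r) ↔ (Γ.σ (Γ.α z) = r) := by rw [Equiv.eq_symm_apply]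
      simp only [this]
    have h2 : ind β (Γ.α z) = ind (Γ.σ β) (Γ.φ z) := by
      rw [← h1, Equiv.symm_apply_apply]
    rw [h1, h1, h1, h2]
  refine ⟨fun x => if x = b then s β + 1 else s (D0 (inl x)), ?_, ?_, ?_⟩
  · show (if b = b then s β + 1 else s (D0 (inl b))) ≠ (if c = b then s β + 1 else s (D0 (inl c)))
    rw [if_pos rfl, if_neg hbc.symm, hc c hac.symm ha'c.symm hbc.symm _ (Γ.α β) (hD0 _) hαβ, hα]
    generalize s β = t
    revert t; decide
  · intro e x y he hfe hxa hxa' hya hya' heβ heαβ hcr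
    show (if x = b then s β + 1 else s (D0 (inl x))) = (if y = b then s β + 1 else s (D0 (inl y)))
    have hfβ : Γ.far e ≠ β := by
      intro h
      apply heαβ
      rw [← Γ.far_far he, h, Γ.far_unc hαβ]
    rw [hval x e hxa hxa' he heβ, hval y _ hya hya' hfe hfβ]
    rcases c2 e x y he hfe hxa hxa' with ⟨h1, h2⟩ | ⟨h1, h2⟩
    · exact h1.symm
    · exact absurd h2 hcr
  · intro z w x y hz hw hxa hxa' hya hya' hzw hzβ hzαβ
    show (if x = b then s β + 1 else s (D0 (inl x))) = (if y = b then s β + 1 else s (D0 (inl y)))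
    have hz' : z ≠ β := by rintro rfl; exact hzβ (Equiv.Perm.SameCycle.refl _ _)
    have hw' : w ≠ β := by rintro rfl; exact hzβ hzw
    rw [hval x z hxa hxa' hz hz', hval y w hya hya' hw hw', ← c4 z x hz hxa', ← c4 w y hw hya']
    have := Γ.finD
    obtain ⟨n, hn⟩ := hzw.exists_nat_pow_eq
    have hno : ∀ r, (Γ.φ.SameCycle r β ∨ Γ.φ.SameCycle r (Γ.α β)) → ∀ n : ℕ,
        Γ.φ ((Γ.φ ^ n) z) ≠ r := by
      intro r hr n h
      have h2 : Γ.φ.SameCycle z r := ⟨((n + 1 : ℕ) : ℤ), by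
        rw [zpow_natCast, pow_succ', Equiv.Perm.mul_apply, h]⟩
      rcases hr with hr | hr
      · exact hzβ (h2.trans hr)
      · exact hzαβ (h2.trans hr)
    have key : ∀ n : ℕ, s' ((Γ.φ ^ n) z) = s' z := by
      intro n
      induction n with
      | zero => simp
      | succ n ih =>
        rw [pow_succ', Equiv.Perm.mul_apply, hstep, ih, ind_ne (hno p (Or.inl hpβ) n),
          ind_ne (hno q (Or.inr hqβ) n), ind_ne (hno (Γ.σ β) (Or.inr (Γ.sameFace_σ β).symm) n),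
          ind_ne (hno β (Or.inl (Equiv.Perm.SameCycle.refl _ _)) n), add_zero, add_zero, add_zero,
          add_zero]
    rw [← hn, key n]

end Pool.Agent.Lib.MP0c8bd9
end

section
/-!
# MP_0c8bd9_co : module LOWQ1
-/
set_option autoImplicit false

namespace Pool.Agent.Lib.MP0c8bd9

open Sum

namespace LOWQ1M

theorem fn3_le (hEXN : SpecEXN) (hINJ : SpecINJ) {V : Type} (Γ : Drawing V) (hg : Good Γ) :
    Γ.Fn 3 ≤ 4 * Γ.cr := by
  have := Γ.finD
  have h1 := hEXN V Γ hg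
  choose f hf1 hf2 using h1
  refine le_trans ?_ (hINJ V Γ hg)
  rw [Drawing.Fn]
  apply Nat.card_le_card_of_injective
    (fun x : {f : Γ.Face // Γ.tn f = 3} => (⟨f x.1 x.2, hf2 x.1 x.2⟩ : {d // Γ.NE d}))
  rintro ⟨x, hx⟩ ⟨y, hy⟩ hxy
  simp only [Subtype.mk.injEq] at hxy
  apply Subtype.ext
  change x = y
  rw [← hf1 x hx, ← hf1 y hy, hxy]

end LOWQ1M

open LOWQ1M

theorem specLOWQ1 (hCNT : SpecCNT) (hINJ : SpecINJ) (hEXN : SpecEXN) (hEQ : SpecEQ)
    (hN5 : SpecN5) : SpecLOWQ1 := by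
  intro n hn Γ hmax hc
  have hg : Good Γ := ⟨inferInstance, hmax, hc.1, by rw [Nat.card_fin]; omega⟩
  have h1 := (hCNT _ Γ hg).1
  have h2 := fn3_le hEXN hINJ Γ hg
  rw [Nat.card_fin] at h1
  rcases Nat.lt_or_ge 5 n with h6 | h5
  · have h3 := hEQ _ Γ hg (by rw [Nat.card_fin]; omega)
    rw [Nat.card_fin] at h3
    split_ifs with h
    · by_contra h4
      have h5 : n = 3 * Γ.cr + 2 := by omega
      have h6 := h3 h5
      omega
    · omega
  · obtain rfl : n = 5 := by omega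
    have h3 := hN5 _ Γ hg (by rw [Nat.card_fin]) hc.2
    norm_num
    exact h3

end Pool.Agent.Lib.MP0c8bd9
end

section
/-!
# MP_0c8bd9_co : module LOWQ2
-/
set_option autoImplicit false

namespace Pool.Agent.Lib.MP0c8bd9

open Sum

namespace LOWQ2M

theorem complete4 (G : SimpleGraph (Fin 4)) (h : KConn G 3) : G = ⊤ := by
  classical
  ext u v
  rw [SimpleGraph.top_adj]
  refine ⟨fun h => h.ne, fun huv => ?_⟩
  have h1 := h.2 ({u, v}ᶜ : Set (Fin 4)) (by
    rw [Set.ncard_compl]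
    rw [Set.ncard_pair huv]
    simp)
  rw [compl_compl] at h1
  have h2 := h1.preconnected ⟨u, by simp⟩ ⟨v, by simp⟩
  obtain ⟨w⟩ := h2
  have key : ∀ (a b : {x // x ∈ ({u, v} : Set (Fin 4))}),
      (SimpleGraph.induce ({u, v} : Set (Fin 4)) G).Walk a b → a.1 = u → b.1 = v → G.Adj u v := by
    intro a b w
    induction w with
    | nil =>
      intro h1 h2
      exact absurd (h1.symm.trans h2) huv
    | @cons a a' b hadj w ih =>
      intro h1 h2
      have hadj' : G.Adj a.1 a'.1 := hadj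
      rcases a'.2 with h3 | h3
      · rw [h1, h3] at hadj'
        exact absurd rfl hadj'.ne
      · rw [Set.mem_singleton_iff] at h3
        rw [h1, h3] at hadj'
        exact hadj'
  exact key _ _ w rfl rfl

theorem size4 : (⊤ : SimpleGraph (Fin 4)).edgeSet.ncard = 6 := by
  classical
  rw [Set.ncard_eq_toFinset_card', ← SimpleGraph.edgeFinset]
  rw [SimpleGraph.card_edgeFinset_top_eq_card_choose_two]
  rfl

end LOWQ2M

open LOWQ2M

theorem specLOWQ2 (hCNT : SpecCNT) (hLOW2 : SpecLOW2) : SpecLOWQ2 := by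
  intro n hn Γ hmax hc
  rcases Nat.lt_or_ge 4 n with h5 | h4
  · have hg : Good Γ := ⟨inferInstance, hmax, hc.1, by rw [Nat.card_fin]; omega⟩
    have h1 := (hCNT _ Γ hg).2
    have h2 := hLOW2 _ Γ hg
    rw [Nat.card_fin] at h1
    omega
  · obtain rfl : n = 4 := by omega
    have h1 := complete4 Γ.graph hc.1
    have h2 : Γ.size = 6 := by
      rw [Drawing.size, h1]
      exact size4
    omega

end Pool.Agent.Lib.MP0c8bd9
end

section
/-!
# MP_0c8bd9_co : MIN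
-/
set_option autoImplicit false

namespace Pool.Agent.Lib.MP0c8bd9

open Sum

namespace MINM

theorem pair_ncard {V : Type} (u v : V) : ({u, v} : Set V).ncard < 3 := by
  have := Set.ncard_insert_le u ({v} : Set V)
  rw [Set.ncard_singleton] at this
  omega

/-- A vertex all of whose neighbours are among `a`, `b` cannot exist in a `3`-connected graph. -/
theorem no_two {V : Type} [Finite V] (G : SimpleGraph V) (hG : KConn G 3) (v a b : V)
    (hva : v ≠ a) (hvb : v ≠ b) (h : ∀ w, G.Adj v w → w = a ∨ w = b) : False := by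
  classical
  have hc := hG.2 {a, b} (pair_ncard a b)
  have hcard := hG.1
  have hv : v ∈ ({a, b} : Set V)ᶜ := by simp [hva, hvb]
  -- another vertex
  have hex : ∃ w, w ≠ v ∧ w ≠ a ∧ w ≠ b := by
    by_contra hno
    push Not at hno
    have hsub : (Set.univ : Set V) ⊆ {v, a, b} := by
      intro w _
      by_cases h1 : w = v
      · simp [h1]
      · by_cases h2 : w = a
        · simp [h2]
        · simp [hno w h1 h2]
    have h1 := Set.ncard_le_ncard hsub (Set.toFinite _)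
    rw [Set.ncard_univ] at h1
    have h2 := Set.ncard_insert_le v ({a, b} : Set V)
    have h3 := pair_ncard a b
    omega
  obtain ⟨w, hwv, hwa, hwb⟩ := hex
  have hw : w ∈ ({a, b} : Set V)ᶜ := by simp [hwa, hwb]
  obtain ⟨p⟩ := hc.preconnected ⟨v, hv⟩ ⟨w, hw⟩
  cases p with
  | nil => exact hwv rfl
  | cons hadj _ =>
    rename_i x _
    have hx : G.Adj v x.1 := hadj
    have hx2 := x.2
    simp only [Set.mem_compl_iff, Set.mem_insert_iff, Set.mem_singleton_iff, not_or] at hx2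
    rcases h _ hx with h1 | h1
    · exact hx2.1 h1
    · exact hx2.2 h1

/-- The darts at the point of `d` when `σ (σ d) = d`. -/
theorem two_darts {V : Type} (Γ : Drawing V) (d : Γ.D) (h : Γ.σ (Γ.σ d) = d) (e : Γ.D)
    (he : Γ.org d = Γ.org e) : e = d ∨ e = Γ.σ d := by
  obtain ⟨k, hk⟩ := (Γ.orbit d e).1 he
  have key : ∀ m : ℕ, (Γ.σ ^ m) d = d ∨ (Γ.σ ^ m) d = Γ.σ d := by
    intro m
    induction m with
    | zero => left; simp
    | succ m ih =>
      rw [pow_succ', Equiv.Perm.mul_apply]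
      rcases ih with h1 | h1
      · right; rw [h1]
      · left; rw [h1, h]
  have := Γ.finD
  obtain ⟨m, hm⟩ := ((Γ.orbit d e).1 he).exists_nat_pow_eq
  rw [← hm]
  exact key m

end MINM

theorem specMIN : SpecMIN := by
  intro V _ Γ hG d v hd
  have hσσ : Γ.σ (Γ.σ d) ≠ d := by
    intro h
    obtain ⟨a, hav, ha⟩ := Γ.exists_org_far hd
    have hd' : Γ.org (Γ.σ d) = inl v := by rw [Γ.org_σ, hd]
    obtain ⟨b, hbv, hb⟩ := Γ.exists_org_far hd'
    refine MINM.no_two Γ.graph hG v a b hav.symm hbv.symm ?_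
    intro w hw
    obtain ⟨e, he, hew⟩ := (Γ.adj_iff v w).1 hw
    rcases MINM.two_darts Γ d h e (by rw [hd, he]) with h1 | h1
    · left
      rw [h1, ha] at hew
      exact (inl.inj hew).symm
    · right
      rw [h1, hb] at hew
      exact (inl.inj hew).symm
  refine ⟨?_, hσσ⟩
  intro h
  exact hσσ (by rw [h, h])

end Pool.Agent.Lib.MP0c8bd9
end

section
/-!
# MP_0c8bd9_co : open angles
-/
set_option autoImplicit false

namespace Pool.Agent.Lib.MP0c8bd9

open Sum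

theorem specOPN (hUNC : SpecUNC) : SpecOPN := by
  intro V _ Γ hmax hk p x hp hne
  have hs : Γ.org (Γ.σ.symm p) = inr x := by rw [Γ.org_σ_symm, hp]
  obtain ⟨a, ha⟩ := Γ.once _ _ hs
  obtain ⟨b, hb⟩ := Γ.once _ _ hp
  have hc := Γ.cross _ _ hs
  rw [Equiv.apply_symm_apply, ha, hb] at hc
  have hab : a ≠ b := fun h => hc (by rw [h])
  have ha' : Γ.org (Γ.φ.symm p) = inl a := by rw [Γ.φ_symm, ha]
  have hb' : Γ.org (Γ.φ p) = inl b := by rw [Γ.org_φ, hb]
  have hsame : Γ.φ.SameCycle (Γ.φ.symm p) (Γ.φ p) := ⟨2, by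
    rw [zpow_two, Equiv.Perm.mul_apply, Equiv.apply_symm_apply]⟩
  have hadj := hmax.inside a b hab ⟨_, _, ha', hb', hsame⟩
  obtain ⟨d, hd1, hd2⟩ := (Γ.adj_iff a b).1 hadj
  rcases hy : Γ.org (Γ.α d) with w | y
  · exfalso
    have hw : Γ.org (Γ.α d) = inl b := by rw [← Γ.far_unc hy]; exact hd2
    rcases hUNC V Γ hk d (Γ.φ.symm p) (Γ.φ p) ⟨⟨a, hd1⟩, ⟨b, hw⟩⟩ (by rw [ha', hd1])
      (by rw [hb', hw]) hsame with ⟨h1, -⟩ | ⟨h1, h2⟩
    · rw [← h1, Γ.φ_symm, Γ.invol, hs] at hw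
      cases hw
    · apply hne
      rw [h2, Γ.φ_α, h1]
  · exact ⟨d, a, b, y, hab, ha', hb', hd1, hd2, hy⟩

end Pool.Agent.Lib.MP0c8bd9
end

section
/-!
# MP_0c8bd9_co : module SIZ
-/
set_option autoImplicit false

namespace Pool.Agent.Lib.MP0c8bd9

namespace SIZM

open Sum

variable {V : Type} (Γ : Drawing V)

theorem fc_φ (d : Γ.D) : Γ.fc (Γ.φ d) = Γ.fc d := (Γ.fc_eq.2 (Γ.sameFace_φ d)).symm

theorem left_iff {d : Γ.D} : (Γ.org d).isLeft ↔ ∃ v, Γ.org d = inl v := Sum.isLeft_iff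

theorem right_iff {d : Γ.D} : (Γ.org d).isRight ↔ ∃ v, Γ.org d = inr v := Sum.isRight_iff

theorem φ_ne {d : Γ.D} {v : V} (h : Γ.org d = inl v) : Γ.φ d ≠ d := by
  intro h1
  have h2 : Γ.org (Γ.α d) = inl v := by rw [← Γ.org_φ, h1, h]
  obtain ⟨w, hw, hw2⟩ := Γ.exists_org_far h
  rw [Γ.far_unc h2, h2] at hw2
  exact hw (inl.inj hw2).symm

theorem φφ_ne {d : Γ.D} {x : Γ.X} (h : Γ.org (Γ.α d) = inr x) : Γ.φ (Γ.φ d) ≠ d := by
  intro h1
  have h2 := Γ.cross _ _ h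
  apply h2
  rw [Γ.invol, ← Γ.φ_apply, ← Γ.org_φ (Γ.φ d), h1]

theorem φφ_ne' (hM : SpecMIN) [Finite V] (hk : KConn Γ.graph 3) {d : Γ.D} {u v : V}
    (h : Γ.org d = inl u) (h2 : Γ.org (Γ.φ d) = inl v) : Γ.φ (Γ.φ d) ≠ d := by
  intro h1
  rw [Γ.org_φ] at h2
  have h3 : Γ.org (Γ.φ d) = inl v := by rw [Γ.org_φ, h2]
  have h4 : Γ.org (Γ.α (Γ.φ d)) = inl u := by rw [← Γ.org_φ, h1, h]
  have h5 : Γ.α d = Γ.φ d := by
    apply Γ.far_inj h2 h3
    rw [Γ.far_unc (v := u) (by rw [Γ.invol]; exact h), Γ.invol, h, Γ.far_unc h4, h4]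
  exact (hM V Γ hk _ _ h2).1 h5.symm

end SIZM

open Sum SIZM in
theorem specSIZ (hT : SpecT4) (hM : SpecMIN) : SpecSIZ := by
  intro V Γ hG f
  have := Γ.finD
  have := hG.fin
  have hle : Γ.sn f ≤ Γ.tn f := by
    refine Nat.card_le_card_of_injective
      (fun d : {d : Γ.D // Γ.fc d = f ∧ (Γ.org d).isRight} =>
        (⟨Γ.φ d.1, by rw [fc_φ]; exact d.2.1, by
          obtain ⟨x, hx⟩ := (right_iff Γ).1 d.2.2
          obtain ⟨v, hv⟩ := Γ.once _ _ hx
          rw [Γ.org_φ, hv]; rfl⟩ : {d : Γ.D // Γ.fc d = f ∧ (Γ.org d).isLeft})) ?_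
    intro d e h
    exact Subtype.ext (Γ.φ.injective (Subtype.ext_iff.1 h))
  have h3 : Γ.tn f ≤ 3 := by
    by_contra hcon
    push Not at hcon
    have h4 : Nat.card (Fin 4) ≤ Nat.card {d : Γ.D // Γ.fc d = f ∧ (Γ.org d).isLeft} := by
      rw [Nat.card_eq_fintype_card, Fintype.card_fin]
      exact hcon
    obtain ⟨g⟩ : Nonempty (Fin 4 ↪ {d : Γ.D // Γ.fc d = f ∧ (Γ.org d).isLeft}) := by
      have : Fintype {d : Γ.D // Γ.fc d = f ∧ (Γ.org d).isLeft} := Fintype.ofFinite _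
      rw [Nat.card_eq_fintype_card, Nat.card_eq_fintype_card] at h4
      exact Function.Embedding.nonempty_of_card_le h4
    refine hT V Γ hG (fun i => (g i).1) ?_ ?_ ?_
    · intro i j hij
      exact g.injective (Subtype.ext hij)
    · intro i
      rw [← Γ.fc_eq]
      exact (g 0).2.1.trans (g i).2.1.symm
    · intro i
      exact (left_iff Γ).1 (g i).2.2
  have hex : ∃ d, Γ.fc d = f ∧ ∃ v, Γ.org d = inl v := by
    obtain ⟨d, hd⟩ : ∃ d, Γ.fc d = f := Quotient.exists_rep f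
    rcases h : Γ.org d with v | x
    · exact ⟨d, hd, v, h⟩
    · obtain ⟨v, hv⟩ := Γ.once _ _ h
      exact ⟨Γ.φ d, by rw [fc_φ, hd], v, by rw [Γ.org_φ, hv]⟩
  obtain ⟨d, hd, v, hv⟩ := hex
  have h2 : 2 ≤ Γ.tn f := by
    have h2' : ∃ e, Γ.fc e = f ∧ e ≠ d ∧ ∃ w, Γ.org e = inl w := by
      rcases h : Γ.org (Γ.φ d) with w | x
      · exact ⟨Γ.φ d, by rw [fc_φ, hd], φ_ne Γ hv, w, h⟩
      · obtain ⟨w, hw⟩ := Γ.once _ _ h
        refine ⟨Γ.φ (Γ.φ d), by rw [fc_φ, fc_φ, hd], φφ_ne Γ (x := x) (by rw [← Γ.org_φ, h]), w,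
          by rw [Γ.org_φ, hw]⟩
    obtain ⟨e, he, hed, w, hw⟩ := h2'
    have : Nat.card (Fin 2) ≤ Nat.card {d : Γ.D // Γ.fc d = f ∧ (Γ.org d).isLeft} := by
      refine Nat.card_le_card_of_injective
        (![⟨d, hd, by rw [hv]; rfl⟩, ⟨e, he, by rw [hw]; rfl⟩]) ?_
      intro i j hij
      fin_cases i <;> fin_cases j <;> first | rfl | (exfalso; simp at hij; exact hed (by simp [hij]))
    simpa [Drawing.tn] using this
  refine ⟨by omega, hle, ?_⟩
  intro h2eq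
  by_contra hcon
  have hs0 : Γ.sn f = 0 := by omega
  have hall : ∀ e, Γ.fc e = f → ∃ v, Γ.org e = inl v := by
    intro e he
    rcases h : Γ.org e with w | x
    · exact ⟨w, rfl⟩
    · exfalso
      have : Nonempty {d : Γ.D // Γ.fc d = f ∧ (Γ.org d).isRight} := ⟨⟨e, he, by rw [h]; rfl⟩⟩
      have := Nat.card_pos (α := {d : Γ.D // Γ.fc d = f ∧ (Γ.org d).isRight})
      change 0 < Γ.sn f at this
      omega
  obtain ⟨v1, hv1⟩ := hall (Γ.φ d) (by rw [fc_φ, hd])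
  obtain ⟨v2, hv2⟩ := hall (Γ.φ (Γ.φ d)) (by rw [fc_φ, fc_φ, hd])
  have n1 : Γ.φ d ≠ d := φ_ne Γ hv
  have n2 : Γ.φ (Γ.φ d) ≠ Γ.φ d := φ_ne Γ hv1
  have n3 : Γ.φ (Γ.φ d) ≠ d := φφ_ne' Γ hM hG.k3 hv hv1
  have : Nat.card (Fin 3) ≤ Nat.card {d : Γ.D // Γ.fc d = f ∧ (Γ.org d).isLeft} := by
    refine Nat.card_le_card_of_injective
      (![⟨d, hd, by rw [hv]; rfl⟩, ⟨Γ.φ d, by rw [fc_φ, hd], by rw [hv1]; rfl⟩,
        ⟨Γ.φ (Γ.φ d), by rw [fc_φ, fc_φ, hd], by rw [hv2]; rfl⟩]) ?_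
    intro i j hij
    fin_cases i <;> fin_cases j <;> first
      | rfl
      | (exfalso; simp at hij; exact n1 hij.symm)
      | (exfalso; simp at hij; exact n1 hij)
      | (exfalso; simp at hij; exact n2 hij.symm)
      | (exfalso; simp at hij; exact n2 hij)
      | (exfalso; simp at hij; exact n3 hij.symm)
      | (exfalso; simp at hij; exact n3 hij)
  have h5 : 3 ≤ Γ.tn f := by simpa [Drawing.tn] using this
  omega

end Pool.Agent.Lib.MP0c8bd9
end

section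
/-!
# MP_0c8bd9_co : module T4
-/
set_option autoImplicit false

namespace Pool.Agent.Lib.MP0c8bd9

open Sum in
theorem specT4 (hT : SpecT4O) : SpecT4 := by
  intro V Γ hG d hd hsc hv
  have := Γ.finD
  have := hG.fin
  set L := Function.minimalPeriod (Γ.φ) (d 0) with hL
  have hper : (d 0) ∈ Function.periodicPts (Γ.φ) := by
    rw [Function.mem_periodicPts]
    refine ⟨orderOf Γ.φ, orderOf_pos _, ?_⟩
    rw [Function.IsPeriodicPt, Function.IsFixedPt, ← Equiv.Perm.coe_pow, pow_orderOf_eq_one]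
    rfl
  have hL0 : 0 < L := Function.minimalPeriod_pos_of_mem_periodicPts hper
  have hLp : (Γ.φ ^ L) (d 0) = d 0 := by
    rw [Equiv.Perm.coe_pow]
    exact Function.iterate_minimalPeriod
  have hmin : ∀ r, 0 < r → r < L → (Γ.φ ^ r) (d 0) ≠ d 0 := by
    intro r hr hrL h
    rw [Equiv.Perm.coe_pow] at h
    have := Function.IsPeriodicPt.minimalPeriod_le hr h
    omega
  have hpow : ∀ i, ∃ n, n < L ∧ (Γ.φ ^ n) (d 0) = d i := by
    intro i
    obtain ⟨n, hn⟩ := (hsc i).exists_nat_pow_eq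
    refine ⟨n % L, Nat.mod_lt _ hL0, ?_⟩
    rw [← hn, Equiv.Perm.coe_pow, Equiv.Perm.coe_pow]
    exact Function.iterate_mod_minimalPeriod_eq
  choose n hnL hn using hpow
  have hinj : ∀ i j, i ≠ j → n i ≠ n j := by
    intro i j hij h
    apply hij
    apply hd
    rw [← hn i, ← hn j, h]
  have hpos : ∀ i, i ≠ 0 → 0 < n i := by
    intro i hi
    rcases Nat.eq_zero_or_pos (n i) with h | h
    · exfalso
      have h1 := hn i
      rw [h, pow_zero] at h1
      exact hi (hd h1).symm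
    · exact h
  have hvn : ∀ i, ∃ v, Γ.org ((Γ.φ ^ n i) (d 0)) = inl v := fun i => by
    rw [hn i]; exact hv i
  have key : ∀ i j k, i ≠ 0 → n i < n j → n j < n k → False := fun i j k hi hij hjk =>
    hT V Γ hG (d 0) (n i) (n j) (n k) L hLp hmin (hpos i hi) hij hjk (hnL k) (hv 0) (hvn i)
      (hvn j) (hvn k)
  have h12 := hinj 1 2 (by decide)
  have h13 := hinj 1 3 (by decide)
  have h23 := hinj 2 3 (by decide)
  rcases lt_or_gt_of_ne h12 with a1 | a1
  · rcases lt_or_gt_of_ne h13 with a2 | a2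
    · rcases lt_or_gt_of_ne h23 with a3 | a3
      · exact key 1 2 3 (by decide) a1 a3
      · exact key 1 3 2 (by decide) a2 a3
    · exact key 3 1 2 (by decide) a2 a1
  · rcases lt_or_gt_of_ne h23 with a3 | a3
    · rcases lt_or_gt_of_ne h13 with a2 | a2
      · exact key 2 1 3 (by decide) a1 a2
      · exact key 2 3 1 (by decide) a3 a2
    · exact key 3 2 1 (by decide) a3 a1

end Pool.Agent.Lib.MP0c8bd9
end

section
/-!
# MP_0c8bd9_co : module T4O
-/
set_option autoImplicit false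

namespace Pool.Agent.Lib.MP0c8bd9

namespace T4OM

open Sum

variable {V : Type} (Γ : Drawing V)

theorem pow_inj {p : Γ.D} {L : ℕ} (hmin : ∀ r, 0 < r → r < L → (Γ.φ ^ r) p ≠ p) {x y : ℕ}
    (hx : x < L) (hy : y < L) (h : (Γ.φ ^ x) p = (Γ.φ ^ y) p) : x = y := by
  have key : ∀ x y : ℕ, x < y → y < L → (Γ.φ ^ x) p ≠ (Γ.φ ^ y) p := by
    intro x y hxy hy h
    obtain ⟨t, rfl⟩ := Nat.exists_eq_add_of_lt hxy
    have h2 : (Γ.φ ^ (x + t + 1)) p = (Γ.φ ^ x) ((Γ.φ ^ (t + 1)) p) := by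
      rw [← Equiv.Perm.mul_apply, ← pow_add]
      rfl
    rw [h2] at h
    exact hmin (t + 1) (by omega) (by omega) ((Γ.φ ^ x).injective h).symm
  rcases lt_trichotomy x y with h1 | h1 | h1
  · exact absurd h (key x y h1 hy)
  · exact h1
  · exact absurd h.symm (key y x h1 hx)

/-- the darts at a point of degree three -/
theorem eq_of_org3 {d e : Γ.D} (h3 : Γ.σ (Γ.σ (Γ.σ d)) = d) (h : Γ.org d = Γ.org e) :
    e = d ∨ e = Γ.σ d ∨ e = Γ.σ (Γ.σ d) := by
  have := Γ.finD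
  obtain ⟨n, hn⟩ := ((Γ.orbit d e).1 h).exists_nat_pow_eq
  have key : ∀ n : ℕ, (Γ.σ ^ n) d = d ∨ (Γ.σ ^ n) d = Γ.σ d ∨ (Γ.σ ^ n) d = Γ.σ (Γ.σ d) := by
    intro n
    induction n with
    | zero => left; simp
    | succ n ih =>
      rw [pow_succ', Equiv.Perm.mul_apply]
      rcases ih with h | h | h <;> rw [h]
      · right; left; trivial
      · right; right; trivial
      · left; exact h3
  rw [← hn]
  exact key n

theorem inj4 {α : Type} {a b c d : α} (h1 : a ≠ b) (h2 : a ≠ c) (h3 : a ≠ d) (h4 : b ≠ c)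
    (h5 : b ≠ d) (h6 : c ≠ d) : Function.Injective ![a, b, c, d] := by
  intro m n hmn
  fin_cases m <;> fin_cases n <;> simp_all

/-- a set of vertices which is closed under adjacency -/
theorem closed (hC : SpecCUT) (hG : Good Γ) (a : Fin 4 → V) (ha : Function.Injective a)
    (h : ∀ e i, Γ.org e = inl (a i) → ∃ j, Γ.org (Γ.far e) = inl (a j)) : False := by
  classical
  have := hG.fin
  have : Fintype V := Fintype.ofFinite V
  have hw : ∃ w, ∀ i, a i ≠ w := by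
    by_contra hcon
    push Not at hcon
    have hs : Function.Surjective a := fun w => hcon w
    have h1 := Nat.card_le_card_of_surjective a hs
    have h5 := hG.five
    simp at h1
    simp at h5
    omega
  obtain ⟨w, hw⟩ := hw
  have hc := hC V Γ.graph hG.k3 (a 0) (a 0) (fun v => if ∃ i, a i = v then 1 else 0) ?_ (a 1) w
    ?_ ?_ ?_ ?_
  · rw [if_pos ⟨1, rfl⟩, if_neg (by rintro ⟨i, hi⟩; exact hw i hi)] at hc
    exact one_ne_zero hc
  · intro p q hpq _ _ _ _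
    have key : ∀ p q, Γ.graph.Adj p q → (∃ i, a i = p) → ∃ i, a i = q := by
      rintro p q hpq ⟨i, rfl⟩
      obtain ⟨e, h1, h2⟩ := (Γ.adj_iff _ _).1 hpq
      obtain ⟨j, hj⟩ := h e i h1
      rw [h2] at hj
      exact ⟨j, (inl.inj hj).symm⟩
    by_cases hp : ∃ i, a i = p
    · rw [if_pos hp, if_pos (key p q hpq hp)]
    · rw [if_neg hp, if_neg (fun hq => hp (key q p hpq.symm hq))]
  · exact fun h => absurd (ha h) (by decide)
  · exact fun h => absurd (ha h) (by decide)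
  · exact fun h => hw 0 h.symm
  · exact fun h => hw 0 h.symm

theorem core (hL : SpecL1) (hD : SpecDIST) (hM : SpecMIN) (hC : SpecCUT) (hG : Good Γ)
    (a : Fin 4 → V) (ha : Function.Injective a) (P ζ : Fin 4 → Γ.D)
    (hP : ∀ i, Γ.org (P i) = inl (a i)) (hf : ∀ i j, Γ.φ.SameCycle (P i) (P j))
    (hζ : ∀ i, Γ.org (ζ i) = inl (a i)) (x : Γ.X) (hx : ∀ i, Γ.org (Γ.α (ζ i)) = inr x)
    (hφ : ∀ i, Γ.σ (Γ.α (ζ i)) = Γ.α (ζ (i + 1))) : False := by
  have := hG.fin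
  have hne : ∀ i : Fin 4, i ≠ i + 1 := by decide
  have key1 : ∀ i, ¬ Γ.φ.SameCycle (P i) (ζ i) → ζ i = Γ.σ (P i) ∧
      P (i + 1) = Γ.σ (Γ.α (P i)) ∧ Γ.σ (ζ (i + 1)) = Γ.α (P i) ∧
      Γ.org (Γ.α (P i)) = inl (a (i + 1)) := by
    intro i hi
    have hsc : Γ.φ.SameCycle (ζ i) (Γ.σ (ζ (i + 1))) := by
      refine ⟨2, ?_⟩
      have : (Γ.φ ^ (2 : ℤ)) (ζ i) = Γ.φ (Γ.φ (ζ i)) := rfl
      rw [this, Γ.φ_apply (ζ i), hφ i, Γ.φ_α]
    obtain ⟨p, hp1, hp2, h | h⟩ := hL V Γ hG.k3 (a i) (a (i + 1)) (P i) (P (i + 1)) (ζ i)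
      (Γ.σ (ζ (i + 1))) (fun h => hne i (ha h)) (hP i) (hP _) (hζ i)
      (by rw [Γ.org_σ]; exact hζ _) (hf _ _) hsc hi
    · obtain ⟨h1, h2, h3, h4⟩ := h
      subst h1
      exact ⟨h2, h3, h4, hp2⟩
    · exfalso
      have h1 := hx i
      rw [h.2.1, hp2] at h1
      exact inl_ne_inr h1
  have key2 : ∀ i, ¬ Γ.φ.SameCycle (P i) (ζ i) := by
    intro i hi
    have hi0 : P i = ζ i := hD V Γ hG.k3 _ _ hi (by rw [hP, hζ])
    obtain ⟨j, rfl⟩ : ∃ j, i = j + 1 := ⟨i - 1, by simp⟩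
    have hj : ¬ Γ.φ.SameCycle (P j) (ζ j) := by
      intro hj
      have h1 : Γ.φ.SameCycle (Γ.φ (ζ j)) (Γ.φ (ζ (j + 1))) := by
        rw [Equiv.Perm.sameCycle_apply_left, Equiv.Perm.sameCycle_apply_right]
        exact (hj.symm.trans (hf _ _)).trans hi
      have h2 := hD V Γ hG.k3 _ _ h1 (by rw [Γ.org_φ, Γ.org_φ, hx, hx])
      have h3 := Γ.φ.injective h2
      have h4 := hζ (j + 1)
      rw [← h3, hζ j] at h4
      exact hne j (ha (inl.inj h4))
    obtain ⟨h1, h2, h3, h4⟩ := key1 j hj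
    rw [← h3, hi0] at h2
    exact (hM V Γ hG.k3 _ _ (hζ (j + 1))).2 h2.symm
  have key3 : ∀ i, Γ.σ (ζ (i + 1)) = Γ.α (P i) ∧ Γ.σ (Γ.σ (ζ (i + 1))) = P (i + 1) := by
    intro i
    obtain ⟨h1, h2, h3, h4⟩ := key1 i (key2 i)
    exact ⟨h3, by rw [h3, h2]⟩
  refine closed Γ hC hG a ha ?_
  intro e i he
  obtain ⟨j, rfl⟩ : ∃ j, i = j + 1 := ⟨i - 1, by simp⟩
  obtain ⟨h1, h2⟩ := key3 j
  obtain ⟨h3, h4, h5, h6⟩ := key1 (j + 1) (key2 (j + 1))
  have hcyc : Γ.σ (Γ.σ (Γ.σ (ζ (j + 1)))) = ζ (j + 1) := by rw [h2, ← h3]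
  rcases eq_of_org3 Γ (e := e) hcyc (by rw [hζ, he]) with h | h | h
  · refine ⟨j + 1 + 1 + 1, ?_⟩
    rw [h, Γ.far_cr (hx _), hφ, hφ, Γ.invol]
    exact hζ _
  · refine ⟨j, ?_⟩
    rw [h, h1, Γ.far_unc (v := a j) (by rw [Γ.invol]; exact hP j), Γ.invol]
    exact hP j
  · refine ⟨j + 1 + 1, ?_⟩
    rw [h, h2, Γ.far_unc h6]
    exact h6

end T4OM

open Sum T4OM in
theorem specT4O (hH : SpecHUG) (hL : SpecL1) (hU : SpecUNC) (hD : SpecDIST) (hM : SpecMIN)
    (hC : SpecCUT) : SpecT4O := by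
  intro V Γ hG p i j k L hL0 hmin hi hij hjk hkL h0 h1 h2 h3
  obtain ⟨a, h0⟩ := h0
  obtain ⟨b, h1⟩ := h1
  obtain ⟨c, h2⟩ := h2
  obtain ⟨d, h3⟩ := h3
  have := hG.fin
  have hsc : ∀ m n : ℕ, Γ.φ.SameCycle ((Γ.φ ^ m) p) ((Γ.φ ^ n) p) := by
    intro m n
    have e1 : Γ.φ.SameCycle p ((Γ.φ ^ m) p) := ⟨m, by simp⟩
    have e2 : Γ.φ.SameCycle p ((Γ.φ ^ n) p) := ⟨n, by simp⟩
    exact e1.symm.trans e2
  have hdist : ∀ m n : ℕ, m < L → n < L → m ≠ n → ∀ u v, Γ.org ((Γ.φ ^ m) p) = inl u →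
      Γ.org ((Γ.φ ^ n) p) = inl v → u ≠ v := by
    rintro m n hm hn hmn u v hu hv rfl
    exact hmn (pow_inj Γ hmin hm hn (hD V Γ hG.k3 _ _ (hsc m n) (by rw [hu, hv])))
  have h0' : Γ.org ((Γ.φ ^ 0) p) = inl a := by simpa using h0
  have hab : a ≠ b := hdist 0 i (by omega) (by omega) (by omega) _ _ h0' h1
  have hac : a ≠ c := hdist 0 j (by omega) (by omega) (by omega) _ _ h0' h2
  have had : a ≠ d := hdist 0 k (by omega) (by omega) (by omega) _ _ h0' h3
  have hbc : b ≠ c := hdist i j (by omega) (by omega) (by omega) _ _ h1 h2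
  have hbd : b ≠ d := hdist i k (by omega) (by omega) (by omega) _ _ h1 h3
  have hcd : c ≠ d := hdist j k (by omega) (by omega) (by omega) _ _ h2 h3
  obtain ⟨e, he1, he2⟩ := (Γ.adj_iff _ _).1 (hG.max.inside a c hac ⟨_, _, h0', h2, hsc 0 j⟩)
  obtain ⟨e', he1', he2'⟩ := (Γ.adj_iff _ _).1 (hG.max.inside b d hbd ⟨_, _, h1, h3, hsc i k⟩)
  -- `ac` is crossed
  have hcr : ∃ x, Γ.org (Γ.α e) = inr x := by
    rcases hα : Γ.org (Γ.α e) with w | x
    · exfalso
      rw [Γ.far_unc hα, hα] at he2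
      obtain rfl := inl.inj he2
      rcases hU V Γ hG.k3 e ((Γ.φ ^ 0) p) ((Γ.φ ^ j) p) ⟨⟨a, he1⟩, ⟨w, hα⟩⟩ (by rw [h0', he1])
        (by rw [h2, hα]) (hsc 0 j) with ⟨e1, e2⟩ | ⟨e1, e2⟩
      · have : (Γ.φ ^ 1) p = (Γ.φ ^ j) p := by
          rw [e2, ← e1, pow_one, Γ.φ_apply]; simp
        have := pow_inj Γ hmin (by omega) (by omega) this
        omega
      · have : (Γ.φ ^ (j + 1)) p = (Γ.φ ^ 0) p := by
          rw [e1, pow_succ', Equiv.Perm.mul_apply, e2, Γ.φ_α]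
        have := pow_inj Γ hmin (by omega) (by omega) this
        omega
    · exact ⟨x, rfl⟩
  obtain ⟨x, hx⟩ := hcr
  obtain ⟨s, hs1, -, hs3⟩ := hH V Γ hG.k3 a c e ((Γ.φ ^ 0) p) ((Γ.φ ^ j) p) he1 he2 h0' h2 (hsc 0 j)
  have hsbd : s b ≠ s d := hs3 j L i k b d (by simp) (by simpa using hL0) (by simpa using hmin) hi
    hij hjk hkL (by simpa using h1) (by simpa using h3)
  have hCr : Γ.Cr e e' := by
    by_contra hcon
    exact hsbd ((hs1 e' b d he1' he2' hab.symm hbc had.symm hcd.symm).2 hcon)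
  have hP0 := h0'
  obtain ⟨x', hx', hcase⟩ := hCr
  have hx4 := Γ.σ4 hx
  have hαfar : Γ.α (Γ.far e) = Γ.σ (Γ.σ (Γ.α e)) := by rw [Γ.far_cr hx, Γ.invol]
  rcases hcase with hcase | hcase
  · have hxe' : Γ.org (Γ.α e') = inr x := by rw [hcase, Γ.org_σ, hx]
    have hαfar' : Γ.α (Γ.far e') = Γ.σ (Γ.σ (Γ.σ (Γ.α e))) := by
      rw [Γ.far_cr hxe', Γ.invol, hcase]
    refine core Γ hL hD hM hC hG ![a, b, c, d] (inj4 hab hac had hbc hbd hcd) ![(Γ.φ ^ 0) p, (Γ.φ ^ i) p, (Γ.φ ^ j) p,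
      (Γ.φ ^ k) p] ![e, e', Γ.far e, Γ.far e'] ?_ ?_ ?_ x ?_ ?_
    · intro m
      fin_cases m
      · exact h0'
      · exact h1
      · exact h2
      · exact h3
    · intro m n
      fin_cases m <;> fin_cases n <;> exact hsc _ _
    · intro m
      fin_cases m
      · exact he1
      · exact he1'
      · exact he2
      · exact he2'
    · intro m
      fin_cases m
      · exact hx
      · exact hxe'
      · show Γ.org (Γ.α (Γ.far e)) = _
        rw [hαfar, Γ.org_σ2, hx]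
      · show Γ.org (Γ.α (Γ.far e')) = _
        rw [hαfar', Γ.org_σ3, hx]
    · intro m
      fin_cases m
      · exact hcase.symm
      · show Γ.σ (Γ.α e') = Γ.α (Γ.far e)
        rw [hcase, hαfar]
      · show Γ.σ (Γ.α (Γ.far e)) = Γ.α (Γ.far e')
        rw [hαfar, hαfar']
      · show Γ.σ (Γ.α (Γ.far e')) = Γ.α e
        rw [hαfar', hx4]
  · have hxe' : Γ.org (Γ.α e') = inr x := by rw [hcase, Γ.org_σ3, hx]
    have hαfar' : Γ.α (Γ.far e') = Γ.σ (Γ.α e) := by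
      rw [Γ.far_cr hxe', Γ.invol, hcase, hx4]
    refine core Γ hL hD hM hC hG ![a, d, c, b] (inj4 had hac hab hcd.symm hbd.symm hbc.symm)
      ![(Γ.φ ^ 0) p, (Γ.φ ^ k) p, (Γ.φ ^ j) p,
      (Γ.φ ^ i) p] ![e, Γ.far e', Γ.far e, e'] ?_ ?_ ?_ x ?_ ?_
    · intro m
      fin_cases m
      · exact h0'
      · exact h3
      · exact h2
      · exact h1
    · intro m n
      fin_cases m <;> fin_cases n <;> exact hsc _ _
    · intro m
      fin_cases m
      · exact he1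
      · exact he2'
      · exact he2
      · exact he1'
    · intro m
      fin_cases m
      · exact hx
      · show Γ.org (Γ.α (Γ.far e')) = _
        rw [hαfar', Γ.org_σ, hx]
      · show Γ.org (Γ.α (Γ.far e)) = _
        rw [hαfar, Γ.org_σ2, hx]
      · exact hxe'
    · intro m
      fin_cases m
      · exact hαfar'.symm
      · show Γ.σ (Γ.α (Γ.far e')) = Γ.α (Γ.far e)
        rw [hαfar', hαfar]
      · show Γ.σ (Γ.α (Γ.far e)) = Γ.α e'
        rw [hαfar, hcase]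
      · show Γ.σ (Γ.α e') = Γ.α e
        rw [hcase, hx4]

end Pool.Agent.Lib.MP0c8bd9
end

section
/-!
# MP_0c8bd9_co : the third vertices of the two sides of an uncrossed edge
-/
set_option autoImplicit false

namespace Pool.Agent.Lib.MP0c8bd9

open Sum

theorem specTHI (hL1 : SpecL1) (hDIST : SpecDIST) (hMIN : SpecMIN) : SpecTHI := by
  intro V _ Γ hk a a' b c β p q hβ hαβ hp hpβ hq hqβ hab hac ha'b ha'c haa
  subst haa
  have hne : ¬ Γ.φ.SameCycle β (Γ.σ β) := fun h =>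
    (hMIN V Γ hk β b hβ).1 (hDIST V Γ hk β (Γ.σ β) h (Γ.org_σ β).symm).symm
  obtain ⟨p', h1, h2, h3⟩ := hL1 V Γ hk b a β p (Γ.σ β) q (Ne.symm hab) hβ hp
    (by rw [Γ.org_σ, hβ]) hq hpβ.symm
    (((Γ.sameFace_σ β).symm).trans hqβ.symm) hne
  rcases h3 with ⟨h3, -⟩ | ⟨h3, h4, -⟩
  · rw [← h3, hαβ] at h2
    exact hac (inl.inj h2).symm
  · apply (hMIN V Γ hk p' b h1).2
    rw [← h3, h4]

end Pool.Agent.Lib.MP0c8bd9
end

section
/-!
# MP_0c8bd9_co : module UNC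
-/
set_option autoImplicit false

namespace Pool.Agent.Lib.MP0c8bd9

open Sum

theorem specUNC (hL1 : SpecL1) (hDIST : SpecDIST) : SpecUNC := by
  intro V _ Γ hk β p q hβ hp hq hpq
  obtain ⟨⟨b, hb⟩, c, hc⟩ := hβ
  have hbc : b ≠ c := by
    obtain ⟨w, hw, hw2⟩ := Γ.exists_org_far hb
    rw [Γ.far_unc hc, hc] at hw2
    rintro rfl
    exact hw (inl.inj hw2).symm
  by_cases h : Γ.φ.SameCycle p β
  · left
    refine ⟨hDIST V Γ hk p β h hp, ?_⟩
    apply hDIST V Γ hk q _ _ (by rw [Γ.org_σ, hq])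
    exact (hpq.symm.trans h).trans (Γ.sameFace_φ β)
  · obtain ⟨p', hp1, hp2, h1⟩ := hL1 V Γ hk b c β (Γ.σ (Γ.α β)) p q hbc hb
      (by rw [Γ.org_σ, hc]) (by rw [hp, hb]) (by rw [hq, hc]) (Γ.sameFace_φ β) hpq
      (fun h' => h h'.symm)
    have hpp : p' = β := by
      apply Γ.far_inj hp1 hb
      rw [Γ.far_unc hp2, Γ.far_unc hc, hp2, hc]
    subst hpp
    rcases h1 with ⟨_, h2, _, h3⟩ | ⟨_, h2, _, h3⟩
    · right; exact ⟨h2, h3⟩
    · left; exact ⟨h2, h3⟩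

end Pool.Agent.Lib.MP0c8bd9
end

section
/-!
# MP_0c8bd9_co : crossing edges and faces
-/
set_option autoImplicit false

namespace Pool.Agent.Lib.MP0c8bd9

open Sum

namespace XBM

theorem four {V : Type} (Γ : Drawing V) {d e : Γ.D} (h : Γ.Cr d e) :
    ∃ a b u w : V, Γ.org d = inl a ∧ Γ.org (Γ.far d) = inl b ∧ Γ.org e = inl u ∧
      Γ.org (Γ.far e) = inl w ∧ a ≠ b ∧ a ≠ u ∧ a ≠ w ∧ b ≠ u ∧ b ≠ w ∧ u ≠ w := by
  obtain ⟨x, hx, he⟩ := h
  obtain ⟨f, hf, h0, h1, h2, h3⟩ := Γ.ends hx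
  rw [Γ.invol] at h0
  have hne : ∀ i j : Fin 4, i ≠ j → f i ≠ f j := fun i j hij h => hij (hf h)
  have hfd : Γ.org (Γ.far d) = inl (f 2) := by rw [Γ.far_cr hx, h2]
  rcases he with he | he
  · have hex : Γ.org (Γ.α e) = inr x := by rw [he, Γ.org_σ, hx]
    refine ⟨f 0, f 2, f 1, f 3, h0, hfd, ?_, ?_, hne _ _ (by decide), hne _ _ (by decide),
      hne _ _ (by decide), hne _ _ (by decide), hne _ _ (by decide), hne _ _ (by decide)⟩
    · rw [← Γ.invol e, he, h1]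
    · rw [Γ.far_cr hex, he, h3]
  · have hex : Γ.org (Γ.α e) = inr x := by rw [he, Γ.org_σ3, hx]
    refine ⟨f 0, f 2, f 3, f 1, h0, hfd, ?_, ?_, hne _ _ (by decide), hne _ _ (by decide),
      hne _ _ (by decide), hne _ _ (by decide), hne _ _ (by decide), hne _ _ (by decide)⟩
    · rw [← Γ.invol e, he, h3]
    · rw [Γ.far_cr hex, he, Γ.σ4 hx, h1]

end XBM

theorem specXB (hHUG : SpecHUG) (hT4 : SpecT4) : SpecXB := by
  intro V Γ hG d e z₁ z₂ z₃ z₄ hC _ _ h1 h2 h12 h3 h4 h34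
  have := hG.fin
  obtain ⟨a, b, u, w, hd, hfd, he, hfe, hab, hau, haw, hbu, hbw, huw⟩ := XBM.four Γ hC
  rw [hd] at h1
  rw [hfd] at h2
  rw [he] at h3
  rw [hfe] at h4
  obtain ⟨s, hs1, hs2, -⟩ := hHUG V Γ hG.k3 a b d z₁ z₂ hd hfd h1 h2 h12
  have hne : s u ≠ s w := fun h => (hs1 e u w he hfe hau.symm hbu.symm haw.symm hbw.symm).1 h hC
  by_cases hsame : Γ.φ.SameCycle z₁ z₃
  · refine hT4 V Γ hG ![z₁, z₂, z₃, z₄] ?_ ?_ ?_
    · have hv : ∀ i : Fin 4, Γ.org (![z₁, z₂, z₃, z₄] i) = inl (![a, b, u, w] i) := by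
        intro i
        fin_cases i
        · exact h1
        · exact h2
        · exact h3
        · exact h4
      intro i j hij
      have h5 : (inl (![a, b, u, w] i) : V ⊕ Γ.X) = inl (![a, b, u, w] j) := by
        rw [← hv i, ← hv j, hij]
      have h6 := inl.inj h5
      fin_cases i <;> fin_cases j <;> first
        | rfl
        | exact absurd h6 hab
        | exact absurd h6 hab.symm
        | exact absurd h6 hau
        | exact absurd h6 hau.symm
        | exact absurd h6 haw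
        | exact absurd h6 haw.symm
        | exact absurd h6 hbu
        | exact absurd h6 hbu.symm
        | exact absurd h6 hbw
        | exact absurd h6 hbw.symm
        | exact absurd h6 huw
        | exact absurd h6 huw.symm
    · intro i
      fin_cases i
      · exact Equiv.Perm.SameCycle.refl _ _
      · exact h12
      · exact hsame
      · exact hsame.trans h34
    · intro i
      fin_cases i
      · exact ⟨a, h1⟩
      · exact ⟨b, h2⟩
      · exact ⟨u, h3⟩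
      · exact ⟨w, h4⟩
  · exact hne (hs2 z₃ z₄ u w h3 h4 hau.symm hbu.symm haw.symm hbw.symm h34 hsame)

end Pool.Agent.Lib.MP0c8bd9
end
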