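import Pool.Agent.Lib.MP_0c8bd9_co.OPK
import Pool.Agent.Lib.MP_0c8bd9_co.Fin
import Pool.Agent.Lib.MP_0c8bd9_co.Tab
import Pool.Agent.Lib.MP_0c8bd9_co.XB
import Pool.Agent.Lib.MP_0c8bd9_co.N5
import Pool.Agent.Lib.MP_0c8bd9_co.EQ
import Pool.Agent.Lib.MP_0c8bd9_co.JOR
import Pool.Agent.Lib.MP_0c8bd9_co.OP
import Pool.Agent.Lib.MP_0c8bd9_co.OPNF
import Pool.Agent.Lib.MP_0c8bd9_co.TIP

section
/-!
# MP_0c8bd9_co : OPS, the new drawing has a star
-/
set_option autoImplicit false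

namespace Pool.Agent.Lib.MP0c8bd9

open Sum

namespace OPSM

open Op OPOM OPKM

section transfer

variable {V : Type} {Γ : Drawing V} {S : Star Γ} {Γ' : Drawing (V' V)}
  (e : Γ'.D ≃ D' Γ S) (x : Γ'.X ≃ Γ.X ⊕ Fin 3)

theorem σ_loc (hσ : ∀ d, e (Γ'.σ d) = sg Γ S (e d)) {m m' : Fin 74} (h : nx m = inl m') :
    Γ'.σ (e.symm (inr m)) = e.symm (inr m') := by
  rw [Equiv.eq_symm_apply, hσ, Equiv.apply_symm_apply, sg_inl _ _ h]

theorem α_loc (hα : ∀ d, e (Γ'.α d) = av Γ S (e d)) (m : Fin 74) :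
    Γ'.α (e.symm (inr m)) = e.symm (inr (al m)) := by
  rw [Equiv.eq_symm_apply, hα, Equiv.apply_symm_apply]
  rfl

theorem φ_loc (hσ : ∀ d, e (Γ'.σ d) = sg Γ S (e d)) (hα : ∀ d, e (Γ'.α d) = av Γ S (e d))
    {m m' : Fin 74} (h : nx (al m) = inl m') :
    Γ'.φ (e.symm (inr m)) = e.symm (inr m') := by
  rw [Γ'.φ_apply, α_loc e hα, σ_loc e hσ h]

theorem org_loc (ho : ∀ d, Sum.map id x (Γ'.org d) = og Γ S (e d)) {m : Fin 74}
    (h : nd m < 13) : Γ'.org (e.symm (inr m)) = inl (nv Γ S (nd m)) := by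
  apply org_inl e x ho
  rw [Equiv.apply_symm_apply]
  exact node_nv Γ S h

theorem org_loc_cr (ho : ∀ d, Sum.map id x (Γ'.org d) = og Γ S (e d)) {m : Fin 74}
    (h : 13 ≤ nd m) : ∃ y, Γ'.org (e.symm (inr m)) = inr y := by
  refine ⟨_, org_inr e x ho (y := inr (Fin.ofNat 3 (nd m - 13))) ?_⟩
  rw [Equiv.apply_symm_apply]
  exact node_cross Γ S h

theorem same_φ (hσ : ∀ d, e (Γ'.σ d) = sg Γ S (e d)) (hα : ∀ d, e (Γ'.α d) = av Γ S (e d))
    {z w : Γ'.D} (h : Γ'.φ.SameCycle z w) : (phP Γ S).SameCycle (e z) (e w) := by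
  have := Γ'.finD
  obtain ⟨n, hn⟩ := h.exists_nat_pow_eq
  have key : ∀ n : ℕ, e ((Γ'.φ ^ n) z) = ((phP Γ S) ^ n) (e z) := by
    intro n
    induction n with
    | zero => rfl
    | succ n ih =>
      rw [pow_succ', Equiv.Perm.mul_apply, pow_succ', Equiv.Perm.mul_apply, ← ih, phP_apply,
        Γ'.φ_apply, hσ, hα]
  refine ⟨(n : ℤ), ?_⟩
  rw [zpow_natCast, ← key, hn]

/-- the vertices of an inner face -/
theorem face_nd (hF : SpecOPF)
    (hσ : ∀ d, e (Γ'.σ d) = sg Γ S (e d)) (hα : ∀ d, e (Γ'.α d) = av Γ S (e d))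
    (ho : ∀ d, Sum.map id x (Γ'.org d) = og Γ S (e d)) {m : Fin 74} (hm : 3 ≤ fcn m)
    {z : Γ'.D} {v : V' V} (hz : Γ'.org z = inl v) (h : Γ'.φ.SameCycle z (e.symm (inr m))) :
    ∃ m' : Fin 74, fcn m' = fcn m ∧ nd m' < 13 ∧ v = nv Γ S (nd m') := by
  obtain ⟨-, -, h3⟩ := hF V Γ S
  have h1 := same_φ e hσ hα h.symm
  rw [Equiv.apply_symm_apply, h3 m (e z) hm] at h1
  obtain ⟨m', h4, h5⟩ := h1
  have h6 : nd m' < 13 := by
    by_contra hc
    push Not at hc
    have h7 := og_of_inl e x ho hz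
    rw [h4] at h7
    have h8 := node_cross Γ S hc
    change node Γ S (nd m') = inl v at h7
    rw [h8] at h7
    exact Sum.inr_ne_inl h7
  refine ⟨m', h5, h6, ?_⟩
  have h7 := org_loc e x ho h6
  rw [← h4, Equiv.symm_apply_apply, hz] at h7
  exact inl.inj h7

end transfer

/-- the darts of the star -/
def dm (i : Fin 3) : Fin 74 := Fin.ofNat 74 (56 + i.1)

theorem dm_nd : ∀ i, nd (dm i) = 11 := by decide +kernel

theorem dm_inj : Function.Injective dm := by decide +kernel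

theorem dm_nx : ∀ i, nx (dm i) = inl (dm (i + 1)) := by decide +kernel

theorem dm_al_nd : ∀ i, nd (al (dm i)) < 13 := by decide +kernel

/-- faces of a local dart, when the next dart is local -/
def fx (m : Fin 74) : Fin 74 := match nx (al m) with
  | inl m' => m'
  | inr _ => 0

theorem tab_fx : ∀ m : Fin 74, 3 ≤ fcn m → nx (al m) = inl (fx m) ∧ fcn (fx m) = fcn m := by
  decide +kernel

theorem tab_fc : ∀ i, 3 ≤ fcn (al (dm i)) := by decide +kernel

theorem tab_side : ∀ i : Fin 3, (fx (fx (fx (al (dm i)))) = al (dm i) ∧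
    3 ≤ fcn (al (fx (fx (al (dm i))))) ∧
    ∀ m' : Fin 74, fcn m' = fcn (al (fx (fx (al (dm i))))) → nd m' < 13 →
      nd m' = nd (al (dm i)) ∨ nd m' = nd (al (dm (i + 1)))) ∨
    (13 ≤ nd (fx (fx (fx (al (dm i))))) ∧ fx (fx (fx (fx (al (dm i))))) = al (dm i)) := by
  decide +kernel

end OPSM

open Op OPOM OPKM OPSM in
theorem specOPS (hF : SpecOPF) : SpecOPS := by
  intro V _ Γ S Γ' e x hσ hα ho
  have hφ : ∀ m : Fin 74, 3 ≤ fcn m → Γ'.φ (e.symm (inr m)) = e.symm (inr (fx m)) :=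
    fun m hm => φ_loc e hσ hα (tab_fx m hm).1
  have hfc : ∀ m : Fin 74, 3 ≤ fcn m → 3 ≤ fcn (fx m) := fun m hm => by
    rw [(tab_fx m hm).2]
    exact hm
  refine ⟨{ t := nv Γ S 11
            P := fun i => nv Γ S (nd (al (dm i)))
            d := fun i => e.symm (inr (dm i))
            org_d := ?_
            org_α := ?_
            rot := ?_
            inj := ?_
            side := ?_ }⟩
  · intro i
    rw [org_loc e x ho (by rw [dm_nd]; norm_num), dm_nd]
  · intro i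
    rw [α_loc e hα, org_loc e x ho (dm_al_nd i)]
  · intro i
    exact σ_loc e hσ (dm_nx i)
  · intro i j h
    exact dm_inj (inr.inj (e.symm.injective h))
  · intro i
    have h0 := tab_fc i
    rw [α_loc e hα, hφ _ h0, hφ _ (hfc _ h0), hφ _ (hfc _ (hfc _ h0)),
      hφ _ (hfc _ (hfc _ (hfc _ h0))), α_loc e hα]
    rcases tab_side i with ⟨h1, h2, h3⟩ | ⟨h1, h2⟩
    · left
      refine ⟨by rw [h1], ?_⟩
      intro z v hz hs
      obtain ⟨m', h4, h5, h6⟩ := face_nd e x hF hσ hα ho h2 hz hs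
      rcases h3 m' h4 h5 with h7 | h7
      · left
        rw [h6, h7]
      · right
        rw [h6, h7]
    · right
      exact ⟨org_loc_cr e x ho h1, by rw [h2]⟩

end Pool.Agent.Lib.MP0c8bd9
end

section
/-!
# MP_0c8bd9_co : both questions
-/
set_option autoImplicit false

namespace Pool.Agent.Lib.MP0c8bd9

namespace AllM

theorem jorc : SpecJORC := specJORC specJOR
theorem dist : SpecDIST := specDIST jorc specCUT specMIN
theorem l1 : SpecL1 := specL1 jorc specCUT
theorem unc : SpecUNC := specUNC l1 dist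
theorem hug : SpecHUG := specHUG jorc dist
theorem kit : SpecKIT := specKIT jorc specMIN
theorem t4o : SpecT4O := specT4O hug l1 unc dist specMIN specCUT
theorem t4 : SpecT4 := specT4 t4o
theorem siz : SpecSIZ := specSIZ t4 specMIN
theorem thi : SpecTHI := specTHI l1 dist specMIN
theorem clf : SpecCLF := specCLF specCUT specMIN dist l1 thi kit
theorem inj : SpecINJ := specINJ siz
theorem exn : SpecEXN := specEXN clf
theorem piv : SpecPIV := specPIV kit l1 thi dist specMIN exn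
theorem deg : SpecDEG := specDEG kit l1 dist specMIN specCUT
theorem opnf : SpecOPN' := specOPNF specOPF
theorem op : SpecOP := specOP specOPO opnf specOPC specOPL
theorem opm : SpecOPM := specOPM specOPF specOPL
theorem opk : SpecOPK := specOPK specADD specOPL
theorem ops : SpecOPS := specOPS specOPF

theorem opn : SpecOPN := specOPN unc
theorem xb : SpecXB := specXB hug t4
theorem cnt : SpecCNT := specCNT siz specSZD
theorem eq : SpecEQ := specEQ cnt inj exn piv deg specMIN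
theorem low2 : SpecLOW2 := specLOW2 siz opn xb l1 dist
theorem n5 : SpecN5 := specN5 cnt exn inj opn siz
theorem lowQ1 : SpecLOWQ1 := specLOWQ1 cnt inj exn eq n5
theorem lowQ2 : SpecLOWQ2 := specLOWQ2 cnt low2
theorem tab : SpecTAB := specTAB specELI specD3 specSZD
theorem k4 : SpecK4 := specK4 tab
theorem tip : SpecTIP := specTIP specADD specSZD

end AllM

/-- **Q1.** -/
theorem allQ1 : StatementQ1 :=
  finQ1 AllM.tab AllM.op AllM.opm AllM.opk AllM.ops specD3 specREL AllM.k4 AllM.lowQ1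

/-- **Q2.** -/
theorem allQ2 : StatementQ2 :=
  finQ2 AllM.tab AllM.tip specD3 specREL AllM.k4 AllM.lowQ2

theorem crSet_small : ∀ n, n ≤ 3 → crSet n = ∅ := by
  intro n hn
  ext c
  simp only [crSet, Set.mem_setOf_eq, Set.mem_empty_iff_false, iff_false]
  rintro ⟨Γ, -, ⟨⟨h, -⟩, -⟩, -⟩
  rw [Nat.card_eq_fintype_card, Fintype.card_fin] at h
  omega

theorem sizeSet_small : ∀ n, n ≤ 3 → sizeSet n = ∅ := by
  intro n hn
  ext c
  simp only [sizeSet, Set.mem_setOf_eq, Set.mem_empty_iff_false, iff_false]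
  rintro ⟨Γ, -, ⟨⟨h, -⟩, -⟩, -⟩
  rw [Nat.card_eq_fintype_card, Fintype.card_fin] at h
  omega

end Pool.Agent.Lib.MP0c8bd9
end
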