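import Mathlib

/-!
# MP_0c8bd9_co : definitions

Drawings of graphs on the sphere with at most one crossing per edge (1-plane graphs with connected
planarisation), given by the combinatorial map of their planarisation; maximal drawings; vertex
connectivity.
-/

set_option autoImplicit false

namespace Pool.Agent.Lib.MP0c8bd9

/-- A *1-plane drawing* with vertex set `V`, up to homeomorphism of the sphere, given by its
planarisation (the plane graph whose points are the vertices and the crossings). The planarisation
is a connected combinatorial map on the sphere:

* `D` is the set of half-edges (each segment between two consecutive points of an edge consists of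
  two half-edges, exchanged by `α`), `X` is the set of crossings;
* `org d` is the point (vertex or crossing) at which the half-edge `d` starts;
* `σ d` is the next half-edge around the point `org d`, in counterclockwise order; the half-edges at
  a point form one cycle of `σ`;
* the faces are the cycles of `σ * α`, and Euler's formula `#points + #faces = #segments + 2` says
  that the surface is the sphere.

Around a crossing there are exactly four half-edges; opposite ones (`d` and `σ (σ d)`) belong to the
same edge; every edge passes through at most one crossing, edges have two different ends, two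
vertices are joined by at most one edge, and crossing edges have no common end. -/
structure Drawing (V : Type) where
  /-- half-edges of the planarisation -/
  D : Type
  /-- crossings -/
  X : Type
  finD : Finite D
  finX : Finite X
  /-- rotation -/
  σ : Equiv.Perm D
  /-- the other half of the same segment -/
  α : Equiv.Perm D
  /-- the point where a half-edge starts -/
  org : D → V ⊕ X
  invol : ∀ d, α (α d) = d
  ne : ∀ d, α d ≠ d
  onto : Function.Surjective org
  orbit : ∀ d e, org d = org e ↔ σ.SameCycle d e
  /-- the planarisation is connected -/
  conn : ∀ S : Set D, S.Nonempty → (∀ d ∈ S, σ d ∈ S ∧ α d ∈ S) → S = Set.univ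
  /-- Euler's formula -/
  euler : 2 * (Nat.card (V ⊕ X) + Nat.card (Quotient (Equiv.Perm.SameCycle.setoid (σ * α)))) =
    Nat.card D + 4
  /-- a crossing has four half-edges -/
  deg4 : ∀ d x, org d = Sum.inr x → σ (σ (σ (σ d))) = d ∧ σ (σ d) ≠ d
  /-- every edge has at most one crossing -/
  once : ∀ d x, org d = Sum.inr x → ∃ v, org (α d) = Sum.inl v
  /-- the two ends of an edge are different -/
  loopless : ∀ d v, org d = Sum.inl v →
    org (if (org (α d)).isRight then α (σ (σ (α d))) else α d) ≠ Sum.inl v
  /-- two vertices are joined by at most one edge -/
  simple : ∀ d e v, org d = Sum.inl v → org e = Sum.inl v →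
    org (if (org (α d)).isRight then α (σ (σ (α d))) else α d) =
      org (if (org (α e)).isRight then α (σ (σ (α e))) else α e) → d = e
  /-- crossing edges have no common end -/
  cross : ∀ d x, org d = Sum.inr x → org (α d) ≠ org (α (σ d))

namespace Drawing

variable {V : Type} (Γ : Drawing V)

/-- The face permutation: the faces are its cycles, and the points on the boundary of a face are the
points `org d` for `d` in the cycle. -/
def φ : Equiv.Perm Γ.D := Γ.σ * Γ.α

/-- The faces. -/
abbrev Face : Type := Quotient (Equiv.Perm.SameCycle.setoid Γ.φ)

/-- For a half-edge `d` at a vertex: the last half-edge of the same edge, at the other end (the edge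
is `d, α d` if it has no crossing, and `d, α d, σ (σ (α d)), α (σ (σ (α d)))` if it has one). -/
def far (d : Γ.D) : Γ.D :=
  if (Γ.org (Γ.α d)).isRight then Γ.α (Γ.σ (Γ.σ (Γ.α d))) else Γ.α d

/-- The graph which is drawn. -/
def graph : SimpleGraph V :=
  SimpleGraph.fromRel fun u v => ∃ d, Γ.org d = Sum.inl u ∧ Γ.org (Γ.far d) = Sum.inl v

/-- The number of crossings. -/
noncomputable def cr : ℕ := Nat.card Γ.X

/-- The number of edges of the graph. -/
noncomputable def size : ℕ := Γ.graph.edgeSet.ncard

/-- The drawing is *maximal*: no edge joining two non-adjacent vertices `u`, `v` can be added. Such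
an edge would run inside one face with `u` and `v` on its boundary (`inside`), or it would cross one
edge which has no crossing yet and is not incident with `u` or `v`, and which has a face with `u` on
its boundary on one side and a face with `v` on its boundary on the other side (`across`). -/
structure Maximal : Prop where
  inside : ∀ u v, u ≠ v →
    (∃ d e, Γ.org d = Sum.inl u ∧ Γ.org e = Sum.inl v ∧ Γ.φ.SameCycle d e) → Γ.graph.Adj u v
  across : ∀ u v, u ≠ v →
    (∃ d e g, Γ.org d = Sum.inl u ∧ Γ.org e = Sum.inl v ∧
      (∃ a b, a ≠ u ∧ a ≠ v ∧ b ≠ u ∧ b ≠ v ∧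
        Γ.org g = Sum.inl a ∧ Γ.org (Γ.α g) = Sum.inl b) ∧
      Γ.φ.SameCycle d g ∧ Γ.φ.SameCycle e (Γ.α g)) → Γ.graph.Adj u v

end Drawing

/-- `G` is `k`-connected: it has more than `k` vertices and stays connected when fewer than `k`
vertices are deleted. -/
def KConn {V : Type} (G : SimpleGraph V) (k : ℕ) : Prop :=
  k < Nat.card V ∧ ∀ S : Set V, S.ncard < k → (G.induce Sᶜ).Connected

/-- `G` has vertex connectivity exactly `3`. -/
def Conn3 {V : Type} (G : SimpleGraph V) : Prop := KConn G 3 ∧ ¬ KConn G 4

/-- The possible numbers of crossings of maximal 1-plane graphs of order `n` with connectivity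
`3`. -/
def crSet (n : ℕ) : Set ℕ :=
  {c | ∃ Γ : Drawing (Fin n), Γ.Maximal ∧ Conn3 Γ.graph ∧ Γ.cr = c}

/-- The possible numbers of edges of maximal 1-plane graphs of order `n` with connectivity `3`. -/
def sizeSet (n : ℕ) : Set ℕ :=
  {m | ∃ Γ : Drawing (Fin n), Γ.Maximal ∧ Conn3 Γ.graph ∧ Γ.size = m}

/-- **Q1.** The minimum number of crossings `c₃(n)`. -/
def StatementQ1 : Prop :=
  IsLeast (crSet 4) 0 ∧
  ∀ n, 5 ≤ n → IsLeast (crSet n) (if n % 9 = 5 ∨ n % 9 = 8 then n / 3 + 1 else n / 3)

/-- **Q2.** The minimum number of edges `e₃(n)`. -/
def StatementQ2 : Prop := ∀ n, 4 ≤ n → IsLeast (sizeSet n) (3 * n - 6)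

end Pool.Agent.Lib.MP0c8bd9
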