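import Pool.Agent.Lib.MP_0c8bd9_co.Tab

/-!
# MP_0c8bd9_co : OPK, 3-connectivity of the new drawing
-/

set_option autoImplicit false

namespace Pool.Agent.Lib.MP0c8bd9

open Sum

namespace OPKM

open Op OPOM

/-! ### transfer -/

section transfer

variable {V : Type} {Γ : Drawing V} {S : Star Γ} {Γ' : Drawing (V' V)}
  (e : Γ'.D ≃ D' Γ S) (x : Γ'.X ≃ Γ.X ⊕ Fin 3)

theorem org_inl (ho : ∀ d, Sum.map id x (Γ'.org d) = og Γ S (e d)) {d : Γ'.D} {v : V' V}
    (h : og Γ S (e d) = inl v) : Γ'.org d = inl v := by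
  rw [← ho] at h
  rcases hd : Γ'.org d with u | y
  · rw [hd] at h
    have : (inl u : V' V ⊕ (Γ.X ⊕ Fin 3)) = inl v := h
    rw [inl.inj this]
  · rw [hd] at h
    exact absurd h Sum.inr_ne_inl

theorem org_inr (ho : ∀ d, Sum.map id x (Γ'.org d) = og Γ S (e d)) {d : Γ'.D}
    {y : Γ.X ⊕ Fin 3} (h : og Γ S (e d) = inr y) : Γ'.org d = inr (x.symm y) := by
  rw [← ho] at h
  rcases hd : Γ'.org d with u | z
  · rw [hd] at h
    exact absurd h Sum.inl_ne_inr
  · rw [hd] at h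
    have : (inr (x z) : V' V ⊕ (Γ.X ⊕ Fin 3)) = inr y := h
    rw [← inr.inj this, Equiv.symm_apply_apply]

theorem og_of_inl (ho : ∀ d, Sum.map id x (Γ'.org d) = og Γ S (e d)) {d : Γ'.D} {v : V' V}
    (h : Γ'.org d = inl v) : og Γ S (e d) = inl v := by
  rw [← ho, h]
  rfl

theorem e_far (hσ : ∀ d, e (Γ'.σ d) = sg Γ S (e d)) (hα : ∀ d, e (Γ'.α d) = av Γ S (e d))
    (ho : ∀ d, Sum.map id x (Γ'.org d) = og Γ S (e d)) (d : Γ'.D) :
    e (Γ'.far d) = if (og Γ S (av Γ S (e d))).isRight then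
      av Γ S (sg Γ S (sg Γ S (av Γ S (e d)))) else av Γ S (e d) := by
  have h1 : (Γ'.org (Γ'.α d)).isRight = (og Γ S (av Γ S (e d))).isRight := by
    rw [← hα, ← ho, Sum.isRight_map]
  rw [Drawing.far, h1]
  by_cases h2 : (og Γ S (av Γ S (e d))).isRight = true
  · rw [if_pos h2, if_pos h2, hα, hσ, hσ, hα]
  · rw [if_neg h2, if_neg h2, hα]

/-- adjacency from a local dart -/
theorem adj_loc (hL : SpecOPL)
    (hσ : ∀ d, e (Γ'.σ d) = sg Γ S (e d)) (hα : ∀ d, e (Γ'.α d) = av Γ S (e d))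
    (ho : ∀ d, Sum.map id x (Γ'.org d) = og Γ S (e d)) {m : Fin 74} (hm : nd m < 13)
    {u v : V' V} (hu : node Γ S (nd m) = inl u) (hv : node Γ S (nd (farL m)) = inl v) :
    Γ'.graph.Adj u v := by
  obtain ⟨-, -, -, -, -, -, h7⟩ := hL V Γ S
  apply Γ'.adj_far (d := e.symm (inr m))
  · apply org_inl e x ho
    rw [Equiv.apply_symm_apply]
    exact hu
  · apply org_inl e x ho
    rw [e_far e x hσ hα ho, Equiv.apply_symm_apply, h7 m hm]
    exact hv

/-- adjacency from an old dart -/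
theorem adj_old (hL : SpecOPL)
    (hσ : ∀ d, e (Γ'.σ d) = sg Γ S (e d)) (hα : ∀ d, e (Γ'.α d) = av Γ S (e d))
    (ho : ∀ d, Sum.map id x (Γ'.org d) = og Γ S (e d)) (o : O Γ S)
    {u v : V} (hu : Γ.org o.1 = inl u) (hv : Γ.org (Γ.far o.1) = inl v) :
    Γ'.graph.Adj (inl u) (inl v) := by
  obtain ⟨-, -, -, -, -, h6, -⟩ := hL V Γ S
  obtain ⟨h', h6⟩ := h6 o u hu
  apply Γ'.adj_far (d := e.symm (inl o))
  · apply org_inl e x ho
    rw [Equiv.apply_symm_apply]
    change Sum.map inl inl (Γ.org o.1) = _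
    rw [hu]
    rfl
  · apply org_inl e x ho
    rw [e_far e x hσ hα ho, Equiv.apply_symm_apply, h6]
    change Sum.map inl inl (Γ.org (Γ.far o.1)) = _
    rw [hv]
    rfl

end transfer

/-! ### tables -/

/-- the earlier neighbours of the new vertices -/
def T (j : Fin 9) (i : Fin 3) : ℕ :=
  ([[0, 1, 3], [1, 2, 3], [0, 3, 4], [2, 3, 5], [0, 1, 4], [1, 2, 5], [0, 2, 3], [3, 4, 6],
    [3, 5, 7]].getD j.1 []).getD i.1 0

theorem tab_T : ∀ (j : Fin 9) (i : Fin 3), T j i < j.1 + 4 := by decide +kernel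

theorem tab_T_inj : ∀ (j : Fin 9) (i i' : Fin 3), T j i = T j i' → i = i' := by decide +kernel

theorem tab_T_adj : ∀ (j : Fin 9) (i : Fin 3), ∃ m : Fin 74, nd m = j.1 + 4 ∧
    nd (farL m) = T j i := by decide +kernel

theorem tab_t_adj : ∀ i : Fin 3, ∃ m : Fin 74, nd m = 3 ∧ nd (farL m) = i.1 := by
  decide +kernel

variable {V : Type} (Γ : Drawing V) (S : Star Γ)

/-- the vertex with number `c` -/
def nv (c : ℕ) : V' V :=
  if c < 3 then inl (S.P (Fin.ofNat 3 c)) else if c = 3 then inl S.t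
    else inr (Fin.ofNat 9 (c - 4))

theorem node_nv {c : ℕ} (h : c < 13) : node Γ S c = inl (nv Γ S c) := by
  have h4 : c < 3 ∨ c = 3 ∨ (4 ≤ c ∧ c < 13) := by omega
  rcases h4 with h1 | rfl | ⟨h1, h2⟩
  · rw [node_P Γ S h1, nv, if_pos h1]
  · rw [node_t, nv, if_neg (by norm_num), if_pos rfl]
  · rw [node_new Γ S h1 h2, nv, if_neg (by omega), if_neg (by omega)]

theorem nv_inj {c c' : ℕ} (hc : c < 13) (hc' : c' < 13) (h : nv Γ S c = nv Γ S c') : c = c' := by
  apply node_inj Γ S (by omega) (by omega)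
  rw [node_nv Γ S hc, node_nv Γ S hc', h]

theorem nv_new (j : Fin 9) : nv Γ S (j.1 + 4) = inr j := by
  rw [nv, if_neg (by omega), if_neg (by omega)]
  congr 1
  apply Fin.ext
  change (j.1 + 4 - 4) % 9 = j.1
  rw [Nat.add_sub_cancel, Nat.mod_eq_of_lt j.2]

theorem nv_P (i : Fin 3) : nv Γ S i.1 = inl (S.P i) := by
  rw [nv, if_pos i.2]
  congr 2
  exact Fin.ext (Nat.mod_eq_of_lt i.2)

theorem nv_t : nv Γ S 3 = inl S.t := by
  rw [nv, if_neg (by norm_num), if_pos rfl]

end OPKM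

open Op OPOM OPKM in
theorem specOPK (hADD : SpecADD) (hL : SpecOPL) : SpecOPK := by
  intro V _ Γ S hK Γ' e x hσ hα ho
  refine hADD V 9 Γ.graph Γ'.graph hK ?_ ?_
  · intro u v huv
    obtain ⟨d, hu, hv⟩ := (Γ.adj_iff u v).1 huv
    by_cases h : Old Γ S d
    · exact adj_old e x hL hσ hα ho ⟨d, h⟩ hu hv
    · simp only [Old, not_forall, not_and_or, not_not] at h
      have ht : ∀ i, Γ'.graph.Adj (inl S.t) (inl (S.P i)) := by
        intro i
        obtain ⟨m, h1, h2⟩ := tab_t_adj i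
        apply adj_loc e x hL hσ hα ho (m := m) (by omega)
        · rw [h1, node_t]
        · rw [h2, node_fin]
      obtain ⟨i, rfl | rfl⟩ := h
      · rw [S.org_d] at hu
        rw [Γ.far_unc (S.org_α i), S.org_α] at hv
        rw [← inl.inj hu, ← inl.inj hv]
        exact ht i
      · rw [S.org_α] at hu
        rw [Γ.far_unc (v := S.t) (by rw [Γ.invol, S.org_d]), Γ.invol, S.org_d] at hv
        rw [← inl.inj hu, ← inl.inj hv]
        exact (ht i).symm
  · intro j
    have hj := j.2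
    refine ⟨fun i => nv Γ S (T j i), ?_, ?_⟩
    · intro i i' h
      have h1 := tab_T j i
      have h2 := tab_T j i'
      exact tab_T_inj j i i' (nv_inj Γ S (by omega) (by omega) h)
    · intro i
      have h1 := tab_T j i
      constructor
      · obtain ⟨m, h2, h3⟩ := tab_T_adj j i
        apply adj_loc e x hL hσ hα ho (m := m) (by omega)
        · rw [h2, node_nv Γ S (by omega), nv_new]
        · rw [h3, node_nv Γ S (by omega)]
      · intro j' h2
        have hj' := j'.2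
        rw [← nv_new Γ S j'] at h2
        have h3 := nv_inj Γ S (by omega) (by omega) h2
        rw [Fin.lt_def]
        omega

end Pool.Agent.Lib.MP0c8bd9
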