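import Pool.Agent.Lib.MP_0c8bd9_co.Basic

/-!
# MP_0c8bd9_co : stars and the star operation (definitions)

The operation replaces the three faces at the centre of a star by a piece with 9 new vertices and
3 new crossings, given by tables (74 local darts).
-/

set_option autoImplicit false

namespace Pool.Agent.Lib.MP0c8bd9

open Sum

/-- A star in a drawing: a vertex `t` of degree three with the darts `d 0, d 1, d 2` (in this
rotation) to `P 0, P 1, P 2`; the face through `P i, t, P (i+1)` is either the triangle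
`P i, t, P (i+1)`, and then the other side of the edge `P i P (i+1)` has no other vertices, or
`P i, t, P (i+1), x` with a crossing `x`. -/
structure Star {V : Type} (Γ : Drawing V) where
  t : V
  P : Fin 3 → V
  d : Fin 3 → Γ.D
  org_d : ∀ i, Γ.org (d i) = inl t
  org_α : ∀ i, Γ.org (Γ.α (d i)) = inl (P i)
  rot : ∀ i, Γ.σ (d i) = d (i + 1)
  inj : Function.Injective d
  side : ∀ i,
    (Γ.φ (Γ.φ (Γ.φ (Γ.α (d i)))) = Γ.α (d i) ∧
      ∀ z v, Γ.org z = inl v → Γ.φ.SameCycle z (Γ.α (Γ.φ (Γ.φ (Γ.α (d i))))) →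
        v = P i ∨ v = P (i + 1)) ∨
    ((∃ x, Γ.org (Γ.φ (Γ.φ (Γ.φ (Γ.α (d i))))) = inr x) ∧
      Γ.φ (Γ.φ (Γ.φ (Γ.φ (Γ.α (d i))))) = Γ.α (d i))

namespace Op

/-! ### The tables -/

/-- table of the rotation (`74 + i`: exit at `P i`) -/
def nxL : List ℕ := [1, 2, 3, 4, 74, 6, 7, 8, 9, 75, 11, 12, 13, 14, 76, 16, 17, 18, 19, 20, 21, 22,
  23, 24, 15, 26, 27, 28, 29, 30, 31, 25, 33, 34, 35, 36, 37, 38, 32, 40, 41, 42, 39, 44, 45, 46, 43,
  48, 49, 47, 51, 52, 50, 54, 55, 53, 57, 58, 56, 60, 61, 59, 63, 64, 65, 62, 67, 68, 69, 66, 71, 72,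
  73, 70]

/-- table of the involution -/
def alL : List ℕ := [47, 25, 62, 15, 54, 50, 32, 66, 27, 48, 53, 23, 70, 34, 51, 3, 65, 39, 58, 68,
  60, 43, 71, 11, 55, 1, 49, 8, 69, 57, 41, 63, 6, 52, 13, 73, 45, 61, 67, 17, 64, 30, 56, 21, 59,
  36, 72, 0, 9, 26, 5, 14, 33, 10, 4, 24, 42, 29, 18, 44, 20, 37, 2, 31, 40, 16, 7, 38, 19, 28, 12,
  22, 46, 35]

/-- table of the nodes: `0, 1, 2` = `P 0, P 1, P 2`, `3` = `t`, `4, …, 12` = new vertices,
`13, 14, 15` = new crossings -/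
def ndL : List ℕ := [0, 0, 0, 0, 0, 1, 1, 1, 1, 1, 2, 2, 2, 2, 2, 3, 3, 3, 3, 3, 3, 3, 3, 3, 3, 4, 4,
  4, 4, 4, 4, 4, 5, 5, 5, 5, 5, 5, 5, 6, 6, 6, 6, 7, 7, 7, 7, 8, 8, 8, 9, 9, 9, 10, 10, 10, 11, 11,
  11, 12, 12, 12, 13, 13, 13, 13, 14, 14, 14, 14, 15, 15, 15, 15]

/-- table of the faces: `0, 1, 2` = the faces at the sides `P i P (i+1)`, `3, …, 24` = inner faces -/
def fcL : List ℕ := [0, 3, 4, 5, 6, 1, 7, 8, 9, 10, 2, 11, 12, 13, 14, 6, 5, 15, 16, 17, 18, 19, 20,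
  12, 11, 4, 3, 10, 9, 17, 21, 22, 8, 7, 14, 13, 23, 24, 18, 16, 15, 22, 21, 20, 19, 24, 23, 3, 0,
  10, 7, 1, 14, 11, 2, 6, 16, 21, 17, 24, 19, 18, 5, 4, 22, 15, 9, 8, 18, 17, 13, 12, 20, 23]

/-- the next local dart, or the exit -/
def nx (m : Fin 74) : Fin 74 ⊕ Fin 3 :=
  let v := nxL.getD m 0
  if v < 74 then inl (Fin.ofNat 74 v) else inr (Fin.ofNat 3 (v - 74))

/-- the first local dart at `P i` -/
def ent (i : Fin 3) : Fin 74 := Fin.ofNat 74 (5 * i)

/-- the local involution -/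
def al (m : Fin 74) : Fin 74 := Fin.ofNat 74 (alL.getD m 0)

/-- the node of a local dart -/
def nd (m : Fin 74) : ℕ := ndL.getD m 0

/-- the face of a local dart -/
def fcn (m : Fin 74) : ℕ := fcL.getD m 0

theorem al_al : ∀ m, al (al m) = m := by decide

theorem al_ne : ∀ m, al m ≠ m := by decide

/-! ### The new drawing -/

variable {V : Type} (Γ : Drawing V) (S : Star Γ)

/-- the darts which are kept -/
def Old (d : Γ.D) : Prop := ∀ i, d ≠ S.d i ∧ d ≠ Γ.α (S.d i)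

/-- the darts which are kept -/
abbrev O : Type := {d : Γ.D // Old Γ S d}

/-- the new set of darts -/
abbrev D' : Type := O Γ S ⊕ Fin 74

theorem old_α {d : Γ.D} (h : Old Γ S d) : Old Γ S (Γ.α d) := by
  intro i
  refine ⟨fun h1 => (h i).2 ?_, fun h1 => (h i).1 ?_⟩
  · rw [← h1, Γ.invol]
  · rw [← Γ.invol d, h1, Γ.invol]

theorem P_ne_t (i : Fin 3) : S.P i ≠ S.t := by
  obtain ⟨w, hw, hw2⟩ := Γ.exists_org_far (S.org_d i)
  rw [Γ.far_unc (S.org_α i), S.org_α i] at hw2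
  rw [inl.inj hw2]
  exact hw

theorem P_inj : Function.Injective S.P := by
  intro i j h
  apply S.inj
  apply Γ.far_inj (S.org_d i) (S.org_d j)
  rw [Γ.far_unc (S.org_α i), Γ.far_unc (S.org_α j), S.org_α i, S.org_α j, h]

theorem exit_old (i : Fin 3) : Old Γ S (Γ.σ (Γ.α (S.d i))) := by
  intro j
  have ho : Γ.org (Γ.σ (Γ.α (S.d i))) = inl (S.P i) := by rw [Γ.org_σ, S.org_α]
  constructor
  · intro h
    rw [h, S.org_d] at ho
    exact P_ne_t Γ S i (inl.inj ho).symm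
  · intro h
    have hij : i = j := by
      rw [h, S.org_α] at ho
      exact P_inj Γ S (inl.inj ho).symm
    subst hij
    -- `σ e = e` for `e = α (d i)`; look at the face on the side `i - 1`
    obtain ⟨k, hk⟩ : ∃ k : Fin 3, k + 1 = i := ⟨i - 1, by simp⟩
    have h1 : Γ.φ (Γ.α (S.d k)) = S.d i := by rw [Γ.φ_α, S.rot, hk]
    have h2 : Γ.φ (Γ.φ (Γ.α (S.d k))) = Γ.α (S.d i) := by rw [h1, Γ.φ_apply, h]
    have h3 : Γ.φ (Γ.φ (Γ.φ (Γ.α (S.d k)))) = S.d (i + 1) := by rw [h2, Γ.φ_α, S.rot]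
    rcases S.side k with ⟨h4, -⟩ | ⟨⟨x, hx⟩, -⟩
    · rw [h3] at h4
      have h5 := congrArg Γ.org h4
      rw [S.org_d, S.org_α] at h5
      exact P_ne_t Γ S k (inl.inj h5).symm
    · rw [h3, S.org_d] at hx
      exact Sum.inl_ne_inr hx

open Classical in
/-- the index of a star dart -/
noncomputable def idx (d : Γ.D) : Fin 3 := if h : ∃ i, d = Γ.α (S.d i) then h.choose else 0

open Classical in
/-- the new rotation -/
noncomputable def sg : D' Γ S → D' Γ S
  | inl o => if h : Old Γ S (Γ.σ o.1) then inl ⟨Γ.σ o.1, h⟩ else inr (ent (idx Γ S (Γ.σ o.1)))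
  | inr m => match nx m with
    | inl m' => inr m'
    | inr i => inl ⟨Γ.σ (Γ.α (S.d i)), exit_old Γ S i⟩

/-- the new involution -/
def av : D' Γ S → D' Γ S
  | inl o => inl ⟨Γ.α o.1, old_α Γ S o.2⟩
  | inr m => inr (al m)

/-- the new drawing has the vertices `V ⊕ Fin 9` -/
abbrev V' (V : Type) : Type := V ⊕ Fin 9

/-- the point with number `c` -/
def node (c : ℕ) : V' V ⊕ (Γ.X ⊕ Fin 3) :=
  if c < 3 then inl (inl (S.P (Fin.ofNat 3 c)))
  else if c = 3 then inl (inl S.t)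
  else if c < 13 then inl (inr (Fin.ofNat 9 (c - 4)))
  else inr (inr (Fin.ofNat 3 (c - 13)))

/-- the new origins -/
def og : D' Γ S → V' V ⊕ (Γ.X ⊕ Fin 3)
  | inl o => Sum.map inl inl (Γ.org o.1)
  | inr m => node Γ S (nd m)

theorem av_av (d : D' Γ S) : av Γ S (av Γ S d) = d := by
  rcases d with o | m
  · simp [av, Γ.invol]
  · simp [av, al_al]

/-- the new involution as a permutation -/
def avP : Equiv.Perm (D' Γ S) := ⟨av Γ S, av Γ S, av_av Γ S, av_av Γ S⟩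

theorem nx_inj : ∀ m m', nx m = nx m' → m = m' := by decide +kernel

theorem nx_ne_ent : ∀ m i, nx m ≠ inl (ent i) := by decide +kernel

theorem ent_inj : Function.Injective ent := by decide

theorem idx_α (i : Fin 3) : idx Γ S (Γ.α (S.d i)) = i := by
  have h : ∃ j, Γ.α (S.d i) = Γ.α (S.d j) := ⟨i, rfl⟩
  rw [idx, dif_pos h]
  exact (S.inj (Γ.α.injective h.choose_spec)).symm

theorem not_old_σ (o : O Γ S) (h : ¬ Old Γ S (Γ.σ o.1)) :
    ∃ i, Γ.σ o.1 = Γ.α (S.d i) := by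
  by_contra hc
  push Not at hc
  apply h
  intro i
  refine ⟨fun h1 => ?_, hc i⟩
  obtain ⟨k, hk⟩ : ∃ k : Fin 3, k + 1 = i := ⟨i - 1, by simp⟩
  rw [← hk, ← S.rot] at h1
  exact (o.2 k).1 (Γ.σ.injective h1)

theorem sg_old (o : O Γ S) (h : Old Γ S (Γ.σ o.1)) : sg Γ S (inl o) = inl ⟨Γ.σ o.1, h⟩ := by
  rw [sg, dif_pos h]

theorem sg_entry (o : O Γ S) (i : Fin 3) (h : Γ.σ o.1 = Γ.α (S.d i)) :
    sg Γ S (inl o) = inr (ent i) := by
  have h1 : ¬ Old Γ S (Γ.σ o.1) := fun h2 => (h2 i).2 h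
  rw [sg, dif_neg h1, h, idx_α]

theorem sg_inl {m m' : Fin 74} (h : nx m = inl m') : sg Γ S (inr m) = inr m' := by
  rw [sg, h]

theorem sg_inr {m : Fin 74} {i : Fin 3} (h : nx m = inr i) :
    sg Γ S (inr m) = inl ⟨Γ.σ (Γ.α (S.d i)), exit_old Γ S i⟩ := by
  rw [sg, h]

theorem sg_injective : Function.Injective (sg Γ S) := by
  have hoo : ∀ o o' : O Γ S, sg Γ S (inl o) = sg Γ S (inl o') → o = o' := by
    intro o o' h
    by_cases h1 : Old Γ S (Γ.σ o.1) <;> by_cases h2 : Old Γ S (Γ.σ o'.1)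
    · rw [sg_old _ _ _ h1, sg_old _ _ _ h2] at h
      exact Subtype.ext (Γ.σ.injective (congrArg Subtype.val (inl.inj h)))
    · obtain ⟨i, hi⟩ := not_old_σ Γ S o' h2
      rw [sg_old _ _ _ h1, sg_entry _ _ _ i hi] at h
      exact absurd h Sum.inl_ne_inr
    · obtain ⟨i, hi⟩ := not_old_σ Γ S o h1
      rw [sg_old _ _ _ h2, sg_entry _ _ _ i hi] at h
      exact absurd h Sum.inr_ne_inl
    · obtain ⟨i, hi⟩ := not_old_σ Γ S o h1
      obtain ⟨j, hj⟩ := not_old_σ Γ S o' h2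
      rw [sg_entry _ _ _ i hi, sg_entry _ _ _ j hj] at h
      have hij := ent_inj (inr.inj h)
      subst hij
      exact Subtype.ext (Γ.σ.injective (hi.trans hj.symm))
  have hom : ∀ (o : O Γ S) (m : Fin 74), sg Γ S (inl o) ≠ sg Γ S (inr m) := by
    intro o m h
    by_cases h1 : Old Γ S (Γ.σ o.1)
    · rcases hm : nx m with m' | i
      · rw [sg_old _ _ _ h1, sg_inl _ _ hm] at h
        exact absurd h Sum.inl_ne_inr
      · rw [sg_old _ _ _ h1, sg_inr _ _ hm] at h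
        have := Γ.σ.injective (congrArg Subtype.val (inl.inj h))
        exact (o.2 i).2 this
    · obtain ⟨i, hi⟩ := not_old_σ Γ S o h1
      rcases hm : nx m with m' | j
      · rw [sg_entry _ _ _ i hi, sg_inl _ _ hm] at h
        apply nx_ne_ent m i
        rw [hm, inr.inj h]
      · rw [sg_entry _ _ _ i hi, sg_inr _ _ hm] at h
        exact absurd h Sum.inr_ne_inl
  rintro (o | m) (o' | m') h
  · rw [hoo o o' h]
  · exact absurd h (hom o m')
  · exact absurd h.symm (hom o' m)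
  · rw [nx_inj m m']
    rcases hm : nx m with a | i <;> rcases hm' : nx m' with a' | i'
    · rw [sg_inl _ _ hm, sg_inl _ _ hm'] at h
      rw [inr.inj h]
    · rw [sg_inl _ _ hm, sg_inr _ _ hm'] at h
      exact absurd h Sum.inr_ne_inl
    · rw [sg_inr _ _ hm, sg_inl _ _ hm'] at h
      exact absurd h Sum.inl_ne_inr
    · rw [sg_inr _ _ hm, sg_inr _ _ hm'] at h
      have h1 := Γ.α.injective (Γ.σ.injective (congrArg Subtype.val (inl.inj h)))
      rw [S.inj h1]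

theorem finite_D' : Finite (D' Γ S) := by
  have := Γ.finD
  infer_instance

/-- the new rotation as a permutation -/
noncomputable def sgP : Equiv.Perm (D' Γ S) :=
  Equiv.ofBijective (sg Γ S)
    (by have := finite_D' Γ S; exact Finite.injective_iff_bijective.1 (sg_injective Γ S))

theorem sgP_apply (d : D' Γ S) : sgP Γ S d = sg Γ S d := rfl

theorem avP_apply (d : D' Γ S) : avP Γ S d = av Γ S d := rfl

/-- the new face permutation -/
noncomputable def phP : Equiv.Perm (D' Γ S) := sgP Γ S * avP Γ S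

theorem phP_apply (d : D' Γ S) : phP Γ S d = sg Γ S (av Γ S d) := rfl

end Op

end Pool.Agent.Lib.MP0c8bd9
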