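import Pool.Agent.Lib.MP_0c8bd9_co.OpDefs

/-!
# MP_0c8bd9_co : drawings given by tables (definitions)
-/

set_option autoImplicit false

namespace Pool.Agent.Lib.MP0c8bd9

open Sum

/-- A table: candidate for a drawing with `n` vertices, `c` crossings, `N` darts and `F` faces. -/
structure Tab (n c N F : ℕ) where
  /-- rotation and its inverse -/
  sg : Fin N → Fin N
  si : Fin N → Fin N
  al : Fin N → Fin N
  /-- origin -/
  nd : Fin N → Fin n ⊕ Fin c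
  /-- a dart at every point, position of a dart in the rotation -/
  rp : Fin n ⊕ Fin c → Fin N
  ps : Fin N → ℕ
  /-- face, a dart of every face, position of a dart in its face -/
  fc : Fin N → Fin F
  fr : Fin F → Fin N
  fp : Fin N → ℕ
  /-- distance to a fixed dart -/
  rk : Fin N → ℕ
  /-- three earlier neighbours -/
  el : Fin n → Fin 3 → Fin n

namespace Tab

variable {n c N F : ℕ} (T : Tab n c N F)

/-- the face permutation -/
def ph (d : Fin N) : Fin N := T.sg (T.al d)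

/-- the other end of the edge -/
def far (d : Fin N) : Fin N :=
  if (T.nd (T.al d)).isRight then T.al (T.sg (T.sg (T.al d))) else T.al d

/-- adjacency -/
def adj (u v : Fin n ⊕ Fin c) : Prop := ∃ z, T.nd z = u ∧ T.nd (T.far z) = v

instance (u v : Fin n ⊕ Fin c) : Decidable (T.adj u v) := by unfold adj; infer_instance

/-- The table is a drawing. -/
structure OkD : Prop where
  si_sg : ∀ d, T.si (T.sg d) = d
  sg_si : ∀ d, T.sg (T.si d) = d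
  al_al : ∀ d, T.al (T.al d) = d
  al_ne : ∀ d, T.al d ≠ d
  nd_sg : ∀ d, T.nd (T.sg d) = T.nd d
  nd_rp : ∀ p, T.nd (T.rp p) = p
  ps_ok : ∀ d, T.sg^[T.ps d] (T.rp (T.nd d)) = d
  fc_ph : ∀ d, T.fc (T.ph d) = T.fc d
  fc_fr : ∀ f, T.fc (T.fr f) = f
  fp_ok : ∀ d, T.ph^[T.fp d] (T.fr (T.fc d)) = d
  euler : 2 * (n + c + F) = N + 4
  rk_ok : ∀ d, T.rk d = 0 ∨ T.rk (T.sg d) < T.rk d ∨ T.rk (T.al d) < T.rk d
  rk_zero : ∀ d e, T.rk d = 0 → T.rk e = 0 → d = e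
  deg4 : ∀ d, (T.nd d).isRight → T.sg (T.sg (T.sg (T.sg d))) = d ∧ T.sg (T.sg d) ≠ d
  once : ∀ d, (T.nd d).isRight → (T.nd (T.al d)).isLeft
  loopless : ∀ d, (T.nd d).isLeft → T.nd (T.far d) ≠ T.nd d
  simple : ∀ d e, (T.nd d).isLeft → T.nd d = T.nd e → T.nd (T.far d) = T.nd (T.far e) → d = e
  cross : ∀ d, (T.nd d).isRight → T.nd (T.al d) ≠ T.nd (T.al (T.sg d))

/-- The table is maximal. -/
structure OkM : Prop where
  inside : ∀ d e, T.fc d = T.fc e → (T.nd d).isLeft → (T.nd e).isLeft → T.nd d ≠ T.nd e →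
    T.adj (T.nd d) (T.nd e)
  across : ∀ g, (T.nd g).isLeft → (T.nd (T.al g)).isLeft → ∀ d, T.fc d = T.fc g →
    (T.nd d).isLeft → ∀ e, T.fc e = T.fc (T.al g) → (T.nd e).isLeft → T.nd d ≠ T.nd e →
    T.adj (T.nd d) (T.nd e)

/-- The graph is 3-connected. -/
structure OkK : Prop where
  four : 4 ≤ n
  k4 : ∀ i j : Fin n, i.1 < 4 → j.1 < 4 → i ≠ j → T.adj (inl i) (inl j)
  el_ok : ∀ j : Fin n, 4 ≤ j.1 → T.el j 0 ≠ T.el j 1 ∧ T.el j 0 ≠ T.el j 2 ∧ T.el j 1 ≠ T.el j 2 ∧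
    ∀ i, T.adj (inl j) (inl (T.el j i)) ∧ T.el j i < j

/-- `d 0, d 1, d 2` are the darts of a star. -/
structure OkS (d : Fin 3 → Fin N) : Prop where
  uncr : ∀ i, (T.nd (d i)).isLeft ∧ (T.nd (T.al (d i))).isLeft
  rot : ∀ i, T.sg (d i) = d (i + 1)
  ne : d 0 ≠ d 1 ∧ d 0 ≠ d 2 ∧ d 1 ≠ d 2
  side : ∀ i, (T.ph (T.ph (T.ph (T.al (d i)))) = T.al (d i) ∧
      ∀ z, T.fc z = T.fc (T.al (T.ph (T.ph (T.al (d i))))) → (T.nd z).isLeft →
        T.nd z = T.nd (T.al (d i)) ∨ T.nd z = T.nd (T.al (d (i + 1)))) ∨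
    ((T.nd (T.ph (T.ph (T.ph (T.al (d i)))))).isRight ∧
      T.ph (T.ph (T.ph (T.ph (T.al (d i))))) = T.al (d i))

end Tab

/-- A tip (for the operation of Q2): an uncrossed dart `d : u → z`; the face of `d` is a triangle
`u, z, x`, the face of `α d` is `z, u, y, v` with crossings `x, y`. -/
structure Tip {V : Type} (Γ : Drawing V) where
  d : Γ.D
  u : V
  z : V
  v : V
  org_d : Γ.org d = inl u
  org_α : Γ.org (Γ.α d) = inl z
  x : Γ.X
  org_x : Γ.org (Γ.φ (Γ.φ d)) = inr x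
  cyc3 : Γ.φ (Γ.φ (Γ.φ d)) = d
  y : Γ.X
  org_y : Γ.org (Γ.φ (Γ.φ (Γ.α d))) = inr y
  org_v : Γ.org (Γ.φ (Γ.φ (Γ.φ (Γ.α d)))) = inl v
  cyc4 : Γ.φ (Γ.φ (Γ.φ (Γ.φ (Γ.α d)))) = Γ.α d

namespace Tab

variable {n c N F : ℕ} (T : Tab n c N F)

/-- `d` is the dart of a tip. -/
structure OkT (d : Fin N) : Prop where
  uncr : (T.nd d).isLeft ∧ (T.nd (T.al d)).isLeft
  x : (T.nd (T.ph (T.ph d))).isRight
  cyc3 : T.ph (T.ph (T.ph d)) = d
  y : (T.nd (T.ph (T.ph (T.al d)))).isRight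
  v : (T.nd (T.ph (T.ph (T.ph (T.al d))))).isLeft
  cyc4 : T.ph (T.ph (T.ph (T.ph (T.al d)))) = T.al d

end Tab

end Pool.Agent.Lib.MP0c8bd9
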